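import Pool.Agent.H1.LD.CoD0
import Pool.Agent.H1.LD.Gau3
import Pool.Agent.H48.R7.Defs

/-!
Codimension `2 l + 3` by Fourier duality: definitions.
-/

set_option autoImplicit false

open MeasureTheory Filter Topology Metric Set
open scoped RealInnerProductSpace ENNReal

namespace Pool.Agent.H1.CG

open Pool.Agent.RZ Pool.Agent.H1.LD Pool.Agent.H48.R7

variable {d : ℕ}

/-- the Fourier transform of the mollifier -/
noncomputable def et (l : ℕ) (ε : ℝ) (a : X d) : ℝ :=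
  ∫ s in Ioi (0 : ℝ), s ^ (l + 1) * Real.exp (-s - ε ^ 2 * ‖a‖ ^ 2 / (4 * s))

/-- `4 ^ (l + 2) |a| ^ (-(2 l + 4)) et l ε a` as another integral -/
noncomputable def la (l : ℕ) (ε : ℝ) (a : X d) : ℝ :=
  ∫ s in Ioi (0 : ℝ), s⁻¹ ^ (l + 3) * Real.exp (-(s * ε ^ 2) - ‖a‖ ^ 2 / (4 * s))

/-- the mollifier (up to a constant) -/
noncomputable def Pk (n l : ℕ) (ε : ℝ) (Z : X d) : ℝ := ε ^ (2 * l + 4) * kr (n + 4 * l + 6) ε Z

/-- the mollified measure (up to a constant) -/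
noncomputable def wk (n l : ℕ) (ε : ℝ) (μ : Measure (X d)) (x : X d) : ℝ :=
  ∫ y, Pk n l ε (x - y) ∂μ

/-- the divergence of the regularised Riesz kernel in dimension `n + 2 l + 3` -/
noncomputable def Tk (n l : ℕ) (ε : ℝ) (Z : X d) : ℝ :=
  (2 * l + 2) * kr n ε Z + (n + 1) * ε ^ 2 * kr (n + 2) ε Z

/-- minus its radial gradient factor -/
noncomputable def Tk' (n l : ℕ) (ε : ℝ) (Z : X d) : ℝ :=
  (n + 1) * ((2 * l + 2) * kr (n + 2) ε Z + (n + 3) * ε ^ 2 * kr (n + 4) ε Z)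

/-- `T + v . ∇T` -/
noncomputable def Lg (n l : ℕ) (ε : ℝ) (μ : Measure (X d)) (Y v : X d) : ℝ :=
  ∫ x, (Tk n l ε (Y - x) - Tk' n l ε (Y - x) * ⟪Y - x, v⟫) ∂μ

/-- the square function of codimension `2 l + 3` at scale `t` -/
noncomputable def Qg (n l : ℕ) (μ : Measure (X d)) (z : X d) (t : ℝ) : ℝ≥0∞ :=
  ∫⁻ Y, ENNReal.ofReal (t * kr (n + 2 * l + 1) t (Y - z)) * ‖Lg n l 0 μ Y (Y - z)‖ₑ ^ 2

/-- real and imaginary part of `∫ exp (i (x - y) . a) dμ(y)` -/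
noncomputable def oc (μ : Measure (X d)) (x a : X d) : ℝ := ∫ y, Real.cos ⟪x - y, a⟫ ∂μ
noncomputable def os (μ : Measure (X d)) (x a : X d) : ℝ := ∫ y, Real.sin ⟪x - y, a⟫ ∂μ
noncomputable def re2 (μ : Measure (X d)) (x a b : X d) : ℝ :=
  oc μ x a * oc μ x b + os μ x a * os μ x b
noncomputable def m3 (μ : Measure (X d)) (a b : X d) : ℝ := ∫ x, re2 μ x a b ∂μ

/-- the kernels in the frequencies -/
noncomputable def LK (l : ℕ) (a b : X d) : ℝ :=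
  ‖a‖⁻¹ ^ (2 * l + 4) * ‖b‖⁻¹ ^ (2 * l + 4) * ⟪a, b⟫
noncomputable def ZK (l : ℕ) (a b : X d) : ℝ := ‖a‖⁻¹ ^ (2 * l + 2) * ‖b‖⁻¹ ^ (2 * l + 2) * i1 a b
noncomputable def SK (l : ℕ) (a b : X d) : ℝ :=
  ‖a‖⁻¹ ^ (2 * l + 3) * ‖b‖⁻¹ ^ (2 * l + 3) + ‖a‖⁻¹ ^ (2 * l + 3) * ‖a - b‖⁻¹ ^ (2 * l + 3) +
    ‖b‖⁻¹ ^ (2 * l + 3) * ‖a - b‖⁻¹ ^ (2 * l + 3)

/-- the cubic form of a kernel -/
noncomputable def JK (l : ℕ) (ε : ℝ) (μ : Measure (X d)) (V : X d → X d → ℝ) : ℝ :=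
  ∫ p : X d × X d, V p.1 p.2 *
    (et l ε p.1 * et l ε p.2 * et l ε (p.1 - p.2) * m3 μ p.1 p.2)

/-- the quadratic form of a kernel at the point `x` -/
noncomputable def PV (l : ℕ) (ε : ℝ) (μ : Measure (X d)) (V : X d → X d → ℝ) (x : X d) : ℝ :=
  ∫ p : X d × X d, V p.1 p.2 * (et l ε p.1 * et l ε p.2 * re2 μ x p.1 p.2)

/-- measures for which the kernels of dimension `2 l + 3` are absolutely integrable -/
def NiceK (l : ℕ) (ν : Measure (X d)) : Prop :=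
  IsFiniteMeasure ν ∧ ∃ C : ℝ, ∀ p : X d, ∫⁻ x, ‖x - p‖ₑ⁻¹ ^ (2 * l + 3) ∂ν ≤ ENNReal.ofReal C

/-- the measure with density `et` -/
noncomputable def nu (l : ℕ) (ε : ℝ) : Measure (X d) :=
  volume.withDensity fun a => ENNReal.ofReal (et l ε a)

/-- a certificate in dimension `2 l + 3` -/
structure Cert (l : ℕ) (W : X d → X d → ℝ) : Prop where
  meas : Measurable fun p : X d × X d => W p.1 p.2
  bound : ∃ C : ℝ, ∀ a b, a ≠ 0 → b ≠ 0 → a ≠ b → |W a b| ≤ C * SK l a b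
  ident : ∀ a b, a ≠ 0 → b ≠ 0 → a ≠ b →
    W a b + W (-a) (b - a) + W (a - b) (-b) = LK l a b + LK l (-a) (b - a) + LK l (a - b) (-b)
  pos : ∃ c : ℝ, 0 < c ∧ ∀ ν : Measure (X d), NiceK l ν → ∀ ω : X d → ℝ, Measurable ω →
    (∀ x, |ω x| ≤ 1) →
      c * ∫ p, ZK l p.1 p.2 * (ω p.1 * ω p.2) ∂(ν.prod ν) ≤
        ∫ p, W p.1 p.2 * (ω p.1 * ω p.2) ∂(ν.prod ν)

/-- the constants -/
noncomputable def c1 (d l : ℕ) : ℝ :=
  Real.pi ^ ((d : ℝ) / 2) / Real.Gamma ((l : ℝ) + 2 + (d : ℝ) / 2)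
noncomputable def c2 (d n l : ℕ) : ℝ :=
  2 * (4 : ℝ)⁻¹ ^ (l + 2) * (4 * Real.pi) ^ ((d : ℝ) / 2) * Real.Gamma (((n : ℝ) + 1) / 2)

end Pool.Agent.H1.CG
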