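import Pool.Agent.H1.CG.D0

/-!
Row SymA.  oc_measurable: StronglyMeasurable.integral_prod_right or Measurable of parameter integrals.  (For the next row:)  |m3| ≤ μ(X)^3 and continuity or measurability; m3 is invariant under (a,b) ↦ (-a,b-a) and (a,b) ↦ (a-b,-b)
(m3 μ a b = ∭ cos (⟪y''-y,a⟫ - ⟪y''-y',b⟫), rename the points); both maps preserve Lebesgue measure on X d × X d (linear with
determinant ±1: (a,b) ↦ (a,b-a) and (a,b) ↦ (b,a), (a,b) ↦ (-a,b): measurePreserving_add_prod.., Measure.prod_swap, neg);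
et is even.  Then 3 JK W = 3 JK LK by Cert.ident a.e. (a = 0, b = 0, a = b are null sets; d ≥ 1).  LK satisfies |LK| ≤ SK.
-/

set_option autoImplicit false

open MeasureTheory Filter Topology Metric Set
open scoped RealInnerProductSpace ENNReal

namespace Pool.Agent.H1.CG

open Pool.Agent.RZ Pool.Agent.H1.LD Pool.Agent.H48.R7

variable {d : ℕ}

private lemma CGSymA_inner :
    Continuous fun q : (X d × X d) × X d => ⟪q.1.1 - q.2, q.1.2⟫ :=
  ((continuous_fst.comp continuous_fst).sub continuous_snd).inner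
    (continuous_snd.comp continuous_fst)

theorem oc_measurable (μ : Measure (X d)) [IsFiniteMeasure μ] :
    Measurable fun p : X d × X d => oc μ p.1 p.2 := by
  have h : StronglyMeasurable fun q : (X d × X d) × X d => Real.cos ⟪q.1.1 - q.2, q.1.2⟫ :=
    (Real.continuous_cos.comp CGSymA_inner).stronglyMeasurable
  exact (h.integral_prod_right' (ν := μ)).measurable

theorem os_measurable (μ : Measure (X d)) [IsFiniteMeasure μ] :
    Measurable fun p : X d × X d => os μ p.1 p.2 := by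
  have h : StronglyMeasurable fun q : (X d × X d) × X d => Real.sin ⟪q.1.1 - q.2, q.1.2⟫ :=
    (Real.continuous_sin.comp CGSymA_inner).stronglyMeasurable
  exact (h.integral_prod_right' (ν := μ)).measurable

theorem oc_le (μ : Measure (X d)) [IsFiniteMeasure μ] (x a : X d) : |oc μ x a| ≤ μ.real univ := by
  have h := norm_integral_le_of_norm_le_const (μ := μ) (C := 1)
    (f := fun y => Real.cos ⟪x - y, a⟫)
    (Filter.Eventually.of_forall fun y => by
      rw [Real.norm_eq_abs]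
      exact Real.abs_cos_le_one _)
  rw [Real.norm_eq_abs, one_mul] at h
  exact h

theorem os_le (μ : Measure (X d)) [IsFiniteMeasure μ] (x a : X d) : |os μ x a| ≤ μ.real univ := by
  have h := norm_integral_le_of_norm_le_const (μ := μ) (C := 1)
    (f := fun y => Real.sin ⟪x - y, a⟫)
    (Filter.Eventually.of_forall fun y => by
      rw [Real.norm_eq_abs]
      exact Real.abs_sin_le_one _)
  rw [Real.norm_eq_abs, one_mul] at h
  exact h

theorem re2_le (μ : Measure (X d)) [IsFiniteMeasure μ] (x a b : X d) :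
    |re2 μ x a b| ≤ 2 * μ.real univ ^ 2 := by
  have hm : 0 ≤ μ.real univ := measureReal_nonneg
  unfold re2
  calc |oc μ x a * oc μ x b + os μ x a * os μ x b|
      ≤ |oc μ x a * oc μ x b| + |os μ x a * os μ x b| := abs_add_le _ _
    _ = |oc μ x a| * |oc μ x b| + |os μ x a| * |os μ x b| := by rw [abs_mul, abs_mul]
    _ ≤ μ.real univ * μ.real univ + μ.real univ * μ.real univ := by
        exact add_le_add
          (mul_le_mul (oc_le μ x a) (oc_le μ x b) (abs_nonneg _) hm)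
          (mul_le_mul (os_le μ x a) (os_le μ x b) (abs_nonneg _) hm)
    _ = 2 * μ.real univ ^ 2 := by ring

theorem LK_le (l : ℕ) {a b : X d} (ha : a ≠ 0) (hb : b ≠ 0) : |LK l a b| ≤ SK l a b := by
  have ha' : 0 < ‖a‖ := norm_pos_iff.2 ha
  have hb' : 0 < ‖b‖ := norm_pos_iff.2 hb
  have h1 : |LK l a b| ≤ ‖a‖⁻¹ ^ (2 * l + 3) * ‖b‖⁻¹ ^ (2 * l + 3) := by
    unfold LK
    rw [abs_mul, abs_of_nonneg (by positivity : 0 ≤ ‖a‖⁻¹ ^ (2 * l + 4) * ‖b‖⁻¹ ^ (2 * l + 4))]
    calc ‖a‖⁻¹ ^ (2 * l + 4) * ‖b‖⁻¹ ^ (2 * l + 4) * |⟪a, b⟫|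
        ≤ ‖a‖⁻¹ ^ (2 * l + 4) * ‖b‖⁻¹ ^ (2 * l + 4) * (‖a‖ * ‖b‖) := by
          gcongr
          exact abs_real_inner_le_norm a b
      _ = ‖a‖⁻¹ ^ (2 * l + 3) * ‖b‖⁻¹ ^ (2 * l + 3) * ((‖a‖⁻¹ * ‖a‖) * (‖b‖⁻¹ * ‖b‖)) := by
          rw [pow_succ ‖a‖⁻¹ (2 * l + 3), pow_succ ‖b‖⁻¹ (2 * l + 3)]
          ring
      _ = ‖a‖⁻¹ ^ (2 * l + 3) * ‖b‖⁻¹ ^ (2 * l + 3) := by
          rw [inv_mul_cancel₀ ha'.ne', inv_mul_cancel₀ hb'.ne', mul_one, mul_one]
  refine h1.trans ?_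
  unfold SK
  have h2 : 0 ≤ ‖a‖⁻¹ ^ (2 * l + 3) * ‖a - b‖⁻¹ ^ (2 * l + 3) := by positivity
  have h3 : 0 ≤ ‖b‖⁻¹ ^ (2 * l + 3) * ‖a - b‖⁻¹ ^ (2 * l + 3) := by positivity
  linarith

end Pool.Agent.H1.CG
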