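import Pool.Agent.H1.CG.FC
import Pool.Agent.H1.CG.SymA

/-!
Row PL.  PV (LK l) x = ∑_i (∫ ‖a‖⁻¹^(2l+4) et(a) a_i oc(a) da)² + ∑_i (∫ .. a_i os(a) da)² (integral_prod_mul); the first is 0 (odd in a:
oc is even), the second is c2² (Fe_i)² by Fubini and kr_sin.
-/

set_option autoImplicit false

open MeasureTheory Filter Topology Metric Set
open scoped RealInnerProductSpace ENNReal

namespace Pool.Agent.H1.CG

open Pool.Agent.RZ Pool.Agent.H1.LD Pool.Agent.H48.R7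

variable {d : ℕ}

private theorem CGPL_inner (a b : X d) : ⟪a, b⟫ = ∑ i, a i * b i := by
  rw [PiLp.inner_apply]
  refine Finset.sum_congr rfl fun i _ => ?_
  simp [mul_comm]

private theorem CGPL_norm (a : X d) : ‖a‖ ^ 2 = ∑ i, a i ^ 2 := by
  rw [← real_inner_self_eq_norm_sq, CGPL_inner]
  refine Finset.sum_congr rfl fun i _ => ?_
  ring

private theorem CGPL_le (a : X d) (i : Fin d) : |a i| ≤ ‖a‖ := by
  rw [← sq_le_sq₀ (abs_nonneg _) (norm_nonneg _), sq_abs, CGPL_norm]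
  exact Finset.single_le_sum (f := fun j => a j ^ 2) (fun j _ => sq_nonneg _) (Finset.mem_univ i)

private theorem CGPL_dom {n l : ℕ} (hn : 1 ≤ n) (hd : d = n + 2 * l + 3) {ε : ℝ} (hε : 0 < ε) :
    Integrable fun a : X d => ‖a‖⁻¹ ^ (2 * l + 3) * et l ε a := by
  have h := et_int (d := d) l hε (j := 2 * l + 3) (by omega) 0
  simpa using h

private theorem CGPL_gle (l : ℕ) (ε : ℝ) (a : X d) (i : Fin d) :
    |‖a‖⁻¹ ^ (2 * l + 4) * et l ε a * a i| ≤ ‖a‖⁻¹ ^ (2 * l + 3) * et l ε a := by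
  rcases eq_or_ne a 0 with rfl | ha
  · simp
  · have hna : ‖a‖ ≠ 0 := norm_ne_zero_iff.2 ha
    have h0 := et_nonneg l ε a
    have h1 : 0 ≤ ‖a‖⁻¹ ^ (2 * l + 4) := by positivity
    rw [abs_mul, abs_of_nonneg (mul_nonneg h1 h0)]
    calc ‖a‖⁻¹ ^ (2 * l + 4) * et l ε a * |a i|
        ≤ ‖a‖⁻¹ ^ (2 * l + 4) * et l ε a * ‖a‖ :=
          mul_le_mul_of_nonneg_left (CGPL_le a i) (mul_nonneg h1 h0)
      _ = ‖a‖⁻¹ ^ (2 * l + 3) * et l ε a := by
          have : ‖a‖⁻¹ ^ (2 * l + 4) = ‖a‖⁻¹ ^ (2 * l + 3) * ‖a‖⁻¹ := pow_succ _ _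
          rw [this]
          field_simp

private theorem CGPL_coord (i : Fin d) : Measurable fun a : X d => a i :=
  (EuclideanSpace.proj (𝕜 := ℝ) i : X d →L[ℝ] ℝ).continuous.measurable

private theorem CGPL_gmeas (l : ℕ) (ε : ℝ) (i : Fin d) :
    Measurable fun a : X d => ‖a‖⁻¹ ^ (2 * l + 4) * et l ε a * a i :=
  ((measurable_norm.inv.pow_const _).mul (et_measurable l ε)).mul (CGPL_coord i)

private theorem CGPL_int {n l : ℕ} (hn : 1 ≤ n) (hd : d = n + 2 * l + 3) {ε : ℝ} (hε : 0 < ε)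
    (i : Fin d) {φ : X d → ℝ} (hφ : Measurable φ) {M : ℝ} (hM : ∀ a, |φ a| ≤ M) :
    Integrable fun a : X d => ‖a‖⁻¹ ^ (2 * l + 4) * et l ε a * a i * φ a := by
  have h := (CGPL_dom hn hd hε).mul_const M
  refine h.mono' ((CGPL_gmeas l ε i).mul hφ).aestronglyMeasurable (ae_of_all _ fun a => ?_)
  rw [Real.norm_eq_abs, abs_mul]
  exact mul_le_mul (CGPL_gle l ε a i) (hM a) (abs_nonneg _)
    (mul_nonneg (by positivity) (et_nonneg _ _ _))

private theorem CGPL_oc {l : ℕ} {ε : ℝ} (μ : Measure (X d)) (x : X d) (i : Fin d) :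
    ∫ a : X d, ‖a‖⁻¹ ^ (2 * l + 4) * et l ε a * a i * oc μ x a = 0 := by
  have h := integral_neg_eq_self
    (fun a : X d => ‖a‖⁻¹ ^ (2 * l + 4) * et l ε a * a i * oc μ x a) volume
  have h2 : ∀ a : X d, ‖-a‖⁻¹ ^ (2 * l + 4) * et l ε (-a) * (-a) i * oc μ x (-a) =
      -(‖a‖⁻¹ ^ (2 * l + 4) * et l ε a * a i * oc μ x a) := by
    intro a
    have h3 : oc μ x (-a) = oc μ x a := by
      unfold oc
      simp only [inner_neg_right, Real.cos_neg]
    rw [norm_neg, et_neg, h3, PiLp.neg_apply]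
    ring
  simp only [h2] at h
  rw [integral_neg] at h
  linarith

private theorem CGPL_krint {n : ℕ} {ε : ℝ} (hε : 0 < ε) (μ : Measure (X d))
    [IsFiniteMeasure μ] (x : X d) : Integrable (fun y => kr n ε (x - y) • (x - y)) μ := by
  have hc : Continuous fun y : X d => kr n ε (x - y) • (x - y) :=
    ((kr_continuous n hε).comp (continuous_const.sub continuous_id)).smul
      (continuous_const.sub continuous_id)
  refine Integrable.of_bound hc.aestronglyMeasurable (ε⁻¹ ^ n) (ae_of_all _ fun y => ?_)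
  rw [norm_smul, Real.norm_eq_abs, abs_of_nonneg (kr_nonneg _ _ _), K1_kr]
  set z := x - y
  have hs : 0 < Real.sqrt (‖z‖ ^ 2 + ε ^ 2) := Real.sqrt_pos.2 (by positivity)
  have h1 : ‖z‖ ≤ Real.sqrt (‖z‖ ^ 2 + ε ^ 2) := Real.le_sqrt_of_sq_le (by nlinarith)
  have h2 : ε ≤ Real.sqrt (‖z‖ ^ 2 + ε ^ 2) := Real.le_sqrt_of_sq_le (by nlinarith [norm_nonneg z])
  calc (Real.sqrt (‖z‖ ^ 2 + ε ^ 2))⁻¹ ^ (n + 1) * ‖z‖
      ≤ (Real.sqrt (‖z‖ ^ 2 + ε ^ 2))⁻¹ ^ (n + 1) * Real.sqrt (‖z‖ ^ 2 + ε ^ 2) :=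
        mul_le_mul_of_nonneg_left h1 (by positivity)
    _ = (Real.sqrt (‖z‖ ^ 2 + ε ^ 2))⁻¹ ^ n := by
        rw [pow_succ, mul_assoc, inv_mul_cancel₀ hs.ne', mul_one]
    _ ≤ ε⁻¹ ^ n := pow_le_pow_left₀ (by positivity) (inv_anti₀ hε h2) _

private theorem CGPL_Fe {n : ℕ} {ε : ℝ} (hε : 0 < ε) (μ : Measure (X d))
    [IsFiniteMeasure μ] (x : X d) (i : Fin d) :
    Fe n ε μ x i = ∫ y, kr n ε (x - y) * (x - y) i ∂μ := by
  have h := (EuclideanSpace.proj (𝕜 := ℝ) i : X d →L[ℝ] ℝ).integral_comp_comm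
    (CGPL_krint (n := n) hε μ x)
  have h2 : (EuclideanSpace.proj (𝕜 := ℝ) i : X d →L[ℝ] ℝ)
      (∫ y, kr n ε (x - y) • (x - y) ∂μ) = Fe n ε μ x i := rfl
  rw [← h2, ← h]
  refine integral_congr_ae (ae_of_all _ fun y => ?_)
  simp

private theorem CGPL_os {n l : ℕ} (hn : 1 ≤ n) (hd : d = n + 2 * l + 3) {ε : ℝ} (hε : 0 < ε)
    (μ : Measure (X d)) [IsFiniteMeasure μ] (x : X d) (i : Fin d) :
    ∫ a : X d, ‖a‖⁻¹ ^ (2 * l + 4) * et l ε a * a i * os μ x a =
      c2 d n l * Fe n ε μ x i := by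
  have hint : Integrable (Function.uncurry fun (a y : X d) =>
      ‖a‖⁻¹ ^ (2 * l + 4) * et l ε a * a i * Real.sin ⟪x - y, a⟫)
      ((volume : Measure (X d)).prod μ) := by
    have hdom : Integrable (fun p : X d × X d => ‖p.1‖⁻¹ ^ (2 * l + 3) * et l ε p.1 * 1)
        ((volume : Measure (X d)).prod μ) :=
      (CGPL_dom hn hd hε).mul_prod (integrable_const (1 : ℝ))
    refine hdom.mono' ?_ (ae_of_all _ fun p => ?_)
    · have hs : Measurable fun p : X d × X d => Real.sin ⟪x - p.2, p.1⟫ := by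
        have : Continuous fun p : X d × X d => Real.sin ⟪x - p.2, p.1⟫ := by fun_prop
        exact this.measurable
      exact (((CGPL_gmeas l ε i).comp measurable_fst).mul hs).aestronglyMeasurable
    · simp only [Function.uncurry]
      rw [Real.norm_eq_abs, abs_mul]
      exact mul_le_mul (CGPL_gle l ε p.1 i) (Real.abs_sin_le_one _) (abs_nonneg _)
        (mul_nonneg (by positivity) (et_nonneg _ _ _))
  have h1 : ∀ a : X d, ‖a‖⁻¹ ^ (2 * l + 4) * et l ε a * a i * os μ x a =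
      ∫ y, ‖a‖⁻¹ ^ (2 * l + 4) * et l ε a * a i * Real.sin ⟪x - y, a⟫ ∂μ := by
    intro a
    unfold os
    rw [integral_const_mul]
  simp only [h1]
  rw [integral_integral_swap hint]
  have h2 : ∀ y : X d, ∫ a : X d, ‖a‖⁻¹ ^ (2 * l + 4) * et l ε a * a i * Real.sin ⟪x - y, a⟫ =
      c2 d n l * (kr n ε (x - y) * (x - y) i) := by
    intro y
    have h3 := kr_sin hn hd hε (x - y) (EuclideanSpace.single i (1 : ℝ) : X d)
    have h4 : ∀ b : X d, ⟪(EuclideanSpace.single i (1 : ℝ) : X d), b⟫ = b i := by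
      intro b
      rw [EuclideanSpace.inner_single_left]
      simp
    simp only [h4] at h3
    rw [← h3]
    refine integral_congr_ae (ae_of_all _ fun a => ?_)
    simp only
    ring
  simp only [h2]
  rw [integral_const_mul, CGPL_Fe hε]

theorem PV_LK {n l : ℕ} (hn : 1 ≤ n) (hd : d = n + 2 * l + 3) {ε : ℝ} (hε : 0 < ε)
    (μ : Measure (X d)) [IsFiniteMeasure μ] (x : X d) :
    PV l ε μ (LK l) x = c2 d n l ^ 2 * ‖Fe n ε μ x‖ ^ 2 := by
  have hpm : Measurable (Prod.mk x : X d → X d × X d) := measurable_prodMk_left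
  have hocm : Measurable fun a : X d => oc μ x a := by
    have h := (oc_measurable μ).comp hpm
    simpa only [Function.comp_def] using h
  have hosm : Measurable fun a : X d => os μ x a := by
    have h := (os_measurable μ).comp hpm
    simpa only [Function.comp_def] using h
  have hG := fun i => CGPL_int hn hd hε i hocm (oc_le μ x)
  have hH := fun i => CGPL_int hn hd hε i hosm (os_le μ x)
  have h1 : ∀ p : X d × X d, LK l p.1 p.2 * (et l ε p.1 * et l ε p.2 * re2 μ x p.1 p.2) =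
      ∑ i, ((‖p.1‖⁻¹ ^ (2 * l + 4) * et l ε p.1 * p.1 i * oc μ x p.1) *
          (‖p.2‖⁻¹ ^ (2 * l + 4) * et l ε p.2 * p.2 i * oc μ x p.2) +
        (‖p.1‖⁻¹ ^ (2 * l + 4) * et l ε p.1 * p.1 i * os μ x p.1) *
          (‖p.2‖⁻¹ ^ (2 * l + 4) * et l ε p.2 * p.2 i * os μ x p.2)) := by
    intro p
    unfold LK re2
    rw [CGPL_inner, Finset.mul_sum, Finset.sum_mul]
    refine Finset.sum_congr rfl fun i _ => ?_
    ring
  unfold PV
  simp only [h1]
  rw [Measure.volume_eq_prod, integral_finsetSum]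
  · have h2 : ∀ i : Fin d, ∫ p : X d × X d,
        ((‖p.1‖⁻¹ ^ (2 * l + 4) * et l ε p.1 * p.1 i * oc μ x p.1) *
          (‖p.2‖⁻¹ ^ (2 * l + 4) * et l ε p.2 * p.2 i * oc μ x p.2) +
        (‖p.1‖⁻¹ ^ (2 * l + 4) * et l ε p.1 * p.1 i * os μ x p.1) *
          (‖p.2‖⁻¹ ^ (2 * l + 4) * et l ε p.2 * p.2 i * os μ x p.2))
          ∂((volume : Measure (X d)).prod volume) =
        c2 d n l ^ 2 * (Fe n ε μ x i) ^ 2 := by
      intro i
      rw [integral_add ((hG i).mul_prod (hG i)) ((hH i).mul_prod (hH i))]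
      rw [integral_prod_mul (fun a : X d => ‖a‖⁻¹ ^ (2 * l + 4) * et l ε a * a i * oc μ x a)
        (fun a : X d => ‖a‖⁻¹ ^ (2 * l + 4) * et l ε a * a i * oc μ x a),
        integral_prod_mul (fun a : X d => ‖a‖⁻¹ ^ (2 * l + 4) * et l ε a * a i * os μ x a)
        (fun a : X d => ‖a‖⁻¹ ^ (2 * l + 4) * et l ε a * a i * os μ x a), CGPL_oc,
        CGPL_os hn hd hε]
      ring
    rw [Finset.sum_congr rfl fun i _ => h2 i, ← Finset.mul_sum, CGPL_norm]
  · intro i _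
    exact ((hG i).mul_prod (hG i)).add ((hH i).mul_prod (hH i))

end Pool.Agent.H1.CG
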