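import Pool.Agent.H1.CG.D0
import Pool.Agent.H48.R9.Sla

/-!
The kernel `ZK`: bounds, measurability, and its formula as a time integral.
-/

set_option autoImplicit false

open MeasureTheory Filter Topology Metric Set
open scoped RealInnerProductSpace ENNReal

namespace Pool.Agent.H1.CG

open Pool.Agent.RZ Pool.Agent.H1.LD Pool.Agent.H48.R7

variable {d : ℕ}

private theorem CGPZ2a_pow {a b c : ℝ} (ha : 0 ≤ a) (hb : 0 ≤ b) (hc : 0 ≤ c) {i j k m : ℕ}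
    (h : i + j + k = m) : a ^ i * b ^ j * c ^ k ≤ a ^ m + c ^ m + b ^ m := by
  obtain ⟨M, hM⟩ : ∃ M, M = max a (max b c) := ⟨_, rfl⟩
  have h1 : a ≤ M := by rw [hM]; exact le_max_left _ _
  have h2 : b ≤ M := by rw [hM]; exact (le_max_left _ _).trans (le_max_right _ _)
  have h3 : c ≤ M := by rw [hM]; exact (le_max_right _ _).trans (le_max_right _ _)
  have hM0 : 0 ≤ M := ha.trans h1
  have h4 : a ^ i * b ^ j * c ^ k ≤ M ^ i * M ^ j * M ^ k := by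
    refine mul_le_mul (mul_le_mul (pow_le_pow_left₀ ha h1 i) (pow_le_pow_left₀ hb h2 j)
      (pow_nonneg hb j) (pow_nonneg hM0 i)) (pow_le_pow_left₀ hc h3 k) (pow_nonneg hc k) ?_
    exact mul_nonneg (pow_nonneg hM0 i) (pow_nonneg hM0 j)
  rw [← pow_add, ← pow_add, h] at h4
  have p1 := pow_nonneg ha m
  have p2 := pow_nonneg hb m
  have p3 := pow_nonneg hc m
  have h5 : M = a ∨ M = b ∨ M = c := by
    rw [hM]
    rcases max_choice a (max b c) with e | e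
    · exact Or.inl e
    · rcases max_choice b c with e' | e'
      · exact Or.inr (Or.inl (e.trans e'))
      · exact Or.inr (Or.inr (e.trans e'))
  rcases h5 with e | e | e <;> rw [e] at h4 <;> linarith

private theorem CGPZ2a_mono {u v w : ℝ} (hu : 0 ≤ u) (hv : 0 ≤ v) (hw : 0 ≤ w) {i r m : ℕ}
    (hi : i + (i + r) = m) :
    u ^ (i + r) * v ^ (i + r) * w ^ (2 * i) ≤ u ^ m * v ^ m + u ^ m * w ^ m + v ^ m * w ^ m := by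
  have hA : 0 ≤ u * v := mul_nonneg hu hv
  have hB : 0 ≤ v * w := mul_nonneg hv hw
  have hC : 0 ≤ u * w := mul_nonneg hu hw
  have h1 := CGPZ2a_pow (i := r) (j := i) (k := i) (m := m) hA hB hC (by omega)
  have e : (u * v) ^ m + (u * w) ^ m + (v * w) ^ m
      = u ^ m * v ^ m + u ^ m * w ^ m + v ^ m * w ^ m := by
    rw [mul_pow, mul_pow, mul_pow]
  rw [e] at h1
  refine le_trans (le_of_eq ?_) h1
  rw [mul_pow, mul_pow, mul_pow, pow_add, pow_add, two_mul, pow_add]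
  ring

/-- the two monomials -/
private theorem CGPZ2a_two {l : ℕ} (hl : 1 ≤ l) {a b : X d} (ha : a ≠ 0) (hb : b ≠ 0) :
    ‖a‖⁻¹ ^ (2 * l + 2) * ‖b‖⁻¹ ^ (2 * l + 2) * ‖a - b‖⁻¹ ^ 2 ≤ SK l a b ∧
    ‖a‖⁻¹ ^ (2 * l + 2) * ‖b‖⁻¹ ^ (2 * l + 2) * ((‖a‖ * ‖b‖) * ‖a - b‖⁻¹ ^ 4) ≤ SK l a b := by
  have hx : 0 < ‖a‖ := norm_pos_iff.2 ha
  have hy : 0 < ‖b‖ := norm_pos_iff.2 hb
  obtain ⟨j, rfl⟩ : ∃ j, l = j + 1 := ⟨l - 1, by omega⟩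
  constructor
  · have h := CGPZ2a_mono (u := ‖a‖⁻¹) (v := ‖b‖⁻¹) (w := ‖a - b‖⁻¹) (i := 1)
      (r := 2 * (j + 1) + 1) (m := 2 * (j + 1) + 3) (by positivity) (by positivity)
      (by positivity) (by omega)
    have e : 1 + (2 * (j + 1) + 1) = 2 * (j + 1) + 2 := by omega
    rw [e, mul_one] at h
    exact h
  · have h := CGPZ2a_mono (u := ‖a‖⁻¹) (v := ‖b‖⁻¹) (w := ‖a - b‖⁻¹) (i := 2)
      (r := 2 * j + 1) (m := 2 * (j + 1) + 3) (by positivity) (by positivity)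
      (by positivity) (by omega)
    have e : 2 + (2 * j + 1) = 2 * (j + 1) + 1 := by omega
    rw [e] at h
    refine le_trans (le_of_eq ?_) h
    have e1 : 2 * (j + 1) + 2 = (2 * (j + 1) + 1) + 1 := by omega
    have e2 : ‖a - b‖⁻¹ ^ (2 * 2) = ‖a - b‖⁻¹ ^ 4 := by norm_num
    have e3 : ‖a‖⁻¹ * ‖a‖ = 1 := inv_mul_cancel₀ hx.ne'
    have e4 : ‖b‖⁻¹ * ‖b‖ = 1 := inv_mul_cancel₀ hy.ne'
    rw [e1, pow_succ (‖a‖⁻¹), pow_succ (‖b‖⁻¹), e2]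
    calc _ = ‖a‖⁻¹ ^ (2 * (j + 1) + 1) * ‖b‖⁻¹ ^ (2 * (j + 1) + 1) * ‖a - b‖⁻¹ ^ 4 *
          ((‖a‖⁻¹ * ‖a‖) * (‖b‖⁻¹ * ‖b‖)) := by ring
      _ = _ := by rw [e3, e4]; ring

theorem ZK_measurable (l : ℕ) : Measurable fun p : X d × X d => ZK l p.1 p.2 := by
  unfold ZK i1
  fun_prop

/-- the time integrand of `ZK` -/
noncomputable def zt (l : ℕ) (a b : X d) (t : ℝ) : ℝ :=
  ‖a‖⁻¹ ^ (2 * l + 2) * ‖b‖⁻¹ ^ (2 * l + 2) * (mta 1 a b t * t⁻¹ ^ 3)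

theorem zt_int {l : ℕ} (hl : 1 ≤ l) {a b : X d} (ha : a ≠ 0) (hb : b ≠ 0) (h : a ≠ b) :
    IntegrableOn (fun t : ℝ => zt l a b t) (Ioi 0) ∧
    ∫ t in Ioi (0 : ℝ), zt l a b t = ZK l a b ∧
    ∫ t in Ioi (0 : ℝ), |zt l a b t| ≤ 7 * SK l a b := by
  obtain ⟨m1, m2, m3⟩ := mta_int1 h
  obtain ⟨k1, k2⟩ := CGPZ2a_two hl ha hb
  have hW : 0 ≤ ‖a‖⁻¹ ^ (2 * l + 2) * ‖b‖⁻¹ ^ (2 * l + 2) := by positivity
  refine ⟨?_, ?_, ?_⟩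
  · simp only [zt]
    exact m1.const_mul _
  · simp only [zt]
    rw [integral_const_mul, m2]
    rfl
  · have e : ∀ t : ℝ, |zt l a b t| = ‖a‖⁻¹ ^ (2 * l + 2) * ‖b‖⁻¹ ^ (2 * l + 2) *
        |mta 1 a b t * t⁻¹ ^ 3| := fun t => by
      rw [zt, abs_mul, abs_of_nonneg hW]
    simp only [e]
    rw [integral_const_mul]
    calc _ ≤ ‖a‖⁻¹ ^ (2 * l + 2) * ‖b‖⁻¹ ^ (2 * l + 2) *
          (2 * ‖a - b‖⁻¹ ^ 2 + 5 * (‖a‖ * ‖b‖) * ‖a - b‖⁻¹ ^ 4) :=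
          mul_le_mul_of_nonneg_left m3 hW
      _ = 2 * (‖a‖⁻¹ ^ (2 * l + 2) * ‖b‖⁻¹ ^ (2 * l + 2) * ‖a - b‖⁻¹ ^ 2) +
          5 * (‖a‖⁻¹ ^ (2 * l + 2) * ‖b‖⁻¹ ^ (2 * l + 2) * ((‖a‖ * ‖b‖) * ‖a - b‖⁻¹ ^ 4)) := by
          ring
      _ ≤ 7 * SK l a b := by linarith

theorem ZK_le (l : ℕ) (hl : 1 ≤ l) : ∃ C : ℝ, 0 < C ∧ ∀ a b : X d, a ≠ 0 → b ≠ 0 → a ≠ b →
    |ZK l a b| ≤ C * SK l a b := by
  refine ⟨7, by norm_num, fun a b ha hb h => ?_⟩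
  obtain ⟨m1, m2, m3⟩ := zt_int hl ha hb h
  rw [← m2]
  exact (abs_integral_le_integral_abs).trans m3

theorem zt_measurable (l : ℕ) :
    Measurable fun q : (X d × X d) × ℝ => zt l q.1.1 q.1.2 q.2 := by
  unfold zt mta
  fun_prop

end Pool.Agent.H1.CG
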