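import Pool.Agent.H1.CG.PZ
import Pool.Agent.H1.CG.PZ2a

/-!
Row PZ2.  Translation Y = x + u, kr (n+2l) 0 u = ‖u‖⁻¹^(n+2l+1) = ‖u‖^(-(d-2)) = const ∫_0^∞ t^(d-3) ga (t²/4) u dt (u ≠ 0), Tonelli,
Lg_gauss with b = t²/4 (2 √b = t, (π/b)^(d/2) = (4π)^(d/2) t^(-d)), so ∫⁻ = ofReal (const ∫ t⁻¹^3 ∬ .. mta 1 a c t) and Fubini
(majorant: ∫_0^∞ |mta 1 a c t| t⁻¹^3 dt ≤ C (‖a-c‖⁻¹^2 + ‖a‖‖c‖‖a-c‖⁻¹^4), times ‖a‖⁻¹^(2l+2)‖c‖⁻¹^(2l+2) ≤ C SK; see PZ2a);
∫_0^∞ mta 1 a c t t⁻¹^3 dt = i1 a c (a ≠ c).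
-/

set_option autoImplicit false

open MeasureTheory Filter Topology Metric Set
open scoped RealInnerProductSpace ENNReal

namespace Pool.Agent.H1.CG

open Pool.Agent.RZ Pool.Agent.H1.LD Pool.Agent.H48.R7

variable {d : ℕ}

/-- the integral over the scales -/
private theorem CGPZ2_time (m : ℕ) : ∃ K : ℝ, 0 < K ∧ ∀ r : ℝ, 0 < r →
    IntegrableOn (fun t : ℝ => t ^ m * Real.exp (-(t ^ 2 / 4 * r ^ 2))) (Ioi 0) ∧
    ∫ t in Ioi (0 : ℝ), t ^ m * Real.exp (-(t ^ 2 / 4 * r ^ 2)) = K * r⁻¹ ^ (m + 1) := by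
  have hb : ∀ r : ℝ, 0 < r → ∀ t : ℝ, t ^ m * Real.exp (-(t ^ 2 / 4 * r ^ 2)) =
      t ^ (m : ℝ) * Real.exp (-(r ^ 2 / 4) * t ^ (2 : ℝ)) := by
    intro r _ t
    rw [Real.rpow_natCast]
    congr 2
    have : t ^ (2 : ℝ) = t ^ 2 := by
      rw [← Real.rpow_natCast]
      norm_num
    rw [this]
    ring
  have hm : (-1 : ℝ) < m := by
    have : (0 : ℝ) ≤ m := Nat.cast_nonneg m
    linarith
  refine ⟨∫ t in Ioi (0 : ℝ), t ^ m * Real.exp (-(t ^ 2 / 4 * 1 ^ 2)), ?_, fun r hr => ⟨?_, ?_⟩⟩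
  · simp only [hb 1 one_pos]
    rw [integral_rpow_mul_exp_neg_mul_rpow (by norm_num) hm (by norm_num)]
    have : 0 < Real.Gamma (((m : ℝ) + 1) / 2) := Real.Gamma_pos_of_pos (by positivity)
    positivity
  · simp only [hb r hr]
    exact integrableOn_rpow_mul_exp_neg_mul_rpow hm (by norm_num) (by positivity)
  · have h1 := integral_comp_mul_left_Ioi (fun s : ℝ => s ^ m * Real.exp (-(s ^ 2 / 4 * 1 ^ 2)))
      (0 : ℝ) hr
    rw [mul_zero, smul_eq_mul] at h1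
    have h2 : ∀ t : ℝ, (r * t) ^ m * Real.exp (-((r * t) ^ 2 / 4 * 1 ^ 2)) =
        r ^ m * (t ^ m * Real.exp (-(t ^ 2 / 4 * r ^ 2))) := by
      intro t
      rw [mul_pow, mul_assoc]
      congr 3
      ring
    simp only [h2] at h1
    rw [integral_const_mul] at h1
    have h3 : r⁻¹ ^ m * r ^ m = 1 := by
      rw [← mul_pow, inv_mul_cancel₀ hr.ne', one_pow]
    calc ∫ t in Ioi (0 : ℝ), t ^ m * Real.exp (-(t ^ 2 / 4 * r ^ 2)) =
        r⁻¹ ^ m * (r ^ m * ∫ t in Ioi (0 : ℝ), t ^ m * Real.exp (-(t ^ 2 / 4 * r ^ 2))) := by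
          rw [← mul_assoc, h3, one_mul]
      _ = _ := by
          rw [h1]
          ring

private theorem CGPZ2_diag {Y : Type} [MeasurableSpace Y] [TopologicalSpace Y] [T2Space Y]
    [SecondCountableTopology Y] [BorelSpace Y] (μ : Measure Y) [SFinite μ]
    (h : ∀ c : Y, μ {c} = 0) : ∀ᵐ p ∂(μ.prod μ), p.1 ≠ p.2 := by
  have hm : MeasurableSet {p : Y × Y | p.1 = p.2} :=
    (isClosed_eq continuous_fst continuous_snd).measurableSet
  have h1 : (μ.prod μ) {p : Y × Y | p.1 = p.2} = 0 := by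
    rw [Measure.measure_prod_null hm]
    refine Eventually.of_forall fun a => ?_
    have h2 : Prod.mk a ⁻¹' {p : Y × Y | p.1 = p.2} = {a} := by
      ext b
      simp [eq_comm]
    show μ (Prod.mk a ⁻¹' {p : Y × Y | p.1 = p.2}) = 0
    rw [h2, h a]
  exact compl_mem_ae_iff.2 h1

private theorem CGPZ2_single (hd : 1 ≤ d) (c : X d) : (volume : Measure (X d)) {c} = 0 := by
  obtain ⟨e, rfl⟩ : ∃ e, d = e + 1 := ⟨d - 1, by omega⟩
  exact measure_singleton c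

/-- almost all pairs of frequencies are admissible -/
private theorem CGPZ2_ae (hd : 1 ≤ d) :
    ∀ᵐ p : X d × X d, p.1 ≠ 0 ∧ p.2 ≠ 0 ∧ p.1 ≠ p.2 := by
  have h0 : ∀ᵐ a : X d, a ≠ 0 := compl_mem_ae_iff.2 (CGPZ2_single hd 0)
  have h1 : ∀ᵐ p ∂((volume : Measure (X d)).prod (volume : Measure (X d))),
      p.1 ≠ 0 := Measure.quasiMeasurePreserving_fst.ae h0
  have h2 : ∀ᵐ p ∂((volume : Measure (X d)).prod (volume : Measure (X d))),
      p.2 ≠ 0 := Measure.quasiMeasurePreserving_snd.ae h0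
  have h3 := CGPZ2_diag (volume : Measure (X d)) fun c => CGPZ2_single hd c
  show ∀ᵐ p ∂((volume : Measure (X d)).prod (volume : Measure (X d))),
    p.1 ≠ 0 ∧ p.2 ≠ 0 ∧ p.1 ≠ p.2
  filter_upwards [h1, h2, h3] with p q1 q2 q3 using ⟨q1, q2, q3⟩

/-- the slice at scale `t` -/
private noncomputable def CGPZ2_G (l : ℕ) (ε : ℝ) (μ : Measure (X d)) (x : X d) (t : ℝ) : ℝ :=
  ∫ p : X d × X d, ‖p.1‖⁻¹ ^ (2 * l + 2) * ‖p.2‖⁻¹ ^ (2 * l + 2) * mta 1 p.1 p.2 t *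
    (et l ε p.1 * et l ε p.2 * re2 μ x p.1 p.2)

private theorem CGPZ2_E (l : ℕ) (ε : ℝ) (μ : Measure (X d)) [IsFiniteMeasure μ] (x : X d) :
    Measurable fun p : X d × X d => et l ε p.1 * et l ε p.2 * re2 μ x p.1 p.2 := by
  have h0 : Measurable (Prod.mk x : X d → X d × X d) := measurable_prodMk_left
  have h1 : Measurable fun a : X d => oc μ x a := by
    have := (oc_measurable μ).comp h0
    exact this
  have h2 : Measurable fun a : X d => os μ x a := by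
    have := (os_measurable μ).comp h0
    exact this
  have h3 : Measurable (et l ε : X d → ℝ) := et_measurable l ε
  have k1 : Measurable fun p : X d × X d => oc μ x p.1 := h1.comp measurable_fst
  have k2 : Measurable fun p : X d × X d => oc μ x p.2 := h1.comp measurable_snd
  have k3 : Measurable fun p : X d × X d => os μ x p.1 := h2.comp measurable_fst
  have k4 : Measurable fun p : X d × X d => os μ x p.2 := h2.comp measurable_snd
  have k5 : Measurable fun p : X d × X d => et l ε p.1 := h3.comp measurable_fst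
  have k6 : Measurable fun p : X d × X d => et l ε p.2 := h3.comp measurable_snd
  exact (k5.mul k6).mul ((k1.mul k2).add (k3.mul k4))

private theorem CGPZ2_fub {n l : ℕ} (hn : 1 ≤ n) (hl : 1 ≤ l) (hd : d = n + 2 * l + 3) {ε : ℝ}
    (hε : 0 < ε) (μ : Measure (X d)) [IsFiniteMeasure μ] (x : X d) :
    IntegrableOn (fun t : ℝ => t⁻¹ ^ 3 * CGPZ2_G l ε μ x t) (Ioi 0) ∧
    ∫ t in Ioi (0 : ℝ), t⁻¹ ^ 3 * CGPZ2_G l ε μ x t = PV l ε μ (ZK l) x := by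
  have hae := CGPZ2_ae (d := d) (by omega)
  have hE := CGPZ2_E l ε μ x
  have hF : Integrable (fun q : (X d × X d) × ℝ => zt l q.1.1 q.1.2 q.2 *
      (et l ε q.1.1 * et l ε q.1.2 * re2 μ x q.1.1 q.1.2))
      ((volume : Measure (X d × X d)).prod (volume.restrict (Ioi (0 : ℝ)))) := by
    have hm : Measurable (fun q : (X d × X d) × ℝ => zt l q.1.1 q.1.2 q.2 *
        (et l ε q.1.1 * et l ε q.1.2 * re2 μ x q.1.1 q.1.2)) :=
      (zt_measurable l).mul (hE.comp measurable_fst)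
    rw [integrable_prod_iff hm.aestronglyMeasurable]
    constructor
    · filter_upwards [hae] with p hp
      exact (zt_int hl hp.1 hp.2.1 hp.2.2).1.mul_const _
    · have hS := ((SK_int l hε (d := d) (by omega)).const_mul (7 * (2 * μ.real univ ^ 2)))
      refine hS.mono' hm.aestronglyMeasurable.norm.integral_prod_right' ?_
      filter_upwards [hae] with p hp
      obtain ⟨-, -, h3⟩ := zt_int hl hp.1 hp.2.1 hp.2.2
      have e1 : ∀ t : ℝ, ‖zt l p.1 p.2 t * (et l ε p.1 * et l ε p.2 * re2 μ x p.1 p.2)‖ =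
          |zt l p.1 p.2 t| * (et l ε p.1 * et l ε p.2 * |re2 μ x p.1 p.2|) := by
        intro t
        rw [Real.norm_eq_abs, abs_mul, abs_mul, abs_of_nonneg
          (mul_nonneg (et_nonneg l ε p.1) (et_nonneg l ε p.2))]
      have hee : 0 ≤ et l ε p.1 * et l ε p.2 := mul_nonneg (et_nonneg l ε p.1) (et_nonneg l ε p.2)
      have hSK : 0 ≤ 7 * SK l p.1 p.2 :=
        (integral_nonneg fun t => abs_nonneg (zt l p.1 p.2 t)).trans h3
      rw [Real.norm_of_nonneg (integral_nonneg fun t => norm_nonneg _)]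
      simp only [e1]
      rw [integral_mul_const]
      calc (∫ t in Ioi (0 : ℝ), |zt l p.1 p.2 t|) *
            (et l ε p.1 * et l ε p.2 * |re2 μ x p.1 p.2|) ≤
          (7 * SK l p.1 p.2) * (et l ε p.1 * et l ε p.2 * (2 * μ.real univ ^ 2)) :=
            mul_le_mul h3 (mul_le_mul_of_nonneg_left (re2_le μ x p.1 p.2) hee)
              (mul_nonneg hee (abs_nonneg _)) hSK
        _ = 7 * (2 * μ.real univ ^ 2) * (SK l p.1 p.2 * (et l ε p.1 * et l ε p.2)) := by ring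
  have e2 : ∀ t : ℝ, ∫ p : X d × X d, zt l p.1 p.2 t *
      (et l ε p.1 * et l ε p.2 * re2 μ x p.1 p.2) = t⁻¹ ^ 3 * CGPZ2_G l ε μ x t := by
    intro t
    unfold CGPZ2_G zt
    rw [← integral_const_mul]
    refine integral_congr_ae (Eventually.of_forall fun p => ?_)
    dsimp only
    ring
  have h5 := hF.integral_prod_right
  simp only [e2] at h5
  refine ⟨h5, ?_⟩
  have h6 := integral_integral_swap (μ := (volume : Measure (X d × X d)))
    (ν := volume.restrict (Ioi (0 : ℝ))) (f := fun (p : X d × X d) (t : ℝ) =>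
      zt l p.1 p.2 t * (et l ε p.1 * et l ε p.2 * re2 μ x p.1 p.2)) hF
  simp only [e2] at h6
  rw [← h6]
  unfold PV
  refine integral_congr_ae ?_
  filter_upwards [hae] with p hp
  rw [integral_mul_const, (zt_int hl hp.1 hp.2.1 hp.2.2).2.1]

private theorem CGPZ2_c2 (n l : ℕ) : 0 < c2 d n l := by
  unfold c2
  have : 0 < Real.Gamma (((n : ℝ) + 1) / 2) := Real.Gamma_pos_of_pos (by positivity)
  positivity

private theorem CGPZ2_slice {n l : ℕ} (hn : 1 ≤ n) (hd : d = n + 2 * l + 3) {ε : ℝ} (hε : 0 < ε)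
    (μ : Measure (X d)) [IsFiniteMeasure μ] (x : X d) {t : ℝ} (ht : 0 < t) :
    Integrable (fun u : X d => ga (t ^ 2 / 4) u * (c2 d n l * Lg n l ε μ (x + u) u) ^ 2) ∧
    t ^ (n + 2 * l) * ∫ u : X d, ga (t ^ 2 / 4) u * (c2 d n l * Lg n l ε μ (x + u) u) ^ 2 =
      (4 * Real.pi) ^ ((d : ℝ) / 2) * (t⁻¹ ^ 3 * CGPZ2_G l ε μ x t) := by
  obtain ⟨h1, h2⟩ := Lg_gauss hn hd hε μ x (b := t ^ 2 / 4) (by positivity)
  refine ⟨h1, ?_⟩
  have h3 : 2 * Real.sqrt (t ^ 2 / 4) = t := by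
    rw [show t ^ 2 / 4 = (t / 2) ^ 2 by ring, Real.sqrt_sq (by positivity)]
    ring
  rw [h3] at h2
  have h4 : (Real.pi / (t ^ 2 / 4)) ^ ((d : ℝ) / 2) =
      (4 * Real.pi) ^ ((d : ℝ) / 2) * t⁻¹ ^ d := by
    rw [show Real.pi / (t ^ 2 / 4) = (4 * Real.pi) * (t⁻¹) ^ 2 by field_simp,
      Real.mul_rpow (by positivity) (by positivity)]
    congr 1
    rw [← Real.rpow_natCast (t⁻¹) 2, ← Real.rpow_mul (by positivity),
      ← Real.rpow_natCast (t⁻¹) d]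
    congr 1
    push_cast
    ring
  have h5 : t ^ (n + 2 * l) * t⁻¹ ^ d = t⁻¹ ^ 3 := by
    rw [hd, pow_add (t⁻¹) (n + 2 * l) 3, ← mul_assoc, ← mul_pow, mul_inv_cancel₀ ht.ne',
      one_pow, one_mul]
  have h6 : (∫ p : X d × X d, ‖p.1‖⁻¹ ^ (2 * l + 2) * ‖p.2‖⁻¹ ^ (2 * l + 2) *
      mta 1 p.1 p.2 t * (et l ε p.1 * et l ε p.2 * re2 μ x p.1 p.2)) = CGPZ2_G l ε μ x t := rfl
  rw [h6] at h2
  rw [h2, h4]
  calc t ^ (n + 2 * l) * ((4 * Real.pi) ^ ((d : ℝ) / 2) * t⁻¹ ^ d * CGPZ2_G l ε μ x t) =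
      (4 * Real.pi) ^ ((d : ℝ) / 2) * ((t ^ (n + 2 * l) * t⁻¹ ^ d) * CGPZ2_G l ε μ x t) := by
        ring
    _ = _ := by rw [h5]

private theorem CGPZ2_nonneg {n l : ℕ} (hn : 1 ≤ n) (hd : d = n + 2 * l + 3) {ε : ℝ}
    (hε : 0 < ε) (μ : Measure (X d)) [IsFiniteMeasure μ] (x : X d) {t : ℝ} (ht : 0 < t) :
    0 ≤ t⁻¹ ^ 3 * CGPZ2_G l ε μ x t := by
  obtain ⟨-, h2⟩ := CGPZ2_slice hn hd hε μ x ht
  have hP : 0 < (4 * Real.pi) ^ ((d : ℝ) / 2) := by positivity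
  have h3 : 0 ≤ (4 * Real.pi) ^ ((d : ℝ) / 2) * (t⁻¹ ^ 3 * CGPZ2_G l ε μ x t) := by
    rw [← h2]
    exact mul_nonneg (by positivity)
      (integral_nonneg fun u => mul_nonneg (Real.exp_nonneg _) (sq_nonneg _))
  exact (mul_nonneg_iff_of_pos_left hP).1 h3

theorem PV_ZK_nonneg {n l : ℕ} (hn : 1 ≤ n) (hl : 1 ≤ l) (hd : d = n + 2 * l + 3) {ε : ℝ}
    (hε : 0 < ε) (μ : Measure (X d)) [IsFiniteMeasure μ] (x : X d) :
    0 ≤ PV l ε μ (ZK l) x := by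
  rw [← (CGPZ2_fub hn hl hd hε μ x).2]
  exact setIntegral_nonneg measurableSet_Ioi fun t ht => CGPZ2_nonneg hn hd hε μ x ht

theorem PV_ZK {n l : ℕ} (hn : 1 ≤ n) (hl : 1 ≤ l) (hd : d = n + 2 * l + 3) :
    ∃ c : ℝ, 0 < c ∧ ∀ (ε : ℝ), 0 < ε → ∀ (μ : Measure (X d)), IsFiniteMeasure μ → ∀ x : X d,
      ∫⁻ Y, ENNReal.ofReal (kr (n + 2 * l) 0 (Y - x) * Lg n l ε μ Y (Y - x) ^ 2) ≤
        ENNReal.ofReal (c * PV l ε μ (ZK l) x) := by
  obtain ⟨K, hK, hKi⟩ := CGPZ2_time (n + 2 * l)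
  have hc := CGPZ2_c2 (d := d) n l
  have hP : 0 < (4 * Real.pi) ^ ((d : ℝ) / 2) := by positivity
  refine ⟨K⁻¹ * (c2 d n l ^ 2)⁻¹ * (4 * Real.pi) ^ ((d : ℝ) / 2), by positivity,
    fun ε hε μ hμ x => ?_⟩
  obtain ⟨H, hH⟩ : ∃ H : X d → ℝ, ∀ u, H u = (c2 d n l * Lg n l ε μ (x + u) u) ^ 2 :=
    ⟨_, fun _ => rfl⟩
  have hH0 : ∀ u, 0 ≤ H u := fun u => by
    rw [hH]
    exact sq_nonneg _
  have hga : ∀ (b : ℝ) (u : X d), 0 < ga b u := fun b u => Real.exp_pos _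
  have hsl : ∀ t : ℝ, 0 < t → Integrable (fun u : X d => ga (t ^ 2 / 4) u * H u) ∧
      t ^ (n + 2 * l) * ∫ u : X d, ga (t ^ 2 / 4) u * H u =
        (4 * Real.pi) ^ ((d : ℝ) / 2) * (t⁻¹ ^ 3 * CGPZ2_G l ε μ x t) := by
    intro t ht
    simp only [hH]
    exact CGPZ2_slice hn hd hε μ x ht
  have hgm : Measurable fun q : X d × ℝ => ga (q.2 ^ 2 / 4) q.1 := by
    unfold ga
    fun_prop
  have hHm : AEMeasurable H := by
    have h1 := (hsl 2 two_pos).1.aestronglyMeasurable.aemeasurable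
    have h2 : Measurable fun u : X d => (ga ((2 : ℝ) ^ 2 / 4) u)⁻¹ :=
      (hgm.comp (measurable_id.prodMk measurable_const)).inv
    have h3 : H = fun u => (ga ((2 : ℝ) ^ 2 / 4) u)⁻¹ * (ga ((2 : ℝ) ^ 2 / 4) u * H u) := by
      funext u
      rw [← mul_assoc, inv_mul_cancel₀ (hga _ _).ne', one_mul]
    rw [h3]
    exact h2.aemeasurable.mul h1
  have hm : AEMeasurable (Function.uncurry fun (u : X d) (t : ℝ) =>
      ENNReal.ofReal (t ^ (n + 2 * l) * (ga (t ^ 2 / 4) u * H u)))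
      ((volume : Measure (X d)).prod (volume.restrict (Ioi (0 : ℝ)))) := by
    have h4 : AEMeasurable (fun q : X d × ℝ => H q.1)
        ((volume : Measure (X d)).prod (volume.restrict (Ioi (0 : ℝ)))) :=
      hHm.comp_quasiMeasurePreserving Measure.quasiMeasurePreserving_fst
    exact ENNReal.measurable_ofReal.comp_aemeasurable
      ((measurable_snd.pow_const _).aemeasurable.mul (hgm.aemeasurable.mul h4))
  have hpt : ∀ u : X d, u ≠ 0 →
      ENNReal.ofReal (kr (n + 2 * l) 0 u * Lg n l ε μ (x + u) u ^ 2) =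
        ENNReal.ofReal (K⁻¹ * (c2 d n l ^ 2)⁻¹) * ∫⁻ t in Ioi (0 : ℝ),
          ENNReal.ofReal (t ^ (n + 2 * l) * (ga (t ^ 2 / 4) u * H u)) := by
    intro u hu
    obtain ⟨i1', i2'⟩ := hKi ‖u‖ (norm_pos_iff.2 hu)
    have e1 : ∀ t : ℝ, t ^ (n + 2 * l) * (ga (t ^ 2 / 4) u * H u) =
        t ^ (n + 2 * l) * Real.exp (-(t ^ 2 / 4 * ‖u‖ ^ 2)) * H u := by
      intro t
      rw [ga, mul_assoc]
    have e2 : ∫⁻ t in Ioi (0 : ℝ),
        ENNReal.ofReal (t ^ (n + 2 * l) * (ga (t ^ 2 / 4) u * H u)) =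
        ENNReal.ofReal (K * ‖u‖⁻¹ ^ (n + 2 * l + 1) * H u) := by
      simp only [e1]
      rw [← i2', ← integral_mul_const, ofReal_integral_eq_lintegral_ofReal (i1'.mul_const _)]
      filter_upwards [ae_restrict_mem measurableSet_Ioi] with t ht
      have ht' : 0 < t := ht
      exact mul_nonneg (by positivity) (hH0 u)
    have e3 : kr (n + 2 * l) 0 u = ‖u‖⁻¹ ^ (n + 2 * l + 1) := by
      rw [kr, zero_pow two_ne_zero, add_zero, Real.sqrt_sq (norm_nonneg u)]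
    rw [e2, e3, ← ENNReal.ofReal_mul (by positivity), hH]
    congr 1
    field_simp
  have hne : ∀ᵐ u : X d, u ≠ 0 := compl_mem_ae_iff.2 (CGPZ2_single (by omega) 0)
  have hin : ∀ t : ℝ, 0 < t → ∫⁻ u : X d,
      ENNReal.ofReal (t ^ (n + 2 * l) * (ga (t ^ 2 / 4) u * H u)) =
        ENNReal.ofReal ((4 * Real.pi) ^ ((d : ℝ) / 2) * (t⁻¹ ^ 3 * CGPZ2_G l ε μ x t)) := by
    intro t ht
    obtain ⟨h5, h6⟩ := hsl t ht
    rw [← h6, ← integral_const_mul, ofReal_integral_eq_lintegral_ofReal (h5.const_mul _)]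
    exact Eventually.of_forall fun u =>
      mul_nonneg (by positivity) (mul_nonneg (hga _ _).le (hH0 u))
  obtain ⟨f1', f2'⟩ := CGPZ2_fub hn hl hd hε μ x
  have hlast : ∫⁻ t in Ioi (0 : ℝ),
      ENNReal.ofReal ((4 * Real.pi) ^ ((d : ℝ) / 2) * (t⁻¹ ^ 3 * CGPZ2_G l ε μ x t)) =
        ENNReal.ofReal ((4 * Real.pi) ^ ((d : ℝ) / 2) * PV l ε μ (ZK l) x) := by
    rw [← f2', ← integral_const_mul, ofReal_integral_eq_lintegral_ofReal (f1'.const_mul _)]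
    filter_upwards [ae_restrict_mem measurableSet_Ioi] with t ht
    exact mul_nonneg hP.le (CGPZ2_nonneg hn hd hε μ x ht)
  refine le_of_eq ?_
  calc ∫⁻ Y, ENNReal.ofReal (kr (n + 2 * l) 0 (Y - x) * Lg n l ε μ Y (Y - x) ^ 2) =
      ∫⁻ u, ENNReal.ofReal (kr (n + 2 * l) 0 (x + u - x) *
        Lg n l ε μ (x + u) (x + u - x) ^ 2) :=
        (lintegral_add_left_eq_self (fun Y : X d => ENNReal.ofReal
          (kr (n + 2 * l) 0 (Y - x) * Lg n l ε μ Y (Y - x) ^ 2)) x).symm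
    _ = ∫⁻ u, ENNReal.ofReal (kr (n + 2 * l) 0 u * Lg n l ε μ (x + u) u ^ 2) := by
        simp only [add_sub_cancel_left]
    _ = ∫⁻ u : X d, ENNReal.ofReal (K⁻¹ * (c2 d n l ^ 2)⁻¹) * ∫⁻ t in Ioi (0 : ℝ),
          ENNReal.ofReal (t ^ (n + 2 * l) * (ga (t ^ 2 / 4) u * H u)) := by
        refine lintegral_congr_ae ?_
        filter_upwards [hne] with u hu using hpt u hu
    _ = ENNReal.ofReal (K⁻¹ * (c2 d n l ^ 2)⁻¹) * ∫⁻ u : X d, ∫⁻ t in Ioi (0 : ℝ),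
          ENNReal.ofReal (t ^ (n + 2 * l) * (ga (t ^ 2 / 4) u * H u)) :=
        lintegral_const_mul' _ _ ENNReal.ofReal_ne_top
    _ = ENNReal.ofReal (K⁻¹ * (c2 d n l ^ 2)⁻¹) * ∫⁻ t in Ioi (0 : ℝ), ∫⁻ u : X d,
          ENNReal.ofReal (t ^ (n + 2 * l) * (ga (t ^ 2 / 4) u * H u)) := by
        rw [lintegral_lintegral_swap hm]
    _ = ENNReal.ofReal (K⁻¹ * (c2 d n l ^ 2)⁻¹) * ∫⁻ t in Ioi (0 : ℝ),
          ENNReal.ofReal ((4 * Real.pi) ^ ((d : ℝ) / 2) * (t⁻¹ ^ 3 * CGPZ2_G l ε μ x t)) := by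
        rw [setLIntegral_congr_fun measurableSet_Ioi fun t ht => hin t ht]
    _ = ENNReal.ofReal (K⁻¹ * (c2 d n l ^ 2)⁻¹) *
          ENNReal.ofReal ((4 * Real.pi) ^ ((d : ℝ) / 2) * PV l ε μ (ZK l) x) := by
        rw [hlast]
    _ = _ := by
        rw [← ENNReal.ofReal_mul (by positivity)]
        congr 1
        ring

end Pool.Agent.H1.CG
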