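import Pool.Agent.H1.CG.EtI
import Pool.Agent.H1.CG.SymA

/-!
Row Sym.  |m3| ≤ μ(X)^3 and continuity or measurability; m3 is invariant under (a,b) ↦ (-a,b-a) and (a,b) ↦ (a-b,-b)
(m3 μ a b = ∭ cos (⟪y''-y,a⟫ - ⟪y''-y',b⟫), rename the points); both maps preserve Lebesgue measure on X d × X d (linear with
determinant ±1: (a,b) ↦ (a,b-a) and (a,b) ↦ (b,a), (a,b) ↦ (-a,b): measurePreserving_add_prod.., Measure.prod_swap, neg);
et is even.  Then 3 JK W = 3 JK LK by Cert.ident a.e. (a = 0, b = 0, a = b are null sets; d ≥ 1).  LK satisfies |LK| ≤ SK.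
-/

set_option autoImplicit false

open MeasureTheory Filter Topology Metric Set
open scoped RealInnerProductSpace ENNReal

namespace Pool.Agent.H1.CG

open Pool.Agent.RZ Pool.Agent.H1.LD Pool.Agent.H48.R7

variable {d : ℕ}

/-! ### the cubic form `m3` -/

private theorem CGSym_s12 (μ : Measure (X d)) [IsFiniteMeasure μ] (φ : X d → X d → X d → ℝ)
    (hφ : Continuous fun q : (X d × X d) × X d => φ q.1.1 q.1.2 q.2)
    (hb : ∀ x y z, |φ x y z| ≤ 1) :
    ∫ x, ∫ y, ∫ z, φ x y z ∂μ ∂μ ∂μ = ∫ x, ∫ y, ∫ z, φ y x z ∂μ ∂μ ∂μ := by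
  have h0 : Integrable (fun q : (X d × X d) × X d => φ q.1.1 q.1.2 q.2) ((μ.prod μ).prod μ) := by
    refine (integrable_const (1 : ℝ)).mono' hφ.aestronglyMeasurable
      (Eventually.of_forall fun q => ?_)
    rw [Real.norm_eq_abs]
    exact hb _ _ _
  exact integral_integral_swap (f := fun x y => ∫ z, φ x y z ∂μ) h0.integral_prod_left

private theorem CGSym_s23 (μ : Measure (X d)) [IsFiniteMeasure μ] (φ : X d → X d → X d → ℝ)
    (hφ : Continuous fun q : (X d × X d) × X d => φ q.1.1 q.1.2 q.2)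
    (hb : ∀ x y z, |φ x y z| ≤ 1) :
    ∫ x, ∫ y, ∫ z, φ x y z ∂μ ∂μ ∂μ = ∫ x, ∫ y, ∫ z, φ x z y ∂μ ∂μ ∂μ := by
  refine integral_congr_ae (Eventually.of_forall fun x => ?_)
  refine integral_integral_swap (f := fun y z => φ x y z) ?_
  refine (integrable_const (1 : ℝ)).mono' ?_ (Eventually.of_forall fun q => ?_)
  · have : Continuous fun q : X d × X d => φ x q.1 q.2 :=
      hφ.comp (by fun_prop : Continuous fun q : X d × X d => ((x, q.1), q.2))
    exact this.aestronglyMeasurable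
  · rw [Real.norm_eq_abs]
    exact hb _ _ _

private theorem CGSym_int (μ : Measure (X d)) [IsFiniteMeasure μ] (f : X d → ℝ)
    (hf : Continuous f) (hb : ∀ x, |f x| ≤ 1) : Integrable f μ := by
  refine (integrable_const (1 : ℝ)).mono' hf.aestronglyMeasurable
    (Eventually.of_forall fun q => ?_)
  rw [Real.norm_eq_abs]
  exact hb _

private theorem CGSym_re2 (μ : Measure (X d)) [IsFiniteMeasure μ] (x a b : X d) :
    re2 μ x a b = ∫ y, ∫ z, Real.cos (⟪x - y, a⟫ - ⟪x - z, b⟫) ∂μ ∂μ := by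
  have hc : ∀ c : X d, Integrable (fun y => Real.cos ⟪x - y, c⟫) μ := fun c =>
    CGSym_int μ _ (by fun_prop) fun y => Real.abs_cos_le_one _
  have hs : ∀ c : X d, Integrable (fun y => Real.sin ⟪x - y, c⟫) μ := fun c =>
    CGSym_int μ _ (by fun_prop) fun y => Real.abs_sin_le_one _
  have e1 : ∀ y : X d, ∫ z, Real.cos (⟪x - y, a⟫ - ⟪x - z, b⟫) ∂μ =
      Real.cos ⟪x - y, a⟫ * oc μ x b + Real.sin ⟪x - y, a⟫ * os μ x b := by
    intro y
    simp only [Real.cos_sub]
    rw [integral_add ((hc b).const_mul _) ((hs b).const_mul _), integral_const_mul,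
      integral_const_mul]
    rfl
  simp only [e1]
  rw [integral_add ((hc a).mul_const _) ((hs a).mul_const _), integral_mul_const,
    integral_mul_const]
  rfl

private theorem CGSym_m3 (μ : Measure (X d)) [IsFiniteMeasure μ] (a b : X d) :
    m3 μ a b = ∫ x, ∫ y, ∫ z, Real.cos (⟪x - y, a⟫ - ⟪x - z, b⟫) ∂μ ∂μ ∂μ := by
  unfold m3
  simp only [CGSym_re2]

private theorem CGSym_m3a (μ : Measure (X d)) [IsFiniteMeasure μ] (a b : X d) :
    m3 μ (a - b) (-b) = m3 μ a b := by
  rw [CGSym_m3, CGSym_m3]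
  rw [CGSym_s12 μ (fun x y z => Real.cos (⟪x - y, a⟫ - ⟪x - z, b⟫)) (by fun_prop)
    (fun x y z => Real.abs_cos_le_one _)]
  have e : ∀ x y z : X d, Real.cos (⟪x - y, a - b⟫ - ⟪x - z, -b⟫) =
      Real.cos (⟪y - x, a⟫ - ⟪y - z, b⟫) := by
    intro x y z
    rw [← Real.cos_neg]
    congr 1
    simp only [inner_sub_left, inner_sub_right, inner_neg_right]
    ring
  simp only [e]

private theorem CGSym_m3b (μ : Measure (X d)) [IsFiniteMeasure μ] (a b : X d) :
    m3 μ (-a) (b - a) = m3 μ a b := by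
  rw [CGSym_m3, CGSym_m3]
  rw [CGSym_s23 μ (fun x y z => Real.cos (⟪x - y, a⟫ - ⟪x - z, b⟫)) (by fun_prop)
    (fun x y z => Real.abs_cos_le_one _),
    CGSym_s12 μ (fun x y z => Real.cos (⟪x - z, a⟫ - ⟪x - y, b⟫)) (by fun_prop)
    (fun x y z => Real.abs_cos_le_one _),
    CGSym_s23 μ (fun x y z => Real.cos (⟪y - z, a⟫ - ⟪y - x, b⟫)) (by fun_prop)
    (fun x y z => Real.abs_cos_le_one _)]
  have e : ∀ x y z : X d, Real.cos (⟪x - y, -a⟫ - ⟪x - z, b - a⟫) =
      Real.cos (⟪z - y, a⟫ - ⟪z - x, b⟫) := by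
    intro x y z
    rw [← Real.cos_neg]
    congr 1
    simp only [inner_sub_left, inner_sub_right, inner_neg_right]
    ring
  simp only [e]

private theorem CGSym_m3_le (μ : Measure (X d)) [IsFiniteMeasure μ] (a b : X d) :
    |m3 μ a b| ≤ 2 * μ.real univ ^ 2 * μ.real univ := by
  rw [← Real.norm_eq_abs]
  exact norm_integral_le_of_norm_le_const (Eventually.of_forall fun x => re2_le μ x a b)

private theorem CGSym_m3_meas (μ : Measure (X d)) [IsFiniteMeasure μ] :
    Measurable fun p : X d × X d => m3 μ p.1 p.2 := by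
  have hc := oc_measurable μ
  have hs := os_measurable μ
  have m1 : Measurable fun q : (X d × X d) × X d => (q.2, q.1.1) := by fun_prop
  have m2 : Measurable fun q : (X d × X d) × X d => (q.2, q.1.2) := by fun_prop
  have c1 := hc.comp m1
  have c2 := hc.comp m2
  have s1 := hs.comp m1
  have s2 := hs.comp m2
  simp only [Function.comp_def] at c1 c2 s1 s2
  have h : Measurable fun q : (X d × X d) × X d => re2 μ q.2 q.1.1 q.1.2 :=
    (c1.mul c2).add (s1.mul s2)
  have h' := StronglyMeasurable.integral_prod_right' (ν := μ)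
    (f := fun q : (X d × X d) × X d => re2 μ q.2 q.1.1 q.1.2) h.stronglyMeasurable
  exact h'.measurable

/-! ### the symmetries of the frequencies -/

/-- the first symmetry -/
private def CGSym_sg (p : X d × X d) : X d × X d := (-p.1, p.2 - p.1)

/-- the second symmetry -/
private def CGSym_ta (p : X d × X d) : X d × X d := (p.1 - p.2, -p.2)

private theorem CGSym_sg_sg (p : X d × X d) : CGSym_sg (CGSym_sg p) = p := by
  unfold CGSym_sg
  refine Prod.ext ?_ ?_
  · simp
  · simp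

private theorem CGSym_ta_ta (p : X d × X d) : CGSym_ta (CGSym_ta p) = p := by
  unfold CGSym_ta
  refine Prod.ext ?_ ?_
  · simp
  · simp

private theorem CGSym_sg_meas : Measurable (CGSym_sg : X d × X d → X d × X d) := by
  unfold CGSym_sg
  fun_prop

private theorem CGSym_ta_meas : Measurable (CGSym_ta : X d × X d → X d × X d) := by
  unfold CGSym_ta
  fun_prop

/-- the first symmetry as an equivalence -/
private def CGSym_sgE : (X d × X d) ≃ᵐ (X d × X d) where
  toFun := CGSym_sg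
  invFun := CGSym_sg
  left_inv := CGSym_sg_sg
  right_inv := CGSym_sg_sg
  measurable_toFun := CGSym_sg_meas
  measurable_invFun := CGSym_sg_meas

/-- the second symmetry as an equivalence -/
private def CGSym_taE : (X d × X d) ≃ᵐ (X d × X d) where
  toFun := CGSym_ta
  invFun := CGSym_ta
  left_inv := CGSym_ta_ta
  right_inv := CGSym_ta_ta
  measurable_toFun := CGSym_ta_meas
  measurable_invFun := CGSym_ta_meas

private theorem CGSym_sg_mp :
    MeasurePreserving (CGSym_sg : X d × X d → X d × X d) volume volume := by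
  have h1 : MeasurePreserving (fun z : X d × X d => (z.1, -z.1 + z.2))
      ((volume : Measure (X d)).prod volume) (volume.prod volume) :=
    measurePreserving_prod_neg_add volume volume
  have h2 : MeasurePreserving (Prod.map Neg.neg id : X d × X d → X d × X d)
      ((volume : Measure (X d)).prod volume) (volume.prod volume) :=
    (Measure.measurePreserving_neg volume).prod (MeasurePreserving.id volume)
  have h3 := h2.comp h1
  have e : (Prod.map Neg.neg id ∘ fun z : X d × X d => (z.1, -z.1 + z.2)) = CGSym_sg := by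
    funext z
    refine Prod.ext rfl ?_
    change -z.1 + z.2 = z.2 - z.1
    abel
  rw [e] at h3
  exact h3

private theorem CGSym_ta_mp :
    MeasurePreserving (CGSym_ta : X d × X d → X d × X d) volume volume := by
  have h1 : MeasurePreserving (Prod.swap : X d × X d → X d × X d)
      ((volume : Measure (X d)).prod volume) (volume.prod volume) :=
    Measure.measurePreserving_swap
  exact h1.comp (CGSym_sg_mp.comp h1)

private theorem CGSym_ae (hd : 0 < d) :
    ∀ᵐ p : X d × X d, p.1 ≠ 0 ∧ p.2 ≠ 0 ∧ p.1 ≠ p.2 := by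
  have : Nonempty (Fin d) := ⟨⟨0, hd⟩⟩
  have h0 : ∀ᵐ x : X d, x ≠ 0 := Measure.ae_ne volume 0
  have q1 : Measure.QuasiMeasurePreserving (Prod.fst : X d × X d → X d)
      (volume.prod volume) volume := Measure.quasiMeasurePreserving_fst
  have q2 : Measure.QuasiMeasurePreserving (Prod.snd : X d × X d → X d)
      (volume.prod volume) volume := Measure.quasiMeasurePreserving_snd
  have a1 : ∀ᵐ p : X d × X d, p.1 ≠ 0 := q1.ae h0
  have a2 : ∀ᵐ p : X d × X d, p.2 ≠ 0 := q2.ae h0
  have a3 : ∀ᵐ p : X d × X d, (CGSym_sg p).2 ≠ 0 := CGSym_sg_mp.quasiMeasurePreserving.ae a2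
  filter_upwards [a1, a2, a3] with p h1 h2 h3
  exact ⟨h1, h2, fun e => h3 (by unfold CGSym_sg; simp [e])⟩

/-! ### the weight -/

/-- the weight of the cubic form -/
private noncomputable def CGSym_G (l : ℕ) (ε : ℝ) (μ : Measure (X d)) (p : X d × X d) : ℝ :=
  et l ε p.1 * et l ε p.2 * et l ε (p.1 - p.2) * m3 μ p.1 p.2

private theorem CGSym_G_sg (l : ℕ) (ε : ℝ) (μ : Measure (X d)) [IsFiniteMeasure μ]
    (p : X d × X d) : CGSym_G l ε μ (CGSym_sg p) = CGSym_G l ε μ p := by
  unfold CGSym_G CGSym_sg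
  simp only
  rw [CGSym_m3b, et_neg, ← et_neg l ε (p.2 - p.1), neg_sub,
    show -p.1 - (p.2 - p.1) = -p.2 by abel, et_neg]
  ring

private theorem CGSym_G_ta (l : ℕ) (ε : ℝ) (μ : Measure (X d)) [IsFiniteMeasure μ]
    (p : X d × X d) : CGSym_G l ε μ (CGSym_ta p) = CGSym_G l ε μ p := by
  unfold CGSym_G CGSym_ta
  simp only
  rw [CGSym_m3a, et_neg, show p.1 - p.2 - -p.2 = p.1 by abel]
  ring

private theorem CGSym_G_meas (l : ℕ) (ε : ℝ) (μ : Measure (X d)) [IsFiniteMeasure μ] :
    Measurable (CGSym_G l ε μ : X d × X d → ℝ) := by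
  have he : Measurable (et l ε : X d → ℝ) := et_measurable l ε
  unfold CGSym_G
  exact (((he.comp measurable_fst).mul (he.comp measurable_snd)).mul
    (he.comp (measurable_fst.sub measurable_snd))).mul (CGSym_m3_meas μ)

private theorem CGSym_G_le (l : ℕ) (ε : ℝ) (μ : Measure (X d)) [IsFiniteMeasure μ]
    (p : X d × X d) : |CGSym_G l ε μ p| ≤
      et l ε p.1 * et l ε p.2 *
        ((l + 1).factorial * (2 * μ.real univ ^ 2 * μ.real univ)) := by
  unfold CGSym_G
  have h1 := et_nonneg l ε p.1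
  have h2 := et_nonneg l ε p.2
  have h3 := et_nonneg l ε (p.1 - p.2)
  have h4 := et_le l ε (p.1 - p.2)
  rw [abs_mul, abs_of_nonneg (mul_nonneg (mul_nonneg h1 h2) h3), mul_assoc]
  refine mul_le_mul_of_nonneg_left ?_ (mul_nonneg h1 h2)
  exact mul_le_mul h4 (CGSym_m3_le μ _ _) (abs_nonneg _) (by positivity)

private theorem CGSym_F_int {l : ℕ} (hd : 2 * l + 3 < d) {ε : ℝ} (hε : 0 < ε) (μ : Measure (X d))
    [IsFiniteMeasure μ] {V : X d → X d → ℝ} (hV : Measurable fun p : X d × X d => V p.1 p.2)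
    {C : ℝ} (hC : ∀ a b, a ≠ 0 → b ≠ 0 → a ≠ b → |V a b| ≤ C * SK l a b) :
    Integrable fun p : X d × X d => V p.1 p.2 * CGSym_G l ε μ p := by
  have hS := (SK_int (d := d) l hε hd).const_mul
    (C * ((l + 1).factorial * (2 * μ.real univ ^ 2 * μ.real univ)))
  refine hS.mono' (hV.mul (CGSym_G_meas l ε μ)).aestronglyMeasurable ?_
  filter_upwards [CGSym_ae (d := d) (by omega)] with p hp
  obtain ⟨p1, p2, p3⟩ := hp
  have k := hC p.1 p.2 p1 p2 p3
  rw [norm_mul, Real.norm_eq_abs, Real.norm_eq_abs]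
  calc |V p.1 p.2| * |CGSym_G l ε μ p| ≤ C * SK l p.1 p.2 * |CGSym_G l ε μ p| :=
        mul_le_mul_of_nonneg_right k (abs_nonneg _)
    _ ≤ C * SK l p.1 p.2 * (et l ε p.1 * et l ε p.2 *
        ((l + 1).factorial * (2 * μ.real univ ^ 2 * μ.real univ))) :=
        mul_le_mul_of_nonneg_left (CGSym_G_le l ε μ p) ((abs_nonneg _).trans k)
    _ = _ := by ring

private theorem CGSym_three {l : ℕ} {ε : ℝ} (μ : Measure (X d)) [IsFiniteMeasure μ]
    {V : X d → X d → ℝ}
    (hI : Integrable fun p : X d × X d => V p.1 p.2 * CGSym_G l ε μ p) :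
    3 * JK l ε μ V = ∫ p : X d × X d,
      (V p.1 p.2 + V (-p.1) (p.2 - p.1) + V (p.1 - p.2) (-p.2)) * CGSym_G l ε μ p := by
  have hJ : JK l ε μ V = ∫ p : X d × X d, V p.1 p.2 * CGSym_G l ε μ p := rfl
  have i1 : Integrable fun p : X d × X d => V (-p.1) (p.2 - p.1) * CGSym_G l ε μ p := by
    have h := CGSym_sg_mp.integrable_comp_of_integrable hI
    refine h.congr (Eventually.of_forall fun p => ?_)
    change V (CGSym_sg p).1 (CGSym_sg p).2 * CGSym_G l ε μ (CGSym_sg p) = _
    rw [CGSym_G_sg]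
    rfl
  have i2 : Integrable fun p : X d × X d => V (p.1 - p.2) (-p.2) * CGSym_G l ε μ p := by
    have h := CGSym_ta_mp.integrable_comp_of_integrable hI
    refine h.congr (Eventually.of_forall fun p => ?_)
    change V (CGSym_ta p).1 (CGSym_ta p).2 * CGSym_G l ε μ (CGSym_ta p) = _
    rw [CGSym_G_ta]
    rfl
  have e1 : ∫ p : X d × X d, V (-p.1) (p.2 - p.1) * CGSym_G l ε μ p = JK l ε μ V := by
    rw [hJ]
    have h := MeasurePreserving.integral_comp' (f := (CGSym_sgE : (X d × X d) ≃ᵐ (X d × X d)))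
      CGSym_sg_mp (fun p : X d × X d => V p.1 p.2 * CGSym_G l ε μ p)
    rw [← h]
    refine integral_congr_ae (Eventually.of_forall fun p => ?_)
    change _ = V (CGSym_sg p).1 (CGSym_sg p).2 * CGSym_G l ε μ (CGSym_sg p)
    rw [CGSym_G_sg]
    rfl
  have e2 : ∫ p : X d × X d, V (p.1 - p.2) (-p.2) * CGSym_G l ε μ p = JK l ε μ V := by
    rw [hJ]
    have h := MeasurePreserving.integral_comp' (f := (CGSym_taE : (X d × X d) ≃ᵐ (X d × X d)))
      CGSym_ta_mp (fun p : X d × X d => V p.1 p.2 * CGSym_G l ε μ p)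
    rw [← h]
    refine integral_congr_ae (Eventually.of_forall fun p => ?_)
    change _ = V (CGSym_ta p).1 (CGSym_ta p).2 * CGSym_G l ε μ (CGSym_ta p)
    rw [CGSym_G_ta]
    rfl
  have a1 := integral_add (hI.add i1) i2
  have a2 := integral_add hI i1
  have a3 : (∫ p : X d × X d,
      (V p.1 p.2 + V (-p.1) (p.2 - p.1) + V (p.1 - p.2) (-p.2)) * CGSym_G l ε μ p) =
      ∫ p : X d × X d, (((fun p : X d × X d => V p.1 p.2 * CGSym_G l ε μ p) +
        fun p : X d × X d => V (-p.1) (p.2 - p.1) * CGSym_G l ε μ p) p +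
        V (p.1 - p.2) (-p.2) * CGSym_G l ε μ p) := by
    refine integral_congr_ae (Eventually.of_forall fun p => ?_)
    simp only [Pi.add_apply]
    ring
  simp only [Pi.add_apply] at a1 a2 a3
  rw [a3, a1, a2, e1, e2, ← hJ]
  ring

private theorem CGSym_LK_meas (l : ℕ) : Measurable fun p : X d × X d => LK l p.1 p.2 := by
  unfold LK
  fun_prop

theorem JK_symm {l : ℕ} (hd : 2 * l + 3 < d) {ε : ℝ} (hε : 0 < ε) (μ : Measure (X d))
    [IsFiniteMeasure μ] {W : X d → X d → ℝ} (hW : Cert l W) : JK l ε μ W = JK l ε μ (LK l) := by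
  obtain ⟨C, hC⟩ := hW.bound
  have t1 := CGSym_three μ (CGSym_F_int hd hε μ hW.meas hC)
  have t2 := CGSym_three μ (CGSym_F_int hd hε μ (CGSym_LK_meas (d := d) l) (C := 1)
    fun a b ha hb _ => by rw [one_mul]; exact LK_le l ha hb)
  have t3 : (∫ p : X d × X d,
      (W p.1 p.2 + W (-p.1) (p.2 - p.1) + W (p.1 - p.2) (-p.2)) * CGSym_G l ε μ p) =
      ∫ p : X d × X d, (LK l p.1 p.2 + LK l (-p.1) (p.2 - p.1) + LK l (p.1 - p.2) (-p.2)) *
        CGSym_G l ε μ p := by
    refine integral_congr_ae ?_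
    filter_upwards [CGSym_ae (d := d) (by omega)] with p hp
    rw [hW.ident p.1 p.2 hp.1 hp.2.1 hp.2.2]
  rw [t3, ← t2] at t1
  linarith

end Pool.Agent.H1.CG
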