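import Pool.Agent.H1.CG.JX
import Pool.Agent.H1.CG.Sym
import Pool.Agent.H1.CG.PL
import Pool.Agent.H1.CG.PZ2

/-!
Row EN.  For every x: c0 PV ZK x ≤ PV W x (Cert.pos for ν = nu l ε (nu_nice) and ω = oc μ x / (M+1), os μ x / (M+1), M = μ(X), nu_prod,
integrability by SK_int, ZK_le, Cert.bound), so
∫⁻ wk ∫⁻ .. ≤ ∫⁻ ofReal (wk c PV ZK) ≤ (c/c0) ofReal ∫ wk PV W = (c/c0) c1 JK W = (c/c0) c1 JK LK = (c/c0) ∫ wk PV LK = (c/c0) c2² ∫ wk ‖Fe‖².
-/

set_option autoImplicit false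

open MeasureTheory Filter Topology Metric Set
open scoped RealInnerProductSpace ENNReal

namespace Pool.Agent.H1.CG

open Pool.Agent.RZ Pool.Agent.H1.LD Pool.Agent.H48.R7

variable {d : ℕ}

private theorem CGEN_ae (hd : 0 < d) :
    ∀ᵐ p : X d × X d, p.1 ≠ 0 ∧ p.2 ≠ 0 ∧ p.1 ≠ p.2 := by
  have : Nonempty (Fin d) := ⟨⟨0, hd⟩⟩
  have : Nontrivial (X d) := inferInstance
  have hne : ∀ z : X d, ∀ᵐ Y : X d, Y ≠ z := fun z => by
    have h1 : (volume : Measure (X d)) {z} = 0 := measure_singleton z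
    have h2 := measure_eq_zero_iff_ae_notMem.1 h1
    filter_upwards [h2] with Y hY h
    exact hY (mem_singleton_iff.2 h)
  have hm : MeasurableSet {p : X d × X d | p.1 ≠ 0 ∧ p.2 ≠ 0 ∧ p.1 ≠ p.2} :=
    (measurableSet_eq_fun measurable_fst measurable_const).compl.inter
      ((measurableSet_eq_fun measurable_snd measurable_const).compl.inter
        (measurableSet_eq_fun measurable_fst measurable_snd).compl)
  rw [Measure.volume_eq_prod, Measure.ae_prod_iff_ae_ae hm]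
  filter_upwards [hne 0] with a ha
  filter_upwards [hne 0, hne a] with b hb hab
  exact ⟨ha, hb, fun h => hab h.symm⟩

private theorem CGEN_int {l : ℕ} (hd : 2 * l + 3 < d) {ε : ℝ} (hε : 0 < ε) {V : X d → X d → ℝ}
    (hm : Measurable fun p : X d × X d => V p.1 p.2) {C : ℝ}
    (hV : ∀ a b, a ≠ 0 → b ≠ 0 → a ≠ b → |V a b| ≤ C * SK l a b) {ω : X d → ℝ}
    (hω : Measurable ω) (hb : ∀ x, |ω x| ≤ 1) :
    Integrable fun p : X d × X d =>
      V p.1 p.2 * (ω p.1 * ω p.2) * (et l ε p.1 * et l ε p.2) := by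
  have h1 := (SK_int (d := d) l hε hd).const_mul C
  refine h1.mono' ?_ ?_
  · exact ((hm.mul ((hω.comp measurable_fst).mul (hω.comp measurable_snd))).mul
      (((et_measurable l ε).comp measurable_fst).mul
        ((et_measurable l ε).comp measurable_snd))).aestronglyMeasurable
  · filter_upwards [CGEN_ae (d := d) (by omega)] with p hp
    obtain ⟨h2, h3, h4⟩ := hp
    have h5 := hV p.1 p.2 h2 h3 h4
    have h6 : 0 ≤ et l ε p.1 * et l ε p.2 := mul_nonneg (et_nonneg l ε _) (et_nonneg l ε _)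
    have h7 : |ω p.1 * ω p.2| ≤ 1 := by
      rw [abs_mul]
      exact mul_le_one₀ (hb _) (abs_nonneg _) (hb _)
    rw [Real.norm_eq_abs, abs_mul, abs_mul, abs_of_nonneg h6]
    have h8 : |V p.1 p.2| * |ω p.1 * ω p.2| ≤ C * SK l p.1 p.2 :=
      (mul_le_of_le_one_right (abs_nonneg _) h7).trans h5
    calc |V p.1 p.2| * |ω p.1 * ω p.2| * (et l ε p.1 * et l ε p.2)
        ≤ C * SK l p.1 p.2 * (et l ε p.1 * et l ε p.2) := mul_le_mul_of_nonneg_right h8 h6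
      _ = C * (SK l p.1 p.2 * (et l ε p.1 * et l ε p.2)) := by ring

private theorem CGEN_split {l : ℕ} (hd : 2 * l + 3 < d) {ε : ℝ} (hε : 0 < ε) {V : X d → X d → ℝ}
    (hm : Measurable fun p : X d × X d => V p.1 p.2) {C : ℝ}
    (hV : ∀ a b, a ≠ 0 → b ≠ 0 → a ≠ b → |V a b| ≤ C * SK l a b)
    (μ : Measure (X d)) (x : X d) {A : ℝ} {ω₁ ω₂ : X d → ℝ}
    (e1 : ∀ a, oc μ x a = A * ω₁ a) (e2 : ∀ a, os μ x a = A * ω₂ a)
    (m1 : Measurable ω₁) (m2 : Measurable ω₂) (b1 : ∀ a, |ω₁ a| ≤ 1) (b2 : ∀ a, |ω₂ a| ≤ 1) :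
    PV l ε μ V x = A ^ 2 *
      (∫ p, V p.1 p.2 * (ω₁ p.1 * ω₁ p.2) ∂((nu l ε : Measure (X d)).prod (nu l ε)) +
        ∫ p, V p.1 p.2 * (ω₂ p.1 * ω₂ p.2) ∂((nu l ε : Measure (X d)).prod (nu l ε))) := by
  rw [nu_prod l hε hd, nu_prod l hε hd, ← integral_add (CGEN_int hd hε hm hV m1 b1)
    (CGEN_int hd hε hm hV m2 b2), ← integral_const_mul]
  unfold PV re2
  refine integral_congr_ae (Eventually.of_forall fun p => ?_)
  simp only [e1, e2]
  ring

private theorem CGEN_pos {l : ℕ} (hl : 1 ≤ l) (hd : 2 * l + 3 < d) {W : X d → X d → ℝ}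
    (hW : Cert l W) : ∃ c : ℝ, 0 < c ∧ ∀ ε : ℝ, 0 < ε → ∀ μ : Measure (X d), IsFiniteMeasure μ →
      ∀ x : X d, c * PV l ε μ (ZK l) x ≤ PV l ε μ W x := by
  obtain ⟨c, hc, hpos⟩ := hW.pos
  obtain ⟨Cb, hCb⟩ := hW.bound
  obtain ⟨Cz, -, hCz⟩ := ZK_le (d := d) l hl
  refine ⟨c, hc, fun ε hε μ hμ x => ?_⟩
  have hM : 0 ≤ μ.real univ := measureReal_nonneg
  obtain ⟨A, hAdef⟩ : ∃ A : ℝ, A = μ.real univ + 1 := ⟨_, rfl⟩
  have hA : 0 < A := by rw [hAdef]; linarith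
  obtain ⟨ω₁, e1⟩ : ∃ ω : X d → ℝ, ∀ a, ω a = oc μ x a / A := ⟨_, fun _ => rfl⟩
  obtain ⟨ω₂, e2⟩ : ∃ ω : X d → ℝ, ∀ a, ω a = os μ x a / A := ⟨_, fun _ => rfl⟩
  have m1 : Measurable ω₁ := by
    have : ω₁ = fun a => oc μ x a / A := funext e1
    rw [this]
    exact ((oc_measurable μ).comp (measurable_const.prodMk measurable_id)).div_const A
  have m2 : Measurable ω₂ := by
    have : ω₂ = fun a => os μ x a / A := funext e2
    rw [this]
    exact ((os_measurable μ).comp (measurable_const.prodMk measurable_id)).div_const A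
  have b1 : ∀ a, |ω₁ a| ≤ 1 := fun a => by
    rw [e1, abs_div, abs_of_pos hA, div_le_one hA, hAdef]
    have := oc_le μ x a
    linarith
  have b2 : ∀ a, |ω₂ a| ≤ 1 := fun a => by
    rw [e2, abs_div, abs_of_pos hA, div_le_one hA, hAdef]
    have := os_le μ x a
    linarith
  have f1 : ∀ a, oc μ x a = A * ω₁ a := fun a => by rw [e1]; field_simp
  have f2 : ∀ a, os μ x a = A * ω₂ a := fun a => by rw [e2]; field_simp
  rw [CGEN_split hd hε (ZK_measurable l) hCz μ x f1 f2 m1 m2 b1 b2,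
    CGEN_split hd hε hW.meas hCb μ x f1 f2 m1 m2 b1 b2]
  have g1 := hpos (nu l ε) (nu_nice l hε hd) ω₁ m1 b1
  have g2 := hpos (nu l ε) (nu_nice l hε hd) ω₂ m2 b2
  have g3 := add_le_add g1 g2
  have g4 := mul_le_mul_of_nonneg_left g3 (sq_nonneg A)
  refine le_trans (le_of_eq ?_) g4
  ring

private theorem CGEN_of {α : Type} [MeasurableSpace α] {m : Measure α} {f : α → ℝ}
    (hf : ∀ x, 0 ≤ f x) : ENNReal.ofReal (∫ x, f x ∂m) ≤ ∫⁻ x, ENNReal.ofReal (f x) ∂m := by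
  by_cases h : Integrable f m
  · rw [ofReal_integral_eq_lintegral_ofReal h (Eventually.of_forall hf)]
  · rw [integral_undef h, ENNReal.ofReal_zero]
    exact bot_le

theorem cg_energy {n l : ℕ} (hn : 1 ≤ n) (hl : 1 ≤ l) (hd : d = n + 2 * l + 3)
    {W : X d → X d → ℝ}
    (hW : Cert l W) : ∃ C : ℝ, 0 < C ∧ ∀ (ε : ℝ), 0 < ε → ∀ (μ : Measure (X d)),
      IsFiniteMeasure μ →
      ∫⁻ x, ENNReal.ofReal (wk n l ε μ x) *
          ∫⁻ Y, ENNReal.ofReal (kr (n + 2 * l) 0 (Y - x) * Lg n l ε μ Y (Y - x) ^ 2) ≤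
        ENNReal.ofReal C *
          ∫⁻ Y, ENNReal.ofReal (‖Fe n ε μ Y‖ ^ 2 * wk n l ε μ Y) := by
  obtain ⟨c, hc, hZ⟩ := PV_ZK (d := d) hn hl hd
  obtain ⟨c0, hc0, hpos⟩ := CGEN_pos hl (by omega) hW
  obtain ⟨Cb, hCb⟩ := hW.bound
  refine ⟨c / c0 * c2 d n l ^ 2 + 1, by positivity, fun ε hε μ hμ => ?_⟩
  have h1 : ∀ x, ENNReal.ofReal (wk n l ε μ x) *
      ∫⁻ Y, ENNReal.ofReal (kr (n + 2 * l) 0 (Y - x) * Lg n l ε μ Y (Y - x) ^ 2) ≤
      ENNReal.ofReal (c / c0 * (wk n l ε μ x * PV l ε μ W x)) := by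
    intro x
    have hw := wk_nonneg n l hε μ x
    have h2 := hpos ε hε μ hμ x
    have h3 : c * PV l ε μ (ZK l) x ≤ c / c0 * PV l ε μ W x := by
      rw [div_mul_eq_mul_div, le_div_iff₀ hc0]
      have := mul_le_mul_of_nonneg_left h2 hc.le
      linarith
    have h4 := mul_le_mul_of_nonneg_left h3 hw
    calc _ ≤ ENNReal.ofReal (wk n l ε μ x) * ENNReal.ofReal (c * PV l ε μ (ZK l) x) := by
          gcongr
          exact hZ ε hε μ hμ x
      _ = ENNReal.ofReal (wk n l ε μ x * (c * PV l ε μ (ZK l) x)) := (ENNReal.ofReal_mul hw).symm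
      _ ≤ _ := ENNReal.ofReal_le_ofReal (by linarith)
  have hnn : ∀ x, 0 ≤ PV l ε μ W x := fun x =>
    (mul_nonneg hc0.le (PV_ZK_nonneg hn hl hd hε μ x)).trans (hpos ε hε μ hμ x)
  obtain ⟨hi, he⟩ := JK_eq hn hd hε μ hW.meas hCb
  have hLm : Measurable fun p : X d × X d => LK l p.1 p.2 :=
    ((measurable_fst.norm.inv.pow_const _).mul (measurable_snd.norm.inv.pow_const _)).mul
      (measurable_fst.inner measurable_snd)
  obtain ⟨-, he'⟩ := JK_eq hn hd hε μ hLm (C := 1)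
    (fun a b ha hb _ => by rw [one_mul]; exact LK_le l ha hb)
  have h3 : ∫ x, wk n l ε μ x * PV l ε μ W x =
      c2 d n l ^ 2 * ∫ x, ‖Fe n ε μ x‖ ^ 2 * wk n l ε μ x := by
    rw [he, JK_symm (by omega) hε μ hW, ← he', ← integral_const_mul]
    refine integral_congr_ae (Eventually.of_forall fun x => ?_)
    simp only
    rw [PV_LK hn hd hε μ x]
    ring
  have h5 : ∀ x, 0 ≤ c / c0 * (wk n l ε μ x * PV l ε μ W x) := fun x => by
    have := wk_nonneg n l hε μ x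
    have := hnn x
    positivity
  have h6 : ∀ x, 0 ≤ ‖Fe n ε μ x‖ ^ 2 * wk n l ε μ x := fun x => by
    have := wk_nonneg n l hε μ x
    positivity
  calc _ ≤ ∫⁻ x, ENNReal.ofReal (c / c0 * (wk n l ε μ x * PV l ε μ W x)) := lintegral_mono h1
    _ = ENNReal.ofReal (∫ x, c / c0 * (wk n l ε μ x * PV l ε μ W x)) :=
        (ofReal_integral_eq_lintegral_ofReal (hi.const_mul _) (Eventually.of_forall h5)).symm
    _ = ENNReal.ofReal (c / c0 * c2 d n l ^ 2 * ∫ x, ‖Fe n ε μ x‖ ^ 2 * wk n l ε μ x) := by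
        rw [integral_const_mul, h3, mul_assoc]
    _ = ENNReal.ofReal (c / c0 * c2 d n l ^ 2) *
          ENNReal.ofReal (∫ x, ‖Fe n ε μ x‖ ^ 2 * wk n l ε μ x) :=
        ENNReal.ofReal_mul (by positivity)
    _ ≤ _ := mul_le_mul' (ENNReal.ofReal_le_ofReal (by linarith)) (CGEN_of h6)

end Pool.Agent.H1.CG
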