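import Pool.Agent.H1.CG.Eta

/-!
Row EtI.  Integrability with singular weights, the measure nu.
(The integral of |a|^(-j) over the unit ball is finite for j < d; (1+|a|)^(-N) is integrable for N > d; et_decay, et_le.
nu_prod: Measure.prod_withDensity, integral_withDensity_eq_integral_smul, ..)
-/

set_option autoImplicit false

open MeasureTheory Filter Topology Metric Set
open scoped RealInnerProductSpace ENNReal

namespace Pool.Agent.H1.CG

open Pool.Agent.RZ Pool.Agent.H1.LD Pool.Agent.H48.R7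

variable {d : ℕ}

private theorem CGEtI_nt {j : ℕ} (hj : j < d) : Nontrivial (X d) :=
  Module.nontrivial_of_finrank_pos (R := ℝ) (by rw [finrank_euclideanSpace_fin]; omega)

/-- the model of a singular integrable function -/
private theorem CGEtI_g {j : ℕ} (hj : j < d) :
    Integrable fun a : X d => ‖a‖⁻¹ ^ j * (1 + ‖a‖)⁻¹ ^ (d + 1) := by
  have := CGEtI_nt hj
  have h1 := (integrable_fun_norm_addHaar (volume : Measure (X d))
    (f := fun r : ℝ => r⁻¹ ^ j * (1 + r)⁻¹ ^ (d + 1))).2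
  refine h1 ?_
  have h2 : IntegrableOn (fun x : ℝ => (x + 1) ^ (-2 : ℝ)) (Ioi 0) :=
    integrableOn_add_rpow_Ioi_of_lt (by norm_num) (by norm_num)
  refine Integrable.mono' h2 ?_ ?_
  · exact Measurable.aestronglyMeasurable (by fun_prop)
  · filter_upwards [ae_restrict_mem measurableSet_Ioi] with y hy
    have hy0 : (0 : ℝ) < y := hy
    have h3 : Module.finrank ℝ (X d) = d := finrank_euclideanSpace_fin
    rw [h3, smul_eq_mul, Real.norm_of_nonneg (by positivity)]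
    have h4 : y ^ (d - 1) * y⁻¹ ^ j ≤ (1 + y) ^ (d - 1) := by
      have h5 : y ^ (d - 1) = y ^ (d - 1 - j) * y ^ j := by
        rw [← pow_add]
        congr 1
        omega
      have h6 : y ^ (d - 1) * y⁻¹ ^ j = y ^ (d - 1 - j) := by
        rw [h5, inv_pow, mul_assoc, mul_inv_cancel₀ (by positivity), mul_one]
      rw [h6]
      calc y ^ (d - 1 - j) ≤ (1 + y) ^ (d - 1 - j) :=
            pow_le_pow_left₀ hy0.le (by linarith) _
        _ ≤ (1 + y) ^ (d - 1) := pow_le_pow_right₀ (by linarith) (by omega)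
    have h7 : (y + 1) ^ (-2 : ℝ) = (1 + y)⁻¹ ^ 2 := by
      rw [Real.rpow_neg (by positivity), inv_pow, add_comm y 1]
      norm_num
    have h8 : (1 + y) ^ (d - 1) * (1 + y)⁻¹ ^ (d + 1) = (1 + y)⁻¹ ^ 2 := by
      have h9 : d + 1 = (d - 1) + 2 := by omega
      have h10 : (1 + y)⁻¹ ^ (d + 1) = (1 + y)⁻¹ ^ (d - 1) * (1 + y)⁻¹ ^ 2 := by
        conv_lhs => rw [h9]
        rw [pow_add]
      rw [h10, ← mul_assoc, inv_pow (1 + y) (d - 1), mul_inv_cancel₀ (by positivity), one_mul]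
    rw [h7, ← h8, ← mul_assoc]
    exact mul_le_mul_of_nonneg_right h4 (by positivity)

theorem et_int (l : ℕ) {ε : ℝ} (hε : 0 < ε) {j : ℕ} (hj : j < d) (N : ℕ) :
    Integrable fun a : X d => ‖a‖⁻¹ ^ j * et l ε a * (1 + ‖a‖) ^ N := by
  obtain ⟨C, hC, h1⟩ := et_decay (d := d) l hε (N + (d + 1))
  refine Integrable.mono' ((CGEtI_g hj).const_mul C) ?_ (Eventually.of_forall fun a => ?_)
  · exact ((((measurable_norm (α := X d)).inv.pow_const j).mul (et_measurable l ε)).mul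
      (((measurable_norm (α := X d)).const_add 1).pow_const N)).aestronglyMeasurable
  · have h0 : 0 < 1 + ‖a‖ := by positivity
    have he := et_nonneg l ε a
    rw [Real.norm_of_nonneg (by positivity)]
    have h2 : et l ε a * (1 + ‖a‖) ^ N ≤ C * (1 + ‖a‖)⁻¹ ^ (d + 1) := by
      have h3 := h1 a
      rw [pow_add, ← mul_assoc] at h3
      rw [inv_pow, ← div_eq_mul_inv, le_div_iff₀ (by positivity)]
      exact h3
    calc ‖a‖⁻¹ ^ j * et l ε a * (1 + ‖a‖) ^ N = ‖a‖⁻¹ ^ j * (et l ε a * (1 + ‖a‖) ^ N) := by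
          ring
      _ ≤ ‖a‖⁻¹ ^ j * (C * (1 + ‖a‖)⁻¹ ^ (d + 1)) :=
          mul_le_mul_of_nonneg_left h2 (by positivity)
      _ = C * (‖a‖⁻¹ ^ j * (1 + ‖a‖)⁻¹ ^ (d + 1)) := by ring

private theorem CGEtI_et (l : ℕ) {ε : ℝ} (hε : 0 < ε) (hd : 0 < d) :
    Integrable fun a : X d => et l ε a := by
  have h1 := et_int (d := d) l hε (j := 0) hd 0
  simpa using h1

private theorem CGEtI_pt (l : ℕ) (ε : ℝ) (k : ℕ) (x p : X d) :
    ‖x - p‖⁻¹ ^ k * et l ε x ≤ ((l + 1).factorial * 2 ^ (d + 1)) *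
      (‖x - p‖⁻¹ ^ k * (1 + ‖x - p‖)⁻¹ ^ (d + 1)) + et l ε x := by
  have he := et_nonneg l ε x
  have hle := et_le l ε x
  have hf : (0 : ℝ) ≤ (l + 1).factorial := by positivity
  have h0 : 0 ≤ ‖x - p‖ := norm_nonneg _
  rcases le_total ‖x - p‖ 1 with h | h
  · have h1 : (1 : ℝ) ≤ 2 ^ (d + 1) * (1 + ‖x - p‖)⁻¹ ^ (d + 1) := by
      rw [← mul_pow]
      refine one_le_pow₀ ?_
      rw [← div_eq_mul_inv, le_div_iff₀ (by positivity)]
      linarith
    have h2 : 0 ≤ ‖x - p‖⁻¹ ^ k := by positivity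
    calc ‖x - p‖⁻¹ ^ k * et l ε x ≤ ‖x - p‖⁻¹ ^ k * (l + 1).factorial :=
          mul_le_mul_of_nonneg_left hle h2
      _ = (‖x - p‖⁻¹ ^ k * (l + 1).factorial) * 1 := by ring
      _ ≤ (‖x - p‖⁻¹ ^ k * (l + 1).factorial) * (2 ^ (d + 1) * (1 + ‖x - p‖)⁻¹ ^ (d + 1)) :=
          mul_le_mul_of_nonneg_left h1 (by positivity)
      _ = ((l + 1).factorial * 2 ^ (d + 1)) *
          (‖x - p‖⁻¹ ^ k * (1 + ‖x - p‖)⁻¹ ^ (d + 1)) := by ring
      _ ≤ _ := le_add_of_nonneg_right he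
  · have h1 : ‖x - p‖⁻¹ ^ k ≤ 1 := pow_le_one₀ (by positivity) (inv_le_one_of_one_le₀ h)
    have h2 : ‖x - p‖⁻¹ ^ k * et l ε x ≤ et l ε x := by
      calc ‖x - p‖⁻¹ ^ k * et l ε x ≤ 1 * et l ε x := mul_le_mul_of_nonneg_right h1 he
        _ = et l ε x := one_mul _
    have h3 : 0 ≤ ((l + 1).factorial * 2 ^ (d + 1)) *
      (‖x - p‖⁻¹ ^ k * (1 + ‖x - p‖)⁻¹ ^ (d + 1)) := by positivity
    linarith

private theorem CGEtI_me (l : ℕ) (ε : ℝ) :
    Measurable fun a : X d => ENNReal.ofReal (et l ε a) :=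
  ENNReal.measurable_ofReal.comp (et_measurable l ε)

theorem nu_nice (l : ℕ) {ε : ℝ} (hε : 0 < ε) (hd : 2 * l + 3 < d) :
    NiceK l (nu l ε : Measure (X d)) := by
  have := CGEtI_nt hd
  have he := CGEtI_et (d := d) l hε (by omega)
  refine ⟨isFiniteMeasure_withDensity_ofReal he.2, ((l + 1).factorial * 2 ^ (d + 1)) *
    (∫ y : X d, ‖y‖⁻¹ ^ (2 * l + 3) * (1 + ‖y‖)⁻¹ ^ (d + 1)) + ∫ x : X d, et l ε x,
    fun p => ?_⟩
  have hm : Measurable fun x : X d => ‖x - p‖ₑ⁻¹ ^ (2 * l + 3) :=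
    ((measurable_id.sub_const p).enorm.inv).pow_const _
  have hg := CGEtI_g hd
  have hgp : Integrable fun x : X d => ‖x - p‖⁻¹ ^ (2 * l + 3) * (1 + ‖x - p‖)⁻¹ ^ (d + 1) :=
    hg.comp_sub_right p
  unfold nu
  rw [lintegral_withDensity_eq_lintegral_mul _ (CGEtI_me l ε) hm]
  have h1 : ∫⁻ x, (((fun a : X d => ENNReal.ofReal (et l ε a)) *
      fun x : X d => ‖x - p‖ₑ⁻¹ ^ (2 * l + 3)) x) ≤
      ∫⁻ x : X d, ENNReal.ofReal (((l + 1).factorial * 2 ^ (d + 1)) *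
        (‖x - p‖⁻¹ ^ (2 * l + 3) * (1 + ‖x - p‖)⁻¹ ^ (d + 1)) + et l ε x) := by
    refine lintegral_mono_ae ?_
    have h2 : ({p}ᶜ : Set (X d)) ∈ ae (volume : Measure (X d)) :=
      compl_mem_ae_iff.2 (measure_singleton p)
    filter_upwards [h2] with x hx
    have h3 : 0 < ‖x - p‖ := norm_pos_iff.2 (sub_ne_zero.2 hx)
    have h4 : ‖x - p‖ₑ⁻¹ ^ (2 * l + 3) = ENNReal.ofReal (‖x - p‖⁻¹ ^ (2 * l + 3)) := by
      rw [ENNReal.ofReal_pow (by positivity), ENNReal.ofReal_inv_of_pos h3, ofReal_norm]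
    show ENNReal.ofReal (et l ε x) * ‖x - p‖ₑ⁻¹ ^ (2 * l + 3) ≤ _
    rw [h4, ← ENNReal.ofReal_mul (et_nonneg l ε x), mul_comm]
    exact ENNReal.ofReal_le_ofReal (CGEtI_pt l ε _ x p)
  refine h1.trans (le_of_eq ?_)
  have hsum : Integrable fun x : X d => ((l + 1).factorial * 2 ^ (d + 1)) *
      (‖x - p‖⁻¹ ^ (2 * l + 3) * (1 + ‖x - p‖)⁻¹ ^ (d + 1)) + et l ε x :=
    (hgp.const_mul _).add he
  rw [← ofReal_integral_eq_lintegral_ofReal hsum (Eventually.of_forall fun x => by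
      have h5 := et_nonneg l ε x
      show (0 : ℝ) ≤ ((l + 1).factorial * 2 ^ (d + 1)) *
        (‖x - p‖⁻¹ ^ (2 * l + 3) * (1 + ‖x - p‖)⁻¹ ^ (d + 1)) + et l ε x
      positivity)]
  rw [integral_add (hgp.const_mul _) he, integral_const_mul,
    integral_sub_right_eq_self (fun y : X d => ‖y‖⁻¹ ^ (2 * l + 3) * (1 + ‖y‖)⁻¹ ^ (d + 1)) p]

private theorem CGEtI_pr (l : ℕ) (ε : ℝ) :
    (nu l ε : Measure (X d)).prod (nu l ε) = (volume : Measure (X d × X d)).withDensity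
      fun z => ENNReal.ofReal (et l ε z.1) * ENNReal.ofReal (et l ε z.2) :=
  prod_withDensity (CGEtI_me l ε) (CGEtI_me l ε)

private theorem CGEtI_pm (l : ℕ) (ε : ℝ) : Measurable fun z : X d × X d =>
    ENNReal.ofReal (et l ε z.1) * ENNReal.ofReal (et l ε z.2) :=
  ((CGEtI_me l ε).comp measurable_fst).mul ((CGEtI_me l ε).comp measurable_snd)

private theorem CGEtI_tr (l : ℕ) (ε : ℝ) (z : X d × X d) :
    (ENNReal.ofReal (et l ε z.1) * ENNReal.ofReal (et l ε z.2)).toReal =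
      et l ε z.1 * et l ε z.2 := by
  rw [ENNReal.toReal_mul, ENNReal.toReal_ofReal (et_nonneg l ε _),
    ENNReal.toReal_ofReal (et_nonneg l ε _)]

theorem nu_prod (l : ℕ) {ε : ℝ} (hε : 0 < ε) (hd : 2 * l + 3 < d) (f : X d × X d → ℝ) :
    ∫ p, f p ∂((nu l ε : Measure (X d)).prod (nu l ε)) =
      ∫ p : X d × X d, f p * (et l ε p.1 * et l ε p.2) := by
  rw [CGEtI_pr, integral_withDensity_eq_integral_toReal_smul (CGEtI_pm l ε)
    (Eventually.of_forall fun z => ENNReal.mul_lt_top ENNReal.ofReal_lt_top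
      ENNReal.ofReal_lt_top)]
  refine integral_congr_ae (Eventually.of_forall fun z => ?_)
  show (ENNReal.ofReal (et l ε z.1) * ENNReal.ofReal (et l ε z.2)).toReal • f z =
    f z * (et l ε z.1 * et l ε z.2)
  rw [CGEtI_tr, smul_eq_mul, mul_comm]

private theorem CGEtI_rev (p q : X d) : ‖p - q‖ₑ = ‖q - p‖ₑ := by
  rw [← enorm_neg, neg_sub]

private theorem CGEtI_le (k : ℕ) (p : X d) : ‖‖p‖⁻¹ ^ k‖ₑ ≤ ‖p‖ₑ⁻¹ ^ k := by
  rcases eq_or_ne p 0 with rfl | h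
  · rcases Nat.eq_zero_or_pos k with rfl | hk
    · simp
    · simp [hk.ne']
  · have h1 : 0 < ‖p‖ := norm_pos_iff.2 h
    rw [Real.enorm_eq_ofReal (by positivity), ENNReal.ofReal_pow (by positivity),
      ENNReal.ofReal_inv_of_pos h1, ofReal_norm]

private theorem CGEtI_out {ν : Measure (X d)} {k : ℕ} {C : ℝ}
    (hC : ∀ p : X d, ∫⁻ x, ‖x - p‖ₑ⁻¹ ^ k ∂ν ≤ ENNReal.ofReal C) :
    ∫⁻ x, ‖x‖ₑ⁻¹ ^ k * ENNReal.ofReal C ∂ν < ∞ := by
  have hm : Measurable fun x : X d => ‖x‖ₑ⁻¹ ^ k := (measurable_enorm.inv).pow_const _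
  rw [lintegral_mul_const _ hm]
  have h1 := hC 0
  simp only [sub_zero] at h1
  exact ENNReal.mul_lt_top (h1.trans_lt ENNReal.ofReal_lt_top) ENNReal.ofReal_lt_top

private theorem CGEtI_S {l : ℕ} {ν : Measure (X d)} (h : NiceK l ν) :
    Integrable (fun p : X d × X d => SK l p.1 p.2) (ν.prod ν) := by
  obtain ⟨hf, C, hC⟩ := h
  have := hf
  have i1 : Integrable (fun p : X d × X d =>
      ‖p.1‖⁻¹ ^ (2 * l + 3) * ‖p.2‖⁻¹ ^ (2 * l + 3)) (ν.prod ν) := by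
    refine ⟨by fun_prop, lt_of_le_of_lt (lintegral_mono fun q => ?_)
      (b := ∫⁻ q : X d × X d, ‖q.1‖ₑ⁻¹ ^ (2 * l + 3) * ‖q.2‖ₑ⁻¹ ^ (2 * l + 3) ∂(ν.prod ν)) ?_⟩
    · rw [enorm_mul]
      exact mul_le_mul' (CGEtI_le _ _) (CGEtI_le _ _)
    · rw [lintegral_prod _ (by fun_prop)]
      refine lt_of_le_of_lt (lintegral_mono fun x => ?_) (CGEtI_out hC)
      simp only
      rw [lintegral_const_mul _ (by fun_prop)]
      gcongr
      have h1 := hC 0
      simpa only [sub_zero] using h1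
  have i2 : Integrable (fun p : X d × X d =>
      ‖p.1‖⁻¹ ^ (2 * l + 3) * ‖p.1 - p.2‖⁻¹ ^ (2 * l + 3)) (ν.prod ν) := by
    refine ⟨by fun_prop, lt_of_le_of_lt (lintegral_mono fun q => ?_)
      (b := ∫⁻ q : X d × X d, ‖q.1‖ₑ⁻¹ ^ (2 * l + 3) * ‖q.1 - q.2‖ₑ⁻¹ ^ (2 * l + 3)
        ∂(ν.prod ν)) ?_⟩
    · rw [enorm_mul]
      exact mul_le_mul' (CGEtI_le _ _) (CGEtI_le _ _)
    · rw [lintegral_prod _ (by fun_prop)]
      refine lt_of_le_of_lt (lintegral_mono fun x => ?_) (CGEtI_out hC)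
      simp only
      rw [lintegral_const_mul _ (by fun_prop)]
      gcongr
      simp only [CGEtI_rev x]
      exact hC x
  have i3 : Integrable (fun p : X d × X d =>
      ‖p.2‖⁻¹ ^ (2 * l + 3) * ‖p.1 - p.2‖⁻¹ ^ (2 * l + 3)) (ν.prod ν) := by
    refine ⟨by fun_prop, lt_of_le_of_lt (lintegral_mono fun q => ?_)
      (b := ∫⁻ q : X d × X d, ‖q.2‖ₑ⁻¹ ^ (2 * l + 3) * ‖q.1 - q.2‖ₑ⁻¹ ^ (2 * l + 3)
        ∂(ν.prod ν)) ?_⟩
    · rw [enorm_mul]
      exact mul_le_mul' (CGEtI_le _ _) (CGEtI_le _ _)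
    · rw [lintegral_prod_symm _ (by fun_prop)]
      refine lt_of_le_of_lt (lintegral_mono fun x => ?_) (CGEtI_out hC)
      simp only
      rw [lintegral_const_mul _ (by fun_prop)]
      gcongr
      exact hC x
  exact (i1.add i2).add i3

theorem SK_int (l : ℕ) {ε : ℝ} (hε : 0 < ε) (hd : 2 * l + 3 < d) :
    Integrable fun p : X d × X d => SK l p.1 p.2 * (et l ε p.1 * et l ε p.2) := by
  have h1 := CGEtI_S (nu_nice (d := d) l hε hd)
  rw [CGEtI_pr, integrable_withDensity_iff_integrable_smul' (CGEtI_pm l ε)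
    (Eventually.of_forall fun z => ENNReal.mul_lt_top ENNReal.ofReal_lt_top
      ENNReal.ofReal_lt_top)] at h1
  refine h1.congr (Eventually.of_forall fun z => ?_)
  show (ENNReal.ofReal (et l ε z.1) * ENNReal.ofReal (et l ε z.2)).toReal • SK l z.1 z.2 =
    SK l z.1 z.2 * (et l ε z.1 * et l ε z.2)
  rw [CGEtI_tr, smul_eq_mul, mul_comm]

end Pool.Agent.H1.CG
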