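import Pool.Agent.H1.CG.D0

/-!
Row Eta.  The functions et and la.  -s - ε^2|a|^2/(4s) ≤ -s/2 - ε|a|/√2.. gives the decay; et_la: substitution s = |a|^2/(4 σ)
(MeasureTheory.integral_comp_rpow_Ioi or integral_comp_inv..); et_lim: dominated convergence.
-/

set_option autoImplicit false

open MeasureTheory Filter Topology Metric Set
open scoped RealInnerProductSpace ENNReal

namespace Pool.Agent.H1.CG

open Pool.Agent.RZ Pool.Agent.H1.LD Pool.Agent.H48.R7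

variable {d : ℕ}

private lemma CGEta_int (l : ℕ) {c : ℝ} (hc : 0 < c) :
    IntegrableOn (fun s : ℝ => s ^ (l + 1) * Real.exp (-(c * s))) (Ioi (0 : ℝ)) := by
  have h := Real.GammaIntegral_convergent (s := (l : ℝ) + 2) (by positivity)
  have h2 := (integrableOn_Ioi_comp_mul_left_iff (fun x : ℝ => Real.exp (-x) * x ^ ((l : ℝ) + 2 - 1)) 0 hc).mpr
    (by simpa using h)
  have h3 := h2.const_mul (c ^ (l + 1))⁻¹
  refine IntegrableOn.congr_fun h3 ?_ measurableSet_Ioi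
  intro s hs
  have hs' : (0 : ℝ) < s := hs
  have e : ((l : ℝ) + 2 - 1) = ((l + 1 : ℕ) : ℝ) := by push_cast; ring
  simp only [e, Real.rpow_natCast]
  rw [mul_pow]
  field_simp

private lemma CGEta_gam (l : ℕ) :
    ∫ s in Ioi (0 : ℝ), s ^ (l + 1) * Real.exp (-s) = (l + 1).factorial := by
  have h := Real.Gamma_eq_integral (s := (l : ℝ) + 2) (by positivity)
  have h2 := Real.Gamma_nat_eq_factorial (l + 1)
  have e1 : ((l + 1 : ℕ) : ℝ) + 1 = (l : ℝ) + 2 := by push_cast; ring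
  rw [e1, h] at h2
  rw [← h2]
  refine setIntegral_congr_fun measurableSet_Ioi ?_
  intro s hs
  have e : ((l : ℝ) + 2 - 1) = ((l + 1 : ℕ) : ℝ) := by push_cast; ring
  simp only [e, Real.rpow_natCast]
  ring

private lemma CGEta_mp (l : ℕ) (ε : ℝ) :
    Measurable fun p : X d × ℝ =>
      p.2 ^ (l + 1) * Real.exp (-p.2 - ε ^ 2 * ‖p.1‖ ^ 2 / (4 * p.2)) := by
  fun_prop

private lemma CGEta_ms (l : ℕ) (ε : ℝ) (a : X d) :
    Measurable fun s : ℝ =>
      s ^ (l + 1) * Real.exp (-s - ε ^ 2 * ‖a‖ ^ 2 / (4 * s)) :=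
  (CGEta_mp l ε).comp (measurable_const.prodMk measurable_id)

private lemma CGEta_bd (l : ℕ) (ε : ℝ) (a : X d) {s : ℝ} (hs : 0 < s) :
    s ^ (l + 1) * Real.exp (-s - ε ^ 2 * ‖a‖ ^ 2 / (4 * s)) ≤ s ^ (l + 1) * Real.exp (-s) := by
  have h : 0 ≤ ε ^ 2 * ‖a‖ ^ 2 / (4 * s) := by positivity
  exact mul_le_mul_of_nonneg_left (Real.exp_le_exp.mpr (by linarith)) (by positivity)

private lemma CGEta_int1 (l : ℕ) :
    IntegrableOn (fun s : ℝ => s ^ (l + 1) * Real.exp (-s)) (Ioi (0 : ℝ)) := by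
  have := CGEta_int l one_pos
  simpa using this

private lemma CGEta_inte (l : ℕ) (ε : ℝ) (a : X d) :
    IntegrableOn (fun s : ℝ =>
      s ^ (l + 1) * Real.exp (-s - ε ^ 2 * ‖a‖ ^ 2 / (4 * s))) (Ioi (0 : ℝ)) := by
  refine Integrable.mono' (CGEta_int1 l) (CGEta_ms l ε a).aestronglyMeasurable ?_
  refine (ae_restrict_iff' measurableSet_Ioi).mpr (Eventually.of_forall ?_)
  intro s hs
  have hs' : (0 : ℝ) < s := hs
  rw [Real.norm_of_nonneg (by positivity)]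
  exact CGEta_bd l ε a hs'

theorem et_measurable (l : ℕ) (ε : ℝ) : Measurable (et l ε : X d → ℝ) := by
  have h := (CGEta_mp (d := d) l ε).stronglyMeasurable.integral_prod_right'
    (ν := volume.restrict (Ioi (0 : ℝ)))
  exact h.measurable

theorem et_nonneg (l : ℕ) (ε : ℝ) (a : X d) : 0 ≤ et l ε a := by
  refine setIntegral_nonneg measurableSet_Ioi ?_
  intro s hs
  have hs' : (0 : ℝ) < s := hs
  positivity

theorem et_le (l : ℕ) (ε : ℝ) (a : X d) : et l ε a ≤ (l + 1).factorial := by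
  rw [← CGEta_gam l]
  refine setIntegral_mono_on (CGEta_inte l ε a) (CGEta_int1 l) measurableSet_Ioi ?_
  intro s hs
  exact CGEta_bd l ε a hs

theorem et_neg (l : ℕ) (ε : ℝ) (a : X d) : et l ε (-a) = et l ε a := by
  unfold et
  simp only [norm_neg]

theorem et_decay (l : ℕ) {ε : ℝ} (hε : 0 < ε) (N : ℕ) :
    ∃ C : ℝ, 0 < C ∧ ∀ a : X d, et l ε a * (1 + ‖a‖) ^ N ≤ C := by
  have hI := CGEta_int l (c := 1 / 2) (by norm_num)
  set C0 : ℝ := ∫ s in Ioi (0 : ℝ), s ^ (l + 1) * Real.exp (-(1 / 2 * s)) with hC0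
  have hC0n : 0 ≤ C0 := by
    refine setIntegral_nonneg measurableSet_Ioi ?_
    intro s hs
    have hs' : (0 : ℝ) < s := hs
    positivity
  refine ⟨C0 * ((2 / ε) ^ N * (N.factorial * Real.exp (ε / 2))) + 1, by positivity, ?_⟩
  intro a
  have h1 : et l ε a ≤ Real.exp (-(ε * ‖a‖ / 2)) * C0 := by
    rw [hC0, ← integral_const_mul]
    refine setIntegral_mono_on (CGEta_inte l ε a) (hI.const_mul _) measurableSet_Ioi ?_
    intro s hs
    have hs' : (0 : ℝ) < s := hs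
    have h2 : ε * ‖a‖ / 2 ≤ s / 2 + ε ^ 2 * ‖a‖ ^ 2 / (4 * s) := by
      have h3 : s / 2 + ε ^ 2 * ‖a‖ ^ 2 / (4 * s) - ε * ‖a‖ / 2 =
          (s ^ 2 + (s - ε * ‖a‖) ^ 2) / (4 * s) := by
        field_simp
        ring
      have h4 : 0 ≤ (s ^ 2 + (s - ε * ‖a‖) ^ 2) / (4 * s) := by positivity
      linarith
    calc s ^ (l + 1) * Real.exp (-s - ε ^ 2 * ‖a‖ ^ 2 / (4 * s))
        ≤ s ^ (l + 1) * Real.exp (-(ε * ‖a‖ / 2) + -(1 / 2 * s)) := by
          refine mul_le_mul_of_nonneg_left (Real.exp_le_exp.mpr ?_) (by positivity)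
          linarith
      _ = Real.exp (-(ε * ‖a‖ / 2)) * (s ^ (l + 1) * Real.exp (-(1 / 2 * s))) := by
          rw [Real.exp_add]
          ring
  have h5 : (1 + ‖a‖) ^ N ≤
      (2 / ε) ^ N * (N.factorial * Real.exp (ε / 2)) * Real.exp (ε * ‖a‖ / 2) := by
    have hx : 0 ≤ ε * (1 + ‖a‖) / 2 := by positivity
    have h6 := Real.pow_div_factorial_le_exp (ε * (1 + ‖a‖) / 2) hx N
    have hN : (0 : ℝ) < N.factorial := by positivity
    rw [div_le_iff₀ hN] at h6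
    have h7 : (1 + ‖a‖) ^ N = (2 / ε) ^ N * (ε * (1 + ‖a‖) / 2) ^ N := by
      rw [← mul_pow]
      congr 1
      field_simp
    rw [h7]
    have h8 : Real.exp (ε * (1 + ‖a‖) / 2) = Real.exp (ε / 2) * Real.exp (ε * ‖a‖ / 2) := by
      rw [← Real.exp_add]
      congr 1
      ring
    rw [h8] at h6
    calc (2 / ε) ^ N * (ε * (1 + ‖a‖) / 2) ^ N
        ≤ (2 / ε) ^ N * (Real.exp (ε / 2) * Real.exp (ε * ‖a‖ / 2) * N.factorial) :=
          mul_le_mul_of_nonneg_left h6 (by positivity)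
      _ = _ := by ring
  have h9 : Real.exp (-(ε * ‖a‖ / 2)) * Real.exp (ε * ‖a‖ / 2) = 1 := by
    rw [← Real.exp_add]
    simp
  calc et l ε a * (1 + ‖a‖) ^ N
      ≤ (Real.exp (-(ε * ‖a‖ / 2)) * C0) *
        ((2 / ε) ^ N * (N.factorial * Real.exp (ε / 2)) * Real.exp (ε * ‖a‖ / 2)) :=
        mul_le_mul h1 h5 (by positivity) (by positivity)
    _ = C0 * ((2 / ε) ^ N * (N.factorial * Real.exp (ε / 2))) *
        (Real.exp (-(ε * ‖a‖ / 2)) * Real.exp (ε * ‖a‖ / 2)) := by ring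
    _ ≤ C0 * ((2 / ε) ^ N * (N.factorial * Real.exp (ε / 2))) + 1 := by
        rw [h9]
        linarith

theorem et_la (l : ℕ) {ε : ℝ} (hε : 0 < ε) {a : X d} (ha : a ≠ 0) :
    ‖a‖⁻¹ ^ (2 * l + 4) * et l ε a = (4 : ℝ)⁻¹ ^ (l + 2) * la l ε a := by
  have hr : 0 < ‖a‖ := norm_pos_iff.mpr ha
  set r : ℝ := ‖a‖ with hrdef
  have h1 : la l ε a = ∫ x in Ioi (0 : ℝ),
      x ^ (l + 1) * Real.exp (-(ε ^ 2 / x) - r ^ 2 * x / 4) := by
    unfold la
    rw [← integral_comp_rpow_Ioi (fun s : ℝ =>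
      s⁻¹ ^ (l + 3) * Real.exp (-(s * ε ^ 2) - ‖a‖ ^ 2 / (4 * s))) (p := -1) (by norm_num)]
    refine setIntegral_congr_fun measurableSet_Ioi ?_
    intro x hx
    have hx' : (0 : ℝ) < x := hx
    have e1 : x ^ (-1 : ℝ) = x⁻¹ := Real.rpow_neg_one x
    have e2 : x ^ ((-1 : ℝ) - 1) = (x ^ 2)⁻¹ := by
      have : ((-1 : ℝ) - 1) = -((2 : ℕ) : ℝ) := by norm_num
      rw [this, Real.rpow_neg hx'.le, Real.rpow_natCast]
    simp only [e1, e2, inv_inv, smul_eq_mul]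
    have e3 : -(x⁻¹ * ε ^ 2) - ‖a‖ ^ 2 / (4 * x⁻¹) = -(ε ^ 2 / x) - r ^ 2 * x / 4 := by
      rw [← hrdef]
      field_simp
    rw [e3]
    have e4 : |(-1 : ℝ)| = 1 := by norm_num
    rw [e4, pow_add x l 3, pow_add x l 1]
    field_simp
  have hb : (0 : ℝ) < 4 / r ^ 2 := by positivity
  have h2 := integral_comp_mul_left_Ioi (fun x : ℝ =>
      x ^ (l + 1) * Real.exp (-(ε ^ 2 / x) - r ^ 2 * x / 4)) 0 hb
  have h3 : (∫ x in Ioi (0 : ℝ), (4 / r ^ 2 * x) ^ (l + 1) *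
      Real.exp (-(ε ^ 2 / (4 / r ^ 2 * x)) - r ^ 2 * (4 / r ^ 2 * x) / 4)) =
      (4 / r ^ 2) ^ (l + 1) * et l ε a := by
    unfold et
    rw [← integral_const_mul]
    refine setIntegral_congr_fun measurableSet_Ioi ?_
    intro x hx
    have hx' : (0 : ℝ) < x := hx
    have e3 : -(ε ^ 2 / (4 / r ^ 2 * x)) - r ^ 2 * (4 / r ^ 2 * x) / 4 =
        -x - ε ^ 2 * ‖a‖ ^ 2 / (4 * x) := by
      rw [← hrdef]
      field_simp
      ring
    simp only [e3]
    rw [mul_pow]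
    ring
  simp only [mul_zero, smul_eq_mul] at h2
  rw [h3, ← h1] at h2
  have h4 : la l ε a = (4 / r ^ 2) ^ (l + 2) * et l ε a := by
    have h5 : (4 / r ^ 2) * ((4 / r ^ 2) ^ (l + 1) * et l ε a) = la l ε a := by
      rw [h2, ← mul_assoc, mul_inv_cancel₀ hb.ne', one_mul]
    rw [← h5, pow_succ]
    ring
  rw [h4, div_pow, ← pow_mul]
  have e5 : 2 * (l + 2) = 2 * l + 4 := by ring
  rw [e5, inv_pow, inv_pow]
  have h4p : (4 : ℝ) ^ (l + 2) ≠ 0 := by positivity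
  have hrp : r ^ (2 * l + 4) ≠ 0 := by positivity
  field_simp

theorem et_lim (l : ℕ) (a : X d) :
    Tendsto (fun ε : ℝ => et l ε a) (𝓝[>] 0) (𝓝 (l + 1).factorial) := by
  rw [← CGEta_gam l]
  unfold et
  refine tendsto_integral_filter_of_dominated_convergence
    (fun s : ℝ => s ^ (l + 1) * Real.exp (-s)) ?_ ?_ (CGEta_int1 l) ?_
  · exact Eventually.of_forall fun ε => (CGEta_ms l ε a).aestronglyMeasurable
  · refine Eventually.of_forall fun ε => ?_
    refine (ae_restrict_iff' measurableSet_Ioi).mpr (Eventually.of_forall ?_)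
    intro s hs
    have hs' : (0 : ℝ) < s := hs
    rw [Real.norm_of_nonneg (by positivity)]
    exact CGEta_bd l ε a hs'
  · refine (ae_restrict_iff' measurableSet_Ioi).mpr (Eventually.of_forall ?_)
    intro s hs
    have hc : Continuous fun ε : ℝ =>
        s ^ (l + 1) * Real.exp (-s - ε ^ 2 * ‖a‖ ^ 2 / (4 * s)) := by
      fun_prop
    have h := (hc.tendsto 0).mono_left (nhdsWithin_le_nhds (s := Ioi (0 : ℝ)))
    simpa using h

end Pool.Agent.H1.CG
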