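import Pool.Agent.H1.CG.EN
import Pool.Agent.H1.CG.B

/-!
Row F.  Template C7/F.lean.  wk(x) dx = ∫ dμ(z) Pk n l ε (x-z) dx; x = z + ε u: Pk n l ε (ε u) ε^d = Pk n l 1 u (d = n+2l+3), so
∫⁻_z ∫⁻_u Pk 1 u ∫⁻_Y kr (n+2l) 0 (Y-z-εu) Lg ε μ Y (Y-z-εu)² ≤ C B for ε = 1/(k+1); Fatou: for μ-a.e. z, all u and a.e. Y the
integrand tends to kr (n+2l) 0 (Y-z) Lg 0 μ Y (Y-z)² (Y with ∫ ‖Y-x‖⁻¹^(n+1) dμ < ∞: C7F_limF); finally ∫⁻ Pk 1 u > 0.
-/

set_option autoImplicit false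

open MeasureTheory Filter Topology Metric Set
open scoped RealInnerProductSpace ENNReal

namespace Pool.Agent.H1.CG

open Pool.Agent.RZ Pool.Agent.H1.LD Pool.Agent.H48.R7

variable {d : ℕ}

private theorem CGF_ball {m : ℕ} (hm : m < d) :
    ∫⁻ Z in ball (0 : X d) 1, ENNReal.ofReal (‖Z‖⁻¹ ^ m) < ⊤ := by
  have h : IntegrableOn (fun Z : X d => ‖Z‖⁻¹ ^ m) (ball 0 1) volume := by
    refine integrableOn_ball_of_norm_le_rpow (C := 1) (α := (m : ℝ)) ?_ ?_ ?_ ?_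
    · rw [finrank_euclideanSpace_fin]; omega
    · rw [finrank_euclideanSpace_fin]; exact_mod_cast hm
    · refine ae_of_all _ fun x => le_of_eq ?_
      rw [Real.norm_of_nonneg (by positivity), one_mul, Real.rpow_neg (norm_nonneg x),
        Real.rpow_natCast, inv_pow]
    · exact (measurable_norm.inv.pow_const _).aestronglyMeasurable
  exact h.lintegral_lt_top

private theorem CGF_meas (m : ℕ) :
    Measurable (fun p : X d × X d => ENNReal.ofReal (‖p.1 - p.2‖⁻¹ ^ m)) :=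
  ENNReal.measurable_ofReal.comp
    (((measurable_fst.sub measurable_snd).norm.inv).pow_const _)

private theorem CGF_ae {m : ℕ} (hm : m < d) (μ : Measure (X d)) [IsFiniteMeasure μ] :
    ∀ᵐ Y : X d, ∫⁻ x, ENNReal.ofReal (‖Y - x‖⁻¹ ^ m) ∂μ < ⊤ := by
  have hme := CGF_meas (d := d) m
  have hN : ∀ N : ℕ, ∀ᵐ Y ∂((volume : Measure (X d)).restrict (closedBall (0 : X d) N)),
      ∫⁻ x, ENNReal.ofReal (‖Y - x‖⁻¹ ^ m) ∂μ < ⊤ := by
    intro N
    refine ae_lt_top (hme.lintegral_prod_right') ?_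
    rw [lintegral_lintegral_swap hme.aemeasurable]
    set K : ℝ≥0∞ := ∫⁻ Z in ball (0 : X d) 1, ENNReal.ofReal (‖Z‖⁻¹ ^ m) with hK
    have hK' : K < ⊤ := CGF_ball hm
    have hb : ∀ x : X d, ∫⁻ Y in closedBall (0 : X d) N,
        ENNReal.ofReal (‖Y - x‖⁻¹ ^ m) ≤ K + volume (closedBall (0 : X d) N) := by
      intro x
      set h : X d → ℝ≥0∞ :=
        (ball (0 : X d) 1).indicator fun Z => ENNReal.ofReal (‖Z‖⁻¹ ^ m) with hh
      have h1 : ∀ Y : X d, ENNReal.ofReal (‖Y - x‖⁻¹ ^ m) ≤ h (Y - x) + 1 := by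
        intro Y
        by_cases hY : Y - x ∈ ball (0 : X d) 1
        · rw [hh, indicator_of_mem hY]
          exact le_self_add
        · rw [hh, indicator_of_notMem hY, zero_add]
          rw [mem_ball_zero_iff, not_lt] at hY
          rw [← ENNReal.ofReal_one]
          refine ENNReal.ofReal_le_ofReal ?_
          exact pow_le_one₀ (by positivity) (inv_le_one_of_one_le₀ hY)
      calc ∫⁻ Y in closedBall (0 : X d) N, ENNReal.ofReal (‖Y - x‖⁻¹ ^ m)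
          ≤ ∫⁻ Y in closedBall (0 : X d) N, (h (Y - x) + 1) := lintegral_mono h1
        _ = (∫⁻ Y in closedBall (0 : X d) N, h (Y - x)) + ∫⁻ _ in closedBall (0 : X d) N, 1 :=
            lintegral_add_right _ measurable_const
        _ ≤ (∫⁻ Y : X d, h (Y - x)) + volume (closedBall (0 : X d) N) := by
            refine add_le_add (setLIntegral_le_lintegral _ _) ?_
            rw [setLIntegral_one]
        _ = K + volume (closedBall (0 : X d) N) := by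
            rw [lintegral_sub_right_eq_self h x, hh, lintegral_indicator measurableSet_ball]
    refine ne_of_lt (lt_of_le_of_lt (lintegral_mono hb) ?_)
    rw [lintegral_const]
    exact ENNReal.mul_lt_top (ENNReal.add_lt_top.2 ⟨hK', measure_closedBall_lt_top⟩)
      (measure_lt_top _ _)
  have h2 := (ae_restrict_iUnion_iff (fun N : ℕ => closedBall (0 : X d) N)
    (fun Y => ∫⁻ x, ENNReal.ofReal (‖Y - x‖⁻¹ ^ m) ∂μ < ⊤)).2 hN
  rwa [iUnion_closedBall_nat, Measure.restrict_univ] at h2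

private theorem CGF_eps (m : ℕ) (ε : ℝ) {Z : X d} (hZ : Z ≠ 0) :
    ε ^ 2 * kr (m + 2) ε Z ≤ ‖Z‖⁻¹ ^ (m + 1) := by
  refine le_trans ?_ (kr_le_norm m ε hZ)
  have hZ' : 0 < ‖Z‖ := norm_pos_iff.2 hZ
  have hs : 0 < ‖Z‖ ^ 2 + ε ^ 2 := by positivity
  have hsq : 0 < Real.sqrt (‖Z‖ ^ 2 + ε ^ 2) := Real.sqrt_pos.2 hs
  have h1 : kr (m + 2) ε Z = kr m ε Z * (Real.sqrt (‖Z‖ ^ 2 + ε ^ 2))⁻¹ ^ 2 := by
    unfold kr
    rw [← pow_add]
  have h2 : (Real.sqrt (‖Z‖ ^ 2 + ε ^ 2))⁻¹ ^ 2 = (‖Z‖ ^ 2 + ε ^ 2)⁻¹ := by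
    rw [inv_pow, Real.sq_sqrt hs.le]
  have h3 : ε ^ 2 * (‖Z‖ ^ 2 + ε ^ 2)⁻¹ ≤ 1 := by
    rw [← div_eq_mul_inv, div_le_one hs]
    have : 0 ≤ ‖Z‖ ^ 2 := by positivity
    linarith
  rw [h1, h2]
  have h4 := kr_nonneg m ε Z
  nlinarith

private theorem CGF_int {m : ℕ} {μ : Measure (X d)} {Y : X d}
    (hY : ∫⁻ x, ENNReal.ofReal (‖Y - x‖⁻¹ ^ m) ∂μ < ⊤) :
    Integrable (fun x => ‖Y - x‖⁻¹ ^ m) μ := by
  refine ⟨((measurable_const.sub measurable_id).norm.inv.pow_const _).aestronglyMeasurable, ?_⟩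
  rw [hasFiniteIntegral_iff_ofReal (ae_of_all _ fun x => by positivity)]
  exact hY

private theorem CGF_ne {μ : Measure (X d)} (hs : ∀ x, μ {x} = 0) (Y : X d) :
    ∀ᵐ x ∂μ, Y - x ≠ 0 := by
  have h1 : ∀ᵐ x ∂μ, x ∉ ({Y} : Set (X d)) := measure_eq_zero_iff_ae_notMem.1 (hs Y)
  filter_upwards [h1] with x hx h
  exact hx (by rw [mem_singleton_iff]; exact (sub_eq_zero.1 h).symm)


private theorem CGF_kr (m : ℕ) {z : X d} (hz : z ≠ 0) {ε : ℕ → ℝ} {Z : ℕ → X d}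
    (hlim : Tendsto ε atTop (𝓝 0)) (hZ : Tendsto Z atTop (𝓝 z)) :
    Tendsto (fun k => kr m (ε k) (Z k)) atTop (𝓝 (kr m 0 z)) := by
  have hz' : 0 < ‖z‖ := norm_pos_iff.2 hz
  have h : Tendsto (fun k => Real.sqrt (‖Z k‖ ^ 2 + ε k ^ 2)) atTop
      (𝓝 (Real.sqrt (‖z‖ ^ 2 + 0 ^ 2))) :=
    (Real.continuous_sqrt.tendsto _).comp ((hZ.norm.pow 2).add (hlim.pow 2))
  have hne : Real.sqrt (‖z‖ ^ 2 + 0 ^ 2) ≠ 0 := by
    have : 0 < ‖z‖ ^ 2 + 0 ^ 2 := by positivity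
    exact (Real.sqrt_pos.2 this).ne'
  exact (h.inv₀ hne).pow (m + 1)

private theorem CGF_krm (m : ℕ) (ε : ℝ) : Measurable (kr m ε : X d → ℝ) := by
  unfold kr
  exact (((measurable_norm.pow_const 2).add_const _).sqrt.inv).pow_const _

private theorem CGF_subst {ε : ℝ} (hε : 0 < ε) (x : X d) {g : X d → ℝ≥0∞} (hg : Measurable g) :
    ∫⁻ Y, g Y = ENNReal.ofReal (ε ^ d) * ∫⁻ w, g (x + ε • w) := by
  have h1 : ∫⁻ Y, g Y = ∫⁻ Y, g (x + Y) := (lintegral_add_left_eq_self g x).symm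
  have h2 : ∫⁻ w, g (x + ε • w) = ∫⁻ Y, g (x + Y) ∂(Measure.map (fun w : X d => ε • w) volume) := by
    have hm : Measurable fun Y : X d => g (x + Y) := hg.comp (measurable_const_add x)
    have hm' : Measurable fun w : X d => ε • w := measurable_const_smul ε
    rw [lintegral_map hm hm']
  rw [h1, h2, Measure.map_addHaar_smul volume hε.ne', lintegral_smul_measure, smul_eq_mul,
    ← mul_assoc, ← ENNReal.ofReal_mul (by positivity)]
  have h3 : ε ^ d * |(ε ^ (Module.finrank ℝ (X d)))⁻¹| = 1 := by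
    rw [finrank_euclideanSpace_fin, abs_of_pos (by positivity)]
    exact mul_inv_cancel₀ (by positivity)
  rw [h3, ENNReal.ofReal_one, one_mul]

private theorem CGF_scale {n l : ℕ} {ε : ℝ} (hε : 0 < ε) (w : X d) :
    ε ^ (n + 2 * l + 3) * Pk n l ε (ε • w) = kr (n + 4 * l + 6) 1 w := by
  unfold Pk
  have h := kr_scale (n + 4 * l + 6) ε (r := ε⁻¹) (inv_pos.2 hε) w
  rw [inv_inv, inv_mul_cancel₀ hε.ne'] at h
  rw [h]
  have h1 : ε ^ (n + 2 * l + 3) * (ε ^ (2 * l + 4) * (ε⁻¹ ^ (n + 4 * l + 6 + 1) * kr (n + 4 * l + 6) 1 w)) =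
      (ε * ε⁻¹) ^ (n + 4 * l + 7) * kr (n + 4 * l + 6) 1 w := by ring
  rw [h1, mul_inv_cancel₀ hε.ne', one_pow, one_mul]

private theorem CGF_Pk0 {n l : ℕ} {ε : ℝ} (hε : 0 < ε) (Z : X d) : 0 ≤ Pk n l ε Z :=
  mul_nonneg (by positivity) (kr_nonneg _ _ _)

private theorem CGF_Pkc (n l : ℕ) {ε : ℝ} (hε : 0 < ε) : Continuous (Pk n l ε : X d → ℝ) :=
  continuous_const.mul (kr_continuous (n + 4 * l + 6) hε)

private theorem CGF_wk (n l : ℕ) {ε : ℝ} (hε : 0 < ε) (μ : Measure (X d)) [IsFiniteMeasure μ]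
    (x : X d) : ENNReal.ofReal (wk n l ε μ x) = ∫⁻ y, ENNReal.ofReal (Pk n l ε (x - y)) ∂μ := by
  unfold wk
  have hc : Continuous fun y : X d => Pk n l ε (x - y) :=
    (CGF_Pkc n l hε).comp (continuous_const.sub continuous_id)
  refine ofReal_integral_eq_lintegral_ofReal ?_ (Eventually.of_forall fun y => CGF_Pk0 hε _)
  refine Integrable.of_bound hc.aestronglyMeasurable (ε ^ (2 * l + 4) * ε⁻¹ ^ (n + 4 * l + 6 + 1))
    (Eventually.of_forall fun y => ?_)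
  rw [Real.norm_of_nonneg (CGF_Pk0 hε _)]
  exact mul_le_mul_of_nonneg_left (kr_le_eps _ hε _) (by positivity)

private theorem CGF_swap {n l : ℕ} (hd : d = n + 2 * l + 3) {ε : ℝ} (hε : 0 < ε)
    (μ : Measure (X d)) [IsFiniteMeasure μ] {H : X d → ℝ≥0∞} (hH : Measurable H) :
    ∫⁻ x, ENNReal.ofReal (wk n l ε μ x) * H x =
      ∫⁻ y, (∫⁻ u, ENNReal.ofReal (kr (n + 4 * l + 6) 1 u) * H (y + ε • u)) ∂μ := by
  have hP : Measurable (fun p : X d × X d => ENNReal.ofReal (Pk n l ε (p.1 - p.2))) :=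
    ((CGF_Pkc n l hε).comp (continuous_fst.sub continuous_snd)).measurable.ennreal_ofReal
  have h1 : ∀ x, ENNReal.ofReal (wk n l ε μ x) * H x =
      ∫⁻ y, ENNReal.ofReal (Pk n l ε (x - y)) * H x ∂μ := by
    intro x
    have hm : Measurable fun y : X d => ENNReal.ofReal (Pk n l ε (x - y)) :=
      ((CGF_Pkc n l hε).comp (continuous_const.sub continuous_id)).measurable.ennreal_ofReal
    rw [CGF_wk n l hε μ x, lintegral_mul_const _ hm]
  simp_rw [h1]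
  have m1 : Measurable (Function.uncurry fun (x y : X d) =>
      ENNReal.ofReal (Pk n l ε (x - y)) * H x) := hP.mul (hH.comp measurable_fst)
  rw [lintegral_lintegral_swap m1.aemeasurable]
  refine lintegral_congr fun y => ?_
  have m3 : Measurable fun x : X d => ENNReal.ofReal (Pk n l ε (x - y)) :=
    ((CGF_Pkc n l hε).comp (continuous_id.sub continuous_const)).measurable.ennreal_ofReal
  have m2 : Measurable fun x : X d => ENNReal.ofReal (Pk n l ε (x - y)) * H x := m3.mul hH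
  rw [CGF_subst hε y m2, ← lintegral_const_mul' _ _ ENNReal.ofReal_ne_top]
  refine lintegral_congr fun u => ?_
  have e1 : y + ε • u - y = ε • u := by abel
  rw [e1, ← mul_assoc, ← ENNReal.ofReal_mul (by positivity)]
  congr 2
  have hpow : ε ^ d = ε ^ (n + 2 * l + 3) := congrArg (fun k => ε ^ k) hd
  rw [hpow, CGF_scale hε u]

private theorem CGF_cont (n l : ℕ) {ε : ℝ} (hε : 0 < ε) {T : Type*} [TopologicalSpace T]
    {f v : T → X d} (hf : Continuous f) (hv : Continuous v) :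
    Continuous (fun p : T => Tk n l ε (f p) - Tk' n l ε (f p) * ⟪f p, v p⟫) := by
  unfold Tk Tk'
  exact ((continuous_const.mul ((kr_continuous n hε).comp hf)).add
    (continuous_const.mul ((kr_continuous (n + 2) hε).comp hf))).sub
    ((continuous_const.mul ((continuous_const.mul ((kr_continuous (n + 2) hε).comp hf)).add
      (continuous_const.mul ((kr_continuous (n + 4) hε).comp hf)))).mul (hf.inner hv))

private theorem CGF_Lg {n l : ℕ} {μ : Measure (X d)} [IsFiniteMeasure μ] (hs : ∀ x, μ {x} = 0)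
    {Y : X d} (hY : ∫⁻ x, ENNReal.ofReal (‖Y - x‖⁻¹ ^ (n + 1)) ∂μ < ⊤)
    (hY' : ∫⁻ x, ENNReal.ofReal (‖Y - x‖⁻¹ ^ (n + 2)) ∂μ < ⊤) {ε : ℕ → ℝ}
    (hε : ∀ k, 0 < ε k) (hlim : Tendsto ε atTop (𝓝 0)) {w : ℕ → X d} {v : X d} {R : ℝ}
    (hR : ∀ k, ‖w k‖ ≤ R) (hw : Tendsto w atTop (𝓝 v)) :
    Tendsto (fun k => Lg n l (ε k) μ Y (w k)) atTop (𝓝 (Lg n l 0 μ Y v)) := by
  have hne := CGF_ne hs Y
  unfold Lg
  refine tendsto_integral_of_dominated_convergence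
    (fun x => ((2 * (l : ℝ) + 2) + ((n : ℝ) + 1)) * ‖Y - x‖⁻¹ ^ (n + 1) +
      (((n : ℝ) + 1) * ((2 * (l : ℝ) + 2) + ((n : ℝ) + 3)) * R) * ‖Y - x‖⁻¹ ^ (n + 2)) ?_ ?_ ?_ ?_
  · intro k
    exact (CGF_cont n l (hε k) (continuous_const.sub continuous_id)
      continuous_const).aestronglyMeasurable
  · exact ((CGF_int hY).const_mul _).add ((CGF_int hY').const_mul _)
  · intro k
    filter_upwards [hne] with x hx
    have hZ : 0 < ‖Y - x‖ := norm_pos_iff.2 hx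
    have hR0 : 0 ≤ R := (norm_nonneg _).trans (hR k)
    have h1 := kr_le_norm n (ε k) hx
    have h2 := CGF_eps n (ε k) hx
    have h3 := kr_nonneg n (ε k) (Y - x)
    have h4 : 0 ≤ ε k ^ 2 * kr (n + 2) (ε k) (Y - x) :=
      mul_nonneg (sq_nonneg _) (kr_nonneg _ _ _)
    have g1 : kr (n + 2) (ε k) (Y - x) ≤ ‖Y - x‖⁻¹ ^ (n + 3) := kr_le_norm (n + 2) (ε k) hx
    have g2 : ε k ^ 2 * kr (n + 4) (ε k) (Y - x) ≤ ‖Y - x‖⁻¹ ^ (n + 3) :=
      CGF_eps (n + 2) (ε k) hx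
    have g3 := kr_nonneg (n + 2) (ε k) (Y - x)
    have g4 : 0 ≤ ε k ^ 2 * kr (n + 4) (ε k) (Y - x) :=
      mul_nonneg (sq_nonneg _) (kr_nonneg _ _ _)
    have a1 : |Tk n l (ε k) (Y - x)| ≤
        ((2 * (l : ℝ) + 2) + ((n : ℝ) + 1)) * ‖Y - x‖⁻¹ ^ (n + 1) := by
      unfold Tk
      have e : (2 * (l : ℝ) + 2) * kr n (ε k) (Y - x) + ((n : ℝ) + 1) * ε k ^ 2 *
          kr (n + 2) (ε k) (Y - x) = (2 * (l : ℝ) + 2) * kr n (ε k) (Y - x) + ((n : ℝ) + 1) *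
          (ε k ^ 2 * kr (n + 2) (ε k) (Y - x)) := by ring
      have m1 : (2 * (l : ℝ) + 2) * kr n (ε k) (Y - x) ≤
          (2 * (l : ℝ) + 2) * ‖Y - x‖⁻¹ ^ (n + 1) :=
        mul_le_mul_of_nonneg_left h1 (by positivity)
      have m2 : ((n : ℝ) + 1) * (ε k ^ 2 * kr (n + 2) (ε k) (Y - x)) ≤
          ((n : ℝ) + 1) * ‖Y - x‖⁻¹ ^ (n + 1) :=
        mul_le_mul_of_nonneg_left h2 (by positivity)
      rw [e, abs_of_nonneg (by positivity)]
      linarith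
    have a2 : |Tk' n l (ε k) (Y - x)| ≤
        ((n : ℝ) + 1) * ((2 * (l : ℝ) + 2) + ((n : ℝ) + 3)) * ‖Y - x‖⁻¹ ^ (n + 3) := by
      unfold Tk'
      have e : ((n : ℝ) + 1) * ((2 * (l : ℝ) + 2) * kr (n + 2) (ε k) (Y - x) + ((n : ℝ) + 3) *
          ε k ^ 2 * kr (n + 4) (ε k) (Y - x)) = ((n : ℝ) + 1) * ((2 * (l : ℝ) + 2) *
          kr (n + 2) (ε k) (Y - x) + ((n : ℝ) + 3) *
          (ε k ^ 2 * kr (n + 4) (ε k) (Y - x))) := by ring
      have m1 : (2 * (l : ℝ) + 2) * kr (n + 2) (ε k) (Y - x) ≤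
          (2 * (l : ℝ) + 2) * ‖Y - x‖⁻¹ ^ (n + 3) :=
        mul_le_mul_of_nonneg_left g1 (by positivity)
      have m2 : ((n : ℝ) + 3) * (ε k ^ 2 * kr (n + 4) (ε k) (Y - x)) ≤
          ((n : ℝ) + 3) * ‖Y - x‖⁻¹ ^ (n + 3) :=
        mul_le_mul_of_nonneg_left g2 (by positivity)
      have m3 := mul_le_mul_of_nonneg_left (add_le_add m1 m2)
        (show (0 : ℝ) ≤ (n : ℝ) + 1 by positivity)
      rw [e, abs_of_nonneg (by positivity)]
      linarith
    have a3 : |⟪Y - x, w k⟫| ≤ ‖Y - x‖ * R :=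
      (abs_real_inner_le_norm _ _).trans (mul_le_mul_of_nonneg_left (hR k) hZ.le)
    have h9 : ‖Y - x‖⁻¹ ^ (n + 3) * ‖Y - x‖ = ‖Y - x‖⁻¹ ^ (n + 2) := by
      rw [show n + 3 = n + 2 + 1 from rfl, pow_succ, mul_assoc, inv_mul_cancel₀ hZ.ne', mul_one]
    rw [Real.norm_eq_abs]
    refine (abs_sub _ _).trans (add_le_add a1 ?_)
    rw [abs_mul]
    calc _ ≤ (((n : ℝ) + 1) * ((2 * (l : ℝ) + 2) + ((n : ℝ) + 3)) * ‖Y - x‖⁻¹ ^ (n + 3)) *
          (‖Y - x‖ * R) := mul_le_mul a2 a3 (abs_nonneg _) (by positivity)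
      _ = (((n : ℝ) + 1) * ((2 * (l : ℝ) + 2) + ((n : ℝ) + 3)) * R) *
          (‖Y - x‖⁻¹ ^ (n + 3) * ‖Y - x‖) := by ring
      _ = _ := by rw [h9]
  · filter_upwards [hne] with x hx
    have c : ∀ m, Tendsto (fun k => kr m (ε k) (Y - x)) atTop (𝓝 (kr m 0 (Y - x))) := fun m =>
      CGF_kr m hx hlim tendsto_const_nhds
    unfold Tk Tk'
    exact (((c n).const_mul _).add (((hlim.pow 2).const_mul _).mul (c (n + 2)))).sub
      (((((c (n + 2)).const_mul _).add (((hlim.pow 2).const_mul _).mul (c (n + 4)))).const_mul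
        _).mul (tendsto_const_nhds.inner hw))

private theorem CGF_measF (n l : ℕ) (μ : Measure (X d)) [IsFiniteMeasure μ] {ε : ℝ} (hε : 0 < ε) :
    Measurable (fun p : X d × X d =>
      ENNReal.ofReal (kr (n + 2 * l) 0 (p.2 - p.1) * Lg n l ε μ p.2 (p.2 - p.1) ^ 2)) := by
  have hf : Continuous fun q : (X d × X d) × X d => q.1.2 - q.2 :=
    (continuous_snd.comp continuous_fst).sub continuous_snd
  have hv : Continuous fun q : (X d × X d) × X d => q.1.2 - q.1.1 :=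
    (continuous_snd.comp continuous_fst).sub (continuous_fst.comp continuous_fst)
  have h1 : Measurable (fun p : X d × X d => Lg n l ε μ p.2 (p.2 - p.1)) := by
    unfold Lg
    exact (CGF_cont n l hε hf hv).stronglyMeasurable.integral_prod_right'.measurable
  have h2 : Measurable (fun p : X d × X d => kr (n + 2 * l) 0 (p.2 - p.1)) :=
    (CGF_krm (n + 2 * l) 0).comp (measurable_snd.sub measurable_fst)
  exact (h2.mul (h1.pow_const 2)).ennreal_ofReal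

private theorem CGF_lint {F : X d → X d → ℝ≥0∞} (h : Measurable fun p : X d × X d => F p.1 p.2) :
    Measurable fun x => ∫⁻ Y, F x Y := h.lintegral_prod_right'

private theorem CGF_measH (n l : ℕ) (μ : Measure (X d)) [IsFiniteMeasure μ] {ε : ℝ} (hε : 0 < ε) :
    Measurable (fun x : X d => ∫⁻ Y,
      ENNReal.ofReal (kr (n + 2 * l) 0 (Y - x) * Lg n l ε μ Y (Y - x) ^ 2)) :=
  CGF_lint (CGF_measF n l μ hε)

private theorem CGF_measG (n l : ℕ) (μ : Measure (X d)) [IsFiniteMeasure μ] {ε : ℝ} (hε : 0 < ε) :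
    Measurable (fun p : (X d × X d) × X d =>
      ENNReal.ofReal (kr (n + 2 * l) 0 (p.2 - (p.1.1 + ε • p.1.2)) *
        Lg n l ε μ p.2 (p.2 - (p.1.1 + ε • p.1.2)) ^ 2)) := by
  have hf : Continuous fun q : ((X d × X d) × X d) × X d => q.1.2 - q.2 :=
    (continuous_snd.comp continuous_fst).sub continuous_snd
  have hv' : Continuous fun p : (X d × X d) × X d => p.2 - (p.1.1 + ε • p.1.2) :=
    continuous_snd.sub ((continuous_fst.comp continuous_fst).add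
      ((continuous_snd.comp continuous_fst).const_smul ε))
  have hv : Continuous fun q : ((X d × X d) × X d) × X d =>
      q.1.2 - (q.1.1.1 + ε • q.1.1.2) := hv'.comp continuous_fst
  have h1 : Measurable (fun p : (X d × X d) × X d =>
      Lg n l ε μ p.2 (p.2 - (p.1.1 + ε • p.1.2))) := by
    unfold Lg
    exact (CGF_cont n l hε hf hv).stronglyMeasurable.integral_prod_right'.measurable
  have h2 : Measurable (fun p : (X d × X d) × X d =>
      kr (n + 2 * l) 0 (p.2 - (p.1.1 + ε • p.1.2))) :=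
    (CGF_krm (n + 2 * l) 0).comp hv'.measurable
  exact (h2.mul (h1.pow_const 2)).ennreal_ofReal

private theorem CGF_step {n l : ℕ} (hd : d = n + 2 * l + 3) {ε : ℝ} (hε : 0 < ε)
    (μ : Measure (X d)) [IsFiniteMeasure μ] :
    ∫⁻ x, ENNReal.ofReal (wk n l ε μ x) *
        ∫⁻ Y, ENNReal.ofReal (kr (n + 2 * l) 0 (Y - x) * Lg n l ε μ Y (Y - x) ^ 2) =
      ∫⁻ y, (∫⁻ u, ENNReal.ofReal (kr (n + 4 * l + 6) 1 u) *
        ∫⁻ Y, ENNReal.ofReal (kr (n + 2 * l) 0 (Y - (y + ε • u)) *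
          Lg n l ε μ Y (Y - (y + ε • u)) ^ 2)) ∂μ :=
  CGF_swap hd hε μ (CGF_measH n l μ hε)

private theorem CGF_limF {n l : ℕ} (hd : d = n + 2 * l + 3) {μ : Measure (X d)}
    [IsFiniteMeasure μ] (hs : ∀ x, μ {x} = 0) {ε : ℕ → ℝ} (hε : ∀ k, 0 < ε k)
    (hε1 : ∀ k, ε k ≤ 1) (hlim : Tendsto ε atTop (𝓝 0)) (z u : X d) :
    ∀ᵐ Y : X d, Tendsto (fun k =>
        ENNReal.ofReal (kr (n + 2 * l) 0 (Y - (z + ε k • u)) *
          Lg n l (ε k) μ Y (Y - (z + ε k • u)) ^ 2)) atTop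
      (𝓝 (ENNReal.ofReal (kr (n + 2 * l) 0 (Y - z)) * ‖Lg n l 0 μ Y (Y - z)‖ₑ ^ 2)) := by
  have hne : ∀ᵐ Y : X d, Y ≠ z := by
    have : Nonempty (Fin d) := ⟨⟨0, by omega⟩⟩
    have : Nontrivial (X d) := inferInstance
    have h1 : (volume : Measure (X d)) {z} = 0 := measure_singleton z
    have h2 := measure_eq_zero_iff_ae_notMem.1 h1
    filter_upwards [h2] with Y hY h
    exact hY (mem_singleton_iff.2 h)
  filter_upwards [hne, CGF_ae (m := n + 1) (by omega) μ, CGF_ae (m := n + 2) (by omega) μ]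
    with Y h1 h2 h2'
  have hw : Tendsto (fun k => Y - (z + ε k • u)) atTop (𝓝 (Y - z)) := by
    have h := (tendsto_const_nhds (x := Y)).sub
      ((tendsto_const_nhds (x := z)).add (hlim.smul_const u))
    rwa [zero_smul, add_zero] at h
  have hR : ∀ k, ‖Y - (z + ε k • u)‖ ≤ ‖Y - z‖ + ‖u‖ := by
    intro k
    have e : Y - (z + ε k • u) = (Y - z) - ε k • u := by abel
    rw [e]
    refine (norm_sub_le _ _).trans (add_le_add_right ?_ _)
    rw [norm_smul, Real.norm_of_nonneg (hε k).le]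
    exact mul_le_of_le_one_left (norm_nonneg _) (hε1 k)
  have h3 := CGF_Lg (l := l) hs h2 h2' hε hlim hR hw
  have h4 := CGF_kr (n + 2 * l) (sub_ne_zero.2 h1) (tendsto_const_nhds (x := (0 : ℝ))) hw
  have h5 := (ENNReal.continuous_ofReal.tendsto _).comp (h4.mul (h3.pow 2))
  have h6 : ENNReal.ofReal (kr (n + 2 * l) 0 (Y - z) * Lg n l 0 μ Y (Y - z) ^ 2) =
      ENNReal.ofReal (kr (n + 2 * l) 0 (Y - z)) * ‖Lg n l 0 μ Y (Y - z)‖ₑ ^ 2 := by
    rw [← sq_abs (Lg n l 0 μ Y (Y - z)), ← Real.norm_eq_abs,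
      ENNReal.ofReal_mul (kr_nonneg _ _ _), ENNReal.ofReal_pow (norm_nonneg _), ofReal_norm]
  rw [← h6]
  exact h5

private theorem CGF_fatou {F : ℕ → X d → X d → X d → ℝ≥0∞} {G : X d → X d → ℝ≥0∞}
    {μ : Measure (X d)} {C : ℝ≥0∞} {k : X d → ℝ≥0∞} (hk : Measurable k) (hk' : ∀ u, k u ≠ ⊤)
    (hmeas : ∀ j, Measurable (fun p : (X d × X d) × X d => F j p.1.1 p.1.2 p.2))
    (hlim : ∀ z u, ∀ᵐ Y : X d, Tendsto (fun j => F j z u Y) atTop (𝓝 (G z Y)))
    (hC : ∀ j, ∫⁻ z, (∫⁻ u, k u * ∫⁻ Y, F j z u Y) ∂μ ≤ C) :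
    (∫⁻ u, k u) * ∫⁻ z, (∫⁻ Y, G z Y) ∂μ ≤ C := by
  have hm1 : ∀ j, Measurable (fun p : X d × X d => ∫⁻ Y, F j p.1 p.2 Y) := fun j =>
    (hmeas j).lintegral_prod_right'
  have hm2 : ∀ j, Measurable (fun p : X d × X d => k p.2 * ∫⁻ Y, F j p.1 p.2 Y) := fun j =>
    (hk.comp measurable_snd).mul (hm1 j)
  calc (∫⁻ u, k u) * ∫⁻ z, (∫⁻ Y, G z Y) ∂μ
      ≤ ∫⁻ z, (∫⁻ u, k u) * (∫⁻ Y, G z Y) ∂μ := lintegral_const_mul_le _ _
    _ = ∫⁻ z, (∫⁻ u, k u * ∫⁻ Y, G z Y) ∂μ :=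
        lintegral_congr fun z => (lintegral_mul_const _ hk).symm
    _ = ∫⁻ z, (∫⁻ u, k u * ∫⁻ Y, liminf (fun j => F j z u Y) atTop) ∂μ :=
        lintegral_congr fun z => lintegral_congr fun u => by
          congr 1
          exact lintegral_congr_ae ((hlim z u).mono fun Y h => h.liminf_eq.symm)
    _ ≤ ∫⁻ z, (∫⁻ u, liminf (fun j => k u * ∫⁻ Y, F j z u Y) atTop) ∂μ := by
        refine lintegral_mono fun z => lintegral_mono fun u => ?_
        have h1 : ∫⁻ Y, liminf (fun j => F j z u Y) atTop ≤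
            liminf (fun j => ∫⁻ Y, F j z u Y) atTop :=
          lintegral_liminf_le fun j => (hmeas j).comp (measurable_prodMk_left (x := (z, u)))
        refine (mul_le_mul_right h1 _).trans ?_
        rw [← ENNReal.liminf_const_mul_of_ne_top (hk' u)]
    _ ≤ ∫⁻ z, liminf (fun j => ∫⁻ u, k u * ∫⁻ Y, F j z u Y) atTop ∂μ :=
        lintegral_mono fun z => lintegral_liminf_le fun j =>
          (hm2 j).comp (measurable_prodMk_left (x := z))
    _ ≤ liminf (fun j => ∫⁻ z, (∫⁻ u, k u * ∫⁻ Y, F j z u Y) ∂μ) atTop :=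
        lintegral_liminf_le fun j => (hm2 j).lintegral_prod_right'
    _ ≤ liminf (fun _ : ℕ => C) atTop := liminf_le_liminf (Eventually.of_forall hC)
    _ = C := liminf_const _

theorem cg_carleson {n l : ℕ} (hn : 1 ≤ n) (hl : 1 ≤ l) (hd : d = n + 2 * l + 3)
    {W : X d → X d → ℝ} (hW : Cert l W) {μ : Measure (X d)} [IsFiniteMeasure μ]
    {C₀ : ℝ} (hC₀ : 0 ≤ C₀) (hg : Gr n C₀ μ) (hE : En n μ) :
    ∫⁻ z, (∫⁻ Y, ENNReal.ofReal (kr (n + 2 * l) 0 (Y - z)) * ‖Lg n l 0 μ Y (Y - z)‖ₑ ^ 2) ∂μ <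
      ⊤ := by
  obtain ⟨B, hB⟩ := cg_bound hn hd hC₀ hg hE
  obtain ⟨C, _, hC⟩ := cg_energy hn hl hd hW
  have hs : ∀ x, μ {x} = 0 := fun x => hg.singleton hn x
  have hε : ∀ k : ℕ, 0 < 1 / ((k : ℝ) + 1) := fun k => by positivity
  have hε1 : ∀ k : ℕ, 1 / ((k : ℝ) + 1) ≤ 1 := fun k => by
    rw [div_le_one (by positivity)]
    have : (0 : ℝ) ≤ k := Nat.cast_nonneg k
    linarith
  have hlim : Tendsto (fun k : ℕ => 1 / ((k : ℝ) + 1)) atTop (𝓝 0) :=
    tendsto_one_div_add_atTop_nhds_zero_nat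
  have hkm : Measurable (fun u : X d => ENNReal.ofReal (kr (n + 4 * l + 6) 1 u)) :=
    (kr_continuous (n + 4 * l + 6) one_pos).measurable.ennreal_ofReal
  have hfin := CGF_fatou (μ := μ) (C := ENNReal.ofReal C * ENNReal.ofReal B)
    (F := fun j z u Y => ENNReal.ofReal (kr (n + 2 * l) 0 (Y - (z + (1 / ((j : ℝ) + 1)) • u)) *
          Lg n l (1 / ((j : ℝ) + 1)) μ Y (Y - (z + (1 / ((j : ℝ) + 1)) • u)) ^ 2))
    hkm (fun u => ENNReal.ofReal_ne_top) (fun j => ?_)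
    (CGF_limF (l := l) hd hs hε hε1 hlim) (fun j => ?_)
  · have hpos : 0 < ∫⁻ u : X d, ENNReal.ofReal (kr (n + 4 * l + 6) 1 u) := by
      rw [lintegral_pos_iff_support hkm]
      have hsup : Function.support (fun u : X d => ENNReal.ofReal (kr (n + 4 * l + 6) 1 u)) =
          univ := by
        ext u
        simp only [Function.mem_support, mem_univ, iff_true]
        exact (ENNReal.ofReal_pos.2 (kr_pos _ one_pos u)).ne'
      rw [hsup]
      exact isOpen_univ.measure_pos volume univ_nonempty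
    by_contra hcon
    rw [not_lt, top_le_iff] at hcon
    rw [hcon, ENNReal.mul_top hpos.ne', top_le_iff] at hfin
    exact (ENNReal.mul_lt_top ENNReal.ofReal_lt_top ENNReal.ofReal_lt_top).ne hfin
  · exact CGF_measG n l μ (hε j)
  · exact (CGF_step hd (hε j) μ).symm.le.trans
      ((hC _ (hε j) μ inferInstance).trans (mul_le_mul_right (hB _ (hε j)) _))

end Pool.Agent.H1.CG
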