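import Pool.Agent.H1.CG.GauA
import Pool.Agent.H1.CG.EtI

/-!
Row FA.  Pk is a mixture of Gaussians: q^(-s') = Γ(s')⁻¹ ∫ σ^(s'-1) e^(-σ q) dσ, s' = (n + 4 l + 7) / 2 = l + 2 + d / 2; then g_cos,
Fubini, and s = σ ε^2.
-/

set_option autoImplicit false

open MeasureTheory Filter Topology Metric Set
open scoped RealInnerProductSpace ENNReal

namespace Pool.Agent.H1.CG

open Pool.Agent.RZ Pool.Agent.H1.LD Pool.Agent.H48.R7

variable {d : ℕ}

/-- the mixture of Gaussians -/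
private noncomputable def CGFAg (d l : ℕ) (ε : ℝ) (p : ℝ × X d) : ℝ :=
  p.1 ^ ((l : ℝ) + 2 + (d : ℝ) / 2 - 1) * Real.exp (-(ε ^ 2 * p.1)) * ga p.1 p.2

private theorem CGFA_meas (l : ℕ) (ε : ℝ) : Measurable (CGFAg d l ε : ℝ × X d → ℝ) := by
  unfold CGFAg ga
  fun_prop

private theorem CGFA_gauss {b : ℝ} (hb : 0 < b) :
    Integrable (fun u : X d => ga b u) ∧ ∫ u : X d, ga b u = (Real.pi / b) ^ ((d : ℝ) / 2) := by
  constructor
  · have h := g_int (d := d) hb 0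
    simpa using h
  · have h := g_cos (d := d) hb 0
    simpa using h

/-- the integral over the space -/
private theorem CGFA_val (l : ℕ) (ε : ℝ) {σ : ℝ} (hσ : 0 < σ) (x : ℝ) :
    σ ^ ((l : ℝ) + 2 + (d : ℝ) / 2 - 1) * Real.exp (-(ε ^ 2 * σ)) *
        ((Real.pi / σ) ^ ((d : ℝ) / 2) * Real.exp x) =
      Real.pi ^ ((d : ℝ) / 2) * (σ ^ (l + 1) * Real.exp (-(ε ^ 2 * σ) + x)) := by
  have h1 : σ ^ ((l : ℝ) + 2 + (d : ℝ) / 2 - 1) = σ ^ (l + 1) * σ ^ ((d : ℝ) / 2) := by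
    rw [← Real.rpow_natCast, ← Real.rpow_add hσ]
    congr 1
    push_cast
    ring
  have h2 : (Real.pi / σ) ^ ((d : ℝ) / 2) = Real.pi ^ ((d : ℝ) / 2) / σ ^ ((d : ℝ) / 2) :=
    Real.div_rpow Real.pi_pos.le hσ.le _
  have h3 : 0 < σ ^ ((d : ℝ) / 2) := Real.rpow_pos_of_pos hσ _
  rw [h1, h2, Real.exp_add]
  field_simp

private theorem CGFA_int (l : ℕ) {ε : ℝ} (hε : 0 < ε) :
    Integrable (CGFAg d l ε : ℝ × X d → ℝ)
      ((volume.restrict (Ioi (0 : ℝ))).prod volume) := by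
  rw [integrable_prod_iff (CGFA_meas l ε).aestronglyMeasurable]
  constructor
  · refine (ae_restrict_iff' measurableSet_Ioi).2 (Eventually.of_forall fun σ hσ => ?_)
    unfold CGFAg
    exact (CGFA_gauss hσ).1.const_mul
      (σ ^ ((l : ℝ) + 2 + (d : ℝ) / 2 - 1) * Real.exp (-(ε ^ 2 * σ)))
  · have h1 : IntegrableOn (fun σ : ℝ => σ ^ ((l : ℝ) + 1) * Real.exp (-(ε ^ 2) * σ ^ (1 : ℝ)))
        (Ioi 0) := by
      refine integrableOn_rpow_mul_exp_neg_mul_rpow ?_ one_pos (by positivity)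
      have : (0 : ℝ) ≤ l := Nat.cast_nonneg l
      linarith
    have h2 := h1.const_mul (Real.pi ^ ((d : ℝ) / 2))
    refine h2.congr ?_
    refine (ae_restrict_iff' measurableSet_Ioi).2 (Eventually.of_forall fun σ hσ => ?_)
    have hσ' : (0 : ℝ) < σ := hσ
    simp only
    have h3 : ∀ u : X d, ‖CGFAg d l ε (σ, u)‖ =
        σ ^ ((l : ℝ) + 2 + (d : ℝ) / 2 - 1) * Real.exp (-(ε ^ 2 * σ)) * ga σ u := by
      intro u
      have h4 : 0 ≤ CGFAg d l ε (σ, u) := by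
        unfold CGFAg ga
        positivity
      rw [Real.norm_of_nonneg h4]
      rfl
    rw [integral_congr_ae (Eventually.of_forall h3), integral_const_mul, (CGFA_gauss hσ').2]
    have h5 := CGFA_val (d := d) l ε hσ' 0
    rw [Real.exp_zero, mul_one, add_zero] at h5
    rw [h5, Real.rpow_one]
    congr 2
    · rw [← Real.rpow_natCast]
      congr 1
      push_cast
      ring
    · congr 1
      ring

/-- the Gamma integral -/
private theorem CGFA_gam {n l : ℕ} (hd : d = n + 2 * l + 3) {ε : ℝ} (hε : 0 < ε) (u : X d) :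
    ∫ σ in Ioi (0 : ℝ), CGFAg d l ε (σ, u) =
      Real.Gamma ((l : ℝ) + 2 + (d : ℝ) / 2) * kr (n + 4 * l + 6) ε u := by
  have hq : 0 < ‖u‖ ^ 2 + ε ^ 2 := by positivity
  have hs : (0 : ℝ) < (l : ℝ) + 2 + (d : ℝ) / 2 := by positivity
  have h1 := Real.integral_rpow_mul_exp_neg_mul_Ioi hs hq
  have h2 : ∫ σ in Ioi (0 : ℝ), CGFAg d l ε (σ, u) =
      ∫ σ in Ioi (0 : ℝ), σ ^ ((l : ℝ) + 2 + (d : ℝ) / 2 - 1) *
        Real.exp (-((‖u‖ ^ 2 + ε ^ 2) * σ)) := by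
    refine setIntegral_congr_fun measurableSet_Ioi fun σ _ => ?_
    simp only [CGFAg, ga]
    rw [mul_assoc, ← Real.exp_add]
    congr 2
    ring
  rw [h2, h1, mul_comm]
  congr 1
  unfold kr
  rw [one_div, ← Real.sqrt_inv, Real.sqrt_eq_rpow,
    ← Real.rpow_natCast ((‖u‖ ^ 2 + ε ^ 2)⁻¹ ^ (1 / 2 : ℝ)) (n + 4 * l + 6 + 1),
    ← Real.rpow_mul (by positivity)]
  congr 1
  have h3 : (d : ℝ) = n + 2 * l + 3 := by
    rw [hd]
    push_cast
    ring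
  rw [h3]
  push_cast
  ring

theorem Pk_int {n l : ℕ} (hd : d = n + 2 * l + 3) {ε : ℝ} (hε : 0 < ε) :
    Integrable (Pk n l ε : X d → ℝ) := by
  have hs : (0 : ℝ) < (l : ℝ) + 2 + (d : ℝ) / 2 := by positivity
  have hG : Real.Gamma ((l : ℝ) + 2 + (d : ℝ) / 2) ≠ 0 := (Real.Gamma_pos_of_pos hs).ne'
  have h1 := (CGFA_int (d := d) l hε).integral_prod_right
  have h2 := h1.const_mul (ε ^ (2 * l + 4) * (Real.Gamma ((l : ℝ) + 2 + (d : ℝ) / 2))⁻¹)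
  refine h2.congr (Eventually.of_forall fun u => ?_)
  simp only
  rw [CGFA_gam hd hε u]
  unfold Pk
  field_simp

private theorem CGFA_et (l : ℕ) {ε : ℝ} (hε : 0 < ε) (a : X d) :
    et l ε a = ε ^ (2 * l + 4) *
      ∫ σ in Ioi (0 : ℝ), σ ^ (l + 1) * Real.exp (-(ε ^ 2 * σ) + -(‖a‖ ^ 2 / (4 * σ))) := by
  have hb : 0 < ε ^ 2 := by positivity
  have h1 := integral_comp_mul_left_Ioi
    (fun s : ℝ => s ^ (l + 1) * Real.exp (-s - ε ^ 2 * ‖a‖ ^ 2 / (4 * s))) 0 hb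
  rw [mul_zero, smul_eq_mul] at h1
  have h2 : ∫ σ in Ioi (0 : ℝ), (ε ^ 2 * σ) ^ (l + 1) *
        Real.exp (-(ε ^ 2 * σ) - ε ^ 2 * ‖a‖ ^ 2 / (4 * (ε ^ 2 * σ))) =
      ε ^ (2 * l + 2) *
        ∫ σ in Ioi (0 : ℝ), σ ^ (l + 1) * Real.exp (-(ε ^ 2 * σ) + -(‖a‖ ^ 2 / (4 * σ))) := by
    rw [← integral_const_mul]
    refine setIntegral_congr_fun measurableSet_Ioi fun σ hσ => ?_
    have hσ' : (0 : ℝ) < σ := hσ
    have h3 : -(ε ^ 2 * σ) - ε ^ 2 * ‖a‖ ^ 2 / (4 * (ε ^ 2 * σ)) =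
        -(ε ^ 2 * σ) + -(‖a‖ ^ 2 / (4 * σ)) := by
      field_simp
      ring
    rw [h3]
    ring
  rw [h2] at h1
  have h4 : et l ε a = ε ^ 2 * ((ε ^ 2)⁻¹ *
      ∫ s in Ioi (0 : ℝ), s ^ (l + 1) * Real.exp (-s - ε ^ 2 * ‖a‖ ^ 2 / (4 * s))) := by
    rw [mul_inv_cancel_left₀ hb.ne']
    rfl
  rw [h4, ← h1]
  ring

theorem Pk_cos {n l : ℕ} (hd : d = n + 2 * l + 3) {ε : ℝ} (hε : 0 < ε) (a : X d) :
    ∫ u : X d, Pk n l ε u * Real.cos ⟪u, a⟫ = c1 d l * et l ε a := by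
  have hs : (0 : ℝ) < (l : ℝ) + 2 + (d : ℝ) / 2 := by positivity
  have hG : Real.Gamma ((l : ℝ) + 2 + (d : ℝ) / 2) ≠ 0 := (Real.Gamma_pos_of_pos hs).ne'
  have hint : Integrable (Function.uncurry fun (σ : ℝ) (u : X d) =>
      CGFAg d l ε (σ, u) * Real.cos ⟪a, u⟫) ((volume.restrict (Ioi (0 : ℝ))).prod volume) := by
    refine (CGFA_int (d := d) l hε).mono ?_ (Eventually.of_forall fun p => ?_)
    · have hm : Measurable fun p : ℝ × X d => CGFAg d l ε p * Real.cos ⟪a, p.2⟫ := by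
        refine (CGFA_meas l ε).mul ?_
        fun_prop
      exact hm.aestronglyMeasurable
    · change ‖CGFAg d l ε p * Real.cos ⟪a, p.2⟫‖ ≤ _
      rw [norm_mul]
      exact mul_le_of_le_one_right (norm_nonneg _) (Real.abs_cos_le_one _)
  have hsw := integral_integral_swap hint
  have h1 : ∀ u : X d, Pk n l ε u * Real.cos ⟪u, a⟫ =
      ε ^ (2 * l + 4) * (Real.Gamma ((l : ℝ) + 2 + (d : ℝ) / 2))⁻¹ *
        ∫ σ in Ioi (0 : ℝ), CGFAg d l ε (σ, u) * Real.cos ⟪a, u⟫ := by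
    intro u
    rw [integral_mul_const, CGFA_gam hd hε u, real_inner_comm]
    unfold Pk
    field_simp
  rw [integral_congr_ae (Eventually.of_forall h1), integral_const_mul, ← hsw]
  have h2 : ∫ σ in Ioi (0 : ℝ), ∫ u : X d, CGFAg d l ε (σ, u) * Real.cos ⟪a, u⟫ =
      Real.pi ^ ((d : ℝ) / 2) *
        ∫ σ in Ioi (0 : ℝ), σ ^ (l + 1) * Real.exp (-(ε ^ 2 * σ) + -(‖a‖ ^ 2 / (4 * σ))) := by
    rw [← integral_const_mul]
    refine setIntegral_congr_fun measurableSet_Ioi fun σ hσ => ?_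
    have hσ' : (0 : ℝ) < σ := hσ
    have h3 : ∀ u : X d, CGFAg d l ε (σ, u) * Real.cos ⟪a, u⟫ =
        σ ^ ((l : ℝ) + 2 + (d : ℝ) / 2 - 1) * Real.exp (-(ε ^ 2 * σ)) *
          (ga σ u * Real.cos ⟪a, u⟫) := by
      intro u
      simp only [CGFAg]
      ring
    rw [integral_congr_ae (Eventually.of_forall h3), integral_const_mul, g_cos hσ' a,
      CGFA_val l ε hσ']
  rw [h2, CGFA_et l hε a]
  unfold c1
  ring

end Pool.Agent.H1.CG
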