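import Pool.Agent.H1.CG.GauA
import Pool.Agent.H1.CG.EtI

/-!
Row FC.  et_la, then la is a mixture of Gaussians with b = 1 / (4 σ): g_sin1 with b = 1/(4σ):
∫ e^(-|a|²/4σ) ⟪v,a⟫ sin⟪z,a⟫ = (4πσ)^(d/2) 2σ ⟪v,z⟫ e^(-σ|z|²); then ∫ σ^(-(l+3)+1+d/2) e^(-σ q) dσ = Γ((n+1)/2) q^(-(n+1)/2)
as d/2 - l - 1 = (n+1)/2.  Fubini by Tonelli: ∫∫ |a| e^(-|a|²/4σ) σ^(-(l+3)) e^(-σε²) < ∞ since (d+1)/2 - l - 3 > -1.
-/

set_option autoImplicit false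

open MeasureTheory Filter Topology Metric Set
open scoped RealInnerProductSpace ENNReal

namespace Pool.Agent.H1.CG

open Pool.Agent.RZ Pool.Agent.H1.LD Pool.Agent.H48.R7

variable {d : ℕ}

private theorem CGFC_s (l : ℕ) {ε : ℝ} (hε : 0 < ε) {a : X d} (ha : a ≠ 0) :
    IntegrableOn (fun s : ℝ => s⁻¹ ^ (l + 3) *
      Real.exp (-(s * ε ^ 2) - ‖a‖ ^ 2 / (4 * s))) (Ioi 0) := by
  have hn : 0 < ‖a‖ := norm_pos_iff.2 ha
  have hε2 : 0 < ε ^ 2 := by positivity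
  have h1 : IntegrableOn (fun s : ℝ => (4 / ‖a‖ ^ 2) ^ (l + 3) * ((l + 3).factorial : ℝ) *
      Real.exp (-(ε ^ 2) * s)) (Ioi 0) := (exp_neg_integrableOn_Ioi 0 hε2).const_mul _
  refine Integrable.mono' h1 (Measurable.aestronglyMeasurable (by fun_prop)) ?_
  filter_upwards [ae_restrict_mem measurableSet_Ioi] with s hs
  have hs' : (0 : ℝ) < s := hs
  have hx : 0 ≤ ‖a‖ ^ 2 / (4 * s) := by positivity
  have h2 := Real.pow_div_factorial_le_exp _ hx (l + 3)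
  have hf : (0 : ℝ) < ((l + 3).factorial : ℝ) := by positivity
  rw [div_le_iff₀ hf] at h2
  have h3 : s⁻¹ = 4 / ‖a‖ ^ 2 * (‖a‖ ^ 2 / (4 * s)) := by field_simp
  have h4 : Real.exp (-(s * ε ^ 2) - ‖a‖ ^ 2 / (4 * s)) =
      Real.exp (-(ε ^ 2) * s) * (Real.exp (‖a‖ ^ 2 / (4 * s)))⁻¹ := by
    rw [← Real.exp_neg, ← Real.exp_add]
    congr 1
    ring
  rw [Real.norm_of_nonneg (by positivity), h4]
  have h5 : s⁻¹ ^ (l + 3) ≤ (4 / ‖a‖ ^ 2) ^ (l + 3) *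
      (Real.exp (‖a‖ ^ 2 / (4 * s)) * ((l + 3).factorial : ℝ)) := by
    conv_lhs => rw [h3, mul_pow]
    exact mul_le_mul_of_nonneg_left h2 (by positivity)
  have h6 := Real.exp_pos (‖a‖ ^ 2 / (4 * s))
  calc s⁻¹ ^ (l + 3) * (Real.exp (-(ε ^ 2) * s) * (Real.exp (‖a‖ ^ 2 / (4 * s)))⁻¹)
      ≤ (4 / ‖a‖ ^ 2) ^ (l + 3) * (Real.exp (‖a‖ ^ 2 / (4 * s)) * ((l + 3).factorial : ℝ)) *
        (Real.exp (-(ε ^ 2) * s) * (Real.exp (‖a‖ ^ 2 / (4 * s)))⁻¹) :=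
        mul_le_mul_of_nonneg_right h5 (by positivity)
    _ = (4 / ‖a‖ ^ 2) ^ (l + 3) * ((l + 3).factorial : ℝ) * Real.exp (-(ε ^ 2) * s) := by
        field_simp

private theorem CGFC_in {s : ℝ} (hs : 0 < s) (l : ℕ) (ε : ℝ) (z v : X d) :
    ∫ a : X d, s⁻¹ ^ (l + 3) * Real.exp (-(s * ε ^ 2) - ‖a‖ ^ 2 / (4 * s)) *
      (⟪v, a⟫ * Real.sin ⟪z, a⟫) =
      2 * (4 * Real.pi) ^ ((d : ℝ) / 2) * ⟪v, z⟫ *
        (s ^ ((d : ℝ) / 2 - l - 2) * Real.exp (-((‖z‖ ^ 2 + ε ^ 2) * s))) := by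
  have hb : (0 : ℝ) < 1 / (4 * s) := by positivity
  have h1 : ∀ a : X d, s⁻¹ ^ (l + 3) * Real.exp (-(s * ε ^ 2) - ‖a‖ ^ 2 / (4 * s)) *
      (⟪v, a⟫ * Real.sin ⟪z, a⟫) = (s⁻¹ ^ (l + 3) * Real.exp (-(s * ε ^ 2))) *
        (ga (1 / (4 * s)) a * (⟪v, a⟫ * Real.sin ⟪z, a⟫)) := by
    intro a
    have h2 : Real.exp (-(s * ε ^ 2) - ‖a‖ ^ 2 / (4 * s)) =
        Real.exp (-(s * ε ^ 2)) * ga (1 / (4 * s)) a := by
      unfold ga
      rw [← Real.exp_add]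
      congr 1
      ring
    rw [h2]
    ring
  simp_rw [h1]
  rw [integral_const_mul, g_sin1 hb]
  have h3 : Real.pi / (1 / (4 * s)) = (4 * Real.pi) * s := by
    field_simp
  have h4 : ‖z‖ ^ 2 / (4 * (1 / (4 * s))) = ‖z‖ ^ 2 * s := by
    field_simp
  have h5 : ⟪v, z⟫ / (2 * (1 / (4 * s))) = 2 * s * ⟪v, z⟫ := by
    field_simp
    ring
  have h6 : Real.exp (-((‖z‖ ^ 2 + ε ^ 2) * s)) =
      Real.exp (-(s * ε ^ 2)) * Real.exp (-(‖z‖ ^ 2 * s)) := by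
    rw [← Real.exp_add]
    congr 1
    ring
  have h7 : s ^ ((d : ℝ) / 2 - l - 2) = s ^ ((d : ℝ) / 2) * (s⁻¹ ^ (l + 3) * s) := by
    have h8 : (d : ℝ) / 2 - l - 2 = (d : ℝ) / 2 - ((l + 2 : ℕ) : ℝ) := by
      push_cast
      ring
    rw [h8, Real.rpow_sub hs, Real.rpow_natCast, div_eq_mul_inv]
    congr 1
    rw [inv_pow, pow_succ s (l + 2)]
    field_simp
  rw [h3, h4, h5, h6, h7, Real.mul_rpow (by positivity) hs.le]
  ring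

theorem kr_sin {n l : ℕ} (hn : 1 ≤ n) (hd : d = n + 2 * l + 3) {ε : ℝ} (hε : 0 < ε) (z v : X d) :
    ∫ a : X d, ‖a‖⁻¹ ^ (2 * l + 4) * et l ε a * (⟪v, a⟫ * Real.sin ⟪z, a⟫) =
      c2 d n l * (kr n ε z * ⟪v, z⟫) := by
  have hd0 : 0 < d := by omega
  have : Nonempty (Fin d) := ⟨⟨0, hd0⟩⟩
  have hne : ∀ᵐ a : X d, a ≠ 0 := Measure.ae_ne volume 0
  have hq : 0 < ‖z‖ ^ 2 + ε ^ 2 := by positivity
  -- the function of two variables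
  let f : X d → ℝ → ℝ := fun a s =>
    s⁻¹ ^ (l + 3) * Real.exp (-(s * ε ^ 2) - ‖a‖ ^ 2 / (4 * s)) * (⟪v, a⟫ * Real.sin ⟪z, a⟫)
  have hmeas : Measurable (Function.uncurry f) := by
    show Measurable fun p : X d × ℝ => p.2⁻¹ ^ (l + 3) *
      Real.exp (-(p.2 * ε ^ 2) - ‖p.1‖ ^ 2 / (4 * p.2)) * (⟪v, p.1⟫ * Real.sin ⟪z, p.1⟫)
    fun_prop
  have hla : ∀ a : X d, ∫ s in Ioi (0 : ℝ), f a s = la l ε a * (⟪v, a⟫ * Real.sin ⟪z, a⟫) := by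
    intro a
    show ∫ s in Ioi (0 : ℝ), s⁻¹ ^ (l + 3) * Real.exp (-(s * ε ^ 2) - ‖a‖ ^ 2 / (4 * s)) *
      (⟪v, a⟫ * Real.sin ⟪z, a⟫) = _
    rw [integral_mul_const]
    rfl
  have hlan : ∀ a : X d, ∫ s in Ioi (0 : ℝ), ‖f a s‖ = la l ε a * |⟪v, a⟫ * Real.sin ⟪z, a⟫| := by
    intro a
    have h1 : ∀ s ∈ Ioi (0 : ℝ), ‖f a s‖ = s⁻¹ ^ (l + 3) *
        Real.exp (-(s * ε ^ 2) - ‖a‖ ^ 2 / (4 * s)) * |⟪v, a⟫ * Real.sin ⟪z, a⟫| := by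
      intro s hs
      have hs' : (0 : ℝ) < s := hs
      show ‖s⁻¹ ^ (l + 3) * Real.exp (-(s * ε ^ 2) - ‖a‖ ^ 2 / (4 * s)) *
        (⟪v, a⟫ * Real.sin ⟪z, a⟫)‖ = _
      rw [Real.norm_eq_abs, abs_mul, abs_of_nonneg (a := s⁻¹ ^ (l + 3) * _) (by positivity)]
    rw [setIntegral_congr_fun measurableSet_Ioi h1, integral_mul_const]
    rfl
  have hint : Integrable (Function.uncurry f)
      ((volume : Measure (X d)).prod (volume.restrict (Ioi (0 : ℝ)))) := by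
    rw [integrable_prod_iff hmeas.aestronglyMeasurable]
    refine ⟨?_, ?_⟩
    · filter_upwards [hne] with a ha
      exact (CGFC_s l hε ha).mul_const (⟪v, a⟫ * Real.sin ⟪z, a⟫)
    · have h1 : Integrable fun a : X d => 4 ^ (l + 2) * ‖v‖ *
          (‖a‖⁻¹ ^ (2 * l + 3) * et l ε a * (1 + ‖a‖) ^ 0) :=
        (et_int l hε (j := 2 * l + 3) (by omega) 0).const_mul _
      refine Integrable.mono' h1 ?_ ?_
      · exact (hmeas.norm.stronglyMeasurable.integral_prod_right).aestronglyMeasurable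
      · filter_upwards [hne] with a ha
        have hna : 0 < ‖a‖ := norm_pos_iff.2 ha
        show ‖∫ s in Ioi (0 : ℝ), ‖f a s‖‖ ≤ _
        have h2 : la l ε a = 4 ^ (l + 2) * (‖a‖⁻¹ ^ (2 * l + 4) * et l ε a) := by
          rw [et_la l hε ha, ← mul_assoc, ← mul_pow]
          norm_num
        have h3 : |⟪v, a⟫ * Real.sin ⟪z, a⟫| ≤ ‖v‖ * ‖a‖ := by
          rw [abs_mul]
          calc |⟪v, a⟫| * |Real.sin ⟪z, a⟫| ≤ (‖v‖ * ‖a‖) * 1 :=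
              mul_le_mul (abs_real_inner_le_norm v a) (Real.abs_sin_le_one _) (abs_nonneg _)
                (by positivity)
            _ = ‖v‖ * ‖a‖ := mul_one _
        have h4 := et_nonneg l ε a
        rw [hlan a, h2, Real.norm_of_nonneg (by positivity), pow_zero, mul_one]
        calc 4 ^ (l + 2) * (‖a‖⁻¹ ^ (2 * l + 4) * et l ε a) * |⟪v, a⟫ * Real.sin ⟪z, a⟫|
            ≤ 4 ^ (l + 2) * (‖a‖⁻¹ ^ (2 * l + 4) * et l ε a) * (‖v‖ * ‖a‖) :=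
              mul_le_mul_of_nonneg_left h3 (by positivity)
          _ = 4 ^ (l + 2) * ‖v‖ * (‖a‖⁻¹ ^ (2 * l + 3) * et l ε a) := by
              rw [pow_succ ‖a‖⁻¹ (2 * l + 3)]
              field_simp
  have h1 : ∫ a : X d, ‖a‖⁻¹ ^ (2 * l + 4) * et l ε a * (⟪v, a⟫ * Real.sin ⟪z, a⟫) =
      ∫ a : X d, (4 : ℝ)⁻¹ ^ (l + 2) * ∫ s in Ioi (0 : ℝ), f a s := by
    refine integral_congr_ae ?_
    filter_upwards [hne] with a ha
    rw [hla a, et_la l hε ha]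
    ring
  rw [h1, integral_const_mul, integral_integral_swap hint]
  have h2 : ∀ s ∈ Ioi (0 : ℝ), ∫ a : X d, f a s =
      2 * (4 * Real.pi) ^ ((d : ℝ) / 2) * ⟪v, z⟫ *
        (s ^ (((n : ℝ) + 1) / 2 - 1) * Real.exp (-((‖z‖ ^ 2 + ε ^ 2) * s))) := by
    intro s hs
    have h3 : ((n : ℝ) + 1) / 2 - 1 = (d : ℝ) / 2 - l - 2 := by
      rw [hd]
      push_cast
      ring
    rw [h3]
    exact CGFC_in hs l ε z v
  rw [setIntegral_congr_fun measurableSet_Ioi h2, integral_const_mul,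
    Real.integral_rpow_mul_exp_neg_mul_Ioi (by positivity) hq]
  have h3 : (1 / (‖z‖ ^ 2 + ε ^ 2)) ^ (((n : ℝ) + 1) / 2) = kr n ε z := by
    unfold kr
    have h4 : ((n : ℝ) + 1) / 2 = (1 / 2 : ℝ) * ((n + 1 : ℕ) : ℝ) := by
      push_cast
      ring
    rw [h4, Real.rpow_mul (by positivity), Real.rpow_natCast, ← Real.sqrt_eq_rpow, one_div,
      Real.sqrt_inv]
  rw [h3]
  unfold c2
  ring

end Pool.Agent.H1.CG
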