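import Pool.Agent.H1.CG.Gau
import Pool.Agent.H1.CG.EtI

/-!
Row FD.  ‖a‖⁻¹^(2l+2) et = ‖a‖² ‖a‖⁻¹^(2l+4) et = 4⁻¹^(l+2) ‖a‖² la (a ≠ 0), la a mixture of Gaussians with b = 1/(4σ):
g_cos2: ∫ e^(-|a|²/4σ) |a|² cos⟪z,a⟫ = (4πσ)^(d/2) (2dσ - 4σ²|z|²) e^(-σ|z|²), and
∫ σ^(-(l+3)+d/2) (2dσ - 4σ²|z|²) e^(-σq) dσ = 2 Γ((n+1)/2) (d q^(-(n+1)/2) - (n+1)|z|² q^(-(n+3)/2)), |z|² = q - ε²; the same for g_sin3.
-/

set_option autoImplicit false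

open MeasureTheory Filter Topology Metric Set
open scoped RealInnerProductSpace ENNReal

namespace Pool.Agent.H1.CG

open Pool.Agent.RZ Pool.Agent.H1.LD Pool.Agent.H48.R7

variable {d : ℕ}

/-- the powers of `s` collected -/
private theorem CGFD_pt {n l : ℕ} (hd : d = n + 2 * l + 3) (k : ℕ) {s : ℝ} (hs : 0 < s) :
    s⁻¹ ^ (l + 3) * ((4 * Real.pi * s) ^ ((d : ℝ) / 2) * s ^ (k + 1)) =
      (4 * Real.pi) ^ ((d : ℝ) / 2) * s ^ (((n : ℝ) + 2 * k + 1) / 2 - 1) := by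
  have h1 : (4 * Real.pi * s) ^ ((d : ℝ) / 2) = (4 * Real.pi) ^ ((d : ℝ) / 2) * s ^ ((d : ℝ) / 2) :=
    Real.mul_rpow (by positivity) hs.le
  have h2 : s⁻¹ ^ (l + 3) = s ^ (-((l : ℝ) + 3)) := by
    rw [Real.rpow_neg hs.le, inv_pow]
    congr 1
    rw [← Real.rpow_natCast]
    push_cast
    rfl
  have h3 : s ^ (k + 1) = s ^ ((k : ℝ) + 1) := by
    rw [← Real.rpow_natCast]
    push_cast
    rfl
  rw [h1, h2, h3]
  have h4 : ((n : ℝ) + 2 * k + 1) / 2 - 1 = -((l : ℝ) + 3) + ((d : ℝ) / 2) + ((k : ℝ) + 1) := by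
    subst hd
    push_cast
    ring
  rw [h4, Real.rpow_add hs (-((l : ℝ) + 3) + (d : ℝ) / 2) ((k : ℝ) + 1),
    Real.rpow_add hs (-((l : ℝ) + 3)) ((d : ℝ) / 2)]
  ring

private theorem CGFD_sq {q : ℝ} (hq : 0 < q) (m : ℕ) :
    (1 / q) ^ ((m : ℝ) / 2) = (Real.sqrt q)⁻¹ ^ m := by
  have h1 : (Real.sqrt q)⁻¹ = (1 / q) ^ ((1 : ℝ) / 2) := by
    rw [Real.sqrt_eq_rpow, one_div q, Real.inv_rpow hq.le]
  rw [h1, ← Real.rpow_natCast, ← Real.rpow_mul (by positivity)]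
  congr 1
  ring

/-- the integral in `s` -/
private theorem CGFD_I {n l : ℕ} (hd : d = n + 2 * l + 3) (k : ℕ) {q : ℝ} (hq : 0 < q) :
    IntegrableOn (fun s : ℝ => s⁻¹ ^ (l + 3) * ((4 * Real.pi * s) ^ ((d : ℝ) / 2) * s ^ (k + 1)) *
      Real.exp (-(q * s))) (Ioi 0) ∧
    ∫ s in Ioi (0 : ℝ), s⁻¹ ^ (l + 3) * ((4 * Real.pi * s) ^ ((d : ℝ) / 2) * s ^ (k + 1)) *
      Real.exp (-(q * s)) =
      (4 * Real.pi) ^ ((d : ℝ) / 2) * Real.Gamma (((n : ℝ) + 2 * k + 1) / 2) *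
        (Real.sqrt q)⁻¹ ^ (n + 2 * k + 1) := by
  have hpos : 0 < ((n : ℝ) + 2 * k + 1) / 2 := by positivity
  have h0 : EqOn (fun s : ℝ => s⁻¹ ^ (l + 3) * ((4 * Real.pi * s) ^ ((d : ℝ) / 2) * s ^ (k + 1)) *
      Real.exp (-(q * s))) (fun s => (4 * Real.pi) ^ ((d : ℝ) / 2) *
        (s ^ (((n : ℝ) + 2 * k + 1) / 2 - 1) * Real.exp (-(q * s)))) (Ioi 0) := by
    intro s hs
    simp only
    rw [CGFD_pt hd k hs, mul_assoc]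
  have h1 : IntegrableOn (fun s : ℝ => s ^ (((n : ℝ) + 2 * k + 1) / 2 - 1) * Real.exp (-(q * s))) (Ioi 0) := by
    have h2 := integrableOn_rpow_mul_exp_neg_mul_rpow (p := 1) (s := ((n : ℝ) + 2 * k + 1) / 2 - 1) (b := q)
      (by linarith) one_pos hq
    refine h2.congr_fun (fun s _ => ?_) measurableSet_Ioi
    simp only
    rw [Real.rpow_one, neg_mul]
  refine ⟨?_, ?_⟩
  · exact IntegrableOn.congr_fun (h1.const_mul _) h0.symm measurableSet_Ioi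
  · rw [setIntegral_congr_fun measurableSet_Ioi h0, integral_const_mul, Real.integral_rpow_mul_exp_neg_mul_Ioi hpos hq]
    have h3 := CGFD_sq hq (n + 2 * k + 1)
    push_cast at h3
    rw [h3]
    ring

/-- elementary bound of the moments -/
private theorem CGFD_bd {r s : ℝ} (hs : 0 < s) :
    (r ^ 2 + r ^ 4) * Real.exp (-(1 / (4 * s) * r ^ 2)) ≤ (8 * s + 128 * s ^ 2) * Real.exp (-(1 / (8 * s) * r ^ 2)) := by
  obtain ⟨x, hx⟩ : ∃ x, x = 1 / (8 * s) * r ^ 2 := ⟨_, rfl⟩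
  have hx0 : 0 ≤ x := by rw [hx]; positivity
  have h1 : r ^ 2 = 8 * s * x := by
    rw [hx]
    field_simp
  have h2 : r ^ 4 = 64 * s ^ 2 * x ^ 2 := by
    have : r ^ 4 = (r ^ 2) ^ 2 := by ring
    rw [this, h1]
    ring
  have h3 : 1 / (4 * s) * r ^ 2 = x + x := by
    rw [hx]
    field_simp
    ring
  rw [h3, ← hx, h1, h2, neg_add, Real.exp_add]
  have h4 : x * Real.exp (-x) ≤ 1 := by
    have h5 : x + 1 ≤ Real.exp x := Real.add_one_le_exp x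
    rw [Real.exp_neg, mul_inv_le_iff₀ (Real.exp_pos x)]
    linarith
  have h6 : x ^ 2 * Real.exp (-x) ≤ 2 := by
    have h7 : 1 + x + x ^ 2 / 2 ≤ Real.exp x := Real.quadratic_le_exp_of_nonneg hx0
    rw [Real.exp_neg, mul_inv_le_iff₀ (Real.exp_pos x)]
    linarith
  have h8 : 0 < Real.exp (-x) := Real.exp_pos _
  have h9 : (8 * s * x + 64 * s ^ 2 * x ^ 2) * Real.exp (-x) ≤ 8 * s + 128 * s ^ 2 := by
    have h10 : 8 * s * (x * Real.exp (-x)) ≤ 8 * s * 1 := mul_le_mul_of_nonneg_left h4 (by positivity)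
    have h11 : 64 * s ^ 2 * (x ^ 2 * Real.exp (-x)) ≤ 64 * s ^ 2 * 2 :=
      mul_le_mul_of_nonneg_left h6 (by positivity)
    nlinarith
  calc (8 * s * x + 64 * s ^ 2 * x ^ 2) * (Real.exp (-x) * Real.exp (-x))
      = (8 * s * x + 64 * s ^ 2 * x ^ 2) * Real.exp (-x) * Real.exp (-x) := by ring
    _ ≤ _ := mul_le_mul_of_nonneg_right h9 h8.le

private theorem CGFD_ga {s : ℝ} (hs : 0 < s) :
    Integrable (fun a : X d => Real.exp (-(1 / (8 * s) * ‖a‖ ^ 2))) ∧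
    ∫ a : X d, Real.exp (-(1 / (8 * s) * ‖a‖ ^ 2)) = (2 : ℝ) ^ ((d : ℝ) / 2) * (4 * Real.pi * s) ^ ((d : ℝ) / 2) := by
  have hb : 0 < 1 / (8 * s) := by positivity
  refine ⟨?_, ?_⟩
  · have h1 := g_int (d := d) hb 0
    simp only [pow_zero, mul_one] at h1
    exact h1
  · have h1 := g_cos (d := d) hb 0
    simp only [inner_zero_left, Real.cos_zero, mul_one, norm_zero] at h1
    have h2 : (fun a : X d => ga (1 / (8 * s)) a) = fun a => Real.exp (-(1 / (8 * s) * ‖a‖ ^ 2)) := rfl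
    rw [h2] at h1
    rw [h1, ← Real.mul_rpow (by norm_num) (by positivity)]
    have h3 : Real.pi / (1 / (8 * s)) = 2 * (4 * Real.pi * s) := by
      field_simp
      ring
    rw [h3]
    simp

/-- `la` is a mixture of Gaussians -/
private theorem CGFD_fub {n l : ℕ} (hd : d = n + 2 * l + 3) {ε : ℝ} (hε : 0 < ε) {F : X d → ℝ}
    (hF : Measurable F) {K : ℝ} (hK : 0 ≤ K) (hFb : ∀ a, |F a| ≤ K * (‖a‖ ^ 2 + ‖a‖ ^ 4)) :
    ∫ a : X d, F a * la l ε a = ∫ s in Ioi (0 : ℝ), s⁻¹ ^ (l + 3) * Real.exp (-(s * ε ^ 2)) *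
      ∫ a : X d, ga (1 / (4 * s)) a * F a := by
  set H : ℝ → X d → ℝ := fun s a => s⁻¹ ^ (l + 3) * Real.exp (-(s * ε ^ 2) - ‖a‖ ^ 2 / (4 * s)) * F a with hH
  have hmeas : Measurable (fun p : ℝ × X d => H p.1 p.2) := by
    simp only [hH]
    have h1 : Measurable fun p : ℝ × X d => p.1⁻¹ ^ (l + 3) := (measurable_fst.inv).pow_const _
    have h2 : Measurable fun p : ℝ × X d => Real.exp (-(p.1 * ε ^ 2) - ‖p.2‖ ^ 2 / (4 * p.1)) := by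
      refine Real.measurable_exp.comp ?_
      exact ((measurable_fst.mul_const _).neg).sub ((measurable_snd.norm.pow_const _).div
        (measurable_fst.const_mul _))
    exact (h1.mul h2).mul (hF.comp measurable_snd)
  have hbd : ∀ s : ℝ, 0 < s → ∀ a : X d, ‖H s a‖ ≤ (s⁻¹ ^ (l + 3) * Real.exp (-(ε ^ 2 * s)) *
      (K * (8 * s + 128 * s ^ 2))) * Real.exp (-(1 / (8 * s) * ‖a‖ ^ 2)) := by
    intro s hs a
    have e1 : Real.exp (-(s * ε ^ 2) - ‖a‖ ^ 2 / (4 * s)) =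
        Real.exp (-(ε ^ 2 * s)) * Real.exp (-(1 / (4 * s) * ‖a‖ ^ 2)) := by
      rw [← Real.exp_add]
      congr 1
      ring
    simp only [hH]
    rw [Real.norm_eq_abs, abs_mul, abs_of_nonneg (by positivity : (0:ℝ) ≤ s⁻¹ ^ (l + 3) *
      Real.exp (-(s * ε ^ 2) - ‖a‖ ^ 2 / (4 * s))), e1]
    have h1 := CGFD_bd (r := ‖a‖) hs
    have h2 : Real.exp (-(1 / (4 * s) * ‖a‖ ^ 2)) * |F a| ≤ K * ((8 * s + 128 * s ^ 2) *
        Real.exp (-(1 / (8 * s) * ‖a‖ ^ 2))) := by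
      calc Real.exp (-(1 / (4 * s) * ‖a‖ ^ 2)) * |F a|
          ≤ Real.exp (-(1 / (4 * s) * ‖a‖ ^ 2)) * (K * (‖a‖ ^ 2 + ‖a‖ ^ 4)) :=
            mul_le_mul_of_nonneg_left (hFb a) (Real.exp_pos _).le
        _ = K * ((‖a‖ ^ 2 + ‖a‖ ^ 4) * Real.exp (-(1 / (4 * s) * ‖a‖ ^ 2))) := by ring
        _ ≤ _ := mul_le_mul_of_nonneg_left h1 hK
    have h3 : 0 ≤ s⁻¹ ^ (l + 3) * Real.exp (-(ε ^ 2 * s)) := by positivity
    calc s⁻¹ ^ (l + 3) * (Real.exp (-(ε ^ 2 * s)) * Real.exp (-(1 / (4 * s) * ‖a‖ ^ 2))) * |F a|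
        = s⁻¹ ^ (l + 3) * Real.exp (-(ε ^ 2 * s)) * (Real.exp (-(1 / (4 * s) * ‖a‖ ^ 2)) * |F a|) := by ring
      _ ≤ s⁻¹ ^ (l + 3) * Real.exp (-(ε ^ 2 * s)) * (K * ((8 * s + 128 * s ^ 2) *
          Real.exp (-(1 / (8 * s) * ‖a‖ ^ 2)))) := mul_le_mul_of_nonneg_left h2 h3
      _ = _ := by ring
  have hint : Integrable (Function.uncurry H) ((volume.restrict (Ioi (0 : ℝ))).prod (volume : Measure (X d))) := by
    have hsm : AEStronglyMeasurable (Function.uncurry H)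
        ((volume.restrict (Ioi (0 : ℝ))).prod (volume : Measure (X d))) := hmeas.aestronglyMeasurable
    have hs1 : ∀ s : ℝ, 0 < s → Integrable (fun a : X d => H s a) := by
      intro s hs
      refine ((CGFD_ga (d := d) hs).1.const_mul (s⁻¹ ^ (l + 3) * Real.exp (-(ε ^ 2 * s)) *
        (K * (8 * s + 128 * s ^ 2)))).mono' ?_ (Eventually.of_forall (hbd s hs))
      exact (hmeas.comp measurable_prodMk_left).aestronglyMeasurable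
    rw [integrable_prod_iff hsm]
    refine ⟨(ae_restrict_iff' measurableSet_Ioi).2 (Eventually.of_forall fun s hs => hs1 s hs), ?_⟩
    have hB := ((CGFD_I (d := d) hd 0 (by positivity : 0 < ε ^ 2)).1.const_mul (K * 8 * (2 : ℝ) ^ ((d : ℝ) / 2))).add
      ((CGFD_I (d := d) hd 1 (by positivity : 0 < ε ^ 2)).1.const_mul (K * 128 * (2 : ℝ) ^ ((d : ℝ) / 2)))
    refine Integrable.mono' hB hsm.norm.integral_prod_right' ?_
    refine (ae_restrict_iff' measurableSet_Ioi).2 (Eventually.of_forall fun s hs => ?_)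
    have hs' : 0 < s := hs
    rw [Real.norm_of_nonneg (integral_nonneg fun _ => norm_nonneg _)]
    calc ∫ a : X d, ‖Function.uncurry H (s, a)‖ ≤ ∫ a : X d, (s⁻¹ ^ (l + 3) * Real.exp (-(ε ^ 2 * s)) *
          (K * (8 * s + 128 * s ^ 2))) * Real.exp (-(1 / (8 * s) * ‖a‖ ^ 2)) :=
          integral_mono (hs1 s hs').norm ((CGFD_ga (d := d) hs').1.const_mul _) (hbd s hs')
      _ = _ := by
          rw [integral_const_mul, (CGFD_ga (d := d) hs').2]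
          simp only [Pi.add_apply]
          ring
  have hsw := integral_integral_swap hint
  have e1 : ∀ a : X d, F a * la l ε a = ∫ s in Ioi (0 : ℝ), H s a := by
    intro a
    simp only [hH, la]
    rw [integral_mul_const, mul_comm]
  calc ∫ a : X d, F a * la l ε a = ∫ a : X d, ∫ s in Ioi (0 : ℝ), H s a := by simp only [e1]
    _ = ∫ s in Ioi (0 : ℝ), ∫ a : X d, H s a := hsw.symm
    _ = _ := by
        refine setIntegral_congr_fun measurableSet_Ioi fun s hs => ?_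
        simp only [hH]
        rw [← integral_const_mul]
        refine integral_congr_ae (Eventually.of_forall fun a => ?_)
        simp only
        have e2 : Real.exp (-(s * ε ^ 2) - ‖a‖ ^ 2 / (4 * s)) = Real.exp (-(s * ε ^ 2)) * ga (1 / (4 * s)) a := by
          unfold ga
          rw [← Real.exp_add]
          congr 1
          ring
        rw [e2]
        ring

/-- the singular weight -/
private theorem CGFD_w (l : ℕ) {ε : ℝ} (hε : 0 < ε) (a : X d) :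
    ‖a‖⁻¹ ^ (2 * l + 2) * et l ε a = (4 : ℝ)⁻¹ ^ (l + 2) * (‖a‖ ^ 2 * la l ε a) := by
  by_cases ha : a = 0
  · subst ha
    simp
  · have h1 := et_la l hε ha
    have h2 : 0 < ‖a‖ := norm_pos_iff.2 ha
    have h3 : ‖a‖⁻¹ ^ (2 * l + 2) = ‖a‖ ^ 2 * ‖a‖⁻¹ ^ (2 * l + 4) := by
      have h4 : ‖a‖ ^ 2 * ‖a‖⁻¹ ^ 2 = 1 := by rw [← mul_pow, mul_inv_cancel₀ h2.ne', one_pow]
      calc ‖a‖⁻¹ ^ (2 * l + 2) = (‖a‖ ^ 2 * ‖a‖⁻¹ ^ 2) * ‖a‖⁻¹ ^ (2 * l + 2) := by rw [h4, one_mul]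
        _ = _ := by ring
    rw [h3, mul_assoc, h1]
    ring

private theorem CGFD_kr (n : ℕ) {ε : ℝ} (hε : 0 < ε) (z : X d) :
    ‖z‖ ^ 2 * kr (n + 2) ε z = kr n ε z - ε ^ 2 * kr (n + 2) ε z := by
  have hq : 0 < ‖z‖ ^ 2 + ε ^ 2 := by positivity
  have h1 : 0 < Real.sqrt (‖z‖ ^ 2 + ε ^ 2) := Real.sqrt_pos.2 hq
  have h2 : Real.sqrt (‖z‖ ^ 2 + ε ^ 2) ^ 2 = ‖z‖ ^ 2 + ε ^ 2 := Real.sq_sqrt hq.le
  have h3 : (‖z‖ ^ 2 + ε ^ 2) * kr (n + 2) ε z = kr n ε z := by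
    unfold kr
    rw [← h2]
    set r := Real.sqrt (Real.sqrt (‖z‖ ^ 2 + ε ^ 2) ^ 2) with hr
    have h4 : r = Real.sqrt (‖z‖ ^ 2 + ε ^ 2) := by rw [hr, h2]
    rw [h4]
    set q := Real.sqrt (‖z‖ ^ 2 + ε ^ 2)
    have h5 : q ^ 2 * q⁻¹ ^ 2 = 1 := by rw [← mul_pow, mul_inv_cancel₀ h1.ne', one_pow]
    calc q ^ 2 * q⁻¹ ^ (n + 2 + 1) = (q ^ 2 * q⁻¹ ^ 2) * q⁻¹ ^ (n + 1) := by ring
      _ = _ := by rw [h5, one_mul]
  linarith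

private theorem CGFD_G1 (n : ℕ) : Real.Gamma (((n : ℝ) + 2 * (1 : ℕ) + 1) / 2) =
    ((n : ℝ) + 1) / 2 * Real.Gamma (((n : ℝ) + 1) / 2) := by
  have h1 : ((n : ℝ) + 2 * (1 : ℕ) + 1) / 2 = ((n : ℝ) + 1) / 2 + 1 := by
    push_cast
    ring
  rw [h1, Real.Gamma_add_one (by positivity)]

private theorem CGFD_G2 (n : ℕ) : Real.Gamma (((n : ℝ) + 2 * (2 : ℕ) + 1) / 2) =
    ((n : ℝ) + 3) / 2 * (((n : ℝ) + 1) / 2 * Real.Gamma (((n : ℝ) + 1) / 2)) := by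
  have h1 : ((n : ℝ) + 2 * (2 : ℕ) + 1) / 2 = ((n : ℝ) + 2 * (1 : ℕ) + 1) / 2 + 1 := by
    push_cast
    ring
  rw [h1, Real.Gamma_add_one (by positivity), CGFD_G1]
  push_cast
  ring

theorem Tk_cos {n l : ℕ} (hn : 1 ≤ n) (hd : d = n + 2 * l + 3) {ε : ℝ} (hε : 0 < ε) (z : X d) :
    ∫ a : X d, ‖a‖⁻¹ ^ (2 * l + 2) * et l ε a * Real.cos ⟪z, a⟫ = c2 d n l * Tk n l ε z := by
  have hq : 0 < ‖z‖ ^ 2 + ε ^ 2 := by positivity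
  have e1 : ∀ a : X d, ‖a‖⁻¹ ^ (2 * l + 2) * et l ε a * Real.cos ⟪z, a⟫ =
      (4 : ℝ)⁻¹ ^ (l + 2) * ((‖a‖ ^ 2 * Real.cos ⟪z, a⟫) * la l ε a) := by
    intro a
    rw [CGFD_w l hε a]
    ring
  simp only [e1]
  rw [integral_const_mul, CGFD_fub hd hε (F := fun a : X d => ‖a‖ ^ 2 * Real.cos ⟪z, a⟫) (by fun_prop) zero_le_one
    (fun a => by
      rw [abs_mul, abs_of_nonneg (by positivity : (0:ℝ) ≤ ‖a‖ ^ 2), one_mul]
      have h1 : |Real.cos ⟪z, a⟫| ≤ 1 := Real.abs_cos_le_one _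
      have h2 : (0:ℝ) ≤ ‖a‖ ^ 2 := by positivity
      have h3 : (0:ℝ) ≤ ‖a‖ ^ 4 := by positivity
      nlinarith)]
  have e2 : ∀ s ∈ Ioi (0 : ℝ), s⁻¹ ^ (l + 3) * Real.exp (-(s * ε ^ 2)) *
      ∫ a : X d, ga (1 / (4 * s)) a * (‖a‖ ^ 2 * Real.cos ⟪z, a⟫) =
      2 * d * (s⁻¹ ^ (l + 3) * ((4 * Real.pi * s) ^ ((d : ℝ) / 2) * s ^ (0 + 1)) *
        Real.exp (-((‖z‖ ^ 2 + ε ^ 2) * s))) -
      4 * ‖z‖ ^ 2 * (s⁻¹ ^ (l + 3) * ((4 * Real.pi * s) ^ ((d : ℝ) / 2) * s ^ (1 + 1)) *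
        Real.exp (-((‖z‖ ^ 2 + ε ^ 2) * s))) := by
    intro s hs
    have hs' : 0 < s := hs
    rw [g_cos2 (by positivity : 0 < 1 / (4 * s)) z]
    have h1 : Real.pi / (1 / (4 * s)) = 4 * Real.pi * s := by
      field_simp
    have h2 : (d : ℝ) / (2 * (1 / (4 * s))) - ‖z‖ ^ 2 / (4 * (1 / (4 * s)) ^ 2) = 2 * d * s - 4 * ‖z‖ ^ 2 * s ^ 2 := by
      field_simp
      ring
    have h3 : Real.exp (-((‖z‖ ^ 2 + ε ^ 2) * s)) = Real.exp (-(s * ε ^ 2)) *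
        Real.exp (-(‖z‖ ^ 2 / (4 * (1 / (4 * s))))) := by
      rw [← Real.exp_add]
      congr 1
      field_simp
      ring
    rw [h1, h2, h3]
    ring
  rw [setIntegral_congr_fun measurableSet_Ioi e2, integral_sub
    ((CGFD_I (d := d) hd 0 hq).1.const_mul _) ((CGFD_I (d := d) hd 1 hq).1.const_mul _),
    integral_const_mul, integral_const_mul, (CGFD_I (d := d) hd 0 hq).2, (CGFD_I (d := d) hd 1 hq).2, CGFD_G1]
  have h5 := CGFD_kr n hε z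
  have h6 : (Real.sqrt (‖z‖ ^ 2 + ε ^ 2))⁻¹ ^ (n + 2 * 0 + 1) = kr n ε z := rfl
  have h7 : (Real.sqrt (‖z‖ ^ 2 + ε ^ 2))⁻¹ ^ (n + 2 * 1 + 1) = kr (n + 2) ε z := rfl
  rw [h6, h7]
  unfold c2 Tk
  have h8 : ((4 : ℝ) * Real.pi) ^ ((d : ℝ) / 2) = (4 * Real.pi) ^ ((d : ℝ) / 2) := rfl
  have h9 : (d : ℝ) = n + 2 * l + 3 := by
    rw [hd]
    push_cast
    ring
  have h10 : (((n : ℝ) + 2 * ((0 : ℕ) : ℝ) + 1) / 2) = ((n : ℝ) + 1) / 2 := by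
    push_cast
    ring
  rw [h10]
  generalize ((4 : ℝ) * Real.pi) ^ ((d : ℝ) / 2) = Q
  generalize Real.Gamma (((n : ℝ) + 1) / 2) = Γ'
  rw [h9]
  have h11 : 4 * ‖z‖ ^ 2 * (Q * (((n : ℝ) + 1) / 2 * Γ') * kr (n + 2) ε z) =
      4 * (Q * (((n : ℝ) + 1) / 2 * Γ')) * (‖z‖ ^ 2 * kr (n + 2) ε z) := by ring
  rw [h11, h5]
  ring

theorem Tk_sin {n l : ℕ} (hn : 1 ≤ n) (hd : d = n + 2 * l + 3) {ε : ℝ} (hε : 0 < ε) (z v : X d) :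
    ∫ a : X d, ‖a‖⁻¹ ^ (2 * l + 2) * et l ε a * (⟪v, a⟫ * Real.sin ⟪z, a⟫) =
      c2 d n l * (Tk' n l ε z * ⟪v, z⟫) := by
  have hq : 0 < ‖z‖ ^ 2 + ε ^ 2 := by positivity
  have e1 : ∀ a : X d, ‖a‖⁻¹ ^ (2 * l + 2) * et l ε a * (⟪v, a⟫ * Real.sin ⟪z, a⟫) =
      (4 : ℝ)⁻¹ ^ (l + 2) * ((‖a‖ ^ 2 * (⟪v, a⟫ * Real.sin ⟪z, a⟫)) * la l ε a) := by
    intro a
    rw [CGFD_w l hε a]
    ring
  simp only [e1]
  rw [integral_const_mul, CGFD_fub hd hε (F := fun a : X d => ‖a‖ ^ 2 * (⟪v, a⟫ * Real.sin ⟪z, a⟫))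
    (by fun_prop) (norm_nonneg v)
    (fun a => by
      rw [abs_mul, abs_of_nonneg (by positivity : (0:ℝ) ≤ ‖a‖ ^ 2), abs_mul]
      have h1 : |Real.sin ⟪z, a⟫| ≤ 1 := Real.abs_sin_le_one _
      have h2 : |(⟪v, a⟫ : ℝ)| ≤ ‖v‖ * ‖a‖ := abs_real_inner_le_norm v a
      have h3 : |(⟪v, a⟫ : ℝ)| * |Real.sin ⟪z, a⟫| ≤ ‖v‖ * ‖a‖ := by
        calc |(⟪v, a⟫ : ℝ)| * |Real.sin ⟪z, a⟫| ≤ (‖v‖ * ‖a‖) * 1 :=
              mul_le_mul h2 h1 (abs_nonneg _) (by positivity)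
          _ = _ := mul_one _
      have h4 : ‖a‖ ^ 2 * ‖a‖ ≤ ‖a‖ ^ 2 + ‖a‖ ^ 4 := by
        have h5 : (0:ℝ) ≤ ‖a‖ ^ 2 * (‖a‖ - 1) ^ 2 := by positivity
        have h6 : (0:ℝ) ≤ ‖a‖ ^ 2 := by positivity
        have h7 : (0:ℝ) ≤ ‖a‖ ^ 4 := by positivity
        nlinarith
      calc ‖a‖ ^ 2 * (|(⟪v, a⟫ : ℝ)| * |Real.sin ⟪z, a⟫|) ≤ ‖a‖ ^ 2 * (‖v‖ * ‖a‖) :=
            mul_le_mul_of_nonneg_left h3 (by positivity)
        _ = ‖v‖ * (‖a‖ ^ 2 * ‖a‖) := by ring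
        _ ≤ _ := mul_le_mul_of_nonneg_left h4 (norm_nonneg v))]
  have e2 : ∀ s ∈ Ioi (0 : ℝ), s⁻¹ ^ (l + 3) * Real.exp (-(s * ε ^ 2)) *
      ∫ a : X d, ga (1 / (4 * s)) a * (‖a‖ ^ 2 * (⟪v, a⟫ * Real.sin ⟪z, a⟫)) =
      4 * (d + 2) * ⟪v, z⟫ * (s⁻¹ ^ (l + 3) * ((4 * Real.pi * s) ^ ((d : ℝ) / 2) * s ^ (1 + 1)) *
        Real.exp (-((‖z‖ ^ 2 + ε ^ 2) * s))) -
      8 * ‖z‖ ^ 2 * ⟪v, z⟫ * (s⁻¹ ^ (l + 3) * ((4 * Real.pi * s) ^ ((d : ℝ) / 2) * s ^ (2 + 1)) *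
        Real.exp (-((‖z‖ ^ 2 + ε ^ 2) * s))) := by
    intro s hs
    have hs' : 0 < s := hs
    rw [g_sin3 (by positivity : 0 < 1 / (4 * s)) z v]
    have h1 : Real.pi / (1 / (4 * s)) = 4 * Real.pi * s := by
      field_simp
    have h2 : ((d : ℝ) + 2) / (2 * (1 / (4 * s))) - ‖z‖ ^ 2 / (4 * (1 / (4 * s)) ^ 2) =
        2 * (d + 2) * s - 4 * ‖z‖ ^ 2 * s ^ 2 := by
      field_simp
      ring
    have h2' : ⟪v, z⟫ / (2 * (1 / (4 * s))) = 2 * s * ⟪v, z⟫ := by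
      field_simp
      ring
    have h3 : Real.exp (-((‖z‖ ^ 2 + ε ^ 2) * s)) = Real.exp (-(s * ε ^ 2)) *
        Real.exp (-(‖z‖ ^ 2 / (4 * (1 / (4 * s))))) := by
      rw [← Real.exp_add]
      congr 1
      field_simp
      ring
    rw [h1, h2, h2', h3]
    ring
  rw [setIntegral_congr_fun measurableSet_Ioi e2, integral_sub
    ((CGFD_I (d := d) hd 1 hq).1.const_mul _) ((CGFD_I (d := d) hd 2 hq).1.const_mul _),
    integral_const_mul, integral_const_mul, (CGFD_I (d := d) hd 1 hq).2, (CGFD_I (d := d) hd 2 hq).2, CGFD_G1,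
    CGFD_G2]
  have h5 := CGFD_kr (n + 2) hε z
  have h6 : (Real.sqrt (‖z‖ ^ 2 + ε ^ 2))⁻¹ ^ (n + 2 * 1 + 1) = kr (n + 2) ε z := rfl
  have h7 : (Real.sqrt (‖z‖ ^ 2 + ε ^ 2))⁻¹ ^ (n + 2 * 2 + 1) = kr (n + 4) ε z := rfl
  have h7' : kr (n + 2 + 2) ε z = kr (n + 4) ε z := rfl
  rw [h7'] at h5
  rw [h6, h7]
  unfold c2 Tk'
  have h9 : (d : ℝ) = n + 2 * l + 3 := by
    rw [hd]
    push_cast
    ring
  generalize ((4 : ℝ) * Real.pi) ^ ((d : ℝ) / 2) = Q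
  generalize Real.Gamma (((n : ℝ) + 1) / 2) = Γ'
  rw [h9]
  have h11 : 8 * ‖z‖ ^ 2 * ⟪v, z⟫ * (Q * (((n : ℝ) + 3) / 2 * (((n : ℝ) + 1) / 2 * Γ')) * kr (n + 4) ε z) =
      8 * ⟪v, z⟫ * (Q * (((n : ℝ) + 3) / 2 * (((n : ℝ) + 1) / 2 * Γ'))) * (‖z‖ ^ 2 * kr (n + 4) ε z) := by ring
  rw [h11, h5]
  ring

end Pool.Agent.H1.CG
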