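import Pool.Agent.H1.CG.PoA
import Pool.Agent.H48.R9.Ker
import Pool.Agent.H48.R9.Mono
import Pool.Agent.H48.R9.EnB

/-!
Row PoB.  Cert 3 W9.  meas: unfold; bound: W9_bound; ident: ker9 (LK 3 = L9, 2*3+4 = 10); pos with c = 1/16: for each of the other
atoms 0 ≤ ∫ atom ωω: atom(a,b) = ∫_0^∞ fa m j k 0 (a,b) t dt (sla, slb with z = 0; a.e. p ≠ ..), Fubini in (p,t) with the majorant
200 S9 (0,p), S9(0,.) integrable for ν.prod ν (NiceK 3 ν is Nice9 ν), then fa_w, fb_w.  Template: R9/EnD.lean, R9/EnB.lean.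
-/

set_option autoImplicit false

open MeasureTheory Filter Topology Metric Set
open scoped RealInnerProductSpace ENNReal

namespace Pool.Agent.H1.CG

open Pool.Agent.RZ Pool.Agent.H1.LD Pool.Agent.H48.R7

variable {d : ℕ}

open Pool.Agent.H48.R9

private theorem CGPoB_t1 {ν : Measure (X d)} (h : Nice9 ν) :
    ∫⁻ q : X d × X d, ‖q.1 - 0‖ₑ⁻¹ ^ 9 * ‖q.2 - 0‖ₑ⁻¹ ^ 9 ∂(ν.prod ν) < ∞ := by
  obtain ⟨hf, C, hC⟩ := h
  have := hf
  rw [lintegral_prod _ (by fun_prop)]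
  calc _ ≤ ∫⁻ x, ‖x - 0‖ₑ⁻¹ ^ 9 * ENNReal.ofReal C ∂ν := by
        refine lintegral_mono fun x => ?_
        simp only
        rw [lintegral_const_mul _ (by fun_prop)]
        gcongr
        exact hC 0
    _ = (∫⁻ x, ‖x - 0‖ₑ⁻¹ ^ 9 ∂ν) * ENNReal.ofReal C :=
        lintegral_mul_const _ (by fun_prop)
    _ ≤ ENNReal.ofReal C * ENNReal.ofReal C := by gcongr; exact hC 0
    _ < ∞ := ENNReal.mul_lt_top ENNReal.ofReal_lt_top ENNReal.ofReal_lt_top

private theorem CGPoB_t2 {ν : Measure (X d)} (h : Nice9 ν) :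
    ∫⁻ q : X d × X d, ‖q.1 - 0‖ₑ⁻¹ ^ 9 * ‖q.1 - q.2‖ₑ⁻¹ ^ 9 ∂(ν.prod ν) < ∞ := by
  obtain ⟨hf, C, hC⟩ := h
  have := hf
  rw [lintegral_prod _ (by fun_prop)]
  calc _ ≤ ∫⁻ x, ‖x - 0‖ₑ⁻¹ ^ 9 * ENNReal.ofReal C ∂ν := by
        refine lintegral_mono fun x => ?_
        simp only
        rw [lintegral_const_mul _ (by fun_prop)]
        gcongr
        simp only [R9EnA_rev x]
        exact hC x
    _ = (∫⁻ x, ‖x - 0‖ₑ⁻¹ ^ 9 ∂ν) * ENNReal.ofReal C :=
        lintegral_mul_const _ (by fun_prop)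
    _ ≤ ENNReal.ofReal C * ENNReal.ofReal C := by gcongr; exact hC 0
    _ < ∞ := ENNReal.mul_lt_top ENNReal.ofReal_lt_top ENNReal.ofReal_lt_top

private theorem CGPoB_t3 {ν : Measure (X d)} (h : Nice9 ν) :
    ∫⁻ q : X d × X d, ‖q.2 - 0‖ₑ⁻¹ ^ 9 * ‖q.1 - q.2‖ₑ⁻¹ ^ 9 ∂(ν.prod ν) < ∞ := by
  obtain ⟨hf, C, hC⟩ := h
  have := hf
  rw [lintegral_prod_symm _ (by fun_prop)]
  calc _ ≤ ∫⁻ x, ‖x - 0‖ₑ⁻¹ ^ 9 * ENNReal.ofReal C ∂ν := by
        refine lintegral_mono fun x => ?_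
        simp only
        rw [lintegral_const_mul _ (by fun_prop)]
        gcongr
        exact hC x
    _ = (∫⁻ x, ‖x - 0‖ₑ⁻¹ ^ 9 ∂ν) * ENNReal.ofReal C :=
        lintegral_mul_const _ (by fun_prop)
    _ ≤ ENNReal.ofReal C * ENNReal.ofReal C := by gcongr; exact hC 0
    _ < ∞ := ENNReal.mul_lt_top ENNReal.ofReal_lt_top ENNReal.ofReal_lt_top

private theorem CGPoB_S9 {ν : Measure (X d)} (h : Nice9 ν) :
    Integrable (fun p : X d × X d => S9 (0, p)) (ν.prod ν) := by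
  have i1 : Integrable (fun q : X d × X d => ‖q.1 - 0‖⁻¹ ^ 9 * ‖q.2 - 0‖⁻¹ ^ 9) (ν.prod ν) := by
    refine ⟨by fun_prop, lt_of_le_of_lt (lintegral_mono fun q => ?_) (CGPoB_t1 h)⟩
    rw [enorm_mul]
    exact mul_le_mul' (R9EnA_le _ _) (R9EnA_le _ _)
  have i2 : Integrable (fun q : X d × X d => ‖q.1 - 0‖⁻¹ ^ 9 * ‖q.1 - q.2‖⁻¹ ^ 9) (ν.prod ν) := by
    refine ⟨by fun_prop, lt_of_le_of_lt (lintegral_mono fun q => ?_) (CGPoB_t2 h)⟩
    rw [enorm_mul]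
    exact mul_le_mul' (R9EnA_le _ _) (R9EnA_le _ _)
  have i3 : Integrable (fun q : X d × X d => ‖q.2 - 0‖⁻¹ ^ 9 * ‖q.1 - q.2‖⁻¹ ^ 9) (ν.prod ν) := by
    refine ⟨by fun_prop, lt_of_le_of_lt (lintegral_mono fun q => ?_) (CGPoB_t3 h)⟩
    rw [enorm_mul]
    exact mul_le_mul' (R9EnA_le _ _) (R9EnA_le _ _)
  exact (i1.add i2).add i3

private theorem CGPoB_ae {ν : Measure (X d)} (h : Nice9 ν) :
    ∀ᵐ p : X d × X d ∂(ν.prod ν), p.1 ≠ 0 ∧ p.2 ≠ 0 ∧ p.1 ≠ p.2 := by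
  have := h.1
  filter_upwards [ae_lt_top (by fun_prop) (CGPoB_t1 h).ne, ae_lt_top (by fun_prop) (CGPoB_t2 h).ne]
    with q h1 h2
  refine ⟨fun e => ?_, fun e => ?_, fun e => ?_⟩
  · rw [e] at h1
    refine absurd h1 (not_lt.2 (top_le_iff.2 ?_))
    rw [ENNReal.mul_eq_top]
    exact Or.inr ⟨by simp, R9EnA_hne _ _⟩
  · rw [e] at h1
    refine absurd h1 (not_lt.2 (top_le_iff.2 ?_))
    rw [ENNReal.mul_eq_top]
    exact Or.inl ⟨R9EnA_hne _ _, by simp⟩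
  · rw [e] at h2
    refine absurd h2 (not_lt.2 (top_le_iff.2 ?_))
    rw [ENNReal.mul_eq_top]
    exact Or.inl ⟨R9EnA_hne _ _, by simp⟩

/-- the kernel `A` is integrable and nonnegative for the weight `ω` -/
private structure CGPoB_At (ν : Measure (X d)) (ω : X d → ℝ) (A : X d → X d → ℝ) : Prop where
  int : Integrable (fun p : X d × X d => A p.1 p.2 * (ω p.1 * ω p.2)) (ν.prod ν)
  pos : 0 ≤ ∫ p, A p.1 p.2 * (ω p.1 * ω p.2) ∂(ν.prod ν)

private theorem CGPoB_of {ν : Measure (X d)} (h : Nice9 ν) {ω : X d → ℝ} (hω : Measurable ω)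
    (hb : ∀ x, |ω x| ≤ 1) {f : X d × X d → ℝ → ℝ} {A : X d → X d → ℝ} {K : ℝ}
    (hf : Measurable fun r : (X d × X d) × ℝ => f r.1 r.2)
    (hs : ∀ p : X d × X d, (p.1 ≠ 0 ∧ p.2 ≠ 0 ∧ p.1 ≠ p.2) →
      IntegrableOn (fun t : ℝ => f p t) (Ioi 0) ∧ ∫ t in Ioi (0 : ℝ), f p t = A p.1 p.2 ∧
        ∫ t in Ioi (0 : ℝ), ‖f p t‖ ≤ K * S9 (0, p))
    (hw : ∀ t : ℝ, 0 < t → 0 ≤ ∫ p, f p t * (ω p.1 * ω p.2) ∂(ν.prod ν)) :
    CGPoB_At ν ω A := by
  have := h.1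
  have hae := CGPoB_ae h
  have hm : Measurable fun r : (X d × X d) × ℝ => f r.1 r.2 * (ω r.1.1 * ω r.1.2) :=
    hf.mul ((hω.comp (measurable_fst.comp measurable_fst)).mul
      (hω.comp (measurable_snd.comp measurable_fst)))
  have hww : ∀ p : X d × X d, |ω p.1 * ω p.2| ≤ 1 := by
    intro p
    rw [abs_mul]
    exact mul_le_one₀ (hb _) (abs_nonneg _) (hb _)
  have hI : Integrable (fun r : (X d × X d) × ℝ => f r.1 r.2 * (ω r.1.1 * ω r.1.2))
      ((ν.prod ν).prod (volume.restrict (Ioi 0))) := by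
    refine ⟨hm.aestronglyMeasurable, ?_⟩
    have h0 : ∫⁻ r : (X d × X d) × ℝ, ‖f r.1 r.2 * (ω r.1.1 * ω r.1.2)‖ₑ
        ∂((ν.prod ν).prod (volume.restrict (Ioi 0))) < ∞ := by
      rw [lintegral_prod _ hm.enorm.aemeasurable]
      calc _ ≤ ∫⁻ p, ENNReal.ofReal (K * S9 (0, p)) ∂(ν.prod ν) := by
            refine lintegral_mono_ae ?_
            filter_upwards [hae] with p hp
            obtain ⟨s1, s2, s3⟩ := hs p hp
            refine le_trans ?_ (ENNReal.ofReal_le_ofReal s3)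
            rw [ofReal_integral_norm_eq_lintegral_enorm s1]
            refine lintegral_mono fun t => ?_
            simp only
            rw [enorm_mul]
            calc _ ≤ ‖f p t‖ₑ * 1 := by
                  gcongr
                  rw [← ofReal_norm, Real.norm_eq_abs]
                  exact ENNReal.ofReal_le_one.2 (hww p)
              _ = _ := mul_one _
        _ < ∞ := ((CGPoB_S9 h).const_mul K).lintegral_lt_top
    exact h0
  have e1 : (∫ r : (X d × X d) × ℝ, f r.1 r.2 * (ω r.1.1 * ω r.1.2)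
        ∂((ν.prod ν).prod (volume.restrict (Ioi 0)))) =
      ∫ t in Ioi (0 : ℝ), ∫ p, f p t * (ω p.1 * ω p.2) ∂(ν.prod ν) := integral_prod_symm _ hI
  have e2 : (∫ r : (X d × X d) × ℝ, f r.1 r.2 * (ω r.1.1 * ω r.1.2)
        ∂((ν.prod ν).prod (volume.restrict (Ioi 0)))) =
      ∫ p, (∫ t in Ioi (0 : ℝ), f p t * (ω p.1 * ω p.2)) ∂(ν.prod ν) := integral_prod _ hI
  have key : (fun p : X d × X d => ∫ t in Ioi (0 : ℝ), f p t * (ω p.1 * ω p.2)) =ᵐ[ν.prod ν]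
      fun p => A p.1 p.2 * (ω p.1 * ω p.2) := by
    filter_upwards [hae] with p hp
    rw [integral_mul_const, (hs p hp).2.1]
  refine ⟨hI.integral_prod_left.congr key, ?_⟩
  rw [← integral_congr_ae key, ← e2, e1]
  refine integral_nonneg_of_ae ?_
  filter_upwards [ae_restrict_mem measurableSet_Ioi] with t ht
  exact hw t ht

private theorem CGPoB_smul {ν : Measure (X d)} {ω : X d → ℝ} {A : X d → X d → ℝ} {c : ℝ}
    (hc : 0 ≤ c) (h1 : CGPoB_At ν ω A) : CGPoB_At ν ω (fun a b => c * A a b) := by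
  refine ⟨?_, ?_⟩
  · refine (h1.int.const_mul c).congr (Eventually.of_forall fun p => ?_)
    simp only
    ring
  · have : ∀ p : X d × X d, c * A p.1 p.2 * (ω p.1 * ω p.2) = c * (A p.1 p.2 * (ω p.1 * ω p.2)) :=
      fun p => by ring
    simp only [this]
    rw [integral_const_mul]
    exact mul_nonneg hc h1.pos

private theorem CGPoB_eq {ν : Measure (X d)} {ω : X d → ℝ} {A B : X d → X d → ℝ}
    (h1 : CGPoB_At ν ω A) (h2 : CGPoB_At ν ω B) :
    ∫ p, (A p.1 p.2 + B p.1 p.2) * (ω p.1 * ω p.2) ∂(ν.prod ν) =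
      ∫ p, A p.1 p.2 * (ω p.1 * ω p.2) ∂(ν.prod ν) +
        ∫ p, B p.1 p.2 * (ω p.1 * ω p.2) ∂(ν.prod ν) := by
  rw [← integral_add h1.int h2.int]
  exact integral_congr_ae (Eventually.of_forall fun p => by simp only; ring)

private theorem CGPoB_add {ν : Measure (X d)} {ω : X d → ℝ} {A B : X d → X d → ℝ}
    (h1 : CGPoB_At ν ω A) (h2 : CGPoB_At ν ω B) :
    CGPoB_At ν ω (fun a b => A a b + B a b) := by
  refine ⟨(h1.int.add h2.int).congr (Eventually.of_forall fun p => ?_), ?_⟩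
  · exact (add_mul (A p.1 p.2) (B p.1 p.2) (ω p.1 * ω p.2)).symm
  · exact le_of_le_of_eq (add_nonneg h1.pos h2.pos) (CGPoB_eq h1 h2).symm

private theorem CGPoB_fa {ν : Measure (X d)} (h : Nice9 ν) {ω : X d → ℝ} (hω : Measurable ω)
    (hb : ∀ x, |ω x| ≤ 1) (m j k : ℕ) (hk : k ≤ 3) (hm : 2 * m + k = j + 9) (h1 : j < 2 * m) :
    CGPoB_At ν ω (fun a b => ‖a‖⁻¹ ^ (2 * m) * ‖b‖⁻¹ ^ (2 * m) * ⟪a, b⟫ ^ j * ik k a b) := by
  refine CGPoB_of h hω hb (f := fun p t => fa m j k 0 p t) (K := 200) ?_ ?_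
    fun t ht => (fa_w h m j k h1 (by omega) hω hb ht).2
  · unfold fa mta
    fun_prop
  · intro p hp
    have := sla (z := 0) (p := p) hk hm hp
    simp only [sub_zero] at this
    exact this

private theorem CGPoB_fb {ν : Measure (X d)} (h : Nice9 ν) {ω : X d → ℝ} (hω : Measurable ω)
    (hb : ∀ x, |ω x| ≤ 1) :
    CGPoB_At ν ω (fun a b => ‖a‖⁻¹ ^ 10 * ‖b‖⁻¹ ^ 10 * ⟪a, b⟫ ^ 3 * j2 a b) := by
  refine CGPoB_of h hω hb (f := fun p t => fb 0 p t) (K := 3000) ?_ ?_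
    fun t ht => (fb_w h hω hb ht).2
  · unfold fb mtb Pool.Agent.H48.R9.pr
    fun_prop
  · intro p hp
    have := slb (z := 0) (p := p) hp
    simp only [sub_zero] at this
    exact this

theorem cert9 (hd : 10 ≤ d) : Cert 3 (W9 : X d → X d → ℝ) := by
  refine ⟨?_, ⟨1000, fun a b ha hb hab => W9_bound ha hb hab⟩,
    fun a b ha hb hab => ker9 ha hb hab, ⟨1 / 16, by norm_num, ?_⟩⟩
  · simp only [W9, ik, i0, i1, i2, i3, j2, Pool.Agent.H48.R9.pr]
    fun_prop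
  · intro ν hν ω hω hb
    have h : Nice9 ν := hν
    have a1 := CGPoB_fa h hω hb 4 0 1 (by norm_num) (by norm_num) (by norm_num)
    have r7 := CGPoB_smul (c := 1 / 192) (by norm_num) (CGPoB_fb h hω hb)
    have r6 := CGPoB_add (CGPoB_smul (c := 7 / 48) (by norm_num)
      (CGPoB_fa h hω hb 6 6 3 (by norm_num) (by norm_num) (by norm_num))) r7
    have r5 := CGPoB_add (CGPoB_smul (c := 125 / 96) (by norm_num)
      (CGPoB_fa h hω hb 6 5 2 (by norm_num) (by norm_num) (by norm_num))) r6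
    have r4 := CGPoB_add (CGPoB_smul (c := 137 / 48) (by norm_num)
      (CGPoB_fa h hω hb 6 4 1 (by norm_num) (by norm_num) (by norm_num))) r5
    have r3 := CGPoB_add (CGPoB_smul (c := 103 / 96) (by norm_num)
      (CGPoB_fa h hω hb 6 3 0 (by norm_num) (by norm_num) (by norm_num))) r4
    have r2 := CGPoB_add (CGPoB_smul (c := 1 / 128) (by norm_num)
      (CGPoB_fa h hω hb 4 1 2 (by norm_num) (by norm_num) (by norm_num))) r3
    have s1 := CGPoB_smul (c := 1 / 16) (by norm_num) a1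
    have e := CGPoB_eq s1 r2
    have eW : (∫ p, W9 p.1 p.2 * (ω p.1 * ω p.2) ∂(ν.prod ν)) = _ := e
    rw [eW]
    refine le_trans (le_of_eq ?_) (le_add_of_nonneg_right r2.pos)
    rw [← integral_const_mul]
    refine integral_congr_ae (Eventually.of_forall fun p => ?_)
    simp only [ZK, ik, pow_zero, mul_one]
    ring

end Pool.Agent.H1.CG
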