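import Pool.Agent.H1.CG.T
import Pool.Agent.H1.CG.PoB
import Pool.Agent.H1.LD.Pad

/-!
Codimension at most nine: zero padding.
-/

set_option autoImplicit false

open MeasureTheory Filter Topology Metric Set
open scoped RealInnerProductSpace ENNReal

namespace Pool.Agent.H1.CG

open Pool.Agent.RZ Pool.Agent.H1.LD Pool.Agent.H48.R7

variable {d : ℕ}

theorem dich_codim9 {n : ℕ} (hn : 1 ≤ n) (hd : d ≤ n + 9) {μ : Measure (X d)}
    [IsFiniteMeasure μ] {C₀ : ℝ} (hC₀ : 0 ≤ C₀) (hg : Gr n C₀ μ) (hE : En n μ) :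
    Dich n μ := by
  have hpm : Measurable (pad (n + 9) : X d → X (n + 9)) := (pad_continuous (n + 9)).measurable
  have hfin : IsFiniteMeasure (μ.map (pad (n + 9))) := by
    refine ⟨?_⟩
    rw [Measure.map_apply hpm MeasurableSet.univ, preimage_univ]
    exact measure_lt_top _ _
  exact pad_dich hd (dich_cg (l := 3) hn (by norm_num) rfl (Pool.Agent.H1.CG.cert9 (by omega)) (by positivity)
    (pad_growth hd hC₀ hg) (pad_energy hd hE))

end Pool.Agent.H1.CG
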