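import Pool.Agent.H1.CG.GauA

/-!
Row GauB.  Gaussian integrals with cos and sin (b > 0, ga b v = exp (-(b |v|^2))).
g_cos2 is the sum over i of g_cos11 with u = v = e_i; g_pair is g_cos + g_cos11 - g_sin1
at z = a - c (mta 1 a c (2 sqrt b), t^2 = 4 b); g_sin3: sum over i of the third moments: derivative of g_cos11 (differentiate in z under the
integral), or of g_sin1 in b: -d/db of g_sin1 gives the factor |a|^2 at once.
-/

set_option autoImplicit false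

open MeasureTheory Filter Topology Metric Set
open scoped RealInnerProductSpace ENNReal

namespace Pool.Agent.H1.CG

open Pool.Agent.RZ Pool.Agent.H1.LD Pool.Agent.H48.R7

variable {d : ℕ}

private theorem CGGau_int {b : ℝ} (hb : 0 < b) (N : ℕ) (C : ℝ) {F : X d → ℝ} (hF : Continuous F)
    (h : ∀ w, |F w| ≤ C * (1 + ‖w‖) ^ N) : Integrable (fun w : X d => ga b w * F w) := by
  refine ((g_int hb N).const_mul C).mono'
    ((ga_continuous b).mul hF).aestronglyMeasurable (Eventually.of_forall fun w => ?_)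
  rw [Real.norm_eq_abs, abs_mul, abs_of_nonneg (ga_nonneg b w)]
  calc ga b w * |F w| ≤ ga b w * (C * (1 + ‖w‖) ^ N) :=
        mul_le_mul_of_nonneg_left (h w) (ga_nonneg b w)
    _ = C * (ga b w * (1 + ‖w‖) ^ N) := by ring

private theorem CGGau_inner (a w : X d) : |⟪a, w⟫| ≤ ‖a‖ * (1 + ‖w‖) := by
  have h1 := abs_real_inner_le_norm a w
  have h2 := norm_nonneg a
  nlinarith

private theorem CGGau_i0 {b : ℝ} (hb : 0 < b) (z : X d) :
    Integrable (fun w : X d => ga b w * Real.cos ⟪z, w⟫) := by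
  refine CGGau_int hb 0 1 (by fun_prop) fun w => ?_
  rw [pow_zero, mul_one]
  exact Real.abs_cos_le_one _

private theorem CGGau_i1 {b : ℝ} (hb : 0 < b) (z v : X d) :
    Integrable (fun w : X d => ga b w * (⟪v, w⟫ * Real.sin ⟪z, w⟫)) := by
  refine CGGau_int hb 1 ‖v‖ (by fun_prop) fun w => ?_
  rw [pow_one, abs_mul]
  calc |⟪v, w⟫| * |Real.sin ⟪z, w⟫| ≤ (‖v‖ * (1 + ‖w‖)) * 1 :=
        mul_le_mul (CGGau_inner v w) (Real.abs_sin_le_one _) (abs_nonneg _) (by positivity)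
    _ = ‖v‖ * (1 + ‖w‖) := mul_one _

private theorem CGGau_i2 {b : ℝ} (hb : 0 < b) (z u v : X d) :
    Integrable (fun w : X d => ga b w * (⟪u, w⟫ * ⟪v, w⟫ * Real.cos ⟪z, w⟫)) := by
  refine CGGau_int hb 2 (‖u‖ * ‖v‖) (by fun_prop) fun w => ?_
  rw [abs_mul, abs_mul]
  calc |⟪u, w⟫| * |⟪v, w⟫| * |Real.cos ⟪z, w⟫| ≤
      ((‖u‖ * (1 + ‖w‖)) * (‖v‖ * (1 + ‖w‖))) * 1 :=
        mul_le_mul (mul_le_mul (CGGau_inner u w) (CGGau_inner v w) (abs_nonneg _) (by positivity))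
          (Real.abs_cos_le_one _) (abs_nonneg _) (by positivity)
    _ = ‖u‖ * ‖v‖ * (1 + ‖w‖) ^ 2 := by ring

theorem g_cos2 {b : ℝ} (hb : 0 < b) (z : X d) :
    ∫ a : X d, ga b a * (‖a‖ ^ 2 * Real.cos ⟪z, a⟫) =
      (Real.pi / b) ^ ((d : ℝ) / 2) * (d / (2 * b) - ‖z‖ ^ 2 / (4 * b ^ 2)) *
        Real.exp (-(‖z‖ ^ 2 / (4 * b))) := by
  have h1 : ∀ a : X d, ga b a * (‖a‖ ^ 2 * Real.cos ⟪z, a⟫) = ∑ i : Fin d,
      ga b a * (⟪EuclideanSpace.basisFun (Fin d) ℝ i, a⟫ *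
        ⟪EuclideanSpace.basisFun (Fin d) ℝ i, a⟫ * Real.cos ⟪z, a⟫) := by
    intro a
    rw [← Finset.mul_sum, ← Finset.sum_mul]
    congr 2
    rw [← (EuclideanSpace.basisFun (Fin d) ℝ).sum_sq_norm_inner_right a]
    refine Finset.sum_congr rfl fun i _ => ?_
    rw [Real.norm_eq_abs, sq_abs, sq]
  rw [integral_congr_ae (Eventually.of_forall h1),
    integral_finsetSum _ fun i _ => CGGau_i2 hb _ _ _]
  have h2 : ∀ i : Fin d, ∫ a : X d, ga b a * (⟪EuclideanSpace.basisFun (Fin d) ℝ i, a⟫ *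
      ⟪EuclideanSpace.basisFun (Fin d) ℝ i, a⟫ * Real.cos ⟪z, a⟫) =
      (Real.pi / b) ^ ((d : ℝ) / 2) * Real.exp (-(‖z‖ ^ 2 / (4 * b))) *
        (1 / (2 * b) - ‖⟪EuclideanSpace.basisFun (Fin d) ℝ i, z⟫‖ ^ 2 * (1 / (4 * b ^ 2))) := by
    intro i
    rw [g_cos11 hb, real_inner_self_eq_norm_sq,
      (EuclideanSpace.basisFun (Fin d) ℝ).norm_eq_one i, Real.norm_eq_abs, sq_abs]
    ring
  rw [Finset.sum_congr rfl fun i _ => h2 i, ← Finset.mul_sum, Finset.sum_sub_distrib,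
    Finset.sum_const, Finset.card_univ, Fintype.card_fin, nsmul_eq_mul, ← Finset.sum_mul,
    (EuclideanSpace.basisFun (Fin d) ℝ).sum_sq_norm_inner_right z]
  ring

theorem g_sin3 {b : ℝ} (hb : 0 < b) (z v : X d) :
    ∫ a : X d, ga b a * (‖a‖ ^ 2 * (⟪v, a⟫ * Real.sin ⟪z, a⟫)) =
      (Real.pi / b) ^ ((d : ℝ) / 2) * (⟪v, z⟫ / (2 * b)) *
        ((d + 2) / (2 * b) - ‖z‖ ^ 2 / (4 * b ^ 2)) * Real.exp (-(‖z‖ ^ 2 / (4 * b))) := by
  have hb2 : 0 < b / 2 := by positivity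
  have hball : ∀ β ∈ ball b (b / 2), b / 2 < β := by
    intro β hβ
    rw [mem_ball, Real.dist_eq, abs_lt] at hβ
    linarith [hβ.1]
  have key := hasDerivAt_integral_of_dominated_loc_of_deriv_le
    (μ := (volume : Measure (X d)))
    (F := fun (β : ℝ) (a : X d) => ga β a * (⟪v, a⟫ * Real.sin ⟪z, a⟫))
    (F' := fun (β : ℝ) (a : X d) => -(ga β a * (‖a‖ ^ 2 * (⟪v, a⟫ * Real.sin ⟪z, a⟫))))
    (x₀ := b) (bound := fun a : X d => ‖v‖ * (ga (b / 2) a * (1 + ‖a‖) ^ 3))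
    (s := ball b (b / 2)) (ball_mem_nhds b hb2) ?_ ?_ ?_ ?_ ?_ ?_
  · have h1 := key.2
    have h2 : (fun β : ℝ => ∫ a : X d, ga β a * (⟪v, a⟫ * Real.sin ⟪z, a⟫)) =ᶠ[𝓝 b]
        fun β => (Real.pi / β) ^ ((d : ℝ) / 2) * (⟪v, z⟫ / (2 * β)) *
          Real.exp (-(‖z‖ ^ 2 / (4 * β))) := by
      filter_upwards [ball_mem_nhds b hb2] with β hβ
      exact g_sin1 (lt_trans hb2 (hball β hβ)) z v
    have h3 := h1.congr_of_eventuallyEq h2.symm
    have e1 : HasDerivAt (fun β : ℝ => Real.pi / β) (-(Real.pi / b ^ 2)) b := by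
      have h := (hasDerivAt_inv hb.ne').const_mul Real.pi
      have e : Real.pi * -(b ^ 2)⁻¹ = -(Real.pi / b ^ 2) := by
        rw [div_eq_mul_inv]
        ring
      rw [e] at h
      exact h
    have e2 : HasDerivAt (fun β : ℝ => (Real.pi / β) ^ ((d : ℝ) / 2))
        (-((d : ℝ) / 2) / b * (Real.pi / b) ^ ((d : ℝ) / 2)) b := by
      have hp : 0 < Real.pi / b := by positivity
      have h := e1.rpow_const (p := (d : ℝ) / 2) (Or.inl hp.ne')
      convert h using 1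
      rw [Real.rpow_sub_one hp.ne']
      have := Real.pi_pos.ne'
      field_simp
    have e3 : HasDerivAt (fun β : ℝ => ⟪v, z⟫ / (2 * β)) (-(⟪v, z⟫ / (2 * b ^ 2))) b := by
      have h := (hasDerivAt_inv hb.ne').const_mul (⟪v, z⟫ / 2)
      have e : ⟪v, z⟫ / 2 * -(b ^ 2)⁻¹ = -(⟪v, z⟫ / (2 * b ^ 2)) := by
        field_simp
      rw [e] at h
      refine h.congr_of_eventuallyEq (Eventually.of_forall fun β => ?_)
      simp only
      rw [div_eq_mul_inv, mul_inv]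
      ring
    have e4 : HasDerivAt (fun β : ℝ => Real.exp (-(‖z‖ ^ 2 / (4 * β))))
        (Real.exp (-(‖z‖ ^ 2 / (4 * b))) * (‖z‖ ^ 2 / (4 * b ^ 2))) b := by
      apply HasDerivAt.exp
      have h := (hasDerivAt_inv hb.ne').const_mul (-(‖z‖ ^ 2 / 4))
      have e : -(‖z‖ ^ 2 / 4) * -(b ^ 2)⁻¹ = ‖z‖ ^ 2 / (4 * b ^ 2) := by
        field_simp
      rw [e] at h
      refine h.congr_of_eventuallyEq (Eventually.of_forall fun β => ?_)
      simp only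
      rw [div_eq_mul_inv, mul_inv]
      ring
    have h4 := (e2.mul e3).mul e4
    have h5 := h3.unique h4
    rw [integral_neg] at h5
    rw [neg_eq_iff_eq_neg] at h5
    simp only [Pi.mul_apply] at h5
    rw [h5]
    generalize (Real.pi / b) ^ ((d : ℝ) / 2) = P
    field_simp
    ring
  · refine Eventually.of_forall fun β => ?_
    exact ((ga_continuous β).mul (by fun_prop)).aestronglyMeasurable
  · exact CGGau_i1 hb z v
  · exact ((ga_continuous b).mul (by fun_prop)).neg.aestronglyMeasurable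
  · refine Eventually.of_forall fun a β hβ => ?_
    rw [norm_neg, Real.norm_eq_abs, abs_mul, abs_of_nonneg (ga_nonneg β a), abs_mul, abs_mul,
      abs_of_nonneg (by positivity : (0 : ℝ) ≤ ‖a‖ ^ 2)]
    have h1 : ga β a ≤ ga (b / 2) a := ga_anti (hball β hβ).le a
    have h2 : ‖a‖ ^ 2 ≤ (1 + ‖a‖) ^ 2 := pow_le_pow_left₀ (norm_nonneg a) (by linarith) 2
    have h3 : |⟪v, a⟫| * |Real.sin ⟪z, a⟫| ≤ (‖v‖ * (1 + ‖a‖)) * 1 :=
      mul_le_mul (CGGau_inner v a) (Real.abs_sin_le_one _) (abs_nonneg _) (by positivity)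
    calc ga β a * (‖a‖ ^ 2 * (|⟪v, a⟫| * |Real.sin ⟪z, a⟫|)) ≤
        ga (b / 2) a * ((1 + ‖a‖) ^ 2 * ((‖v‖ * (1 + ‖a‖)) * 1)) :=
          mul_le_mul h1 (mul_le_mul h2 h3 (by positivity) (by positivity)) (by positivity)
            (ga_nonneg _ _)
      _ = ‖v‖ * (ga (b / 2) a * (1 + ‖a‖) ^ 3) := by ring
  · exact (g_int hb2 3).const_mul _
  · refine Eventually.of_forall fun a β _ => ?_
    have h1 : HasDerivAt (fun β : ℝ => ga β a) (ga β a * -(‖a‖ ^ 2)) β := by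
      unfold ga
      apply HasDerivAt.exp
      have h := ((hasDerivAt_id β).mul_const (‖a‖ ^ 2)).neg
      rw [one_mul] at h
      exact h
    have h2 := h1.mul_const (⟪v, a⟫ * Real.sin ⟪z, a⟫)
    have e : ga β a * -(‖a‖ ^ 2) * (⟪v, a⟫ * Real.sin ⟪z, a⟫) =
        -(ga β a * (‖a‖ ^ 2 * (⟪v, a⟫ * Real.sin ⟪z, a⟫))) := by ring
    rw [e] at h2
    exact h2

theorem g_pair {b : ℝ} (hb : 0 < b) (a c : X d) :
    ∫ u : X d, ga b u * ((1 + ⟪u, a⟫ * ⟪u, c⟫) * Real.cos ⟪u, a - c⟫ -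
        ⟪u, a - c⟫ * Real.sin ⟪u, a - c⟫) =
      (Real.pi / b) ^ ((d : ℝ) / 2) * mta 1 a c (2 * Real.sqrt b) := by
  have h1 : ∀ u : X d, ga b u * ((1 + ⟪u, a⟫ * ⟪u, c⟫) * Real.cos ⟪u, a - c⟫ -
      ⟪u, a - c⟫ * Real.sin ⟪u, a - c⟫) =
      ga b u * Real.cos ⟪a - c, u⟫ + ga b u * (⟪a, u⟫ * ⟪c, u⟫ * Real.cos ⟪a - c, u⟫) -
        ga b u * (⟪a - c, u⟫ * Real.sin ⟪a - c, u⟫) := by
    intro u
    rw [real_inner_comm a u, real_inner_comm c u, real_inner_comm (a - c) u]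
    ring
  have h2 : Integrable (fun u : X d => ga b u * Real.cos ⟪a - c, u⟫ +
      ga b u * (⟪a, u⟫ * ⟪c, u⟫ * Real.cos ⟪a - c, u⟫)) :=
    (CGGau_i0 hb (a - c)).add (CGGau_i2 hb (a - c) a c)
  rw [integral_congr_ae (Eventually.of_forall h1),
    integral_sub h2 (CGGau_i1 hb (a - c) (a - c)),
    integral_add (CGGau_i0 hb (a - c)) (CGGau_i2 hb (a - c) a c),
    g_cos hb, g_cos11 hb, g_sin1 hb]
  have ht2 : (2 * Real.sqrt b) ^ 2 = 4 * b := by
    rw [mul_pow, Real.sq_sqrt hb.le]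
    norm_num
  have ht4 : (2 * Real.sqrt b) ^ 4 = 16 * b ^ 2 := by
    have : (2 * Real.sqrt b) ^ 4 = ((2 * Real.sqrt b) ^ 2) ^ 2 := by ring
    rw [this, ht2]
    ring
  have hc : ⟪c, c - a⟫ = -⟪c, a - c⟫ := by
    rw [← inner_neg_right, neg_sub]
  unfold mta
  rw [ht2, ht4, hc, real_inner_self_eq_norm_sq]
  field_simp
  ring

end Pool.Agent.H1.CG
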