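import Pool.Agent.H1.CG.D0

/-!
Row GauA.  Gaussian integrals with cos and sin (b > 0, ga b v = exp (-(b |v|^2))).
Suggested: Mathlib GaussianFourier.integral_cexp_neg_mul_sq_norm_add (gives g_cos, g_sin), then differentiate in z under the
integral, or reduce to one-dimensional integrals; g_cos11 from g_sin1 in the same way.
-/

set_option autoImplicit false

open MeasureTheory Filter Topology Metric Set
open scoped RealInnerProductSpace ENNReal

namespace Pool.Agent.H1.CG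

open Pool.Agent.RZ Pool.Agent.H1.LD Pool.Agent.H48.R7

variable {d : ℕ}

theorem g_int {b : ℝ} (hb : 0 < b) (N : ℕ) :
    Integrable fun a : X d => ga b a * (1 + ‖a‖) ^ N := by
  refine (ga_integrable (d := d) hb N).congr (Eventually.of_forall fun a => ?_)
  exact mul_comm _ _

private theorem CGGauA_int {b : ℝ} (hb : 0 < b) {g : X d → ℝ} (hg : Continuous g) {C : ℝ} {N : ℕ}
    (hC : ∀ a, |g a| ≤ C * (1 + ‖a‖) ^ N) : Integrable fun a : X d => ga b a * g a := by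
  refine ((g_int hb N).const_mul C).mono' ((ga_continuous b).mul hg).aestronglyMeasurable
    (Eventually.of_forall fun a => ?_)
  rw [Real.norm_eq_abs, abs_mul, abs_of_nonneg (ga_nonneg b a)]
  calc ga b a * |g a| ≤ ga b a * (C * (1 + ‖a‖) ^ N) :=
        mul_le_mul_of_nonneg_left (hC a) (ga_nonneg b a)
    _ = C * (ga b a * (1 + ‖a‖) ^ N) := by ring

/-- differentiation of a Gaussian integral in the frequency -/
private theorem CGGauA_der {b : ℝ} (hb : 0 < b) {g : X d → ℝ} (hg : Continuous g) {C : ℝ} {N : ℕ}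
    (hC : ∀ a, |g a| ≤ C * (1 + ‖a‖) ^ N) {T T' : ℝ → ℝ} (hT : ∀ x, HasDerivAt T (T' x) x)
    (hT1 : ∀ x, |T x| ≤ 1) (hT2 : ∀ x, |T' x| ≤ 1) (hTc : Continuous T') (z u : X d) :
    HasDerivAt (fun s : ℝ => ∫ a : X d, ga b a * (g a * T ⟪z + s • u, a⟫))
      (∫ a : X d, ga b a * (g a * (T' ⟪z, a⟫ * ⟪u, a⟫))) 0 := by
  have hTcont : Continuous T := continuous_iff_continuousAt.2 fun x => (hT x).continuousAt
  have hi : ∀ w : X d, Continuous fun a : X d => ⟪w, a⟫ := fun w =>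
    continuous_const.inner continuous_id
  have hd : ∀ a : X d, ∀ s : ℝ, HasDerivAt (fun s : ℝ => ga b a * (g a * T ⟪z + s • u, a⟫))
      (ga b a * (g a * (T' ⟪z + s • u, a⟫ * ⟪u, a⟫))) s := by
    intro a s
    have h1 : HasDerivAt (fun s : ℝ => ⟪z + s • u, a⟫) ⟪u, a⟫ s := by
      have h2 : (fun s : ℝ => ⟪z + s • u, a⟫) = fun s : ℝ => ⟪z, a⟫ + s * ⟪u, a⟫ := by
        funext s
        rw [inner_add_left, real_inner_smul_left]
      rw [h2]
      simpa using ((hasDerivAt_id s).mul_const (⟪u, a⟫ : ℝ)).const_add (⟪z, a⟫ : ℝ)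
    exact (((hT _).comp s h1).const_mul _).const_mul _
  have hm : ∀ s : ℝ, Continuous fun a : X d => ga b a * (g a * T ⟪z + s • u, a⟫) := fun s =>
    (ga_continuous b).mul (hg.mul (hTcont.comp (hi _)))
  have hm' : ∀ s : ℝ, Continuous fun a : X d => ga b a * (g a * (T' ⟪z + s • u, a⟫ * ⟪u, a⟫)) :=
    fun s => (ga_continuous b).mul (hg.mul ((hTc.comp (hi _)).mul (hi u)))
  have hC' : ∀ a, 0 ≤ C * (1 + ‖a‖) ^ N := fun a => (abs_nonneg _).trans (hC a)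
  have key := hasDerivAt_integral_of_dominated_loc_of_deriv_le (𝕜 := ℝ) (μ := (volume : Measure (X d)))
    (s := univ) (x₀ := (0 : ℝ)) (F := fun s a => ga b a * (g a * T ⟪z + s • u, a⟫))
    (F' := fun s a => ga b a * (g a * (T' ⟪z + s • u, a⟫ * ⟪u, a⟫)))
    (bound := fun a => (C * ‖u‖) * (ga b a * (1 + ‖a‖) ^ (N + 1))) univ_mem
    (Eventually.of_forall fun s => (hm s).aestronglyMeasurable)
    (CGGauA_int hb (C := C) (N := N) (hg.mul (hTcont.comp (hi _))) (fun a => by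
      rw [abs_mul]
      calc |g a| * |T ⟪z + (0 : ℝ) • u, a⟫| ≤ |g a| * 1 :=
            mul_le_mul_of_nonneg_left (hT1 _) (abs_nonneg _)
        _ ≤ C * (1 + ‖a‖) ^ N := by rw [mul_one]; exact hC a))
    (hm' 0).aestronglyMeasurable
    (Eventually.of_forall fun a s _ => ?_) ((g_int hb (N + 1)).const_mul _)
    (Eventually.of_forall fun a s _ => hd a s)
  · have h3 := key.2
    simp only [zero_smul, add_zero] at h3
    exact h3
  · rw [Real.norm_eq_abs, abs_mul, abs_mul, abs_mul, abs_of_nonneg (ga_nonneg b a)]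
    have h1 : |(⟪u, a⟫ : ℝ)| ≤ ‖u‖ * ‖a‖ := abs_real_inner_le_norm _ _
    have h2 : ‖a‖ ≤ 1 + ‖a‖ := by linarith
    calc ga b a * (|g a| * (|T' ⟪z + s • u, a⟫| * |(⟪u, a⟫ : ℝ)|))
        ≤ ga b a * ((C * (1 + ‖a‖) ^ N) * (1 * (‖u‖ * (1 + ‖a‖)))) := by
          refine mul_le_mul_of_nonneg_left ?_ (ga_nonneg b a)
          refine mul_le_mul (hC a) ?_ (by positivity) (hC' a)
          refine mul_le_mul (hT2 _) (h1.trans ?_) (abs_nonneg _) zero_le_one
          exact mul_le_mul_of_nonneg_left h2 (norm_nonneg u)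
      _ = (C * ‖u‖) * (ga b a * (1 + ‖a‖) ^ (N + 1)) := by ring

private theorem CGGauA_e {b : ℝ} (hb : 0 < b) (z u : X d) :
    HasDerivAt (fun s : ℝ => Real.exp (-(‖z + s • u‖ ^ 2 / (4 * b))))
      (-(⟪u, z⟫ / (2 * b)) * Real.exp (-(‖z‖ ^ 2 / (4 * b)))) 0 := by
  have h1 : (fun s : ℝ => Real.exp (-(‖z + s • u‖ ^ 2 / (4 * b)))) =
      fun s : ℝ => Real.exp (-((‖z‖ ^ 2 + 2 * ⟪u, z⟫ * s + ‖u‖ ^ 2 * s ^ 2) / (4 * b))) := by
    funext s
    rw [norm_add_sq_real, real_inner_smul_right, norm_smul, mul_pow, Real.norm_eq_abs, sq_abs,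
      real_inner_comm z u]
    ring_nf
  have h2 : HasDerivAt (fun s : ℝ => -((‖z‖ ^ 2 + 2 * ⟪u, z⟫ * s + ‖u‖ ^ 2 * s ^ 2) / (4 * b)))
      (-(⟪u, z⟫ / (2 * b))) 0 := by
    have h3 : HasDerivAt (fun s : ℝ => ‖z‖ ^ 2 + 2 * ⟪u, z⟫ * s + ‖u‖ ^ 2 * s ^ 2)
        (2 * ⟪u, z⟫ * 1 + ‖u‖ ^ 2 * (2 * 0 ^ (2 - 1) * 1)) 0 :=
      (((hasDerivAt_id (0 : ℝ)).const_mul (2 * (⟪u, z⟫ : ℝ))).const_add (‖z‖ ^ 2)).add
        (((hasDerivAt_id (0 : ℝ)).pow 2).const_mul (‖u‖ ^ 2))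
    have h4 := (h3.div_const (4 * b)).neg
    convert! h4 using 1
    field_simp
    ring
  rw [h1]
  have h5 := h2.exp
  convert! h5 using 1
  simp only [mul_zero, add_zero, ne_eq, OfNat.ofNat_ne_zero, not_false_eq_true, zero_pow]
  ring

theorem g_cos {b : ℝ} (hb : 0 < b) (z : X d) :
    ∫ a : X d, ga b a * Real.cos ⟪z, a⟫ =
      (Real.pi / b) ^ ((d : ℝ) / 2) * Real.exp (-(‖z‖ ^ 2 / (4 * b))) := by
  have hb' : 0 < (b : ℂ).re := by simpa using hb
  have h := GaussianFourier.integral_cexp_neg_mul_sq_norm_add (V := X d) hb' Complex.I z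
  have hi := GaussianFourier.integrable_cexp_neg_mul_sq_norm_add (V := X d) hb' Complex.I z
  have h1 : ∀ a : X d, Complex.reCLM (Complex.exp (-(b : ℂ) * (‖a‖ : ℂ) ^ 2 +
      Complex.I * ((⟪z, a⟫ : ℝ) : ℂ))) = ga b a * Real.cos ⟪z, a⟫ := by
    intro a
    have e : -(b : ℂ) * (‖a‖ : ℂ) ^ 2 + Complex.I * ((⟪z, a⟫ : ℝ) : ℂ) =
        ((-(b * ‖a‖ ^ 2) : ℝ) : ℂ) + ((⟪z, a⟫ : ℝ) : ℂ) * Complex.I := by
      push_cast
      ring
    rw [e, Complex.reCLM_apply, Complex.exp_re]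
    simp only [Complex.add_re, Complex.ofReal_re, Complex.mul_re, Complex.I_re, mul_zero,
      Complex.ofReal_im, Complex.I_im, mul_one, sub_self, add_zero, Complex.add_im,
      Complex.mul_im, zero_add]
    rfl
  have h2 := Complex.reCLM.integral_comp_comm hi
  rw [h] at h2
  rw [← integral_congr_ae (Eventually.of_forall h1)]
  refine h2.trans ?_
  have h3 : ((Real.pi : ℂ) / (b : ℂ)) ^ ((Module.finrank ℝ (X d) : ℂ) / 2) *
      Complex.exp (Complex.I ^ 2 * (‖z‖ : ℂ) ^ 2 / (4 * (b : ℂ))) =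
      (((Real.pi / b) ^ ((d : ℝ) / 2) * Real.exp (-(‖z‖ ^ 2 / (4 * b))) : ℝ) : ℂ) := by
    rw [Complex.ofReal_mul, Complex.ofReal_cpow (by positivity), Complex.ofReal_exp,
      finrank_euclideanSpace_fin, Complex.I_sq]
    push_cast
    congr 2
    ring
  rw [h3]
  exact Complex.ofReal_re _

theorem g_sin1 {b : ℝ} (hb : 0 < b) (z v : X d) :
    ∫ a : X d, ga b a * (⟪v, a⟫ * Real.sin ⟪z, a⟫) =
      (Real.pi / b) ^ ((d : ℝ) / 2) * (⟪v, z⟫ / (2 * b)) * Real.exp (-(‖z‖ ^ 2 / (4 * b))) := by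
  have h1 := CGGauA_der (d := d) hb (g := fun _ => (1 : ℝ)) continuous_const (C := 1) (N := 0)
    (fun a => by simp) (T := Real.cos) (T' := fun x => -Real.sin x) Real.hasDerivAt_cos
    Real.abs_cos_le_one (fun x => by rw [abs_neg]; exact Real.abs_sin_le_one x)
    Real.continuous_sin.neg z v
  have h2 : (fun s : ℝ => ∫ a : X d, ga b a * (1 * Real.cos ⟪z + s • v, a⟫)) =
      fun s : ℝ => (Real.pi / b) ^ ((d : ℝ) / 2) *
        Real.exp (-(‖z + s • v‖ ^ 2 / (4 * b))) := by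
    funext s
    simp only [one_mul]
    exact g_cos hb _
  rw [h2] at h1
  have h3 := (CGGauA_e hb z v).const_mul ((Real.pi / b) ^ ((d : ℝ) / 2))
  have h4 := h1.unique h3
  have h5 : (fun a : X d => ga b a * (1 * (-Real.sin ⟪z, a⟫ * ⟪v, a⟫))) =
      fun a : X d => -(ga b a * (⟪v, a⟫ * Real.sin ⟪z, a⟫)) := by
    funext a
    ring
  rw [h5, integral_neg] at h4
  linarith

theorem g_cos11 {b : ℝ} (hb : 0 < b) (z u v : X d) :
    ∫ a : X d, ga b a * (⟪u, a⟫ * ⟪v, a⟫ * Real.cos ⟪z, a⟫) =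
      (Real.pi / b) ^ ((d : ℝ) / 2) * (⟪u, v⟫ / (2 * b) - ⟪u, z⟫ * ⟪v, z⟫ / (4 * b ^ 2)) *
        Real.exp (-(‖z‖ ^ 2 / (4 * b))) := by
  have h1 := CGGauA_der (d := d) hb (g := fun a => (⟪v, a⟫ : ℝ))
    (continuous_const.inner continuous_id) (C := ‖v‖) (N := 1)
    (fun a => by
      rw [pow_one]
      refine (abs_real_inner_le_norm v a).trans ?_
      exact mul_le_mul_of_nonneg_left (by linarith [norm_nonneg a]) (norm_nonneg v))
    (T := Real.sin) (T' := Real.cos) Real.hasDerivAt_sin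
    Real.abs_sin_le_one Real.abs_cos_le_one Real.continuous_cos z u
  have h2 : (fun s : ℝ => ∫ a : X d, ga b a * (⟪v, a⟫ * Real.sin ⟪z + s • u, a⟫)) =
      fun s : ℝ => (Real.pi / b) ^ ((d : ℝ) / 2) * ((⟪v, z + s • u⟫ / (2 * b)) *
        Real.exp (-(‖z + s • u‖ ^ 2 / (4 * b)))) := by
    funext s
    rw [g_sin1 hb, mul_assoc]
  rw [h2] at h1
  have h6 : HasDerivAt (fun s : ℝ => (⟪v, z + s • u⟫ : ℝ) / (2 * b)) (⟪v, u⟫ / (2 * b)) 0 := by
    have h7 : (fun s : ℝ => (⟪v, z + s • u⟫ : ℝ) / (2 * b)) =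
        fun s : ℝ => (⟪v, z⟫ + s * ⟪v, u⟫) / (2 * b) := by
      funext s
      rw [inner_add_right, real_inner_smul_right]
    rw [h7]
    have h8 := (((hasDerivAt_id (0 : ℝ)).mul_const (⟪v, u⟫ : ℝ)).const_add (⟪v, z⟫ : ℝ)).div_const
      (2 * b)
    simpa using h8
  have h3 := (h6.mul (CGGauA_e hb z u)).const_mul ((Real.pi / b) ^ ((d : ℝ) / 2))
  have h4 := h1.unique h3
  have h5 : (fun a : X d => ga b a * (⟪v, a⟫ * (Real.cos ⟪z, a⟫ * ⟪u, a⟫))) =
      fun a : X d => ga b a * (⟪u, a⟫ * ⟪v, a⟫ * Real.cos ⟪z, a⟫) := by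
    funext a
    ring
  rw [h5] at h4
  rw [h4]
  simp only [zero_smul, add_zero]
  rw [real_inner_comm v u]
  field_simp
  ring

end Pool.Agent.H1.CG
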