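import Pool.Agent.H1.CG.Gau
import Pool.Agent.H1.CG.FD

/-!
Row H2a: the identity for ε > 0 (the limit is row H2).  V y Y = - P (Y - y), P from exV d (l+1).  For ε > 0, by Tk_cos, Tk_sin, Fubini, u = Y - y and exV (odd parts vanish):
c2 ∫ P(Y-y) [Tk ε (Y-x) - Tk' ε (Y-x) ⟪Y-x,Y-z⟫] dY
 = c ∫ et(a) e^(-|a|²/16) [(1+2k-|a|²/8) cos⟪y-x,a⟫ - ⟪y-z,a⟫ sin⟪y-x,a⟫] da   (2k = 2l+2, ‖a‖⁻¹^(2l+2) ‖a‖^(2l+2) = 1 for a ≠ 0).
ε → 0 (et_lim, et_le; left: dominated by |P(Y-y)| (‖Y-x‖⁻¹^(n+1) + ‖Y-x‖⁻¹^(n+2)‖Y-z‖)), then g_cos, g_sin1, g_cos2 with b = 1/16: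
right side = - c (l+1)! (16π)^(d/2) (n - 8⟪x-z,x-y⟫) ga 4 (x-y) (d = n+2l+3).  Template for the limit: C7/H2.lean.
-/

set_option autoImplicit false

open MeasureTheory Filter Topology Metric Set
open scoped RealInnerProductSpace ENNReal

namespace Pool.Agent.H1.CG

open Pool.Agent.RZ Pool.Agent.H1.LD Pool.Agent.H48.R7

variable {d : ℕ}

/-- the weight -/
private noncomputable def CGH2aw (l : ℕ) (ε : ℝ) (a : X d) : ℝ := ‖a‖⁻¹ ^ (2 * l + 2) * et l ε a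

private theorem CGH2a_wint {n l : ℕ} (hd : d = n + 2 * l + 3) {ε : ℝ} (hε : 0 < ε) (N : ℕ) :
    Integrable fun a : X d => CGH2aw l ε a * (1 + ‖a‖) ^ N :=
  et_int l hε (j := 2 * l + 2) (by omega) N

private theorem CGH2a_wmeas (l : ℕ) (ε : ℝ) : Measurable (CGH2aw l ε : X d → ℝ) := by
  unfold CGH2aw
  exact (measurable_norm.inv.pow_const _).mul (et_measurable l ε)

private theorem CGH2a_wnn (l : ℕ) (ε : ℝ) (a : X d) : 0 ≤ CGH2aw l ε a :=
  mul_nonneg (by positivity) (et_nonneg l ε a)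

private theorem CGH2a_Pint {l : ℕ} {P : X d → ℝ} {C : ℝ} (hP : Continuous P)
    (hb : ∀ u, |P u| ≤ C * (1 + ‖u‖) ^ (2 * (l + 1)) * ga 4 u) (N : ℕ) :
    Integrable fun u : X d => |P u| * (1 + ‖u‖) ^ N := by
  have h1 : Integrable fun u : X d => C * ((1 + ‖u‖) ^ (2 * (l + 1) + N) * ga 4 u) :=
    (ga_integrable (by norm_num : (0 : ℝ) < 4) (2 * (l + 1) + N)).const_mul C
  refine h1.mono' ?_ (Eventually.of_forall fun u => ?_)
  · exact (hP.abs.mul ((continuous_const.add continuous_norm).pow N)).aestronglyMeasurable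
  · rw [Real.norm_of_nonneg (by positivity)]
    calc |P u| * (1 + ‖u‖) ^ N ≤ (C * (1 + ‖u‖) ^ (2 * (l + 1)) * ga 4 u) * (1 + ‖u‖) ^ N :=
          mul_le_mul_of_nonneg_right (hb u) (by positivity)
      _ = C * ((1 + ‖u‖) ^ (2 * (l + 1) + N) * ga 4 u) := by
          rw [pow_add]
          ring

/-- the integrand in both variables -/
private noncomputable def CGH2aF (P : X d → ℝ) (l : ℕ) (ε : ℝ) (p q u a : X d) : ℝ :=
  P u * (CGH2aw l ε a * (Real.cos ⟪u + p, a⟫ - ⟪u + q, a⟫ * Real.sin ⟪u + p, a⟫))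

private theorem CGH2a_bd (p q u a : X d) :
    |Real.cos ⟪u + p, a⟫ - ⟪u + q, a⟫ * Real.sin ⟪u + p, a⟫| ≤
      (1 + ‖q‖) * ((1 + ‖u‖) * (1 + ‖a‖)) := by
  have h1 : |⟪u + q, a⟫| ≤ (‖u‖ + ‖q‖) * ‖a‖ :=
    (abs_real_inner_le_norm _ _).trans
      (mul_le_mul_of_nonneg_right (norm_add_le _ _) (norm_nonneg _))
  have h2 := Real.abs_cos_le_one ⟪u + p, a⟫
  have h3 := Real.abs_sin_le_one ⟪u + p, a⟫
  have h4 : |⟪u + q, a⟫ * Real.sin ⟪u + p, a⟫| ≤ (‖u‖ + ‖q‖) * ‖a‖ := by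
    rw [abs_mul]
    calc |⟪u + q, a⟫| * |Real.sin ⟪u + p, a⟫| ≤ |⟪u + q, a⟫| * 1 :=
          mul_le_mul_of_nonneg_left h3 (abs_nonneg _)
      _ ≤ _ := by rw [mul_one]; exact h1
  have h5 := abs_sub (Real.cos ⟪u + p, a⟫) (⟪u + q, a⟫ * Real.sin ⟪u + p, a⟫)
  have h6 := norm_nonneg u
  have h7 := norm_nonneg q
  have h8 := norm_nonneg a
  nlinarith [mul_nonneg h6 h8, mul_nonneg h7 h8, mul_nonneg h6 h7, mul_nonneg (mul_nonneg h6 h7) h8]

private theorem CGH2a_Fint {n l : ℕ} (hd : d = n + 2 * l + 3) {ε : ℝ} (hε : 0 < ε)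
    {P : X d → ℝ} {C : ℝ} (hP : Continuous P)
    (hb : ∀ u, |P u| ≤ C * (1 + ‖u‖) ^ (2 * (l + 1)) * ga 4 u) (p q : X d) :
    Integrable (fun z : X d × X d => CGH2aF P l ε p q z.1 z.2) (volume.prod volume) := by
  have h1 : Integrable (fun z : X d × X d => (|P z.1| * (1 + ‖z.1‖) ^ 1) *
      (CGH2aw l ε z.2 * (1 + ‖z.2‖) ^ 1)) (volume.prod volume) :=
    (CGH2a_Pint hP hb 1).mul_prod (CGH2a_wint hd hε 1)
  refine (h1.const_mul (1 + ‖q‖)).mono' ?_ (Eventually.of_forall fun z => ?_)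
  · have m1 : Measurable fun z : X d × X d => P z.1 := hP.measurable.comp measurable_fst
    have m2 : Measurable fun z : X d × X d => CGH2aw l ε z.2 :=
      (CGH2a_wmeas l ε).comp measurable_snd
    have c1 : Continuous fun z : X d × X d => ⟪z.1 + p, z.2⟫ := by fun_prop
    have c2 : Continuous fun z : X d × X d => ⟪z.1 + q, z.2⟫ := by fun_prop
    have c3 : Continuous fun z : X d × X d =>
        Real.cos ⟪z.1 + p, z.2⟫ - ⟪z.1 + q, z.2⟫ * Real.sin ⟪z.1 + p, z.2⟫ :=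
      (Real.continuous_cos.comp c1).sub (c2.mul (Real.continuous_sin.comp c1))
    exact (m1.mul (m2.mul c3.measurable)).aestronglyMeasurable
  · have h2 := CGH2a_bd p q z.1 z.2
    have h3 := CGH2a_wnn l ε z.2
    unfold CGH2aF
    rw [Real.norm_eq_abs, abs_mul, abs_mul, abs_of_nonneg h3]
    calc |P z.1| * (CGH2aw l ε z.2 * |Real.cos ⟪z.1 + p, z.2⟫ - ⟪z.1 + q, z.2⟫ * Real.sin ⟪z.1 + p, z.2⟫|)
        ≤ |P z.1| * (CGH2aw l ε z.2 * ((1 + ‖q‖) * ((1 + ‖z.1‖) * (1 + ‖z.2‖)))) := by gcongr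
      _ = (1 + ‖q‖) * ((|P z.1| * (1 + ‖z.1‖) ^ 1) * (CGH2aw l ε z.2 * (1 + ‖z.2‖) ^ 1)) := by
          ring

/-- odd functions -/
private theorem CGH2a_odd {f : X d → ℝ} (hf : ∀ u, f (-u) = -f u) : ∫ u, f u = 0 := by
  have h1 := integral_neg_eq_self f (volume : Measure (X d))
  simp only [hf] at h1
  rw [integral_neg] at h1
  linarith

/-- the inner integral -/
private theorem CGH2a_inner {l : ℕ} {P : X d → ℝ} {C c : ℝ} (hP : Continuous P)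
    (hs : ∀ u, P (-u) = P u) (hb : ∀ u, |P u| ≤ C * (1 + ‖u‖) ^ (2 * (l + 1)) * ga 4 u)
    (h1 : ∀ a, ∫ u, P u * Real.cos ⟪u, a⟫ =
      c * (‖a‖ ^ (2 * (l + 1)) * Real.exp (-(‖a‖ ^ 2 / 16))))
    (h2 : ∀ a, ∫ u, P u * (⟪u, a⟫ * Real.sin ⟪u, a⟫) =
      c * ((‖a‖ ^ 2 / 8 - 2 * (l + 1 : ℕ)) * ‖a‖ ^ (2 * (l + 1)) * Real.exp (-(‖a‖ ^ 2 / 16))))
    (p q a : X d) :
    ∫ u, P u * (Real.cos ⟪u + p, a⟫ - ⟪u + q, a⟫ * Real.sin ⟪u + p, a⟫) =
      c * (‖a‖ ^ (2 * (l + 1)) * (Real.exp (-(‖a‖ ^ 2 / 16)) *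
        ((1 + (2 * l + 2) - ‖a‖ ^ 2 / 8) * Real.cos ⟪p, a⟫ - ⟪q, a⟫ * Real.sin ⟪p, a⟫))) := by
  have hc1 : Continuous fun u : X d => ⟪u, a⟫ := by fun_prop
  have iP1 := CGH2a_Pint hP hb 1
  have iP0 := CGH2a_Pint hP hb 0
  have b1 : ∀ u : X d, |⟪u, a⟫| ≤ ‖a‖ * (1 + ‖u‖) := fun u => by
    have := abs_real_inner_le_norm u a
    nlinarith [norm_nonneg a, norm_nonneg u]
  have iA : Integrable fun u : X d => P u * Real.cos ⟪u, a⟫ := by
    refine iP0.mono' (hP.mul (Real.continuous_cos.comp hc1)).aestronglyMeasurable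
      (Eventually.of_forall fun u => ?_)
    rw [Real.norm_eq_abs, abs_mul, pow_zero]
    exact mul_le_mul_of_nonneg_left (Real.abs_cos_le_one _) (abs_nonneg _)
  have iB : Integrable fun u : X d => P u * Real.sin ⟪u, a⟫ := by
    refine iP0.mono' (hP.mul (Real.continuous_sin.comp hc1)).aestronglyMeasurable
      (Eventually.of_forall fun u => ?_)
    rw [Real.norm_eq_abs, abs_mul, pow_zero]
    exact mul_le_mul_of_nonneg_left (Real.abs_sin_le_one _) (abs_nonneg _)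
  have iC : Integrable fun u : X d => P u * (⟪u, a⟫ * Real.sin ⟪u, a⟫) := by
    refine (iP1.const_mul ‖a‖).mono'
      (hP.mul (hc1.mul (Real.continuous_sin.comp hc1))).aestronglyMeasurable
      (Eventually.of_forall fun u => ?_)
    rw [Real.norm_eq_abs, abs_mul, abs_mul, pow_one]
    calc |P u| * (|⟪u, a⟫| * |Real.sin ⟪u, a⟫|) ≤ |P u| * ((‖a‖ * (1 + ‖u‖)) * 1) := by
          gcongr
          · exact b1 u
          · exact Real.abs_sin_le_one _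
      _ = ‖a‖ * (|P u| * (1 + ‖u‖)) := by ring
  have iD : Integrable fun u : X d => P u * (⟪u, a⟫ * Real.cos ⟪u, a⟫) := by
    refine (iP1.const_mul ‖a‖).mono'
      (hP.mul (hc1.mul (Real.continuous_cos.comp hc1))).aestronglyMeasurable
      (Eventually.of_forall fun u => ?_)
    rw [Real.norm_eq_abs, abs_mul, abs_mul, pow_one]
    calc |P u| * (|⟪u, a⟫| * |Real.cos ⟪u, a⟫|) ≤ |P u| * ((‖a‖ * (1 + ‖u‖)) * 1) := by
          gcongr
          · exact b1 u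
          · exact Real.abs_cos_le_one _
      _ = ‖a‖ * (|P u| * (1 + ‖u‖)) := by ring
  have zB : ∫ u, P u * Real.sin ⟪u, a⟫ = 0 := CGH2a_odd fun u => by
    rw [hs, inner_neg_left, Real.sin_neg]
    ring
  have zD : ∫ u, P u * (⟪u, a⟫ * Real.cos ⟪u, a⟫) = 0 := CGH2a_odd fun u => by
    rw [hs, inner_neg_left, Real.cos_neg]
    ring
  have e1 : ∀ u : X d, P u * (Real.cos ⟪u + p, a⟫ - ⟪u + q, a⟫ * Real.sin ⟪u + p, a⟫) =
      ((Real.cos ⟪p, a⟫ - ⟪q, a⟫ * Real.sin ⟪p, a⟫) * (P u * Real.cos ⟪u, a⟫) +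
        (-Real.sin ⟪p, a⟫ - ⟪q, a⟫ * Real.cos ⟪p, a⟫) * (P u * Real.sin ⟪u, a⟫)) +
      ((-Real.cos ⟪p, a⟫) * (P u * (⟪u, a⟫ * Real.sin ⟪u, a⟫)) +
        (-Real.sin ⟪p, a⟫) * (P u * (⟪u, a⟫ * Real.cos ⟪u, a⟫))) := by
    intro u
    rw [inner_add_left, inner_add_left, Real.cos_add, Real.sin_add]
    ring
  simp only [e1]
  have j1 : Integrable fun u : X d =>
      (Real.cos ⟪p, a⟫ - ⟪q, a⟫ * Real.sin ⟪p, a⟫) * (P u * Real.cos ⟪u, a⟫) +
        (-Real.sin ⟪p, a⟫ - ⟪q, a⟫ * Real.cos ⟪p, a⟫) * (P u * Real.sin ⟪u, a⟫) :=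
    (iA.const_mul _).add (iB.const_mul _)
  have j2 : Integrable fun u : X d =>
      (-Real.cos ⟪p, a⟫) * (P u * (⟪u, a⟫ * Real.sin ⟪u, a⟫)) +
        (-Real.sin ⟪p, a⟫) * (P u * (⟪u, a⟫ * Real.cos ⟪u, a⟫)) :=
    (iC.const_mul _).add (iD.const_mul _)
  rw [integral_add j1 j2, integral_add (iA.const_mul _) (iB.const_mul _),
    integral_add (iC.const_mul _) (iD.const_mul _), integral_const_mul, integral_const_mul,
    integral_const_mul, integral_const_mul, zB, zD, h1, h2]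
  push_cast
  ring

theorem claimE {n l : ℕ} (hn : 1 ≤ n) (hd : d = n + 2 * l + 3) {ε : ℝ} (hε : 0 < ε)
    {P : X d → ℝ} {C c : ℝ} (hP : Continuous P) (hs : ∀ u, P (-u) = P u)
    (hb : ∀ u, |P u| ≤ C * (1 + ‖u‖) ^ (2 * (l + 1)) * ga 4 u)
    (h1 : ∀ a, ∫ u, P u * Real.cos ⟪u, a⟫ =
      c * (‖a‖ ^ (2 * (l + 1)) * Real.exp (-(‖a‖ ^ 2 / 16))))
    (h2 : ∀ a, ∫ u, P u * (⟪u, a⟫ * Real.sin ⟪u, a⟫) =
      c * ((‖a‖ ^ 2 / 8 - 2 * (l + 1 : ℕ)) * ‖a‖ ^ (2 * (l + 1)) * Real.exp (-(‖a‖ ^ 2 / 16))))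
    (x y z : X d) :
    c2 d n l * ∫ Y, P (Y - y) * (Tk n l ε (Y - x) - Tk' n l ε (Y - x) * ⟪Y - x, Y - z⟫) =
      c * ∫ a, et l ε a * (ga (1 / 16) a *
        ((1 + (2 * l + 2) - ‖a‖ ^ 2 / 8) * Real.cos ⟪y - x, a⟫ -
          ⟪y - z, a⟫ * Real.sin ⟪y - x, a⟫)) := by
  subst hd
  set p : X (n + 2 * l + 3) := y - x with hp
  set q : X (n + 2 * l + 3) := y - z with hq
  have hnt : Nontrivial (X (n + 2 * l + 3)) := by
    have : Nonempty (Fin (n + 2 * l + 3)) := ⟨⟨0, by omega⟩⟩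
    infer_instance
  -- substitution
  have e1 : ∫ Y, P (Y - y) * (Tk n l ε (Y - x) - Tk' n l ε (Y - x) * ⟪Y - x, Y - z⟫) =
      ∫ u, P u * (Tk n l ε (u + p) - Tk' n l ε (u + p) * ⟪u + p, u + q⟫) := by
    rw [← integral_add_right_eq_self (μ := (volume : Measure (X (n + 2 * l + 3))))
      (fun Y => P (Y - y) * (Tk n l ε (Y - x) - Tk' n l ε (Y - x) * ⟪Y - x, Y - z⟫)) y]
    refine integral_congr_ae (Eventually.of_forall fun u => ?_)
    simp only []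
    rw [add_sub_cancel_right, show u + y - x = u + p by rw [hp]; abel,
      show u + y - z = u + q by rw [hq]; abel]
  -- the kernel as an integral
  have e2 : ∀ u : X (n + 2 * l + 3), c2 (n + 2 * l + 3) n l *
      (P u * (Tk n l ε (u + p) - Tk' n l ε (u + p) * ⟪u + p, u + q⟫)) =
      ∫ a, CGH2aF P l ε p q u a := by
    intro u
    have i1 : Integrable fun a : X (n + 2 * l + 3) =>
        ‖a‖⁻¹ ^ (2 * l + 2) * et l ε a * Real.cos ⟪u + p, a⟫ := by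
      refine (CGH2a_wint (n := n) rfl hε 0).mono' ?_ (Eventually.of_forall fun a => ?_)
      · exact ((CGH2a_wmeas l ε).mul (Real.continuous_cos.comp
          (by fun_prop : Continuous fun a : X (n + 2 * l + 3) => ⟪u + p, a⟫)).measurable).aestronglyMeasurable
      · have h3 := CGH2a_wnn l ε a
        change ‖CGH2aw l ε a * Real.cos ⟪u + p, a⟫‖ ≤ CGH2aw l ε a * (1 + ‖a‖) ^ 0
        rw [Real.norm_eq_abs, abs_mul, abs_of_nonneg h3, pow_zero]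
        exact mul_le_mul_of_nonneg_left (Real.abs_cos_le_one _) h3
    have i2 : Integrable fun a : X (n + 2 * l + 3) =>
        ‖a‖⁻¹ ^ (2 * l + 2) * et l ε a * (⟪u + q, a⟫ * Real.sin ⟪u + p, a⟫) := by
      refine ((CGH2a_wint (n := n) rfl hε 1).const_mul ‖u + q‖).mono' ?_
        (Eventually.of_forall fun a => ?_)
      · exact ((CGH2a_wmeas l ε).mul
          ((by fun_prop : Continuous fun a : X (n + 2 * l + 3) => ⟪u + q, a⟫).mul
            (Real.continuous_sin.comp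
              (by fun_prop : Continuous fun a : X (n + 2 * l + 3) => ⟪u + p, a⟫))).measurable).aestronglyMeasurable
      · have h3 := CGH2a_wnn l ε a
        change ‖CGH2aw l ε a * (⟪u + q, a⟫ * Real.sin ⟪u + p, a⟫)‖ ≤
          ‖u + q‖ * (CGH2aw l ε a * (1 + ‖a‖) ^ 1)
        rw [Real.norm_eq_abs, abs_mul, abs_mul, abs_of_nonneg h3, pow_one]
        have h4 := abs_real_inner_le_norm (u + q) a
        have h5 := Real.abs_sin_le_one ⟪u + p, a⟫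
        calc CGH2aw l ε a * (|⟪u + q, a⟫| * |Real.sin ⟪u + p, a⟫|)
            ≤ CGH2aw l ε a * ((‖u + q‖ * (1 + ‖a‖)) * 1) := by
              gcongr
              exact h4.trans (mul_le_mul_of_nonneg_left (by linarith) (norm_nonneg _))
          _ = ‖u + q‖ * (CGH2aw l ε a * (1 + ‖a‖)) := by ring
    have h3 := Tk_cos (n := n) (l := l) hn rfl hε (u + p)
    have h4 := Tk_sin (n := n) (l := l) hn rfl hε (u + p) (u + q)
    have h5 : ∫ a, CGH2aF P l ε p q u a =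
        P u * (c2 (n + 2 * l + 3) n l * Tk n l ε (u + p) -
          c2 (n + 2 * l + 3) n l * (Tk' n l ε (u + p) * ⟪u + q, u + p⟫)) := by
      rw [← h3, ← h4, ← integral_sub i1 i2, ← integral_const_mul]
      refine integral_congr_ae (Eventually.of_forall fun a => ?_)
      simp only [CGH2aF, CGH2aw]
      ring
    rw [h5, real_inner_comm (u + p) (u + q)]
    ring
  rw [e1, ← integral_const_mul]
  simp only [e2]
  rw [integral_integral_swap (CGH2a_Fint (n := n) rfl hε hP hb p q), ← integral_const_mul]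
  have hne : ∀ᵐ a : X (n + 2 * l + 3), a ≠ 0 := by
    rw [ae_iff]
    simp
  refine integral_congr_ae ?_
  filter_upwards [hne] with a ha
  have e3 : ∫ u, CGH2aF P l ε p q u a = CGH2aw l ε a *
      ∫ u, P u * (Real.cos ⟪u + p, a⟫ - ⟪u + q, a⟫ * Real.sin ⟪u + p, a⟫) := by
    rw [← integral_const_mul]
    refine integral_congr_ae (Eventually.of_forall fun u => ?_)
    simp only [CGH2aF]
    ring
  rw [e3, CGH2a_inner hP hs hb h1 h2 p q a]
  have hna : ‖a‖ ≠ 0 := norm_ne_zero_iff.2 ha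
  have e4 : ‖a‖⁻¹ ^ (2 * l + 2) * ‖a‖ ^ (2 * (l + 1)) = 1 := by
    rw [show 2 * (l + 1) = 2 * l + 2 by ring, ← mul_pow, inv_mul_cancel₀ hna, one_pow]
  have e5 : ga (1 / 16) a = Real.exp (-(‖a‖ ^ 2 / 16)) := by
    unfold ga
    congr 1
    ring
  rw [e5]
  unfold CGH2aw
  have e6 : ∀ t : ℝ, ‖a‖⁻¹ ^ (2 * l + 2) * et l ε a * (c * (‖a‖ ^ (2 * (l + 1)) * t)) =
      (‖a‖⁻¹ ^ (2 * l + 2) * ‖a‖ ^ (2 * (l + 1))) * (c * (et l ε a * t)) := fun t => by ring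
  rw [e6, e4, one_mul]

end Pool.Agent.H1.CG
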