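import Pool.Agent.H1.CG.V0
import Pool.Agent.H1.CG.H2a

/-!
Row H2 (the limit ε → 0; the identity for ε > 0 is claimE in H2a; exV gives P with k = l + 1).  V y Y = - P (Y - y), P from exV d (l+1).  For ε > 0, by Tk_cos, Tk_sin, Fubini, u = Y - y and exV (odd parts vanish):
c2 ∫ P(Y-y) [Tk ε (Y-x) - Tk' ε (Y-x) ⟪Y-x,Y-z⟫] dY
 = c ∫ et(a) e^(-|a|²/16) [(1+2k-|a|²/8) cos⟪y-x,a⟫ - ⟪y-z,a⟫ sin⟪y-x,a⟫] da   (2k = 2l+2, ‖a‖⁻¹^(2l+2) ‖a‖^(2l+2) = 1 for a ≠ 0).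
ε → 0 (et_lim, et_le; left: dominated by |P(Y-y)| (‖Y-x‖⁻¹^(n+1) + ‖Y-x‖⁻¹^(n+2)‖Y-z‖)), then g_cos, g_sin1, g_cos2 with b = 1/16:
right side = - c (l+1)! (16π)^(d/2) (n - 8⟪x-z,x-y⟫) ga 4 (x-y) (d = n+2l+3).  Template for the limit: C7/H2.lean.
-/

set_option autoImplicit false

open MeasureTheory Filter Topology Metric Set
open scoped RealInnerProductSpace ENNReal

namespace Pool.Agent.H1.CG

open Pool.Agent.RZ Pool.Agent.H1.LD Pool.Agent.H48.R7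

variable {d : ℕ}

private theorem CGH2_sing {n l : ℕ} (hd : d = n + 2 * l + 3) (x : X d) :
    Integrable (fun Y : X d => ga 1 (Y - x) * ‖Y - x‖⁻¹ ^ (n + 2)) := by
  have h0 : Integrable (fun w : X d => ga 1 w * ‖w‖⁻¹ ^ (n + 2)) := by
    have : Nontrivial (X d) := by
      have : Nonempty (Fin d) := ⟨⟨0, by omega⟩⟩
      infer_instance
    have h1 := (integrable_fun_norm_addHaar (E := X d) (F := ℝ) volume
      (f := fun r : ℝ => Real.exp (-(1 * r ^ 2)) * r⁻¹ ^ (n + 2))).2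
    refine h1 ?_
    rw [finrank_euclideanSpace, Fintype.card_fin, hd]
    have h2 : IntegrableOn (fun r : ℝ => r ^ ((2 * l : ℕ) : ℝ) * Real.exp (-1 * r ^ 2)) (Ioi 0) := by
      refine (integrable_rpow_mul_exp_neg_mul_sq one_pos ?_).integrableOn
      have : (0 : ℝ) ≤ ((2 * l : ℕ) : ℝ) := Nat.cast_nonneg _
      linarith
    refine h2.congr_fun ?_ measurableSet_Ioi
    intro r hr
    have hr : 0 < r := hr
    have h3 : r * r⁻¹ = 1 := mul_inv_cancel₀ hr.ne'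
    simp only [smul_eq_mul]
    rw [Real.rpow_natCast]
    have h4 : r ^ (n + 2 * l + 3 - 1) * r⁻¹ ^ (n + 2) = r ^ (2 * l) := by
      have h5 : n + 2 * l + 3 - 1 = (n + 2) + 2 * l := by omega
      rw [h5, pow_add]
      calc r ^ (n + 2) * r ^ (2 * l) * r⁻¹ ^ (n + 2) = (r * r⁻¹) ^ (n + 2) * r ^ (2 * l) := by
            rw [mul_pow]; ring
        _ = r ^ (2 * l) := by rw [h3, one_pow, one_mul]
    calc r ^ (2 * l) * Real.exp (-1 * r ^ 2)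
        = (r ^ (n + 2 * l + 3 - 1) * r⁻¹ ^ (n + 2)) * Real.exp (-1 * r ^ 2) := by rw [h4]
      _ = r ^ (n + 2 * l + 3 - 1) * (Real.exp (-(1 * r ^ 2)) * r⁻¹ ^ (n + 2)) := by
          rw [neg_mul]; ring
  exact h0.comp_sub_right x

private theorem CGH2_Vb {l : ℕ} {P : X d → ℝ} {C : ℝ}
    (hb : ∀ u, |P u| ≤ C * (1 + ‖u‖) ^ (2 * (l + 1)) * ga 4 u) (x y : X d) :
    ∃ C' : ℝ, 0 ≤ C' ∧ ∀ Y : X d, (1 + ‖Y - x‖) ^ 2 * |P (Y - y)| ≤ C' * ga 1 (Y - x) := by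
  obtain ⟨C5, hC5, h5⟩ := poly_ga d (2 * (l + 1) + 2) (show (1 : ℝ) < 2 by norm_num)
  have hC : 0 ≤ C := by
    have := (abs_nonneg _).trans (hb 0)
    simpa [ga] using this
  refine ⟨C * ((1 + ‖x - y‖) ^ (2 * (l + 1)) * Real.exp (4 * ‖x - y‖ ^ 2)) * C5, by positivity,
    fun Y => ?_⟩
  have h6 : ga 4 (Y - y) ≤ ga 2 (Y - x) * Real.exp (4 * ‖x - y‖ ^ 2) := by
    have h7 := ga_two (d := d) (show (0 : ℝ) ≤ 4 by norm_num) x y Y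
    rw [ga_comm 4 Y y, ga_comm 2 Y x]
    refine h7.trans (le_of_eq ?_)
    norm_num
  have h8 := peetre (2 * (l + 1)) Y x y
  have hg4 := ga_nonneg 4 (Y - y)
  have hg2 := ga_nonneg 2 (Y - x)
  calc (1 + ‖Y - x‖) ^ 2 * |P (Y - y)|
      ≤ (1 + ‖Y - x‖) ^ 2 * (C *
          (((1 + ‖Y - x‖) ^ (2 * (l + 1)) * (1 + ‖x - y‖) ^ (2 * (l + 1))) *
          (ga 2 (Y - x) * Real.exp (4 * ‖x - y‖ ^ 2)))) := by
        refine mul_le_mul_of_nonneg_left ((hb _).trans ?_) (by positivity)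
        rw [mul_assoc]
        refine mul_le_mul_of_nonneg_left ?_ hC
        exact mul_le_mul h8 h6 hg4 (by positivity)
    _ = C * ((1 + ‖x - y‖) ^ (2 * (l + 1)) * Real.exp (4 * ‖x - y‖ ^ 2)) *
          ((1 + ‖Y - x‖) ^ (2 * (l + 1) + 2) * ga 2 (Y - x)) := by ring
    _ ≤ C * ((1 + ‖x - y‖) ^ (2 * (l + 1)) * Real.exp (4 * ‖x - y‖ ^ 2)) *
          (C5 * ga 1 (Y - x)) := mul_le_mul_of_nonneg_left (h5 _) (by positivity)
    _ = _ := by ring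

private theorem CGH2_ae {n l : ℕ} (hd : d = n + 2 * l + 3) (x : X d) : ∀ᵐ Y : X d, Y - x ≠ 0 := by
  have : Nontrivial (X d) := by
    have : Nonempty (Fin d) := ⟨⟨0, by omega⟩⟩
    infer_instance
  have h : (volume : Measure (X d)) {x} = 0 := measure_singleton x
  filter_upwards [compl_mem_ae_iff.2 h] with Y hY h0
  exact hY (sub_eq_zero.1 h0)

private theorem CGH2_kmeas (m : ℕ) (ε : ℝ) : Measurable (kr m ε : X d → ℝ) := by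
  unfold kr
  fun_prop

private theorem CGH2_ktend (m : ℕ) {Z : X d} (hZ : Z ≠ 0) :
    Tendsto (fun ε => kr m ε Z) (𝓝[>] 0) (𝓝 (kr m 0 Z)) := by
  have h1 : Tendsto (fun ε : ℝ => Real.sqrt (‖Z‖ ^ 2 + ε ^ 2)) (𝓝[>] 0)
      (𝓝 (Real.sqrt (‖Z‖ ^ 2 + 0 ^ 2))) := by
    have hc : Continuous (fun ε : ℝ => Real.sqrt (‖Z‖ ^ 2 + ε ^ 2)) := by fun_prop
    exact (hc.tendsto 0).mono_left nhdsWithin_le_nhds
  have h2 : Real.sqrt (‖Z‖ ^ 2 + 0 ^ 2) ≠ 0 := by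
    have : 0 < ‖Z‖ := norm_pos_iff.2 hZ
    positivity
  exact (h1.inv₀ h2).pow (m + 1)

/-- `ε ^ 2 kr (m + 2) ≤ kr m` -/
private theorem CGH2_esq (m : ℕ) (ε : ℝ) {Z : X d} (hZ : Z ≠ 0) :
    ε ^ 2 * kr (m + 2) ε Z ≤ kr m ε Z := by
  have h0 : 0 < ‖Z‖ := norm_pos_iff.2 hZ
  unfold kr
  obtain ⟨s, hs⟩ : ∃ s : ℝ, s = Real.sqrt (‖Z‖ ^ 2 + ε ^ 2) := ⟨_, rfl⟩
  have hs2 : s ^ 2 = ‖Z‖ ^ 2 + ε ^ 2 := by rw [hs]; exact Real.sq_sqrt (by positivity)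
  have hs0 : 0 < s := by rw [hs]; positivity
  rw [← hs]
  have h1 : ε ^ 2 ≤ s ^ 2 := by rw [hs2]; nlinarith [sq_nonneg ‖Z‖]
  calc ε ^ 2 * s⁻¹ ^ (m + 2 + 1) ≤ s ^ 2 * s⁻¹ ^ (m + 2 + 1) :=
        mul_le_mul_of_nonneg_right h1 (by positivity)
    _ = (s * s⁻¹) ^ 2 * s⁻¹ ^ (m + 1) := by rw [mul_pow]; ring
    _ = _ := by rw [mul_inv_cancel₀ hs0.ne', one_pow, one_mul]

private theorem CGH2_etend (m : ℕ) {Z : X d} (hZ : Z ≠ 0) :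
    Tendsto (fun ε => ε ^ 2 * kr m ε Z) (𝓝[>] 0) (𝓝 ((0 : ℝ) ^ 2 * kr m 0 Z)) := by
  have h1 : Tendsto (fun ε : ℝ => ε ^ 2) (𝓝[>] 0) (𝓝 ((0 : ℝ) ^ 2)) := by
    have hc : Continuous (fun ε : ℝ => ε ^ 2) := by fun_prop
    exact (hc.tendsto 0).mono_left nhdsWithin_le_nhds
  exact h1.mul (CGH2_ktend m hZ)

private theorem CGH2_ninv (n : ℕ) {Z : X d} (hZ : Z ≠ 0) :
    ‖Z‖⁻¹ ^ (n + 1) ≤ (1 + ‖Z‖) ^ 2 * ‖Z‖⁻¹ ^ (n + 2) := by
  have h0 : 0 < ‖Z‖ := norm_pos_iff.2 hZ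
  have h1 : ‖Z‖⁻¹ ^ (n + 1) = ‖Z‖ * ‖Z‖⁻¹ ^ (n + 2) := by
    rw [pow_succ ‖Z‖⁻¹ (n + 1), ← mul_assoc, mul_comm ‖Z‖, mul_assoc, mul_inv_cancel₀ h0.ne', mul_one]
  rw [h1]
  exact mul_le_mul_of_nonneg_right (by nlinarith) (by positivity)

private theorem CGH2_int {n l : ℕ} (hd : d = n + 2 * l + 3) {P : X d → ℝ} {C : ℝ} (hP : Continuous P)
    (hb : ∀ u, |P u| ≤ C * (1 + ‖u‖) ^ (2 * (l + 1)) * ga 4 u) (x y z : X d) :
    Integrable (fun Y => |P (Y - y)| * (‖Y - x‖⁻¹ ^ (n + 1) + ‖Y - x‖⁻¹ ^ (n + 2) * ‖Y - z‖)) := by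
  obtain ⟨C, hC, hV⟩ := CGH2_Vb hb x y
  refine ((CGH2_sing hd x).const_mul ((2 + ‖x - z‖) * C)).mono' ?_ ?_
  · have hm : Measurable (fun Y : X d => |P (Y - y)| *
        (‖Y - x‖⁻¹ ^ (n + 1) + ‖Y - x‖⁻¹ ^ (n + 2) * ‖Y - z‖)) := by
      have h1 : Measurable (fun Y : X d => |P (Y - y)|) :=
        ((hP.comp (continuous_id.sub continuous_const)).abs).measurable
      exact h1.mul (by fun_prop)
    exact hm.aestronglyMeasurable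
  · filter_upwards [CGH2_ae hd x] with Y hY
    rw [Real.norm_of_nonneg (by positivity)]
    have h1 : ‖Y - z‖ ≤ (1 + ‖x - z‖) * (1 + ‖Y - x‖) ^ 2 := by
      have h2 : ‖Y - z‖ ≤ ‖Y - x‖ + ‖x - z‖ := norm_sub_le_norm_sub_add_norm_sub Y x z
      have h3 := norm_nonneg (Y - x)
      have h4 := norm_nonneg (x - z)
      have h5 : (1 + ‖x - z‖) * (1 + ‖Y - x‖) ≤ (1 + ‖x - z‖) * (1 + ‖Y - x‖) ^ 2 := by
        apply mul_le_mul_of_nonneg_left _ (by positivity)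
        nlinarith
      nlinarith [mul_nonneg h3 h4]
    calc |P (Y - y)| * (‖Y - x‖⁻¹ ^ (n + 1) + ‖Y - x‖⁻¹ ^ (n + 2) * ‖Y - z‖)
        ≤ |P (Y - y)| * ((1 + ‖Y - x‖) ^ 2 * ‖Y - x‖⁻¹ ^ (n + 2) +
            ‖Y - x‖⁻¹ ^ (n + 2) * ((1 + ‖x - z‖) * (1 + ‖Y - x‖) ^ 2)) := by
          have := CGH2_ninv n hY
          gcongr
      _ = (2 + ‖x - z‖) * ‖Y - x‖⁻¹ ^ (n + 2) * ((1 + ‖Y - x‖) ^ 2 * |P (Y - y)|) := by ring
      _ ≤ (2 + ‖x - z‖) * ‖Y - x‖⁻¹ ^ (n + 2) * (C * ga 1 (Y - x)) :=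
          mul_le_mul_of_nonneg_left (hV Y) (by positivity)
      _ = _ := by ring

private theorem CGH2_Kb {n l : ℕ} (ε : ℝ) {Z : X d} (hZ : Z ≠ 0) (v : X d) :
    |Tk n l ε Z - Tk' n l ε Z * ⟪Z, v⟫| ≤ ((n + 2 * l + 3) + (n + 1) * (n + 2 * l + 5)) *
      (‖Z‖⁻¹ ^ (n + 1) + ‖Z‖⁻¹ ^ (n + 2) * ‖v‖) := by
  have h0 : 0 < ‖Z‖ := norm_pos_iff.2 hZ
  have k0 := kr_nonneg n ε Z
  have k1 := kr_nonneg (n + 2) ε Z
  have k2 := kr_nonneg (n + 4) ε Z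
  have g0 := kr_le_norm n ε hZ
  have g1 := kr_le_norm (n + 2) ε hZ
  have s0 : ε ^ 2 * kr (n + 2) ε Z ≤ kr n ε Z := CGH2_esq n ε hZ
  have s1 : ε ^ 2 * kr (n + 4) ε Z ≤ kr (n + 2) ε Z := CGH2_esq (n + 2) ε hZ
  have t0 : |Tk n l ε Z| ≤ (n + 2 * l + 3) * ‖Z‖⁻¹ ^ (n + 1) := by
    unfold Tk
    rw [abs_of_nonneg (by positivity)]
    calc (2 * (l : ℝ) + 2) * kr n ε Z + (n + 1) * ε ^ 2 * kr (n + 2) ε Z
        = (2 * (l : ℝ) + 2) * kr n ε Z + (n + 1) * (ε ^ 2 * kr (n + 2) ε Z) := by ring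
      _ ≤ (2 * (l : ℝ) + 2) * kr n ε Z + (n + 1) * kr n ε Z := by gcongr
      _ = (n + 2 * l + 3) * kr n ε Z := by ring
      _ ≤ _ := mul_le_mul_of_nonneg_left g0 (by positivity)
  have t1 : |Tk' n l ε Z| ≤ (n + 1) * (n + 2 * l + 5) * ‖Z‖⁻¹ ^ (n + 3) := by
    unfold Tk'
    rw [abs_of_nonneg (by positivity)]
    calc ((n : ℝ) + 1) * ((2 * l + 2) * kr (n + 2) ε Z + (n + 3) * ε ^ 2 * kr (n + 4) ε Z)
        = ((n : ℝ) + 1) * ((2 * l + 2) * kr (n + 2) ε Z + (n + 3) * (ε ^ 2 * kr (n + 4) ε Z)) := by ring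
      _ ≤ ((n : ℝ) + 1) * ((2 * l + 2) * kr (n + 2) ε Z + (n + 3) * kr (n + 2) ε Z) := by gcongr
      _ = (n + 1) * (n + 2 * l + 5) * kr (n + 2) ε Z := by ring
      _ ≤ _ := mul_le_mul_of_nonneg_left g1 (by positivity)
  have h4 : |⟪Z, v⟫| ≤ ‖Z‖ * ‖v‖ := abs_real_inner_le_norm _ _
  have h8 : ‖Z‖⁻¹ ^ (n + 3) * ‖Z‖ = ‖Z‖⁻¹ ^ (n + 2) := by
    rw [pow_succ ‖Z‖⁻¹ (n + 2), mul_assoc, inv_mul_cancel₀ h0.ne', mul_one]
  have t2 : |Tk' n l ε Z * ⟪Z, v⟫| ≤ (n + 1) * (n + 2 * l + 5) * (‖Z‖⁻¹ ^ (n + 2) * ‖v‖) := by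
    rw [abs_mul]
    calc |Tk' n l ε Z| * |⟪Z, v⟫| ≤ ((n + 1) * (n + 2 * l + 5) * ‖Z‖⁻¹ ^ (n + 3)) * (‖Z‖ * ‖v‖) :=
          mul_le_mul t1 h4 (abs_nonneg _) (by positivity)
      _ = (n + 1) * (n + 2 * l + 5) * ((‖Z‖⁻¹ ^ (n + 3) * ‖Z‖) * ‖v‖) := by ring
      _ = _ := by rw [h8]
  refine (abs_sub _ _).trans ((add_le_add t0 t2).trans ?_)
  have e1 : (0 : ℝ) ≤ ‖Z‖⁻¹ ^ (n + 1) := by positivity
  have e2 : (0 : ℝ) ≤ ‖Z‖⁻¹ ^ (n + 2) * ‖v‖ := by positivity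
  have c1 : (0 : ℝ) ≤ (n : ℝ) + 2 * l + 3 := by positivity
  have c2 : (0 : ℝ) ≤ ((n : ℝ) + 1) * (n + 2 * l + 5) := by positivity
  nlinarith [mul_nonneg c1 e2, mul_nonneg c2 e1]

/-- the limit of the left side -/
private theorem CGH2_left {n l : ℕ} (hd : d = n + 2 * l + 3) {P : X d → ℝ} {C : ℝ} (hP : Continuous P)
    (hb : ∀ u, |P u| ≤ C * (1 + ‖u‖) ^ (2 * (l + 1)) * ga 4 u) (x y z : X d) :
    Tendsto (fun ε : ℝ => ∫ Y, P (Y - y) * (Tk n l ε (Y - x) - Tk' n l ε (Y - x) * ⟪Y - x, Y - z⟫))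
      (𝓝[>] 0) (𝓝 (∫ Y, P (Y - y) * (Tk n l 0 (Y - x) - Tk' n l 0 (Y - x) * ⟪Y - x, Y - z⟫))) := by
  apply tendsto_integral_filter_of_dominated_convergence
    (fun Y => ((n + 2 * l + 3) + (n + 1) * (n + 2 * l + 5)) * (|P (Y - y)| *
      (‖Y - x‖⁻¹ ^ (n + 1) + ‖Y - x‖⁻¹ ^ (n + 2) * ‖Y - z‖)))
  · refine Eventually.of_forall fun ε => ?_
    have h1 : Measurable fun Y : X d => P (Y - y) := (hP.comp (continuous_id.sub continuous_const)).measurable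
    have hk : ∀ m : ℕ, Measurable fun Y : X d => kr m ε (Y - x) := fun m =>
      (CGH2_kmeas m ε).comp (measurable_id.sub_const x)
    have h2 : Measurable fun Y : X d => Tk n l ε (Y - x) - Tk' n l ε (Y - x) * ⟪Y - x, Y - z⟫ := by
      unfold Tk Tk'
      have hin : Measurable fun Y : X d => ⟪Y - x, Y - z⟫ := by fun_prop
      exact (((hk n).const_mul _).add ((hk (n + 2)).const_mul _)).sub
        (((((hk (n + 2)).const_mul _).add ((hk (n + 4)).const_mul _)).const_mul _).mul hin)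
    exact (h1.mul h2).aestronglyMeasurable
  · refine Eventually.of_forall fun ε => ?_
    filter_upwards [CGH2_ae hd x] with Y hY
    rw [Real.norm_eq_abs, abs_mul]
    calc |P (Y - y)| * |Tk n l ε (Y - x) - Tk' n l ε (Y - x) * ⟪Y - x, Y - z⟫|
        ≤ |P (Y - y)| * (((n + 2 * l + 3) + (n + 1) * (n + 2 * l + 5)) *
          (‖Y - x‖⁻¹ ^ (n + 1) + ‖Y - x‖⁻¹ ^ (n + 2) * ‖Y - z‖)) :=
          mul_le_mul_of_nonneg_left (CGH2_Kb ε hY _) (abs_nonneg _)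
      _ = _ := by ring
  · exact (CGH2_int hd hP hb x y z).const_mul _
  · filter_upwards [CGH2_ae hd x] with Y hY
    refine tendsto_const_nhds.mul (Tendsto.sub ?_ (Tendsto.mul_const _ ?_))
    · unfold Tk
      have h1 := (CGH2_etend (n + 2) hY).const_mul ((n : ℝ) + 1)
      have h2 := ((CGH2_ktend n hY).const_mul (2 * (l : ℝ) + 2)).add h1
      simpa only [mul_assoc] using h2
    · unfold Tk'
      have h1 := (CGH2_etend (n + 4) hY).const_mul ((n : ℝ) + 3)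
      have h2 := (((CGH2_ktend (n + 2) hY).const_mul (2 * (l : ℝ) + 2)).add h1).const_mul ((n : ℝ) + 1)
      simpa only [mul_assoc] using h2

/-- the limit of the right side -/
private theorem CGH2_right {l : ℕ} (κ : ℝ) (p q : X d) :
    Tendsto (fun ε : ℝ => ∫ a : X d, et l ε a * (ga (1 / 16) a *
        ((κ - ‖a‖ ^ 2 / 8) * Real.cos ⟪p, a⟫ - ⟪q, a⟫ * Real.sin ⟪p, a⟫)))
      (𝓝[>] 0) (𝓝 (∫ a : X d, ((l + 1).factorial : ℝ) * (ga (1 / 16) a *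
        ((κ - ‖a‖ ^ 2 / 8) * Real.cos ⟪p, a⟫ - ⟪q, a⟫ * Real.sin ⟪p, a⟫)))) := by
  have hcont : Continuous fun a : X d => ga (1 / 16) a *
        ((κ - ‖a‖ ^ 2 / 8) * Real.cos ⟪p, a⟫ - ⟪q, a⟫ * Real.sin ⟪p, a⟫) := by
    unfold ga
    fun_prop
  have hint : Integrable fun a : X d => ((1 + ‖a‖) ^ 2 * ga (1 / 16) a) := ga_integrable (by norm_num) 2
  apply tendsto_integral_filter_of_dominated_convergence
    (fun a : X d => (((l + 1).factorial : ℝ) * (|κ| + 1 + ‖q‖)) * ((1 + ‖a‖) ^ 2 * ga (1 / 16) a))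
  · refine Eventually.of_forall fun ε => ?_
    exact ((et_measurable l ε).mul hcont.measurable).aestronglyMeasurable
  · refine Eventually.of_forall fun ε => Eventually.of_forall fun a => ?_
    rw [norm_mul, Real.norm_of_nonneg (et_nonneg l ε a), Real.norm_eq_abs, abs_mul,
      abs_of_nonneg (ga_nonneg _ _)]
    have hn := norm_nonneg a
    have h1 : |(κ - ‖a‖ ^ 2 / 8) * Real.cos ⟪p, a⟫ - ⟪q, a⟫ * Real.sin ⟪p, a⟫| ≤
        (|κ| + 1 + ‖q‖) * (1 + ‖a‖) ^ 2 := by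
      have h2 : |(κ - ‖a‖ ^ 2 / 8) * Real.cos ⟪p, a⟫| ≤ |κ| + ‖a‖ ^ 2 := by
        rw [abs_mul]
        calc |κ - ‖a‖ ^ 2 / 8| * |Real.cos ⟪p, a⟫| ≤ |κ - ‖a‖ ^ 2 / 8| * 1 :=
              mul_le_mul_of_nonneg_left (Real.abs_cos_le_one _) (abs_nonneg _)
          _ = |κ - ‖a‖ ^ 2 / 8| := mul_one _
          _ ≤ |κ| + |‖a‖ ^ 2 / 8| := abs_sub _ _
          _ = |κ| + ‖a‖ ^ 2 / 8 := by rw [abs_of_nonneg (by positivity : (0 : ℝ) ≤ ‖a‖ ^ 2 / 8)]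
          _ ≤ |κ| + ‖a‖ ^ 2 := by nlinarith [sq_nonneg ‖a‖]
      have h3 : |⟪q, a⟫ * Real.sin ⟪p, a⟫| ≤ ‖q‖ * ‖a‖ := by
        rw [abs_mul]
        calc |⟪q, a⟫| * |Real.sin ⟪p, a⟫| ≤ (‖q‖ * ‖a‖) * 1 :=
              mul_le_mul (abs_real_inner_le_norm _ _) (Real.abs_sin_le_one _) (abs_nonneg _)
                (by positivity)
          _ = _ := mul_one _
      refine (abs_sub _ _).trans ((add_le_add h2 h3).trans ?_)
      have h4 : (1 : ℝ) ≤ (1 + ‖a‖) ^ 2 := one_le_pow₀ (by linarith)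
      have h5 : ‖a‖ ^ 2 ≤ (1 + ‖a‖) ^ 2 := pow_le_pow_left₀ hn (by linarith) 2
      have h6 : ‖a‖ ≤ (1 + ‖a‖) ^ 2 := by nlinarith
      have h7 := mul_le_mul_of_nonneg_left h4 (abs_nonneg κ)
      have h8 := mul_le_mul_of_nonneg_left h6 (norm_nonneg q)
      nlinarith
    calc et l ε a * (ga (1 / 16) a * |(κ - ‖a‖ ^ 2 / 8) * Real.cos ⟪p, a⟫ - ⟪q, a⟫ * Real.sin ⟪p, a⟫|)
        ≤ ((l + 1).factorial : ℝ) * (ga (1 / 16) a * ((|κ| + 1 + ‖q‖) * (1 + ‖a‖) ^ 2)) := by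
          refine mul_le_mul (et_le l ε a) (mul_le_mul_of_nonneg_left h1 (ga_nonneg _ _)) ?_ ?_
          · exact mul_nonneg (ga_nonneg _ _) (abs_nonneg _)
          · exact Nat.cast_nonneg _
      _ = _ := by ring
  · exact hint.const_mul _
  · exact Eventually.of_forall fun a => (et_lim l a).mul_const _

/-- the limit -/
private theorem CGH2_val (κ : ℝ) (p q : X d) :
    ∫ a : X d, (ga (1 / 16) a *
        ((κ - ‖a‖ ^ 2 / 8) * Real.cos ⟪p, a⟫ - ⟪q, a⟫ * Real.sin ⟪p, a⟫)) =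
      (Real.pi / (1 / 16)) ^ ((d : ℝ) / 2) * ((κ - d + 8 * ‖p‖ ^ 2 - 8 * ⟪q, p⟫) * ga 4 p) := by
  have hb : (0 : ℝ) < 1 / 16 := by norm_num
  have i0 : Integrable fun a : X d => ga (1 / 16) a * Real.cos ⟪p, a⟫ := by
    refine (ga_integrable (d := d) hb 0).mono' ?_ (Eventually.of_forall fun a => ?_)
    · unfold ga
      fun_prop
    · rw [norm_mul, Real.norm_of_nonneg (ga_nonneg _ _), Real.norm_eq_abs, pow_zero, one_mul]
      exact mul_le_of_le_one_right (ga_nonneg _ _) (Real.abs_cos_le_one _)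
  have i1 : Integrable fun a : X d => ga (1 / 16) a * (‖a‖ ^ 2 * Real.cos ⟪p, a⟫) := by
    refine (ga_integrable (d := d) hb 2).mono' ?_ (Eventually.of_forall fun a => ?_)
    · unfold ga
      fun_prop
    · rw [norm_mul, Real.norm_of_nonneg (ga_nonneg _ _), Real.norm_eq_abs, abs_mul,
        abs_of_nonneg (sq_nonneg ‖a‖), mul_comm ((1 + ‖a‖) ^ 2)]
      refine mul_le_mul_of_nonneg_left ?_ (ga_nonneg _ _)
      calc ‖a‖ ^ 2 * |Real.cos ⟪p, a⟫| ≤ ‖a‖ ^ 2 * 1 :=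
            mul_le_mul_of_nonneg_left (Real.abs_cos_le_one _) (sq_nonneg _)
        _ ≤ (1 + ‖a‖) ^ 2 := by nlinarith [norm_nonneg a]
  have i2 : Integrable fun a : X d => ga (1 / 16) a * (⟪q, a⟫ * Real.sin ⟪p, a⟫) := by
    refine ((ga_integrable (d := d) hb 1).const_mul ‖q‖).mono' ?_ (Eventually.of_forall fun a => ?_)
    · unfold ga
      fun_prop
    · rw [norm_mul, Real.norm_of_nonneg (ga_nonneg _ _), Real.norm_eq_abs, abs_mul]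
      have h1 : |⟪q, a⟫| * |Real.sin ⟪p, a⟫| ≤ (‖q‖ * ‖a‖) * 1 :=
        mul_le_mul (abs_real_inner_le_norm _ _) (Real.abs_sin_le_one _) (abs_nonneg _) (by positivity)
      calc ga (1 / 16) a * (|⟪q, a⟫| * |Real.sin ⟪p, a⟫|) ≤ ga (1 / 16) a * ((‖q‖ * ‖a‖) * 1) :=
            mul_le_mul_of_nonneg_left h1 (ga_nonneg _ _)
        _ = ‖q‖ * (‖a‖ * ga (1 / 16) a) := by ring
        _ ≤ ‖q‖ * ((1 + ‖a‖) ^ 1 * ga (1 / 16) a) := by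
            refine mul_le_mul_of_nonneg_left ?_ (norm_nonneg _)
            refine mul_le_mul_of_nonneg_right ?_ (ga_nonneg _ _)
            rw [pow_one]
            linarith
  have e1 : ∀ a : X d, ga (1 / 16) a *
        ((κ - ‖a‖ ^ 2 / 8) * Real.cos ⟪p, a⟫ - ⟪q, a⟫ * Real.sin ⟪p, a⟫) =
      (κ * (ga (1 / 16) a * Real.cos ⟪p, a⟫) - (1 / 8) * (ga (1 / 16) a * (‖a‖ ^ 2 * Real.cos ⟪p, a⟫))) -
        ga (1 / 16) a * (⟪q, a⟫ * Real.sin ⟪p, a⟫) := fun a => by ring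
  simp_rw [e1]
  have i3 : Integrable fun a : X d => κ * (ga (1 / 16) a * Real.cos ⟪p, a⟫) -
      (1 / 8) * (ga (1 / 16) a * (‖a‖ ^ 2 * Real.cos ⟪p, a⟫)) := (i0.const_mul _).sub (i1.const_mul _)
  rw [integral_sub i3 i2, integral_sub (i0.const_mul _) (i1.const_mul _), integral_const_mul,
    integral_const_mul, g_cos hb, g_cos2 hb, g_sin1 hb]
  have e2 : Real.exp (-(‖p‖ ^ 2 / (4 * (1 / 16)))) = ga 4 p := by
    unfold ga
    congr 1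
    ring
  rw [e2]
  ring

theorem claim3_g {n l : ℕ} (hn : 1 ≤ n) (hd : d = n + 2 * l + 3) :
    ∃ (V : X d → X d → ℝ) (C c : ℝ), 0 < c ∧ (∀ y, Continuous (V y)) ∧
    (∀ y Y, |V y Y| ≤ C * (1 + ‖Y - y‖) ^ (2 * l + 2) * ga 4 (Y - y)) ∧ ∀ x y z : X d,
    Integrable (fun Y => |V y Y| * (‖Y - x‖⁻¹ ^ (n + 1) + ‖Y - x‖⁻¹ ^ (n + 2) * ‖Y - z‖)) ∧
    ∫ Y, V y Y * (Tk n l 0 (Y - x) - Tk' n l 0 (Y - x) * ⟪Y - x, Y - z⟫) =
      c * ((n - 8 * ⟪x - z, x - y⟫) * ga 4 (x - y)) := by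
  obtain ⟨P, C, c, hc, hP, hs, hb, h1, h2⟩ := exV d (l + 1)
  have hc2 : 0 < c2 d n l := by
    unfold c2
    have hG : 0 < Real.Gamma (((n : ℝ) + 1) / 2) := Real.Gamma_pos_of_pos (by positivity)
    have hpi := Real.pi_pos
    positivity
  have hF : (0 : ℝ) < ((l + 1).factorial : ℝ) := by exact_mod_cast Nat.factorial_pos _
  have hpi : 0 < (Real.pi / (1 / 16)) ^ ((d : ℝ) / 2) := by
    have := Real.pi_pos
    positivity
  refine ⟨fun y Y => -P (Y - y), C,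
    (c2 d n l)⁻¹ * (c * (((l + 1).factorial : ℝ) * (Real.pi / (1 / 16)) ^ ((d : ℝ) / 2))),
    by positivity, fun y => (hP.comp (continuous_id.sub continuous_const)).neg, fun y Y => ?_,
    fun x y z => ⟨?_, ?_⟩⟩
  · simp only [abs_neg]
    exact hb _
  · simp only [abs_neg]
    exact CGH2_int hd hP hb x y z
  · have hL := (CGH2_left (n := n) hd hP hb x y z).const_mul (c2 d n l)
    have hR := (CGH2_right (l := l) (1 + (2 * l + 2)) (y - x) (y - z)).const_mul c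
    have hE : ∀ᶠ ε : ℝ in 𝓝[>] 0, c * ∫ a : X d, et l ε a * (ga (1 / 16) a *
        ((1 + (2 * (l : ℝ) + 2) - ‖a‖ ^ 2 / 8) * Real.cos ⟪y - x, a⟫ -
          ⟪y - z, a⟫ * Real.sin ⟪y - x, a⟫)) =
        c2 d n l * ∫ Y, P (Y - y) * (Tk n l ε (Y - x) - Tk' n l ε (Y - x) * ⟪Y - x, Y - z⟫) := by
      filter_upwards [self_mem_nhdsWithin] with ε hε
      exact (claimE hn hd hε hP hs hb h1 h2 x y z).symm
    have hU := tendsto_nhds_unique hL (hR.congr' hE)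
    rw [integral_const_mul, CGH2_val] at hU
    have e1 : ∫ Y, -P (Y - y) * (Tk n l 0 (Y - x) - Tk' n l 0 (Y - x) * ⟪Y - x, Y - z⟫) =
        -∫ Y, P (Y - y) * (Tk n l 0 (Y - x) - Tk' n l 0 (Y - x) * ⟪Y - x, Y - z⟫) := by
      rw [← integral_neg]
      refine integral_congr_ae (Eventually.of_forall fun Y => ?_)
      simp only
      ring
    rw [e1]
    have e2 : ∫ Y, P (Y - y) * (Tk n l 0 (Y - x) - Tk' n l 0 (Y - x) * ⟪Y - x, Y - z⟫) =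
        (c2 d n l)⁻¹ * (c * (((l + 1).factorial : ℝ) * ((Real.pi / (1 / 16)) ^ ((d : ℝ) / 2) *
          ((1 + (2 * (l : ℝ) + 2) - d + 8 * ‖y - x‖ ^ 2 - 8 * ⟪y - z, y - x⟫) * ga 4 (y - x))))) := by
      rw [← hU, inv_mul_cancel_left₀ hc2.ne']
    rw [e2, ga_comm 4 y x]
    have e3 : ‖y - x‖ ^ 2 - ⟪y - z, y - x⟫ = ⟪x - z, x - y⟫ := by
      rw [← real_inner_self_eq_norm_sq, ← inner_sub_left, show y - x - (y - z) = -(x - z) by abel,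
        show y - x = -(x - y) by abel, inner_neg_neg]
    have e4 : 1 + (2 * (l : ℝ) + 2) - d + 8 * ‖y - x‖ ^ 2 - 8 * ⟪y - z, y - x⟫ =
        -(n - 8 * ⟪x - z, x - y⟫) := by
      have e5 : (d : ℝ) = n + 2 * l + 3 := by exact_mod_cast hd
      rw [← e3, e5]
      ring
    rw [e4]
    ring

end Pool.Agent.H1.CG
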