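import Pool.Agent.H1.CG.H2
import Pool.Agent.H1.C7.H3

/-!
Row H3.  Template C7/H3.lean (J_le_Qc7), with V from claim3_g in place of L3.
-/

set_option autoImplicit false

open MeasureTheory Filter Topology Metric Set
open scoped RealInnerProductSpace ENNReal

namespace Pool.Agent.H1.CG

open Pool.Agent.RZ Pool.Agent.H1.LD Pool.Agent.H48.R7

variable {d : ℕ}

private theorem CGH3_kr0 (n : ℕ) (Z : X d) : kr n 0 Z = ‖Z‖⁻¹ ^ (n + 1) := by
  unfold kr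
  rw [zero_pow two_ne_zero, add_zero, Real.sqrt_sq (norm_nonneg Z)]

/-- the kernel of `Lg` -/
private noncomputable def CGH3_G (n l : ℕ) (Z v : X d) : ℝ :=
  Tk n l 0 Z - Tk' n l 0 Z * ⟪Z, v⟫

private theorem CGH3_G_eq (n l : ℕ) (Z v : X d) : CGH3_G n l Z v =
    (2 * l + 2) * ‖Z‖⁻¹ ^ (n + 1) - (2 * l + 2) * (n + 1) * ‖Z‖⁻¹ ^ (n + 2 + 1) * ⟪Z, v⟫ := by
  unfold CGH3_G Tk Tk'
  rw [CGH3_kr0, CGH3_kr0]
  ring

/-- the local part of the kernel -/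
private noncomputable def CGH3_r (n : ℕ) (Z : X d) : ℝ :=
  (Iio (1 : ℝ)).indicator (fun t => t⁻¹ ^ (n + 2)) ‖Z‖

private theorem CGH3_r_nonneg (n : ℕ) (Z : X d) : 0 ≤ CGH3_r n Z := by
  unfold CGH3_r
  refine indicator_apply_nonneg fun _ => ?_
  positivity

private theorem CGH3_r_meas (n : ℕ) : Measurable (CGH3_r n : X d → ℝ) := by
  unfold CGH3_r
  exact ((by fun_prop : Measurable fun t : ℝ => t⁻¹ ^ (n + 2)).indicator measurableSet_Iio).comp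
    measurable_norm

private theorem CGH3_le_r (n : ℕ) (Z : X d) : ‖Z‖⁻¹ ^ (n + 2) ≤ CGH3_r n Z + 1 := by
  unfold CGH3_r
  by_cases h : ‖Z‖ < 1
  · rw [indicator_of_mem (by exact h)]
    linarith
  · rw [indicator_of_notMem (by exact h)]
    have h1 : ‖Z‖⁻¹ ≤ 1 := inv_le_one_of_one_le₀ (not_lt.1 h)
    have h2 : ‖Z‖⁻¹ ^ (n + 2) ≤ 1 := pow_le_one₀ (by positivity) h1
    linarith

private theorem CGH3_le_r1 (n : ℕ) (Z : X d) : ‖Z‖⁻¹ ^ (n + 1) ≤ CGH3_r n Z + 1 := by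
  have h0 := CGH3_r_nonneg n Z
  rcases (norm_nonneg Z).eq_or_lt with hZ | hZ
  · rw [← hZ, inv_zero, zero_pow (by omega)]
    linarith
  · by_cases h : ‖Z‖ < 1
    · have h1 : 1 ≤ ‖Z‖⁻¹ := (one_le_inv₀ hZ).2 h.le
      exact (pow_le_pow_right₀ h1 (by omega)).trans (CGH3_le_r n Z)
    · have h1 : ‖Z‖⁻¹ ≤ 1 := inv_le_one_of_one_le₀ (not_lt.1 h)
      have h2 : ‖Z‖⁻¹ ^ (n + 1) ≤ 1 := pow_le_one₀ (by positivity) h1
      linarith

/-- the constant of the kernel bound -/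
private def CGH3_k (n l : ℕ) : ℝ := (2 * l + 2) * (n + 1)

private theorem CGH3_k_pos (n l : ℕ) : 0 < CGH3_k n l := by
  unfold CGH3_k
  positivity

private theorem CGH3_G_le (n l : ℕ) (Z v : X d) :
    |CGH3_G n l Z v| ≤ CGH3_k n l * ((CGH3_r n Z + 1) * (1 + ‖v‖)) := by
  rw [CGH3_G_eq]
  unfold CGH3_k
  obtain ⟨m, hm⟩ : ∃ m : ℝ, m = 2 * (l : ℝ) + 2 := ⟨_, rfl⟩
  rw [← hm]
  have hm0 : 0 < m := by rw [hm]; positivity
  have h0 : 0 ≤ ‖Z‖⁻¹ := by positivity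
  have hn : (0 : ℝ) ≤ n := Nat.cast_nonneg n
  have h1 : |m * ‖Z‖⁻¹ ^ (n + 1)| = m * ‖Z‖⁻¹ ^ (n + 1) := abs_of_nonneg (by positivity)
  have h3 : ‖Z‖⁻¹ * ‖Z‖ ≤ 1 := inv_mul_le_one
  have h4 : ‖Z‖⁻¹ ^ (n + 2 + 1) * (‖Z‖ * ‖v‖) ≤ ‖Z‖⁻¹ ^ (n + 2) * ‖v‖ := by
    have e : ‖Z‖⁻¹ ^ (n + 2 + 1) * (‖Z‖ * ‖v‖) =
        (‖Z‖⁻¹ ^ (n + 2) * ‖v‖) * (‖Z‖⁻¹ * ‖Z‖) := by ring
    rw [e]
    exact mul_le_of_le_one_right (by positivity) h3
  have h2 : |m * ((n : ℝ) + 1) * ‖Z‖⁻¹ ^ (n + 2 + 1) * ⟪Z, v⟫| ≤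
      m * (n + 1) * (‖Z‖⁻¹ ^ (n + 2) * ‖v‖) := by
    rw [mul_assoc, abs_mul, abs_of_nonneg (by positivity : (0 : ℝ) ≤ m * ((n : ℝ) + 1)), abs_mul,
      abs_of_nonneg (by positivity : (0 : ℝ) ≤ ‖Z‖⁻¹ ^ (n + 2 + 1))]
    refine mul_le_mul_of_nonneg_left (le_trans ?_ h4) (by positivity)
    exact mul_le_mul_of_nonneg_left (abs_real_inner_le_norm Z v) (by positivity)
  have h5 := CGH3_le_r n Z
  have h6 := CGH3_le_r1 n Z
  have h7 := CGH3_r_nonneg n Z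
  have hv : 0 ≤ ‖v‖ := norm_nonneg v
  calc |m * ‖Z‖⁻¹ ^ (n + 1) - m * ((n : ℝ) + 1) * ‖Z‖⁻¹ ^ (n + 2 + 1) * ⟪Z, v⟫|
      ≤ |m * ‖Z‖⁻¹ ^ (n + 1)| + |m * ((n : ℝ) + 1) * ‖Z‖⁻¹ ^ (n + 2 + 1) * ⟪Z, v⟫| := abs_sub _ _
    _ ≤ m * ‖Z‖⁻¹ ^ (n + 1) + m * (n + 1) * (‖Z‖⁻¹ ^ (n + 2) * ‖v‖) := by
        rw [h1]
        gcongr
    _ ≤ m * (n + 1) * (CGH3_r n Z + 1) + m * (n + 1) * ((CGH3_r n Z + 1) * ‖v‖) := by
        have a1 : m * ‖Z‖⁻¹ ^ (n + 1) ≤ m * ((n : ℝ) + 1) * (CGH3_r n Z + 1) := by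
          have a2 : m * ‖Z‖⁻¹ ^ (n + 1) ≤ m * (CGH3_r n Z + 1) :=
            mul_le_mul_of_nonneg_left h6 hm0.le
          refine a2.trans ?_
          have a3 : 0 ≤ m * ((n : ℝ) * (CGH3_r n Z + 1)) := by positivity
          nlinarith
        have a4 : m * ((n : ℝ) + 1) * (‖Z‖⁻¹ ^ (n + 2) * ‖v‖) ≤
            m * (n + 1) * ((CGH3_r n Z + 1) * ‖v‖) := by gcongr
        linarith
    _ = _ := by ring

private theorem CGH3_r_int {n l : ℕ} (hd : d = n + 2 * l + 3) :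
    Integrable (CGH3_r n : X d → ℝ) := by
  subst hd
  have h := (integrable_fun_norm_addHaar (E := X (n + 2 * l + 3)) volume
    (f := (Iio (1 : ℝ)).indicator (fun t => t⁻¹ ^ (n + 2)))).2
  refine h ?_
  have h1 : Module.finrank ℝ (X (n + 2 * l + 3)) - 1 = n + 2 + 2 * l := by
    simp only [finrank_euclideanSpace_fin]
    omega
  rw [h1]
  have h2 : IntegrableOn (fun t : ℝ => (Iio (1 : ℝ)).indicator (fun _ => (1 : ℝ)) t) (Ioi 0) := by
    have h3 : Integrable ((Iio (1 : ℝ)).indicator (fun _ => (1 : ℝ))) (volume.restrict (Ioi 0)) := by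
      rw [integrable_indicator_iff measurableSet_Iio]
      unfold IntegrableOn
      rw [Measure.restrict_restrict measurableSet_Iio, inter_comm, Ioi_inter_Iio]
      exact integrable_const 1
    exact h3
  refine Integrable.mono' h2 ?_ ?_
  · refine Measurable.aestronglyMeasurable ?_
    exact (by fun_prop : Measurable fun t : ℝ => t ^ (n + 2 + 2 * l)).smul
      ((by fun_prop : Measurable fun t : ℝ => t⁻¹ ^ (n + 2)).indicator measurableSet_Iio)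
  · refine (ae_restrict_mem measurableSet_Ioi).mono fun t ht => ?_
    have ht0 : (0 : ℝ) < t := ht
    by_cases h : t < 1
    · rw [indicator_of_mem (by exact h), indicator_of_mem (by exact h), smul_eq_mul, Real.norm_eq_abs,
        abs_of_nonneg (by positivity)]
      have e : t ^ (n + 2 + 2 * l) * t⁻¹ ^ (n + 2) = t ^ (2 * l) := by
        rw [pow_add, mul_right_comm, ← mul_pow, mul_inv_cancel₀ ht0.ne', one_pow, one_mul]
      rw [e]
      exact pow_le_one₀ ht0.le h.le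
    · rw [indicator_of_notMem (by exact h), indicator_of_notMem (by exact h), smul_zero, norm_zero]

private theorem CGH3_tri (y z Y : X d) : 1 + ‖Y - z‖ ≤ (1 + ‖Y - y‖) * (1 + ‖y - z‖) := by
  have h1 : ‖Y - z‖ ≤ ‖Y - y‖ + ‖y - z‖ := norm_sub_le_norm_sub_add_norm_sub Y y z
  nlinarith [norm_nonneg (Y - y), norm_nonneg (y - z)]

/-- what is used of the function `V` -/
private structure CGH3_P (l : ℕ) (V : X d → X d → ℝ) (C : ℝ) : Prop where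
  pos : 0 < C
  cont : ∀ y, Continuous (V y)
  le : ∀ y Y, |V y Y| ≤ C * ((1 + ‖Y - y‖) ^ (2 * l + 2) * ga 4 (Y - y))

/-- the function `|V y Y| (1 + ‖Y - z‖)` -/
private theorem CGH3_VY_le {l : ℕ} {V : X d → X d → ℝ} {C : ℝ} (hV : CGH3_P l V C) (y z Y : X d) :
    |V y Y| * (1 + ‖Y - z‖) ≤
      (C * (1 + ‖y - z‖)) * ((1 + ‖Y - y‖) ^ (2 * l + 3) * ga 4 (Y - y)) := by
  have h1 := hV.le y Y
  have h2 := CGH3_tri y z Y
  have hg := ga_pos (d := d) 4 (Y - y)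
  have hcV := hV.pos
  calc |V y Y| * (1 + ‖Y - z‖) ≤ (C * ((1 + ‖Y - y‖) ^ (2 * l + 2) * ga 4 (Y - y))) *
        ((1 + ‖Y - y‖) * (1 + ‖y - z‖)) :=
        mul_le_mul h1 h2 (by positivity) (by positivity)
    _ = _ := by ring

private theorem CGH3_VY_int {l : ℕ} {V : X d → X d → ℝ} {C : ℝ} (hV : CGH3_P l V C) (y z : X d) :
    Integrable fun Y : X d => |V y Y| * (1 + ‖Y - z‖) := by
  have h0 := ((ga_integrable (d := d) (b := 4) (by norm_num) (2 * l + 3)).comp_sub_right y).const_mul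
    (C * (1 + ‖y - z‖))
  refine h0.mono' ?_ (Eventually.of_forall fun Y => ?_)
  · exact ((hV.cont y).abs.mul (by fun_prop)).aestronglyMeasurable
  · rw [Real.norm_eq_abs, abs_of_nonneg (by positivity)]
    exact CGH3_VY_le hV y z Y

private theorem CGH3_VY_bdd {l : ℕ} {V : X d → X d → ℝ} {C : ℝ} (hV : CGH3_P l V C) (y z : X d) :
    ∃ M : ℝ, 0 ≤ M ∧ ∀ Y : X d, |V y Y| * (1 + ‖Y - z‖) ≤ M := by
  obtain ⟨C', hC, hb⟩ := poly_ga d (2 * l + 3) (show (0 : ℝ) < 4 by norm_num)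
  have hcV := hV.pos
  refine ⟨C * (1 + ‖y - z‖) * C', by positivity, fun Y => ?_⟩
  refine (CGH3_VY_le hV y z Y).trans ?_
  refine mul_le_mul_of_nonneg_left ?_ (by positivity)
  have h1 := hb (Y - y)
  have h2 : ga (0 : ℝ) (Y - y) = 1 := by unfold ga; simp
  rw [h2] at h1
  linarith

/-- the kernel, as a function of two variables -/
private noncomputable def CGH3_F (n l : ℕ) (V : X d → X d → ℝ) (y z : X d) (x Y : X d) : ℝ :=
  V y Y * CGH3_G n l (Y - x) (Y - z)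

private theorem CGH3_G_meas (n l : ℕ) (z : X d) :
    Measurable fun q : X d × X d => CGH3_G n l (q.2 - q.1) (q.2 - z) := by
  unfold CGH3_G Tk Tk' kr
  fun_prop

private theorem CGH3_F_le (n l : ℕ) (V : X d → X d → ℝ) (y z x Y : X d) {M : ℝ}
    (hM : ∀ Y : X d, |V y Y| * (1 + ‖Y - z‖) ≤ M) :
    |CGH3_F n l V y z x Y| ≤ CGH3_k n l * (M * CGH3_r n (Y - x) + |V y Y| * (1 + ‖Y - z‖)) := by
  unfold CGH3_F
  have h2 := CGH3_G_le n l (Y - x) (Y - z)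
  have h4 := CGH3_r_nonneg n (Y - x)
  have h5 := hM Y
  have h6 := CGH3_k_pos n l
  rw [abs_mul]
  calc |V y Y| * |CGH3_G n l (Y - x) (Y - z)|
      ≤ |V y Y| * (CGH3_k n l * ((CGH3_r n (Y - x) + 1) * (1 + ‖Y - z‖))) :=
        mul_le_mul_of_nonneg_left h2 (abs_nonneg _)
    _ = CGH3_k n l * ((|V y Y| * (1 + ‖Y - z‖)) * CGH3_r n (Y - x) +
        |V y Y| * (1 + ‖Y - z‖)) := by ring
    _ ≤ _ := by gcongr

private theorem CGH3_r_prod {n l : ℕ} (hd : d = n + 2 * l + 3) (μ : Measure (X d)) [IsFiniteMeasure μ] :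
    Integrable (fun q : X d × X d => CGH3_r n (q.2 - q.1)) (μ.prod volume) := by
  have hm : Measurable fun q : X d × X d => CGH3_r n (q.2 - q.1) :=
    (CGH3_r_meas n).comp (by fun_prop)
  rw [integrable_prod_iff hm.aestronglyMeasurable]
  refine ⟨Eventually.of_forall fun x => (CGH3_r_int hd).comp_sub_right x, ?_⟩
  have h1 : ∀ x : X d, ∫ Y : X d, ‖CGH3_r n (Y - x)‖ = ∫ Y : X d, ‖CGH3_r n Y‖ := fun x =>
    integral_sub_right_eq_self (fun Y : X d => ‖CGH3_r n Y‖) x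
  simp only [h1]
  exact integrable_const _

private theorem CGH3_F_int {n l : ℕ} (hd : d = n + 2 * l + 3) {V : X d → X d → ℝ} {C : ℝ}
    (hV : CGH3_P l V C) (μ : Measure (X d)) [IsFiniteMeasure μ]
    (y z : X d) : Integrable (Function.uncurry fun x Y : X d => CGH3_F n l V y z x Y)
      (μ.prod volume) := by
  obtain ⟨M, hM0, hM⟩ := CGH3_VY_bdd hV y z
  have h1 := (CGH3_r_prod hd μ).const_mul M
  have h2 : Integrable (fun q : X d × X d => |V y q.2| * (1 + ‖q.2 - z‖)) (μ.prod volume) := by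
    have h3 := (integrable_const (μ := μ) (1 : ℝ)).mul_prod (CGH3_VY_int hV y z)
    simpa using h3
  refine ((h1.add h2).const_mul (CGH3_k n l)).mono' ?_ (Eventually.of_forall fun q => ?_)
  · refine Measurable.aestronglyMeasurable ?_
    have h4 : Measurable fun q : X d × X d => V y q.2 :=
      ((hV.cont y).comp continuous_snd).measurable
    exact h4.mul (CGH3_G_meas n l z)
  · obtain ⟨x, Y⟩ := q
    exact CGH3_F_le n l V y z x Y hM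

private theorem CGH3_Lg_meas (n l : ℕ) (μ : Measure (X d)) [IsFiniteMeasure μ] (z : X d) :
    Measurable fun Y : X d => Lg n l 0 μ Y (Y - z) := by
  have h1 : Measurable fun q : X d × X d =>
      Tk n l 0 (q.1 - q.2) - Tk' n l 0 (q.1 - q.2) * ⟪q.1 - q.2, q.1 - z⟫ := by
    unfold Tk Tk' kr
    fun_prop
  exact ((h1.stronglyMeasurable).integral_prod_right' (ν := μ)).measurable

/-- the representation of the defect -/
private theorem CGH3_rep {n l : ℕ} (hd : d = n + 2 * l + 3) {V : X d → X d → ℝ} {C c : ℝ}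
    (hV : CGH3_P l V C)
    (hc : ∀ x y z : X d,
      ∫ Y, V y Y * (Tk n l 0 (Y - x) - Tk' n l 0 (Y - x) * ⟪Y - x, Y - z⟫) =
      c * ((n - 8 * ⟪x - z, x - y⟫) * ga 4 (x - y)))
    (μ : Measure (X d)) [IsFiniteMeasure μ] (z y : X d) :
    c * Jf n μ 4 z y = ∫ Y, V y Y * Lg n l 0 μ Y (Y - z) := by
  have hsw := integral_integral_swap (CGH3_F_int hd hV μ y z)
  have e1 : ∀ Y : X d, ∫ x, CGH3_F n l V y z x Y ∂μ = V y Y * Lg n l 0 μ Y (Y - z) := by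
    intro Y
    exact integral_const_mul _ _
  have e2 : ∀ x : X d, ∫ Y, CGH3_F n l V y z x Y =
      c * ((n - 2 * 4 * ⟪x - z, x - y⟫) * ga 4 (x - y)) := by
    intro x
    unfold CGH3_F CGH3_G
    rw [hc x y z]
    ring
  rw [← integral_congr_ae (Eventually.of_forall e1), ← hsw,
    integral_congr_ae (Eventually.of_forall e2), integral_const_mul]
  rfl

/-- the square root of the weight -/
private noncomputable def CGH3_w (n l : ℕ) (z : X d) (s : ℝ) (Y : X d) : ℝ :=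
  Real.sqrt (s * kr (n + 2 * l + 1) s (Y - z))

private theorem CGH3_kr_pos (n : ℕ) {s : ℝ} (hs : 0 < s) (Z : X d) : 0 < kr n s Z := by
  unfold kr
  have : 0 < Real.sqrt (‖Z‖ ^ 2 + s ^ 2) := Real.sqrt_pos.2 (by positivity)
  positivity

private theorem CGH3_w_pos (n l : ℕ) (z : X d) {s : ℝ} (hs : 0 < s) (Y : X d) :
    0 < CGH3_w n l z s Y := Real.sqrt_pos.2 (mul_pos hs (CGH3_kr_pos _ hs _))

private theorem CGH3_w_sq (n l : ℕ) (z : X d) {s : ℝ} (hs : 0 < s) (Y : X d) :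
    CGH3_w n l z s Y ^ 2 = s * kr (n + 2 * l + 1) s (Y - z) :=
  Real.sq_sqrt (mul_pos hs (CGH3_kr_pos _ hs _)).le

private theorem CGH3_w_meas (n l : ℕ) (z : X d) (s : ℝ) : Measurable (CGH3_w n l z s) := by
  unfold CGH3_w kr
  fun_prop

private theorem CGH3_winv (n l : ℕ) (z : X d) {s : ℝ} (hs1 : 1 / 4 ≤ s) (hs2 : s ≤ 1 / 2) (Y : X d) :
    (CGH3_w n l z s Y)⁻¹ ^ 2 ≤ 4 * (1 + ‖Y - z‖) ^ (n + 2 * l + 2) := by
  have hs0 : 0 < s := by linarith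
  rw [inv_pow, CGH3_w_sq n l z hs0 Y]
  unfold kr
  rw [mul_inv, inv_pow, inv_inv]
  have h1 : s⁻¹ ≤ 4 := by
    rw [inv_le_comm₀ hs0 (by norm_num)]
    linarith
  have h2 : Real.sqrt (‖Y - z‖ ^ 2 + s ^ 2) ≤ 1 + ‖Y - z‖ := by
    rw [Real.sqrt_le_left (by positivity)]
    nlinarith [norm_nonneg (Y - z)]
  have h3 : n + 2 * l + 1 + 1 = n + 2 * l + 2 := rfl
  rw [h3]
  gcongr

private noncomputable def CGH3_I (d n l : ℕ) : ℝ :=
  ∫ w : X d, (1 + ‖w‖) ^ (n + 6 * l + 6) * ga 8 w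

/-- the weighted norm of `V` -/
private theorem CGH3_Lsq (n : ℕ) {l : ℕ} {V : X d → X d → ℝ} {C : ℝ} (hV : CGH3_P l V C)
    (y z : X d) {s : ℝ} (hs1 : 1 / 4 ≤ s) (hs2 : s ≤ 1 / 2) :
    ∫⁻ Y : X d, ‖(CGH3_w n l z s Y)⁻¹ * V y Y‖ₑ ^ 2 ≤
      ENNReal.ofReal (4 * C ^ 2 * CGH3_I d n l * (1 + ‖y - z‖) ^ (n + 2 * l + 2)) := by
  have hint := (ga_integrable (d := d) (b := 8) (by norm_num) (n + 6 * l + 6)).comp_sub_right y
  have hC := hV.pos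
  have h1 : ∀ Y : X d, ‖(CGH3_w n l z s Y)⁻¹ * V y Y‖ₑ ^ 2 ≤
      ENNReal.ofReal (4 * C ^ 2 * (1 + ‖y - z‖) ^ (n + 2 * l + 2) *
        ((1 + ‖Y - y‖) ^ (n + 6 * l + 6) * ga 8 (Y - y))) := by
    intro Y
    rw [← ofReal_norm, ← ENNReal.ofReal_pow (norm_nonneg _)]
    refine ENNReal.ofReal_le_ofReal ?_
    rw [norm_mul, mul_pow, Real.norm_eq_abs, sq_abs, Real.norm_eq_abs]
    have h2 := CGH3_winv n l z hs1 hs2 Y
    have h3 := hV.le y Y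
    have h4 := CGH3_tri y z Y
    have h5 : (1 + ‖Y - z‖) ^ (n + 2 * l + 2) ≤
        (1 + ‖Y - y‖) ^ (n + 2 * l + 2) * (1 + ‖y - z‖) ^ (n + 2 * l + 2) := by
      rw [← mul_pow]
      exact pow_le_pow_left₀ (by positivity) h4 _
    have hg := ga_pos (d := d) 4 (Y - y)
    have h6 : ga 4 (Y - y) ^ 2 = ga 8 (Y - y) := by
      rw [sq, ga_mul]; norm_num
    have h7 : (1 + ‖Y - y‖) ^ (n + 6 * l + 6) =
        (1 + ‖Y - y‖) ^ (n + 2 * l + 2) * ((1 + ‖Y - y‖) ^ (2 * l + 2)) ^ 2 := by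
      rw [← pow_mul, ← pow_add]
      congr 1
      ring
    calc (CGH3_w n l z s Y)⁻¹ ^ 2 * |V y Y| ^ 2
        ≤ (4 * ((1 + ‖Y - y‖) ^ (n + 2 * l + 2) * (1 + ‖y - z‖) ^ (n + 2 * l + 2))) *
          (C * ((1 + ‖Y - y‖) ^ (2 * l + 2) * ga 4 (Y - y))) ^ 2 := by
          gcongr
          exact h2.trans (by gcongr)
      _ = 4 * C ^ 2 * (1 + ‖y - z‖) ^ (n + 2 * l + 2) *
          ((1 + ‖Y - y‖) ^ (n + 6 * l + 6) * ga 4 (Y - y) ^ 2) := by rw [h7]; ring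
      _ = _ := by rw [h6]
  refine (lintegral_mono h1).trans (le_of_eq ?_)
  rw [← ofReal_integral_eq_lintegral_ofReal (hint.const_mul _)
    (Eventually.of_forall fun Y => by have := ga_pos (d := d) 8 (Y - y); positivity),
    integral_const_mul]
  congr 1
  have h7 : ∫ Y : X d, (1 + ‖Y - y‖) ^ (n + 6 * l + 6) * ga 8 (Y - y) = CGH3_I d n l :=
    integral_sub_right_eq_self (fun w : X d => (1 + ‖w‖) ^ (n + 6 * l + 6) * ga 8 w) y
  rw [h7]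
  ring

theorem J_le_Qg {n l : ℕ} (hn : 1 ≤ n) (hd : d = n + 2 * l + 3) :
    ∃ C : ℝ, 0 < C ∧ ∀ (μ : Measure (X d)),
    IsFiniteMeasure μ → ∀ z y : X d, ∀ s : ℝ, 1 / 4 ≤ s → s ≤ 1 / 2 →
      ENNReal.ofReal (Jf n μ 4 z y ^ 2) ≤
        ENNReal.ofReal (C * (1 + ‖y - z‖) ^ (2 * (n + 2 * l + 2))) * Qg n l μ z s := by
  obtain ⟨V, C0, c, hc0, hVc, hVb, hc⟩ := claim3_g (d := d) hn hd
  obtain ⟨C, hC⟩ : ∃ C : ℝ, C = |C0| + 1 := ⟨_, rfl⟩
  have hCp : 0 < C := by rw [hC]; positivity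
  have hV : CGH3_P l V C := by
    refine ⟨hCp, hVc, fun y Y => ?_⟩
    refine (hVb y Y).trans ?_
    have hg := ga_pos (d := d) 4 (Y - y)
    have h1 : C0 ≤ C := by
      rw [hC]
      linarith [le_abs_self C0]
    rw [mul_assoc]
    exact mul_le_mul_of_nonneg_right h1 (by positivity)
  have hI : 0 ≤ CGH3_I d n l := by
    unfold CGH3_I
    refine integral_nonneg fun w => ?_
    have := ga_nonneg (d := d) 8 w
    positivity
  refine ⟨(4 * C ^ 2 * CGH3_I d n l + 1) * c⁻¹ ^ 2, by positivity, ?_⟩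
  intro μ hfin z y s hs1 hs2
  have := hfin
  have hs0 : 0 < s := by linarith
  have hrep := CGH3_rep hd hV (fun x y z => (hc x y z).2) μ z y
  have hmV : Measurable fun Y : X d => (CGH3_w n l z s Y)⁻¹ * V y Y :=
    (CGH3_w_meas n l z s).inv.mul (hVc y).measurable
  have hmS : Measurable fun Y : X d => CGH3_w n l z s Y * Lg n l 0 μ Y (Y - z) :=
    (CGH3_w_meas n l z s).mul (CGH3_Lg_meas n l μ z)
  have h1 : ‖c * Jf n μ 4 z y‖ₑ ≤
      (∫⁻ Y : X d, ‖(CGH3_w n l z s Y)⁻¹ * V y Y‖ₑ ^ 2) ^ (1 / 2 : ℝ) *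
      (∫⁻ Y : X d, ‖CGH3_w n l z s Y * Lg n l 0 μ Y (Y - z)‖ₑ ^ 2) ^ (1 / 2 : ℝ) := by
    rw [hrep]
    have h2 : ∫⁻ Y : X d, ‖V y Y * Lg n l 0 μ Y (Y - z)‖ₑ ≤
        ∫⁻ Y : X d, ((fun Y : X d => ‖(CGH3_w n l z s Y)⁻¹ * V y Y‖ₑ) *
          (fun Y : X d => ‖CGH3_w n l z s Y * Lg n l 0 μ Y (Y - z)‖ₑ)) Y := by
      refine lintegral_mono fun Y => ?_
      simp only [Pi.mul_apply]
      have hw := CGH3_w_pos n l z hs0 Y
      have e : V y Y * Lg n l 0 μ Y (Y - z) =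
          ((CGH3_w n l z s Y)⁻¹ * V y Y) * (CGH3_w n l z s Y * Lg n l 0 μ Y (Y - z)) := by
        have e0 : (CGH3_w n l z s Y)⁻¹ * CGH3_w n l z s Y = 1 := inv_mul_cancel₀ hw.ne'
        calc V y Y * Lg n l 0 μ Y (Y - z) =
            ((CGH3_w n l z s Y)⁻¹ * CGH3_w n l z s Y) * (V y Y * Lg n l 0 μ Y (Y - z)) := by
              rw [e0, one_mul]
          _ = _ := by ring
      rw [e, enorm_mul]
    have h3 := ENNReal.lintegral_mul_le_Lp_mul_Lq (volume : Measure (X d))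
      (Real.HolderConjugate.two_two) (f := fun Y : X d => ‖(CGH3_w n l z s Y)⁻¹ * V y Y‖ₑ)
      (g := fun Y : X d => ‖CGH3_w n l z s Y * Lg n l 0 μ Y (Y - z)‖ₑ)
      hmV.enorm.aemeasurable hmS.enorm.aemeasurable
    simp only [ENNReal.rpow_two] at h3
    exact (enorm_integral_le_lintegral_enorm _).trans (h2.trans h3)
  have h5 : ‖c * Jf n μ 4 z y‖ₑ ^ 2 ≤ (∫⁻ Y : X d, ‖(CGH3_w n l z s Y)⁻¹ * V y Y‖ₑ ^ 2) *
      (∫⁻ Y : X d, ‖CGH3_w n l z s Y * Lg n l 0 μ Y (Y - z)‖ₑ ^ 2) := by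
    refine (pow_le_pow_left' h1 2).trans (le_of_eq ?_)
    rw [mul_pow, ← ENNReal.rpow_natCast, ← ENNReal.rpow_natCast, ← ENNReal.rpow_mul,
      ← ENNReal.rpow_mul]
    norm_num
  have h6 : ∫⁻ Y : X d, ‖CGH3_w n l z s Y * Lg n l 0 μ Y (Y - z)‖ₑ ^ 2 = Qg n l μ z s := by
    unfold Qg
    refine lintegral_congr fun Y => ?_
    rw [enorm_mul, mul_pow]
    congr 1
    rw [← ofReal_norm, ← ENNReal.ofReal_pow (norm_nonneg _), Real.norm_eq_abs, sq_abs,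
      CGH3_w_sq n l z hs0 Y]
  have h4 : ENNReal.ofReal (Jf n μ 4 z y ^ 2) =
      ENNReal.ofReal (c⁻¹ ^ 2) * ‖c * Jf n μ 4 z y‖ₑ ^ 2 := by
    rw [← ofReal_norm, ← ENNReal.ofReal_pow (norm_nonneg _), Real.norm_eq_abs, sq_abs,
      ← ENNReal.ofReal_mul (by positivity)]
    congr 1
    field_simp
  rw [h4]
  rw [h6] at h5
  calc ENNReal.ofReal (c⁻¹ ^ 2) * ‖c * Jf n μ 4 z y‖ₑ ^ 2
      ≤ ENNReal.ofReal (c⁻¹ ^ 2) *
        (ENNReal.ofReal (4 * C ^ 2 * CGH3_I d n l * (1 + ‖y - z‖) ^ (n + 2 * l + 2)) *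
          Qg n l μ z s) :=
        mul_le_mul' le_rfl (h5.trans (mul_le_mul' (CGH3_Lsq n hV y z hs1 hs2) le_rfl))
    _ = ENNReal.ofReal (c⁻¹ ^ 2 *
        (4 * C ^ 2 * CGH3_I d n l * (1 + ‖y - z‖) ^ (n + 2 * l + 2))) * Qg n l μ z s := by
        rw [← mul_assoc, ← ENNReal.ofReal_mul (by positivity)]
    _ ≤ _ := by
        refine mul_le_mul' (ENNReal.ofReal_le_ofReal ?_) le_rfl
        have h8 : (1 + ‖y - z‖) ^ (n + 2 * l + 2) ≤ (1 + ‖y - z‖) ^ (2 * (n + 2 * l + 2)) :=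
          pow_le_pow_right₀ (by linarith [norm_nonneg (y - z)]) (by omega)
        have h9 : 4 * C ^ 2 * CGH3_I d n l ≤ 4 * C ^ 2 * CGH3_I d n l + 1 := by linarith
        calc c⁻¹ ^ 2 * (4 * C ^ 2 * CGH3_I d n l * (1 + ‖y - z‖) ^ (n + 2 * l + 2))
            ≤ c⁻¹ ^ 2 * ((4 * C ^ 2 * CGH3_I d n l + 1) *
              (1 + ‖y - z‖) ^ (2 * (n + 2 * l + 2))) := by gcongr
          _ = _ := by ring

end Pool.Agent.H1.CG
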