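import Pool.Agent.H1.CG.FA
import Pool.Agent.H1.CG.SymA

/-!
Row JX.  ∫ wk(x) re2 μ x a b dx = c1 et(a-b) m3(a,b): re2 μ x a b = ∬ cos(⟪x,a-b⟫ - ⟪y,a⟫ + ⟪y',b⟫), wk(x) = ∫ Pk(x-y'') dμ,
u = x - y'', Pk_cos, the sin part vanishes (Pk even).  Then Fubini for wk(x) V(p) et et re2 on X d × (X d × X d): majorant
wk(x) * C SK et et * 2 M^2 (SK_int, wk integrable by Pk_int).
-/

set_option autoImplicit false

open MeasureTheory Filter Topology Metric Set
open scoped RealInnerProductSpace ENNReal

namespace Pool.Agent.H1.CG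

open Pool.Agent.RZ Pool.Agent.H1.LD Pool.Agent.H48.R7

variable {d : ℕ}

private theorem CGJX_Pk_nonneg (n l : ℕ) {ε : ℝ} (hε : 0 < ε) (Z : X d) : 0 ≤ Pk n l ε Z := by
  unfold Pk kr
  positivity

private theorem CGJX_Pk_meas (n l : ℕ) (ε : ℝ) : Measurable (Pk n l ε : X d → ℝ) := by
  unfold Pk kr
  fun_prop

private theorem CGJX_Pk_neg (n l : ℕ) (ε : ℝ) (Z : X d) : Pk n l ε (-Z) = Pk n l ε Z := by
  unfold Pk kr
  rw [norm_neg]

private theorem CGJX_Pk_prod {n l : ℕ} (hd : d = n + 2 * l + 3) {ε : ℝ} (hε : 0 < ε)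
    (μ : Measure (X d)) [IsFiniteMeasure μ] :
    Integrable (fun q : X d × X d => Pk n l ε (q.1 - q.2)) ((volume : Measure (X d)).prod μ) := by
  have hm : Measurable fun q : X d × X d => Pk n l ε (q.1 - q.2) :=
    (CGJX_Pk_meas n l ε).comp (by fun_prop)
  rw [integrable_prod_iff' hm.aestronglyMeasurable]
  refine ⟨Eventually.of_forall fun y => (Pk_int hd hε).comp_sub_right y, ?_⟩
  have h1 : ∀ y : X d, ∫ x : X d, ‖Pk n l ε (x - y)‖ = ∫ x : X d, ‖Pk n l ε x‖ := fun y =>
    integral_sub_right_eq_self (fun x : X d => ‖Pk n l ε x‖) y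
  simp only [h1]
  exact integrable_const _

theorem wk_int {n l : ℕ} (hd : d = n + 2 * l + 3) {ε : ℝ} (hε : 0 < ε) (μ : Measure (X d))
    [IsFiniteMeasure μ] : Integrable (wk n l ε μ) :=
  (CGJX_Pk_prod hd hε μ).integral_prod_left

theorem wk_nonneg (n l : ℕ) {ε : ℝ} (hε : 0 < ε) (μ : Measure (X d)) (x : X d) :
    0 ≤ wk n l ε μ x :=
  integral_nonneg fun y => CGJX_Pk_nonneg n l hε (x - y)

private theorem CGJX_wk_meas (n l : ℕ) (ε : ℝ) (μ : Measure (X d)) [IsFiniteMeasure μ] :
    Measurable (wk n l ε μ) := by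
  have hm : Measurable fun q : X d × X d => Pk n l ε (q.1 - q.2) :=
    (CGJX_Pk_meas n l ε).comp (by fun_prop)
  exact (hm.stronglyMeasurable.integral_prod_right' (ν := μ)).measurable

/-- the sine part vanishes -/
private theorem CGJX_sin (n l : ℕ) (ε : ℝ) (a : X d) :
    ∫ u : X d, Pk n l ε u * Real.sin ⟪u, a⟫ = 0 := by
  have h1 := integral_neg_eq_self (fun u : X d => Pk n l ε u * Real.sin ⟪u, a⟫) volume
  have h2 : (fun u : X d => Pk n l ε (-u) * Real.sin ⟪-u, a⟫) =
      fun u : X d => -(Pk n l ε u * Real.sin ⟪u, a⟫) := by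
    funext u
    rw [CGJX_Pk_neg, inner_neg_left, Real.sin_neg]
    ring
  rw [h2, integral_neg] at h1
  linarith

private theorem CGJX_cos_int (μ : Measure (X d)) [IsFiniteMeasure μ] (x a : X d) :
    Integrable (fun y => Real.cos ⟪x - y, a⟫) μ := by
  refine (integrable_const (1 : ℝ)).mono' ?_ (Eventually.of_forall fun y => ?_)
  · exact (by fun_prop : Continuous fun y : X d => Real.cos ⟪x - y, a⟫).aestronglyMeasurable
  · exact Real.abs_cos_le_one _

private theorem CGJX_sin_int (μ : Measure (X d)) [IsFiniteMeasure μ] (x a : X d) :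
    Integrable (fun y => Real.sin ⟪x - y, a⟫) μ := by
  refine (integrable_const (1 : ℝ)).mono' ?_ (Eventually.of_forall fun y => ?_)
  · exact (by fun_prop : Continuous fun y : X d => Real.sin ⟪x - y, a⟫).aestronglyMeasurable
  · exact Real.abs_sin_le_one _

private theorem CGJX_oc_add (μ : Measure (X d)) [IsFiniteMeasure μ] (u z a : X d) :
    oc μ (u + z) a = Real.cos ⟪u, a⟫ * oc μ z a - Real.sin ⟪u, a⟫ * os μ z a := by
  unfold oc os
  rw [← integral_const_mul, ← integral_const_mul, ← integral_sub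
    ((CGJX_cos_int μ z a).const_mul _) ((CGJX_sin_int μ z a).const_mul _)]
  refine integral_congr_ae (Eventually.of_forall fun y => ?_)
  show Real.cos ⟪u + z - y, a⟫ = _
  rw [add_sub_assoc, inner_add_left, Real.cos_add]

private theorem CGJX_os_add (μ : Measure (X d)) [IsFiniteMeasure μ] (u z a : X d) :
    os μ (u + z) a = Real.sin ⟪u, a⟫ * oc μ z a + Real.cos ⟪u, a⟫ * os μ z a := by
  unfold oc os
  rw [← integral_const_mul, ← integral_const_mul, ← integral_add
    ((CGJX_cos_int μ z a).const_mul _) ((CGJX_sin_int μ z a).const_mul _)]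
  refine integral_congr_ae (Eventually.of_forall fun y => ?_)
  show Real.sin ⟪u + z - y, a⟫ = _
  rw [add_sub_assoc, inner_add_left, Real.sin_add]

private theorem CGJX_re2_add (μ : Measure (X d)) [IsFiniteMeasure μ] (u z a b : X d) :
    re2 μ (u + z) a b = Real.cos ⟪u, a - b⟫ * re2 μ z a b -
      Real.sin ⟪u, a - b⟫ * (os μ z a * oc μ z b - oc μ z a * os μ z b) := by
  unfold re2
  rw [CGJX_oc_add, CGJX_oc_add, CGJX_os_add, CGJX_os_add, inner_sub_right, Real.cos_sub,
    Real.sin_sub]
  ring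

/-- the inner integral -/
private theorem CGJX_inner {n l : ℕ} (hd : d = n + 2 * l + 3) {ε : ℝ} (hε : 0 < ε)
    (μ : Measure (X d)) [IsFiniteMeasure μ] (z a b : X d) :
    ∫ x : X d, Pk n l ε (x - z) * re2 μ x a b = c1 d l * et l ε (a - b) * re2 μ z a b := by
  have h1 : ∫ x : X d, Pk n l ε (x - z) * re2 μ x a b =
      ∫ u : X d, Pk n l ε u * re2 μ (u + z) a b := by
    rw [← integral_sub_right_eq_self (fun u : X d => Pk n l ε u * re2 μ (u + z) a b) z]
    refine integral_congr_ae (Eventually.of_forall fun x => ?_)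
    show Pk n l ε (x - z) * re2 μ x a b = Pk n l ε (x - z) * re2 μ (x - z + z) a b
    rw [sub_add_cancel]
  have hP := Pk_int (d := d) hd hε
  have hc : Integrable fun u : X d => Pk n l ε u * Real.cos ⟪u, a - b⟫ := by
    refine hP.mul_bdd (c := 1) ?_ (Eventually.of_forall fun u => ?_)
    · exact (by fun_prop : Continuous fun u : X d => Real.cos ⟪u, a - b⟫).aestronglyMeasurable
    · exact Real.abs_cos_le_one _
  have hs : Integrable fun u : X d => Pk n l ε u * Real.sin ⟪u, a - b⟫ := by
    refine hP.mul_bdd (c := 1) ?_ (Eventually.of_forall fun u => ?_)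
    · exact (by fun_prop : Continuous fun u : X d => Real.sin ⟪u, a - b⟫).aestronglyMeasurable
    · exact Real.abs_sin_le_one _
  rw [h1]
  have h2 : ∀ u : X d, Pk n l ε u * re2 μ (u + z) a b =
      re2 μ z a b * (Pk n l ε u * Real.cos ⟪u, a - b⟫) -
        (os μ z a * oc μ z b - oc μ z a * os μ z b) * (Pk n l ε u * Real.sin ⟪u, a - b⟫) := by
    intro u
    rw [CGJX_re2_add]
    ring
  rw [integral_congr_ae (Eventually.of_forall h2), integral_sub (hc.const_mul _) (hs.const_mul _),
    integral_const_mul, integral_const_mul, CGJX_sin, Pk_cos hd hε]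
  ring

private theorem CGJX_re2_meas (μ : Measure (X d)) [IsFiniteMeasure μ] :
    Measurable fun q : X d × (X d × X d) => re2 μ q.1 q.2.1 q.2.2 := by
  have f1 : Measurable fun q : X d × (X d × X d) => ((q.1, q.2.1) : X d × X d) := by fun_prop
  have f2 : Measurable fun q : X d × (X d × X d) => ((q.1, q.2.2) : X d × X d) := by fun_prop
  have h1 := (oc_measurable μ).comp f1
  have h2 := (oc_measurable μ).comp f2
  have h3 := (os_measurable μ).comp f1
  have h4 := (os_measurable μ).comp f2
  have h5 := (h1.mul h2).add (h3.mul h4)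
  exact h5

/-- the key formula -/
private theorem CGJX_key {n l : ℕ} (hd : d = n + 2 * l + 3) {ε : ℝ} (hε : 0 < ε)
    (μ : Measure (X d)) [IsFiniteMeasure μ] (a b : X d) :
    ∫ x : X d, wk n l ε μ x * re2 μ x a b = c1 d l * (et l ε (a - b) * m3 μ a b) := by
  have f1 : Measurable fun x : X d => ((x, (a, b)) : X d × (X d × X d)) := by fun_prop
  have hr := (CGJX_re2_meas μ).comp f1
  have hF : Integrable (Function.uncurry fun x y : X d => Pk n l ε (x - y) * re2 μ x a b)
      ((volume : Measure (X d)).prod μ) := by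
    refine (CGJX_Pk_prod hd hε μ).mul_bdd (c := 2 * μ.real univ ^ 2) ?_
      (Eventually.of_forall fun q => ?_)
    · exact (hr.comp measurable_fst).aestronglyMeasurable
    · exact re2_le μ q.1 a b
  have hsw := integral_integral_swap hF
  have h1 : ∀ x : X d, ∫ y, Pk n l ε (x - y) * re2 μ x a b ∂μ = wk n l ε μ x * re2 μ x a b := by
    intro x
    rw [integral_mul_const]
    rfl
  have h2 : ∀ y : X d, ∫ x : X d, Pk n l ε (x - y) * re2 μ x a b =
      c1 d l * et l ε (a - b) * re2 μ y a b := fun y => CGJX_inner hd hε μ y a b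
  rw [integral_congr_ae (Eventually.of_forall h1), integral_congr_ae (Eventually.of_forall h2),
    integral_const_mul] at hsw
  rw [hsw]
  unfold m3
  ring

/-- almost all pairs of frequencies are generic -/
private theorem CGJX_ae (hd : 1 ≤ d) :
    ∀ᵐ p : X d × X d, p.1 ≠ 0 ∧ p.2 ≠ 0 ∧ p.1 ≠ p.2 := by
  have : Nonempty (Fin d) := ⟨⟨0, hd⟩⟩
  have h0 : ∀ᵐ a : X d, a ≠ 0 := by
    rw [ae_iff]
    have e : {a : X d | ¬ a ≠ 0} = {0} := by
      ext a
      simp
    rw [e]
    exact measure_singleton 0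
  have h1 : ∀ᵐ p : X d × X d, p.1 ≠ 0 :=
    (Measure.quasiMeasurePreserving_fst (μ := (volume : Measure (X d)))
      (ν := (volume : Measure (X d)))).ae h0
  have h2 : ∀ᵐ p : X d × X d, p.2 ≠ 0 :=
    (Measure.quasiMeasurePreserving_snd (μ := (volume : Measure (X d)))
      (ν := (volume : Measure (X d)))).ae h0
  have h3 : ∀ᵐ p : X d × X d, p.1 ≠ p.2 := by
    rw [ae_iff]
    have e : {p : X d × X d | ¬ p.1 ≠ p.2} = {p : X d × X d | p.1 = p.2} := by
      ext p
      simp
    rw [e]
    have hms : MeasurableSet {p : X d × X d | p.1 = p.2} :=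
      measurableSet_eq_fun measurable_fst measurable_snd
    refine (Measure.measure_prod_null hms).2 (Eventually.of_forall fun x => ?_)
    have e2 : Prod.mk x ⁻¹' {p : X d × X d | p.1 = p.2} = {x} := by
      ext y
      simp [eq_comm]
    show volume (Prod.mk x ⁻¹' {p : X d × X d | p.1 = p.2}) = 0
    rw [e2]
    exact measure_singleton x
  filter_upwards [h1, h2, h3] with p k1 k2 k3
  exact ⟨k1, k2, k3⟩

theorem JK_eq {n l : ℕ} (hn : 1 ≤ n) (hd : d = n + 2 * l + 3) {ε : ℝ} (hε : 0 < ε)
    (μ : Measure (X d)) [IsFiniteMeasure μ] {V : X d → X d → ℝ}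
    (hm : Measurable fun p : X d × X d => V p.1 p.2)
    {C : ℝ} (hV : ∀ a b, a ≠ 0 → b ≠ 0 → a ≠ b → |V a b| ≤ C * SK l a b) :
    Integrable (fun x => wk n l ε μ x * PV l ε μ V x) ∧
      ∫ x, wk n l ε μ x * PV l ε μ V x = c1 d l * JK l ε μ V := by
  set M : ℝ := 2 * μ.real univ ^ 2 with hM
  have hM0 : 0 ≤ M := by positivity
  have hetm : Measurable (et l ε : X d → ℝ) := et_measurable l ε
  -- the integrand
  have hmaj : Integrable (fun q : X d × (X d × X d) =>
      wk n l ε μ q.1 * (C * M * (SK l q.2.1 q.2.2 * (et l ε q.2.1 * et l ε q.2.2))))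
      ((volume : Measure (X d)).prod (volume : Measure (X d × X d))) :=
    (wk_int hd hε μ).mul_prod ((SK_int l hε (by omega)).const_mul (C * M))
  have hF : Integrable (Function.uncurry fun (x : X d) (p : X d × X d) =>
      wk n l ε μ x * (V p.1 p.2 * (et l ε p.1 * et l ε p.2 * re2 μ x p.1 p.2)))
      ((volume : Measure (X d)).prod (volume : Measure (X d × X d))) := by
    refine hmaj.mono' ?_ ?_
    · refine Measurable.aestronglyMeasurable ?_
      have k1 : Measurable fun q : X d × (X d × X d) => wk n l ε μ q.1 :=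
        (CGJX_wk_meas n l ε μ).comp measurable_fst
      have k2 : Measurable fun q : X d × (X d × X d) => V q.2.1 q.2.2 := hm.comp measurable_snd
      have k3 : Measurable fun q : X d × (X d × X d) => et l ε q.2.1 :=
        hetm.comp (by fun_prop)
      have k4 : Measurable fun q : X d × (X d × X d) => et l ε q.2.2 :=
        hetm.comp (by fun_prop)
      exact k1.mul (k2.mul ((k3.mul k4).mul (CGJX_re2_meas μ)))
    · have hae : ∀ᵐ q : X d × (X d × X d) ∂((volume : Measure (X d)).prod
          (volume : Measure (X d × X d))), q.2.1 ≠ 0 ∧ q.2.2 ≠ 0 ∧ q.2.1 ≠ q.2.2 :=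
        (Measure.quasiMeasurePreserving_snd (μ := (volume : Measure (X d)))
          (ν := (volume : Measure (X d × X d)))).ae (CGJX_ae (by omega))
      filter_upwards [hae] with q hq
      obtain ⟨x, a, b⟩ := q
      have k1 := hV a b hq.1 hq.2.1 hq.2.2
      have k2 := re2_le μ x a b
      have k3 := et_nonneg l ε a
      have k4 := et_nonneg l ε b
      have k5 := wk_nonneg n l hε μ x
      have k6 : 0 ≤ C * SK l a b := (abs_nonneg _).trans k1
      show |wk n l ε μ x * (V a b * (et l ε a * et l ε b * re2 μ x a b))| ≤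
        wk n l ε μ x * (C * M * (SK l a b * (et l ε a * et l ε b)))
      rw [abs_mul, abs_mul, abs_mul, abs_of_nonneg k5, abs_of_nonneg (mul_nonneg k3 k4)]
      refine mul_le_mul_of_nonneg_left ?_ k5
      calc |V a b| * (et l ε a * et l ε b * |re2 μ x a b|)
          ≤ (C * SK l a b) * (et l ε a * et l ε b * M) := by gcongr
        _ = _ := by ring
  have h1 : ∀ x : X d, ∫ p : X d × X d,
      wk n l ε μ x * (V p.1 p.2 * (et l ε p.1 * et l ε p.2 * re2 μ x p.1 p.2)) =
        wk n l ε μ x * PV l ε μ V x := by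
    intro x
    rw [integral_const_mul]
    rfl
  constructor
  · have h2 := hF.integral_prod_left
    exact h2.congr (Eventually.of_forall h1)
  · have hsw := integral_integral_swap hF
    rw [integral_congr_ae (Eventually.of_forall h1)] at hsw
    rw [hsw]
    unfold JK
    rw [← integral_const_mul]
    refine integral_congr_ae (Eventually.of_forall fun p => ?_)
    show ∫ x : X d, wk n l ε μ x * (V p.1 p.2 * (et l ε p.1 * et l ε p.2 * re2 μ x p.1 p.2)) =
      c1 d l * (V p.1 p.2 * (et l ε p.1 * et l ε p.2 * et l ε (p.1 - p.2) * m3 μ p.1 p.2))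
    have h3 : ∀ x : X d,
        wk n l ε μ x * (V p.1 p.2 * (et l ε p.1 * et l ε p.2 * re2 μ x p.1 p.2)) =
          (V p.1 p.2 * (et l ε p.1 * et l ε p.2)) * (wk n l ε μ x * re2 μ x p.1 p.2) := by
      intro x
      ring
    rw [integral_congr_ae (Eventually.of_forall h3), integral_const_mul, CGJX_key hd hε]
    ring

end Pool.Agent.H1.CG
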