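import Pool.Agent.H1.CG.PZa
import Pool.Agent.H1.CG.Gau
import Pool.Agent.H1.CG.EtI

/-!
Row PZ (Lg_gauss; Lg_fourier is row PZa).  Put Ψ(a) = ‖a‖⁻¹^(2l+2) et(a), α = ⟪u,a⟫.  By Tk_cos, Tk_sin and Fubini (y ∈ μ):
c2 Lg μ (x+u) u = ∫ Ψ(a) [(cos α - α sin α) oc(a) - (sin α + α cos α) os(a)] da.
Square, multiply by ga b u, integrate in u (Fubini, everything dominated by ga b u (1+|u|)² (1+|a|)(1+|c|) Ψ Ψ M²); the mixed terms
vanish (odd in u).  With A(a,c) = ∫ ga b u (cos α - α sin α)(cos γ - γ sin γ), B(a,c) = ∫ ga b u (sin α + α cos α)(sin γ + γ cos γ):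
A(a,c) + B(a,c) = M(a,c), A(a,c) - B(a,c) = M(a,-c), M = left side of g_pair; replace c by -c (Ψ, oc even, os odd):
∬ΨΨ oc oc A = ∬ΨΨ oc oc M, ∬ΨΨ os os B = ∬ΨΨ os os M.
-/

set_option autoImplicit false

open MeasureTheory Filter Topology Metric Set
open scoped RealInnerProductSpace ENNReal

namespace Pool.Agent.H1.CG

open Pool.Agent.RZ Pool.Agent.H1.LD Pool.Agent.H48.R7

variable {d : ℕ}

private noncomputable def CGPZ_Psi (l : ℕ) (ε : ℝ) (a : X d) : ℝ := ‖a‖⁻¹ ^ (2 * l + 2) * et l ε a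

private noncomputable def CGPZ_P (u a : X d) : ℝ := Real.cos ⟪u, a⟫ - ⟪u, a⟫ * Real.sin ⟪u, a⟫

private noncomputable def CGPZ_Q (u a : X d) : ℝ := Real.sin ⟪u, a⟫ + ⟪u, a⟫ * Real.cos ⟪u, a⟫

private noncomputable def CGPZ_N (u a c : X d) : ℝ :=
  (1 + ⟪u, a⟫ * ⟪u, c⟫) * Real.cos ⟪u, a - c⟫ - ⟪u, a - c⟫ * Real.sin ⟪u, a - c⟫

private noncomputable def CGPZ_K (l : ℕ) (ε : ℝ) (μ : Measure (X d)) (x u a : X d) : ℝ :=
  CGPZ_Psi l ε a * (CGPZ_P u a * oc μ x a - CGPZ_Q u a * os μ x a)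

private noncomputable def CGPZ_I (l : ℕ) (ε b : ℝ) (μ : Measure (X d)) (x : X d)
    (q : X d × (X d × X d)) : ℝ :=
  ga b q.1 * (CGPZ_K l ε μ x q.1 q.2.1 * CGPZ_K l ε μ x q.1 q.2.2)

private noncomputable def CGPZ_J (l : ℕ) (ε b : ℝ) (μ : Measure (X d)) (x : X d)
    (q : X d × (X d × X d)) : ℝ :=
  ga b q.1 * (CGPZ_Psi l ε q.2.1 * CGPZ_Psi l ε q.2.2 * CGPZ_N q.1 q.2.1 q.2.2 *
    re2 μ x q.2.1 q.2.2)

private theorem CGPZ_Psi_nonneg (l : ℕ) (ε : ℝ) (a : X d) : 0 ≤ CGPZ_Psi l ε a := by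
  unfold CGPZ_Psi
  exact mul_nonneg (by positivity) (et_nonneg l ε a)

private theorem CGPZ_Psi_meas (l : ℕ) (ε : ℝ) : Measurable (CGPZ_Psi l ε : X d → ℝ) := by
  unfold CGPZ_Psi
  exact ((measurable_norm.inv).pow_const _).mul (et_measurable l ε)

private theorem CGPZ_Psi_neg (l : ℕ) (ε : ℝ) (a : X d) : CGPZ_Psi l ε (-a) = CGPZ_Psi l ε a := by
  unfold CGPZ_Psi
  rw [norm_neg, et_neg]

private theorem CGPZ_oc_neg (μ : Measure (X d)) (x a : X d) : oc μ x (-a) = oc μ x a := by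
  unfold oc
  simp only [inner_neg_right, Real.cos_neg]

private theorem CGPZ_os_neg (μ : Measure (X d)) (x a : X d) : os μ x (-a) = -os μ x a := by
  unfold os
  simp only [inner_neg_right, Real.sin_neg, integral_neg]

private theorem CGPZ_inner_le (u a : X d) : |⟪u, a⟫| ≤ ‖u‖ * ‖a‖ := abs_real_inner_le_norm u a

private theorem CGPZ_P_le (u a : X d) : |CGPZ_P u a| ≤ (1 + ‖u‖) * (1 + ‖a‖) := by
  unfold CGPZ_P
  have h1 := Real.abs_cos_le_one ⟪u, a⟫
  have h2 := Real.abs_sin_le_one ⟪u, a⟫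
  have h3 := CGPZ_inner_le u a
  have h4 : |⟪u, a⟫ * Real.sin ⟪u, a⟫| ≤ ‖u‖ * ‖a‖ := by
    rw [abs_mul]
    calc |⟪u, a⟫| * |Real.sin ⟪u, a⟫| ≤ |⟪u, a⟫| * 1 :=
          mul_le_mul_of_nonneg_left h2 (abs_nonneg _)
      _ = |⟪u, a⟫| := mul_one _
      _ ≤ _ := h3
  calc |Real.cos ⟪u, a⟫ - ⟪u, a⟫ * Real.sin ⟪u, a⟫|
      ≤ |Real.cos ⟪u, a⟫| + |⟪u, a⟫ * Real.sin ⟪u, a⟫| := abs_sub _ _
    _ ≤ 1 + ‖u‖ * ‖a‖ := add_le_add h1 h4
    _ ≤ (1 + ‖u‖) * (1 + ‖a‖) := by nlinarith [norm_nonneg u, norm_nonneg a]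

private theorem CGPZ_Q_le (u a : X d) : |CGPZ_Q u a| ≤ (1 + ‖u‖) * (1 + ‖a‖) := by
  unfold CGPZ_Q
  have h1 := Real.abs_cos_le_one ⟪u, a⟫
  have h2 := Real.abs_sin_le_one ⟪u, a⟫
  have h3 := CGPZ_inner_le u a
  have h4 : |⟪u, a⟫ * Real.cos ⟪u, a⟫| ≤ ‖u‖ * ‖a‖ := by
    rw [abs_mul]
    calc |⟪u, a⟫| * |Real.cos ⟪u, a⟫| ≤ |⟪u, a⟫| * 1 :=
          mul_le_mul_of_nonneg_left h1 (abs_nonneg _)
      _ = |⟪u, a⟫| := mul_one _
      _ ≤ _ := h3
  calc |Real.sin ⟪u, a⟫ + ⟪u, a⟫ * Real.cos ⟪u, a⟫|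
      ≤ |Real.sin ⟪u, a⟫| + |⟪u, a⟫ * Real.cos ⟪u, a⟫| := abs_add_le _ _
    _ ≤ 1 + ‖u‖ * ‖a‖ := add_le_add h2 h4
    _ ≤ (1 + ‖u‖) * (1 + ‖a‖) := by nlinarith [norm_nonneg u, norm_nonneg a]

private theorem CGPZ_N_eq (u a c : X d) :
    CGPZ_N u a c = CGPZ_P u a * CGPZ_P u c + CGPZ_Q u a * CGPZ_Q u c := by
  unfold CGPZ_N CGPZ_P CGPZ_Q
  rw [inner_sub_right, Real.cos_sub, Real.sin_sub]
  ring

private theorem CGPZ_P_neg (u a : X d) : CGPZ_P u (-a) = CGPZ_P u a := by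
  unfold CGPZ_P
  rw [inner_neg_right, Real.cos_neg, Real.sin_neg]
  ring

private theorem CGPZ_Q_neg (u a : X d) : CGPZ_Q u (-a) = -CGPZ_Q u a := by
  unfold CGPZ_Q
  rw [inner_neg_right, Real.cos_neg, Real.sin_neg]
  ring

private theorem CGPZ_P_neg' (u a : X d) : CGPZ_P (-u) a = CGPZ_P u a := by
  unfold CGPZ_P
  rw [inner_neg_left, Real.cos_neg, Real.sin_neg]
  ring

private theorem CGPZ_Q_neg' (u a : X d) : CGPZ_Q (-u) a = -CGPZ_Q u a := by
  unfold CGPZ_Q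
  rw [inner_neg_left, Real.cos_neg, Real.sin_neg]
  ring

private theorem CGPZ_ga_neg (b : ℝ) (u : X d) : ga b (-u) = ga b u := by
  unfold ga
  rw [norm_neg]

private theorem CGPZ_ga_nonneg (b : ℝ) (u : X d) : 0 ≤ ga b u := by
  unfold ga
  exact (Real.exp_pos _).le

/-- the pointwise identity -/
private theorem CGPZ_pt (l : ℕ) (ε b : ℝ) (μ : Measure (X d)) (x u a c : X d) :
    CGPZ_I l ε b μ x (u, (a, c)) + CGPZ_I l ε b μ x (-u, (a, c)) =
      CGPZ_J l ε b μ x (u, (a, c)) + CGPZ_J l ε b μ x (u, (a, -c)) := by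
  unfold CGPZ_I CGPZ_J CGPZ_K re2
  simp only [CGPZ_N_eq, CGPZ_P_neg, CGPZ_Q_neg, CGPZ_P_neg', CGPZ_Q_neg', CGPZ_Psi_neg,
    CGPZ_ga_neg, CGPZ_oc_neg, CGPZ_os_neg]
  ring

private theorem CGPZ_K_le (l : ℕ) (ε : ℝ) (μ : Measure (X d)) [IsFiniteMeasure μ] (x u a : X d) :
    |CGPZ_K l ε μ x u a| ≤
      2 * μ.real univ * ((1 + ‖u‖) * (CGPZ_Psi l ε a * (1 + ‖a‖))) := by
  unfold CGPZ_K
  rw [abs_mul, abs_of_nonneg (CGPZ_Psi_nonneg l ε a)]
  have hM : (0 : ℝ) ≤ μ.real univ := measureReal_nonneg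
  have h1 : |CGPZ_P u a * oc μ x a| ≤ (1 + ‖u‖) * (1 + ‖a‖) * μ.real univ := by
    rw [abs_mul]
    exact mul_le_mul (CGPZ_P_le u a) (oc_le μ x a) (abs_nonneg _) (by positivity)
  have h2 : |CGPZ_Q u a * os μ x a| ≤ (1 + ‖u‖) * (1 + ‖a‖) * μ.real univ := by
    rw [abs_mul]
    exact mul_le_mul (CGPZ_Q_le u a) (os_le μ x a) (abs_nonneg _) (by positivity)
  have h3 : |CGPZ_P u a * oc μ x a - CGPZ_Q u a * os μ x a| ≤
      2 * ((1 + ‖u‖) * (1 + ‖a‖) * μ.real univ) :=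
    (abs_sub _ _).trans (by linarith)
  calc CGPZ_Psi l ε a * |CGPZ_P u a * oc μ x a - CGPZ_Q u a * os μ x a|
      ≤ CGPZ_Psi l ε a * (2 * ((1 + ‖u‖) * (1 + ‖a‖) * μ.real univ)) :=
        mul_le_mul_of_nonneg_left h3 (CGPZ_Psi_nonneg l ε a)
    _ = _ := by ring

/-- the dominating function -/
private noncomputable def CGPZ_H (l : ℕ) (ε b : ℝ) (q : X d × (X d × X d)) : ℝ :=
  (ga b q.1 * (1 + ‖q.1‖) ^ 2) *
    ((CGPZ_Psi l ε q.2.1 * (1 + ‖q.2.1‖)) * (CGPZ_Psi l ε q.2.2 * (1 + ‖q.2.2‖)))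

private theorem CGPZ_H_int {l : ℕ} (hd : 2 * l + 2 < d) {ε : ℝ} (hε : 0 < ε) {b : ℝ}
    (hb : 0 < b) :
    Integrable (CGPZ_H l ε b : X d × (X d × X d) → ℝ)
      ((volume : Measure (X d)).prod ((volume : Measure (X d)).prod volume)) := by
  have h1 : Integrable (fun a : X d => CGPZ_Psi l ε a * (1 + ‖a‖)) := by
    have h := et_int (d := d) l hε hd 1
    refine h.congr (ae_of_all _ fun a => ?_)
    simp only [CGPZ_Psi, pow_one]
  have h2 : Integrable (fun u : X d => ga b u * (1 + ‖u‖) ^ 2) := g_int hb 2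
  exact h2.mul_prod (h1.mul_prod h1)

private theorem CGPZ_inner_meas (f : X d × (X d × X d) → X d) (hf : Measurable f) :
    Measurable fun q : X d × (X d × X d) => ⟪q.1, f q⟫ :=
  measurable_fst.inner hf

private theorem CGPZ_P_meas (f : X d × (X d × X d) → X d) (hf : Measurable f) :
    Measurable fun q : X d × (X d × X d) => CGPZ_P q.1 (f q) := by
  unfold CGPZ_P
  have h := CGPZ_inner_meas f hf
  exact (Real.measurable_cos.comp h).sub (h.mul (Real.measurable_sin.comp h))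

private theorem CGPZ_Q_meas (f : X d × (X d × X d) → X d) (hf : Measurable f) :
    Measurable fun q : X d × (X d × X d) => CGPZ_Q q.1 (f q) := by
  unfold CGPZ_Q
  have h := CGPZ_inner_meas f hf
  exact (Real.measurable_sin.comp h).add (h.mul (Real.measurable_cos.comp h))

private theorem CGPZ_ga_meas (b : ℝ) : Measurable (ga b : X d → ℝ) := by
  unfold ga
  exact Real.measurable_exp.comp ((measurable_norm.pow_const 2).const_mul b).neg

private theorem CGPZ_oc_meas (μ : Measure (X d)) [IsFiniteMeasure μ] (x : X d)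
    (f : X d × (X d × X d) → X d) (hf : Measurable f) :
    Measurable fun q : X d × (X d × X d) => oc μ x (f q) := by
  have h1 : Measurable (fun q : X d × (X d × X d) => ((x, f q) : X d × X d)) :=
    Measurable.prodMk measurable_const hf
  have h2 : Measurable ((fun p : X d × X d => oc μ p.1 p.2) ∘
      (fun q : X d × (X d × X d) => ((x, f q) : X d × X d))) :=
    Measurable.comp (oc_measurable μ) h1
  exact h2

private theorem CGPZ_os_meas (μ : Measure (X d)) [IsFiniteMeasure μ] (x : X d)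
    (f : X d × (X d × X d) → X d) (hf : Measurable f) :
    Measurable fun q : X d × (X d × X d) => os μ x (f q) := by
  have h1 : Measurable (fun q : X d × (X d × X d) => ((x, f q) : X d × X d)) :=
    Measurable.prodMk measurable_const hf
  have h2 : Measurable ((fun p : X d × X d => os μ p.1 p.2) ∘
      (fun q : X d × (X d × X d) => ((x, f q) : X d × X d))) :=
    Measurable.comp (os_measurable μ) h1
  exact h2

private theorem CGPZ_K_meas (l : ℕ) (ε : ℝ) (μ : Measure (X d)) [IsFiniteMeasure μ] (x : X d)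
    (f : X d × (X d × X d) → X d) (hf : Measurable f) :
    Measurable fun q : X d × (X d × X d) => CGPZ_K l ε μ x q.1 (f q) := by
  unfold CGPZ_K
  exact ((CGPZ_Psi_meas l ε).comp hf).mul
    (((CGPZ_P_meas f hf).mul (CGPZ_oc_meas μ x f hf)).sub
      ((CGPZ_Q_meas f hf).mul (CGPZ_os_meas μ x f hf)))

private theorem CGPZ_I_int {l : ℕ} (hd : 2 * l + 2 < d) {ε : ℝ} (hε : 0 < ε) {b : ℝ}
    (hb : 0 < b) (μ : Measure (X d)) [IsFiniteMeasure μ] (x : X d) :
    Integrable (CGPZ_I l ε b μ x)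
      ((volume : Measure (X d)).prod ((volume : Measure (X d)).prod volume)) := by
  have hm : Measurable (CGPZ_I l ε b μ x) := by
    unfold CGPZ_I
    exact ((CGPZ_ga_meas b).comp measurable_fst).mul
      ((CGPZ_K_meas l ε μ x _ (measurable_fst.comp measurable_snd)).mul
        (CGPZ_K_meas l ε μ x _ (measurable_snd.comp measurable_snd)))
  refine ((CGPZ_H_int hd hε hb).const_mul ((2 * μ.real univ) ^ 2)).mono' hm.aestronglyMeasurable
    (ae_of_all _ fun q => ?_)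
  obtain ⟨u, a, c⟩ := q
  have h1 := CGPZ_K_le l ε μ x u a
  have h2 := CGPZ_K_le l ε μ x u c
  simp only [CGPZ_I, CGPZ_H, Real.norm_eq_abs, abs_mul, abs_of_nonneg (CGPZ_ga_nonneg b u)]
  have h3 := mul_le_mul h1 h2 (abs_nonneg _) ((abs_nonneg _).trans h1)
  calc ga b u * (|CGPZ_K l ε μ x u a| * |CGPZ_K l ε μ x u c|)
      ≤ ga b u * ((2 * μ.real univ * ((1 + ‖u‖) * (CGPZ_Psi l ε a * (1 + ‖a‖)))) *
        (2 * μ.real univ * ((1 + ‖u‖) * (CGPZ_Psi l ε c * (1 + ‖c‖))))) :=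
        mul_le_mul_of_nonneg_left h3 (CGPZ_ga_nonneg b u)
    _ = _ := by ring

private theorem CGPZ_J_int {l : ℕ} (hd : 2 * l + 2 < d) {ε : ℝ} (hε : 0 < ε) {b : ℝ}
    (hb : 0 < b) (μ : Measure (X d)) [IsFiniteMeasure μ] (x : X d) :
    Integrable (CGPZ_J l ε b μ x)
      ((volume : Measure (X d)).prod ((volume : Measure (X d)).prod volume)) := by
  have ha : Measurable (fun q : X d × (X d × X d) => q.2.1) := measurable_fst.comp measurable_snd
  have hc : Measurable (fun q : X d × (X d × X d) => q.2.2) := measurable_snd.comp measurable_snd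
  have hm : Measurable (CGPZ_J l ε b μ x) := by
    unfold CGPZ_J re2
    simp only [CGPZ_N_eq]
    exact ((CGPZ_ga_meas b).comp measurable_fst).mul
      (((((CGPZ_Psi_meas l ε).comp ha).mul ((CGPZ_Psi_meas l ε).comp hc)).mul
        (((CGPZ_P_meas _ ha).mul (CGPZ_P_meas _ hc)).add
          ((CGPZ_Q_meas _ ha).mul (CGPZ_Q_meas _ hc)))).mul
        (((CGPZ_oc_meas μ x _ ha).mul (CGPZ_oc_meas μ x _ hc)).add
          ((CGPZ_os_meas μ x _ ha).mul (CGPZ_os_meas μ x _ hc))))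
  refine ((CGPZ_H_int hd hε hb).const_mul (2 * (2 * μ.real univ ^ 2))).mono'
    hm.aestronglyMeasurable (ae_of_all _ fun q => ?_)
  obtain ⟨u, a, c⟩ := q
  have hN : |CGPZ_N u a c| ≤ 2 * (((1 + ‖u‖) * (1 + ‖a‖)) * ((1 + ‖u‖) * (1 + ‖c‖))) := by
    rw [CGPZ_N_eq]
    have h1 := mul_le_mul (CGPZ_P_le u a) (CGPZ_P_le u c) (abs_nonneg _) (by positivity)
    have h2 := mul_le_mul (CGPZ_Q_le u a) (CGPZ_Q_le u c) (abs_nonneg _) (by positivity)
    rw [← abs_mul] at h1 h2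
    exact (abs_add_le _ _).trans (by linarith)
  have hR := re2_le μ x a c
  simp only [CGPZ_J, CGPZ_H, Real.norm_eq_abs, abs_mul, abs_of_nonneg (CGPZ_ga_nonneg b u),
    abs_of_nonneg (CGPZ_Psi_nonneg l ε a), abs_of_nonneg (CGPZ_Psi_nonneg l ε c)]
  have h3 := mul_le_mul hN hR (abs_nonneg _) ((abs_nonneg _).trans hN)
  have h4 : (0 : ℝ) ≤ ga b u * (CGPZ_Psi l ε a * CGPZ_Psi l ε c) :=
    mul_nonneg (CGPZ_ga_nonneg b u)
      (mul_nonneg (CGPZ_Psi_nonneg l ε a) (CGPZ_Psi_nonneg l ε c))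
  have h5 := mul_le_mul_of_nonneg_left h3 h4
  calc ga b u * (CGPZ_Psi l ε a * CGPZ_Psi l ε c * |CGPZ_N u a c| * |re2 μ x a c|)
      = ga b u * (CGPZ_Psi l ε a * CGPZ_Psi l ε c) * (|CGPZ_N u a c| * |re2 μ x a c|) := by ring
    _ ≤ _ := h5
    _ = _ := by ring

/-- both integrals agree -/
private theorem CGPZ_main {l : ℕ} (hd : 2 * l + 2 < d) {ε : ℝ} (hε : 0 < ε) {b : ℝ}
    (hb : 0 < b) (μ : Measure (X d)) [IsFiniteMeasure μ] (x : X d) :
    ∫ q, CGPZ_I l ε b μ x q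
      ∂((volume : Measure (X d)).prod ((volume : Measure (X d)).prod volume)) =
    ∫ q, CGPZ_J l ε b μ x q
      ∂((volume : Measure (X d)).prod ((volume : Measure (X d)).prod volume)) := by
  have hI := CGPZ_I_int hd hε hb μ x
  have hJ := CGPZ_J_int hd hε hb μ x
  have hneg : MeasurePreserving (fun u : X d => -u) volume volume :=
    Measure.measurePreserving_neg volume
  have hid : MeasurePreserving (fun u : X d => u) volume volume := MeasurePreserving.id volume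
  have hid2 : MeasurePreserving (fun p : X d × X d => p)
      ((volume : Measure (X d)).prod volume) ((volume : Measure (X d)).prod volume) :=
    MeasurePreserving.id _
  have hs1 : MeasurePreserving (fun q : X d × (X d × X d) => (-q.1, q.2))
      ((volume : Measure (X d)).prod ((volume : Measure (X d)).prod volume))
      ((volume : Measure (X d)).prod ((volume : Measure (X d)).prod volume)) :=
    hneg.prod hid2
  have hs2 : MeasurePreserving (fun q : X d × (X d × X d) => (q.1, (q.2.1, -q.2.2)))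
      ((volume : Measure (X d)).prod ((volume : Measure (X d)).prod volume))
      ((volume : Measure (X d)).prod ((volume : Measure (X d)).prod volume)) :=
    hid.prod (hid.prod hneg)
  have he1 : MeasurableEmbedding (fun q : X d × (X d × X d) => (-q.1, q.2)) :=
    ((MeasurableEquiv.neg (X d)).prodCongr (MeasurableEquiv.refl _)).measurableEmbedding
  have he2 : MeasurableEmbedding (fun q : X d × (X d × X d) => (q.1, (q.2.1, -q.2.2))) :=
    ((MeasurableEquiv.refl (X d)).prodCongr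
      ((MeasurableEquiv.refl (X d)).prodCongr (MeasurableEquiv.neg (X d)))).measurableEmbedding
  have e1 := hs1.integral_comp he1 (CGPZ_I l ε b μ x)
  have e2 := hs2.integral_comp he2 (CGPZ_J l ε b μ x)
  have hI' : Integrable (fun q : X d × (X d × X d) => CGPZ_I l ε b μ x (-q.1, q.2))
      ((volume : Measure (X d)).prod ((volume : Measure (X d)).prod volume)) :=
    (hs1.integrable_comp_emb he1).2 hI
  have hJ' : Integrable (fun q : X d × (X d × X d) => CGPZ_J l ε b μ x (q.1, (q.2.1, -q.2.2)))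
      ((volume : Measure (X d)).prod ((volume : Measure (X d)).prod volume)) :=
    (hs2.integrable_comp_emb he2).2 hJ
  have e3 : ∫ q : X d × (X d × X d),
        (CGPZ_I l ε b μ x q + CGPZ_I l ε b μ x (-q.1, q.2))
        ∂((volume : Measure (X d)).prod ((volume : Measure (X d)).prod volume)) =
      ∫ q : X d × (X d × X d),
        (CGPZ_J l ε b μ x q + CGPZ_J l ε b μ x (q.1, (q.2.1, -q.2.2)))
        ∂((volume : Measure (X d)).prod ((volume : Measure (X d)).prod volume)) :=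
    integral_congr_ae (ae_of_all _ fun q => CGPZ_pt l ε b μ x q.1 q.2.1 q.2.2)
  rw [integral_add hI hI', integral_add hJ hJ', e1, e2] at e3
  linarith

theorem Lg_gauss {n l : ℕ} (hn : 1 ≤ n) (hd : d = n + 2 * l + 3) {ε : ℝ} (hε : 0 < ε)
    (μ : Measure (X d)) [IsFiniteMeasure μ] (x : X d) {b : ℝ} (hb : 0 < b) :
    Integrable (fun u : X d => ga b u * (c2 d n l * Lg n l ε μ (x + u) u) ^ 2) ∧
    ∫ u : X d, ga b u * (c2 d n l * Lg n l ε μ (x + u) u) ^ 2 =
      (Real.pi / b) ^ ((d : ℝ) / 2) * ∫ p : X d × X d,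
        ‖p.1‖⁻¹ ^ (2 * l + 2) * ‖p.2‖⁻¹ ^ (2 * l + 2) * mta 1 p.1 p.2 (2 * Real.sqrt b) *
          (et l ε p.1 * et l ε p.2 * re2 μ x p.1 p.2) := by
  have hd' : 2 * l + 2 < d := by omega
  have hI := CGPZ_I_int hd' hε hb μ x
  have hJ := CGPZ_J_int hd' hε hb μ x
  have hsq : ∀ u : X d, ga b u * (c2 d n l * Lg n l ε μ (x + u) u) ^ 2 =
      ∫ p : X d × X d, CGPZ_I l ε b μ x (u, p) := by
    intro u
    have h1 : c2 d n l * Lg n l ε μ (x + u) u = ∫ a : X d, CGPZ_K l ε μ x u a :=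
      Lg_fourier hn hd hε μ x u
    rw [h1, sq]
    have h2 : ∫ p : X d × X d, CGPZ_K l ε μ x u p.1 * CGPZ_K l ε μ x u p.2 =
        (∫ a : X d, CGPZ_K l ε μ x u a) * ∫ a : X d, CGPZ_K l ε μ x u a := by
      rw [Measure.volume_eq_prod]
      exact integral_prod_mul _ _
    rw [← h2, ← integral_const_mul]
    rfl
  constructor
  · have h := hI.integral_prod_left
    refine h.congr (ae_of_all _ fun u => ?_)
    exact (hsq u).symm
  · calc ∫ u : X d, ga b u * (c2 d n l * Lg n l ε μ (x + u) u) ^ 2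
        = ∫ u : X d, ∫ p : X d × X d, CGPZ_I l ε b μ x (u, p) := by
          simp_rw [hsq]
      _ = ∫ q, CGPZ_I l ε b μ x q
          ∂((volume : Measure (X d)).prod ((volume : Measure (X d)).prod volume)) :=
          (integral_prod _ hI).symm
      _ = ∫ q, CGPZ_J l ε b μ x q
          ∂((volume : Measure (X d)).prod ((volume : Measure (X d)).prod volume)) :=
          CGPZ_main hd' hε hb μ x
      _ = ∫ p : X d × X d, ∫ u : X d, CGPZ_J l ε b μ x (u, p) :=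
          integral_prod_symm _ hJ
      _ = ∫ p : X d × X d, (Real.pi / b) ^ ((d : ℝ) / 2) *
          (‖p.1‖⁻¹ ^ (2 * l + 2) * ‖p.2‖⁻¹ ^ (2 * l + 2) * mta 1 p.1 p.2 (2 * Real.sqrt b) *
            (et l ε p.1 * et l ε p.2 * re2 μ x p.1 p.2)) := by
          refine integral_congr_ae (ae_of_all _ fun p => ?_)
          have hg := g_pair hb p.1 p.2
          have h1 : (fun u : X d => CGPZ_J l ε b μ x (u, p)) = fun u : X d =>
              (CGPZ_Psi l ε p.1 * CGPZ_Psi l ε p.2 * re2 μ x p.1 p.2) *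
                (ga b u * ((1 + ⟪u, p.1⟫ * ⟪u, p.2⟫) * Real.cos ⟪u, p.1 - p.2⟫ -
                  ⟪u, p.1 - p.2⟫ * Real.sin ⟪u, p.1 - p.2⟫)) := by
            funext u
            simp only [CGPZ_J, CGPZ_N]
            ring
          show ∫ u : X d, CGPZ_J l ε b μ x (u, p) = _
          rw [h1, integral_const_mul, hg]
          simp only [CGPZ_Psi]
          ring
      _ = _ := integral_const_mul _ _

end Pool.Agent.H1.CG
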