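import Pool.Agent.H1.CG.PZ2a
import Pool.Agent.H1.CG.EtI
import Pool.Agent.H1.CG.SymA

/-!
Fubini for the time integral of `ZK`.
-/

set_option autoImplicit false

open MeasureTheory Filter Topology Metric Set
open scoped RealInnerProductSpace ENNReal

namespace Pool.Agent.H1.CG

open Pool.Agent.RZ Pool.Agent.H1.LD Pool.Agent.H48.R7

variable {d : ℕ}

private theorem CGPZ2b_ae (hd : 1 ≤ d) : ∀ᵐ p : X d × X d,
    p.1 ≠ 0 ∧ p.2 ≠ 0 ∧ p.1 ≠ p.2 := by
  have : Nonempty (Fin d) := ⟨⟨0, hd⟩⟩
  have h1 : ∀ᵐ p : X d × X d, p.1 ≠ 0 := by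
    have h : ∀ᵐ a : X d, a ≠ 0 := Measure.ae_ne volume 0
    exact Measure.quasiMeasurePreserving_fst.ae h
  have h2 : ∀ᵐ p : X d × X d, p.2 ≠ 0 := by
    have h : ∀ᵐ a : X d, a ≠ 0 := Measure.ae_ne volume 0
    exact Measure.quasiMeasurePreserving_snd.ae h
  have h3 : ∀ᵐ p : X d × X d, p.1 ≠ p.2 := by
    rw [Measure.volume_eq_prod]
    rw [Measure.ae_prod_iff_ae_ae]
    · exact ae_of_all _ fun a => (Measure.ae_ne volume a).mono fun b hb => hb.symm
    · exact (measurableSet_eq_fun measurable_fst measurable_snd).compl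
  filter_upwards [h1, h2, h3] with p a b c using ⟨a, b, c⟩

/-- the weight -/
noncomputable def gw (l : ℕ) (ε : ℝ) (μ : Measure (X d)) (x : X d) (p : X d × X d) : ℝ :=
  et l ε p.1 * et l ε p.2 * re2 μ x p.1 p.2

theorem gw_measurable (l : ℕ) (ε : ℝ) (μ : Measure (X d)) [IsFiniteMeasure μ] (x : X d) :
    Measurable (gw l ε μ x) := by
  have k1 : Measurable (fun p : X d × X d => (x, p.1)) := by fun_prop
  have k2 : Measurable (fun p : X d × X d => (x, p.2)) := by fun_prop
  have h1 : Measurable fun p : X d × X d => et l ε p.1 :=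
    Measurable.comp (g := fun a : X d => et l ε a) (f := fun p : X d × X d => p.1)
      (et_measurable l ε) measurable_fst
  have h2 : Measurable fun p : X d × X d => et l ε p.2 :=
    Measurable.comp (g := fun a : X d => et l ε a) (f := fun p : X d × X d => p.2)
      (et_measurable l ε) measurable_snd
  have h3 : Measurable fun p : X d × X d => oc μ x p.1 :=
    Measurable.comp (g := fun q : X d × X d => oc μ q.1 q.2)
      (f := fun p : X d × X d => (x, p.1)) (oc_measurable μ) k1
  have h4 : Measurable fun p : X d × X d => oc μ x p.2 :=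
    Measurable.comp (g := fun q : X d × X d => oc μ q.1 q.2)
      (f := fun p : X d × X d => (x, p.2)) (oc_measurable μ) k2
  have h5 : Measurable fun p : X d × X d => os μ x p.1 :=
    Measurable.comp (g := fun q : X d × X d => os μ q.1 q.2)
      (f := fun p : X d × X d => (x, p.1)) (os_measurable μ) k1
  have h6 : Measurable fun p : X d × X d => os μ x p.2 :=
    Measurable.comp (g := fun q : X d × X d => os μ q.1 q.2)
      (f := fun p : X d × X d => (x, p.2)) (os_measurable μ) k2
  have e : gw l ε μ x = fun p : X d × X d => et l ε p.1 * et l ε p.2 *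
      (oc μ x p.1 * oc μ x p.2 + os μ x p.1 * os μ x p.2) := by
    funext p
    rw [gw, re2]
  rw [e]
  exact (h1.mul h2).mul ((h3.mul h4).add (h5.mul h6))

theorem zt_fubini {l : ℕ} (hl : 1 ≤ l) (hd : 2 * l + 3 < d) {ε : ℝ} (hε : 0 < ε)
    (μ : Measure (X d)) [IsFiniteMeasure μ] (x : X d) :
    IntegrableOn (fun t : ℝ => ∫ p : X d × X d, zt l p.1 p.2 t * gw l ε μ x p) (Ioi 0) ∧
    ∫ t in Ioi (0 : ℝ), ∫ p : X d × X d, zt l p.1 p.2 t * gw l ε μ x p =
      PV l ε μ (ZK l) x := by
  have hae := CGPZ2b_ae (d := d) (by omega)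
  have hG := gw_measurable l ε μ x
  have hG1 : Measurable fun q : (X d × X d) × ℝ => gw l ε μ x q.1 :=
    Measurable.comp (g := gw l ε μ x) (f := fun q : (X d × X d) × ℝ => q.1) hG measurable_fst
  have hmeas : AEStronglyMeasurable
      (fun q : (X d × X d) × ℝ => zt l q.1.1 q.1.2 q.2 * gw l ε μ x q.1)
      ((volume : Measure (X d × X d)).prod (volume.restrict (Ioi (0 : ℝ)))) :=
    ((zt_measurable l).mul hG1).aestronglyMeasurable
  have hint : Integrable
      (fun q : (X d × X d) × ℝ => zt l q.1.1 q.1.2 q.2 * gw l ε μ x q.1)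
      ((volume : Measure (X d × X d)).prod (volume.restrict (Ioi (0 : ℝ)))) := by
    rw [integrable_prod_iff hmeas]
    refine ⟨?_, ?_⟩
    · filter_upwards [hae] with p hp
      exact (zt_int hl hp.1 hp.2.1 hp.2.2).1.mul_const _
    · refine Integrable.mono' ((SK_int l hε hd).const_mul (7 * (2 * μ.real univ ^ 2)))
        hmeas.norm.integral_prod_right' ?_
      filter_upwards [hae] with p hp
      obtain ⟨-, -, m3⟩ := zt_int hl hp.1 hp.2.1 hp.2.2
      have e : ∀ t : ℝ, ‖zt l p.1 p.2 t * gw l ε μ x p‖ =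
          |zt l p.1 p.2 t| * |gw l ε μ x p| := fun t => by
        rw [Real.norm_eq_abs, abs_mul]
      have e1 := et_nonneg l ε p.1
      have e2 := et_nonneg l ε p.2
      have e3 : |gw l ε μ x p| ≤ et l ε p.1 * et l ε p.2 * (2 * μ.real univ ^ 2) := by
        rw [gw, abs_mul, abs_of_nonneg (mul_nonneg e1 e2)]
        exact mul_le_mul_of_nonneg_left (re2_le μ x p.1 p.2) (mul_nonneg e1 e2)
      have hS : 0 ≤ SK l p.1 p.2 := by
        unfold SK
        positivity
      rw [Real.norm_of_nonneg (integral_nonneg fun t => norm_nonneg _)]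
      simp only [e]
      rw [integral_mul_const]
      calc _ ≤ 7 * SK l p.1 p.2 * (et l ε p.1 * et l ε p.2 * (2 * μ.real univ ^ 2)) :=
            mul_le_mul m3 e3 (abs_nonneg _) (by positivity)
        _ = 7 * (2 * μ.real univ ^ 2) * (SK l p.1 p.2 * (et l ε p.1 * et l ε p.2)) := by ring
  refine ⟨hint.integral_prod_right, ?_⟩
  have hsw := integral_integral_swap (f := fun (p : X d × X d) (t : ℝ) =>
    zt l p.1 p.2 t * gw l ε μ x p) hint
  rw [← hsw]
  have e : PV l ε μ (ZK l) x = ∫ p : X d × X d, ZK l p.1 p.2 * gw l ε μ x p := rfl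
  rw [e]
  refine integral_congr_ae ?_
  filter_upwards [hae] with p hp
  rw [integral_mul_const, (zt_int hl hp.1 hp.2.1 hp.2.2).2.1]

end Pool.Agent.H1.CG
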