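import Pool.Agent.H1.CG.FD
import Pool.Agent.H1.CG.SymA

/-!
Row PZa (Lg_fourier only).  Put Ψ(a) = ‖a‖⁻¹^(2l+2) et(a), α = ⟪u,a⟫.  By Tk_cos, Tk_sin and Fubini (y ∈ μ):
c2 Lg μ (x+u) u = ∫ Ψ(a) [(cos α - α sin α) oc(a) - (sin α + α cos α) os(a)] da.
Square, multiply by ga b u, integrate in u (Fubini, everything dominated by ga b u (1+|u|)² (1+|a|)(1+|c|) Ψ Ψ M²); the mixed terms
vanish (odd in u).  With A(a,c) = ∫ ga b u (cos α - α sin α)(cos γ - γ sin γ), B(a,c) = ∫ ga b u (sin α + α cos α)(sin γ + γ cos γ):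
A(a,c) + B(a,c) = M(a,c), A(a,c) - B(a,c) = M(a,-c), M = left side of g_pair; replace c by -c (Ψ, oc even, os odd):
∬ΨΨ oc oc A = ∬ΨΨ oc oc M, ∬ΨΨ os os B = ∬ΨΨ os os M.
-/

set_option autoImplicit false

open MeasureTheory Filter Topology Metric Set
open scoped RealInnerProductSpace ENNReal

namespace Pool.Agent.H1.CG

open Pool.Agent.RZ Pool.Agent.H1.LD Pool.Agent.H48.R7

variable {d : ℕ}

private theorem CGPZa_int {l : ℕ} {ε : ℝ} (hε : 0 < ε) (hl : 2 * l + 2 < d) {f : X d → ℝ} (hf : Measurable f) {C : ℝ}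
    (hC : ∀ a, |f a| ≤ C * (1 + ‖a‖)) : Integrable fun a : X d => ‖a‖⁻¹ ^ (2 * l + 2) * et l ε a * f a := by
  refine ((et_int (d := d) l hε hl 1).const_mul C).mono' ?_ (Eventually.of_forall fun a => ?_)
  · exact (((measurable_norm.inv.pow_const _).mul (et_measurable l ε)).mul hf).aestronglyMeasurable
  · have h0 : 0 ≤ ‖a‖⁻¹ ^ (2 * l + 2) * et l ε a := mul_nonneg (by positivity) (et_nonneg l ε a)
    rw [Real.norm_eq_abs, abs_mul, abs_of_nonneg h0, pow_one]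
    calc ‖a‖⁻¹ ^ (2 * l + 2) * et l ε a * |f a| ≤ ‖a‖⁻¹ ^ (2 * l + 2) * et l ε a * (C * (1 + ‖a‖)) :=
          mul_le_mul_of_nonneg_left (hC a) h0
      _ = C * (‖a‖⁻¹ ^ (2 * l + 2) * et l ε a * (1 + ‖a‖)) := by ring

private theorem CGPZa_bd (u a z : X d) :
    |Real.cos ⟪z, a⟫ - ⟪u, a⟫ * Real.sin ⟪z, a⟫| ≤ (1 + ‖u‖) * (1 + ‖a‖) := by
  have h1 := Real.abs_cos_le_one ⟪z, a⟫
  have h2 := Real.abs_sin_le_one ⟪z, a⟫
  have h3 := abs_real_inner_le_norm u a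
  have h4 : |⟪u, a⟫ * Real.sin ⟪z, a⟫| ≤ ‖u‖ * ‖a‖ := by
    rw [abs_mul]
    calc |⟪u, a⟫| * |Real.sin ⟪z, a⟫| ≤ (‖u‖ * ‖a‖) * 1 :=
          mul_le_mul h3 h2 (abs_nonneg _) (by positivity)
      _ = ‖u‖ * ‖a‖ := mul_one _
  have h5 := abs_sub (Real.cos ⟪z, a⟫) (⟪u, a⟫ * Real.sin ⟪z, a⟫)
  nlinarith [norm_nonneg u, norm_nonneg a]

theorem Lg_fourier {n l : ℕ} (hn : 1 ≤ n) (hd : d = n + 2 * l + 3) {ε : ℝ} (hε : 0 < ε)
    (μ : Measure (X d)) [IsFiniteMeasure μ] (x u : X d) :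
    c2 d n l * Lg n l ε μ (x + u) u =
      ∫ a : X d, ‖a‖⁻¹ ^ (2 * l + 2) * et l ε a *
        ((Real.cos ⟪u, a⟫ - ⟪u, a⟫ * Real.sin ⟪u, a⟫) * oc μ x a -
          (Real.sin ⟪u, a⟫ + ⟪u, a⟫ * Real.cos ⟪u, a⟫) * os μ x a) := by
  have hl : 2 * l + 2 < d := by omega
  have hmi : ∀ z : X d, Measurable fun a : X d => ⟪z, a⟫ := fun z => measurable_const.inner measurable_id
  -- the kernel at one point
  have hker : ∀ z : X d, c2 d n l * (Tk n l ε z - Tk' n l ε z * ⟪z, u⟫) =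
      ∫ a : X d, ‖a‖⁻¹ ^ (2 * l + 2) * et l ε a * (Real.cos ⟪z, a⟫ - ⟪u, a⟫ * Real.sin ⟪z, a⟫) := by
    intro z
    have i1 : Integrable fun a : X d => ‖a‖⁻¹ ^ (2 * l + 2) * et l ε a * Real.cos ⟪z, a⟫ :=
      CGPZa_int hε hl (Real.measurable_cos.comp (hmi z)) (C := 1) fun a => by
        have := Real.abs_cos_le_one ⟪z, a⟫
        linarith [norm_nonneg a]
    have i2 : Integrable fun a : X d => ‖a‖⁻¹ ^ (2 * l + 2) * et l ε a * (⟪u, a⟫ * Real.sin ⟪z, a⟫) :=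
      CGPZa_int hε hl ((hmi u).mul (Real.measurable_sin.comp (hmi z))) (C := ‖u‖) fun a => by
        rw [abs_mul]
        calc |⟪u, a⟫| * |Real.sin ⟪z, a⟫| ≤ (‖u‖ * ‖a‖) * 1 :=
              mul_le_mul (abs_real_inner_le_norm u a) (Real.abs_sin_le_one _) (abs_nonneg _) (by positivity)
          _ ≤ ‖u‖ * (1 + ‖a‖) := by nlinarith [norm_nonneg u, norm_nonneg a]
    have e1 := Tk_cos hn hd hε z
    have e2 := Tk_sin hn hd hε z u
    have e3 := integral_sub i1 i2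
    rw [e1, e2] at e3
    have e4 : (fun a : X d => ‖a‖⁻¹ ^ (2 * l + 2) * et l ε a * (Real.cos ⟪z, a⟫ - ⟪u, a⟫ * Real.sin ⟪z, a⟫)) =
        fun a : X d => ‖a‖⁻¹ ^ (2 * l + 2) * et l ε a * Real.cos ⟪z, a⟫ -
          ‖a‖⁻¹ ^ (2 * l + 2) * et l ε a * (⟪u, a⟫ * Real.sin ⟪z, a⟫) := by
      funext a
      ring
    rw [e4, e3, real_inner_comm z u]
    ring
  -- Fubini
  have hmeas : Measurable fun p : X d × X d => ‖p.2‖⁻¹ ^ (2 * l + 2) * et l ε p.2 *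
      (Real.cos ⟪x + u - p.1, p.2⟫ - ⟪u, p.2⟫ * Real.sin ⟪x + u - p.1, p.2⟫) := by
    have m1 : Measurable fun p : X d × X d => ⟪x + u - p.1, p.2⟫ :=
      (measurable_const.sub measurable_fst).inner measurable_snd
    have m2 : Measurable fun p : X d × X d => ⟪u, p.2⟫ := measurable_const.inner measurable_snd
    exact ((measurable_snd.norm.inv.pow_const _).mul ((et_measurable l ε).comp measurable_snd)).mul
      ((Real.measurable_cos.comp m1).sub (m2.mul (Real.measurable_sin.comp m1)))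
  have hint : Integrable (Function.uncurry fun (y a : X d) => ‖a‖⁻¹ ^ (2 * l + 2) * et l ε a *
      (Real.cos ⟪x + u - y, a⟫ - ⟪u, a⟫ * Real.sin ⟪x + u - y, a⟫)) (μ.prod volume) := by
    refine (((et_int (d := d) l hε hl 1).const_mul (1 + ‖u‖)).comp_snd μ).mono' hmeas.aestronglyMeasurable
      (Eventually.of_forall fun p => ?_)
    have h0 : 0 ≤ ‖p.2‖⁻¹ ^ (2 * l + 2) * et l ε p.2 := mul_nonneg (by positivity) (et_nonneg l ε p.2)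
    show ‖‖p.2‖⁻¹ ^ (2 * l + 2) * et l ε p.2 *
      (Real.cos ⟪x + u - p.1, p.2⟫ - ⟪u, p.2⟫ * Real.sin ⟪x + u - p.1, p.2⟫)‖ ≤ _
    rw [Real.norm_eq_abs, abs_mul, abs_of_nonneg h0, pow_one]
    calc ‖p.2‖⁻¹ ^ (2 * l + 2) * et l ε p.2 *
          |Real.cos ⟪x + u - p.1, p.2⟫ - ⟪u, p.2⟫ * Real.sin ⟪x + u - p.1, p.2⟫|
        ≤ ‖p.2‖⁻¹ ^ (2 * l + 2) * et l ε p.2 * ((1 + ‖u‖) * (1 + ‖p.2‖)) :=
          mul_le_mul_of_nonneg_left (CGPZa_bd u p.2 _) h0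
      _ = (1 + ‖u‖) * (‖p.2‖⁻¹ ^ (2 * l + 2) * et l ε p.2 * (1 + ‖p.2‖)) := by ring
  unfold Lg
  rw [← integral_const_mul]
  calc ∫ y, c2 d n l * (Tk n l ε (x + u - y) - Tk' n l ε (x + u - y) * ⟪x + u - y, u⟫) ∂μ
      = ∫ y, ∫ a : X d, ‖a‖⁻¹ ^ (2 * l + 2) * et l ε a *
          (Real.cos ⟪x + u - y, a⟫ - ⟪u, a⟫ * Real.sin ⟪x + u - y, a⟫) ∂volume ∂μ :=
        integral_congr_ae (Eventually.of_forall fun y => hker _)
    _ = ∫ a : X d, ∫ y, ‖a‖⁻¹ ^ (2 * l + 2) * et l ε a *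
          (Real.cos ⟪x + u - y, a⟫ - ⟪u, a⟫ * Real.sin ⟪x + u - y, a⟫) ∂μ := integral_integral_swap hint
    _ = _ := integral_congr_ae (Eventually.of_forall fun a => ?_)
  have mc : Measurable fun y : X d => ⟪x - y, a⟫ := (measurable_const.sub measurable_id).inner measurable_const
  have ic : Integrable (fun y : X d => Real.cos ⟪x - y, a⟫) μ :=
    Integrable.of_bound (Real.measurable_cos.comp mc).aestronglyMeasurable 1
      (Eventually.of_forall fun y => Real.abs_cos_le_one _)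
  have is : Integrable (fun y : X d => Real.sin ⟪x - y, a⟫) μ :=
    Integrable.of_bound (Real.measurable_sin.comp mc).aestronglyMeasurable 1
      (Eventually.of_forall fun y => Real.abs_sin_le_one _)
  show ∫ y, ‖a‖⁻¹ ^ (2 * l + 2) * et l ε a *
          (Real.cos ⟪x + u - y, a⟫ - ⟪u, a⟫ * Real.sin ⟪x + u - y, a⟫) ∂μ = _
  have e1 : (fun y : X d => ‖a‖⁻¹ ^ (2 * l + 2) * et l ε a *
        (Real.cos ⟪x + u - y, a⟫ - ⟪u, a⟫ * Real.sin ⟪x + u - y, a⟫)) =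
      fun y : X d => ‖a‖⁻¹ ^ (2 * l + 2) * et l ε a * (Real.cos ⟪u, a⟫ - ⟪u, a⟫ * Real.sin ⟪u, a⟫) *
          Real.cos ⟪x - y, a⟫ -
        ‖a‖⁻¹ ^ (2 * l + 2) * et l ε a * (Real.sin ⟪u, a⟫ + ⟪u, a⟫ * Real.cos ⟪u, a⟫) * Real.sin ⟪x - y, a⟫ := by
    funext y
    have e2 : ⟪x + u - y, a⟫ = ⟪u, a⟫ + ⟪x - y, a⟫ := by
      rw [← inner_add_left]
      congr 1
      abel
    rw [e2, Real.cos_add, Real.sin_add]
    ring
  rw [e1, integral_sub (ic.const_mul _) (is.const_mul _), integral_const_mul, integral_const_mul]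
  show _ = ‖a‖⁻¹ ^ (2 * l + 2) * et l ε a *
        ((Real.cos ⟪u, a⟫ - ⟪u, a⟫ * Real.sin ⟪u, a⟫) * oc μ x a -
          (Real.sin ⟪u, a⟫ + ⟪u, a⟫ * Real.cos ⟪u, a⟫) * os μ x a)
  unfold oc os
  ring

end Pool.Agent.H1.CG
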