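import Pool.Agent.H1.CG.D0
import Pool.Agent.H48.R9.DbqC
import Pool.Agent.H48.R9.DblB
import Pool.Agent.H48.R9.DbqB

/-!
Row PoA.  The atoms of R9 with an arbitrary bounded weight: R9DbqC_aux (private in R9/DbqC.lean, copy it) with
W x = ω x * ‖x - 0‖⁻¹ ^ (2 m); fb as in R9/DbqB.lean (fb_double) with doubleB and the weight ω x * ‖x‖⁻¹^10 * (three coordinates).
-/

set_option autoImplicit false

open MeasureTheory Filter Topology Metric Set
open scoped RealInnerProductSpace ENNReal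

namespace Pool.Agent.H1.CG

open Pool.Agent.RZ Pool.Agent.H1.LD Pool.Agent.H48.R7

variable {d : ℕ}

open Pool.Agent.H48.R9

private theorem CGPoA_pow {r : ℝ} (hr : 0 ≤ r) (e : ℕ) : r⁻¹ ^ (e + 1) * r ≤ r⁻¹ ^ e := by
  rcases hr.eq_or_lt with h | h
  · rw [← h, mul_zero]
    positivity
  · rw [pow_succ, mul_assoc, inv_mul_cancel₀ h.ne', mul_one]

private theorem CGPoA_inner (a b : X d) : (⟪a, b⟫ : ℝ) = ∑ i, a i * b i := by
  rw [PiLp.inner_apply]
  refine Finset.sum_congr rfl fun i _ => ?_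
  simp [mul_comm]

private theorem CGPoA_aux {ν : Measure (X d)} (h : Nice9 ν) (α : ℝ) (z : X d) {t : ℝ} (ht : 0 < t) (j : ℕ) :
    ∀ (e : ℕ) (W : X d → ℝ), j < e → e ≤ j + 9 → Measurable W → (∀ x, |W x| ≤ ‖x - z‖⁻¹ ^ e) →
      Integrable (fun p : X d × X d => W p.1 * W p.2 * ⟪p.1 - z, p.2 - z⟫ ^ j * mta α (p.1 - z) (p.2 - z) t)
        (ν.prod ν) ∧
      0 ≤ ∫ p : X d × X d, W p.1 * W p.2 * ⟪p.1 - z, p.2 - z⟫ ^ j * mta α (p.1 - z) (p.2 - z) t ∂(ν.prod ν) := by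
  have hfin : IsFiniteMeasure ν := h.1
  have hconst : 0 < t ^ d * gc d 4 := mul_pos (pow_pos ht d) (gc_pos (by norm_num))
  induction j with
  | zero =>
    intro e W h1 h2 hW hb
    have i1 : Integrable W ν := by
      refine (nice_int9 h z (k := e) (by omega)).mono' hW.aestronglyMeasurable
        (Filter.Eventually.of_forall fun x => ?_)
      rw [Real.norm_eq_abs]
      exact hb x
    have i2 : Integrable (fun x => W x * ‖x - z‖) ν := by
      have hm : Measurable (fun x => W x * ‖x - z‖) := hW.mul (measurable_id.sub_const z).norm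
      refine (nice_int9 h z (k := e - 1) (by omega)).mono' hm.aestronglyMeasurable
        (Filter.Eventually.of_forall fun x => ?_)
      rw [Real.norm_eq_abs, abs_mul, abs_norm]
      obtain ⟨e', rfl⟩ : ∃ e', e = e' + 1 := ⟨e - 1, by omega⟩
      rw [Nat.add_sub_cancel]
      exact (mul_le_mul_of_nonneg_right (hb x) (norm_nonneg _)).trans (CGPoA_pow (norm_nonneg _) e')
    obtain ⟨k1, -, k3⟩ := double7 (ν := ν) α W hW z i1 i2 ht
    have hf : (fun p : X d × X d => W p.1 * W p.2 * ⟪p.1 - z, p.2 - z⟫ ^ 0 * mta α (p.1 - z) (p.2 - z) t) =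
        fun p : X d × X d => W p.1 * W p.2 * mta α (p.1 - z) (p.2 - z) t := by
      funext p
      rw [pow_zero, mul_one]
    rw [hf]
    refine ⟨k1, ?_⟩
    have h0 : 0 ≤ ∫ Y : X d, (∫ x, W x * ek α (2 / t ^ 2) z x Y ∂ν) ^ 2 :=
      integral_nonneg fun Y => by positivity
    rw [k3] at h0
    exact nonneg_of_mul_nonneg_right h0 hconst
  | succ j ih =>
    intro e W h1 h2 hW hb
    obtain ⟨e', rfl⟩ : ∃ e', e = e' + 1 := ⟨e - 1, by omega⟩
    have key := fun i : Fin d => ih e' (fun x => W x * (x - z) i) (by omega) (by omega)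
      (hW.mul (by fun_prop)) (fun x => by
        rw [abs_mul]
        have h3 : |(x - z) i| ≤ ‖x - z‖ := PiLp.norm_apply_le (x - z) i
        exact (mul_le_mul (hb x) h3 (abs_nonneg _) (by positivity)).trans (CGPoA_pow (norm_nonneg _) e'))
    have hf : (fun p : X d × X d => W p.1 * W p.2 * ⟪p.1 - z, p.2 - z⟫ ^ (j + 1) *
        mta α (p.1 - z) (p.2 - z) t) = fun p : X d × X d => ∑ i : Fin d, W p.1 * (p.1 - z) i *
          (W p.2 * (p.2 - z) i) * ⟪p.1 - z, p.2 - z⟫ ^ j * mta α (p.1 - z) (p.2 - z) t := by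
      funext p
      rw [pow_succ', CGPoA_inner (p.1 - z) (p.2 - z)]
      generalize (∑ i : Fin d, (p.1 - z) i * (p.2 - z) i) ^ j = q
      rw [Finset.sum_mul, Finset.mul_sum, Finset.sum_mul]
      refine Finset.sum_congr rfl fun i _ => ?_
      ring
    rw [hf]
    have hi : ∀ i ∈ (Finset.univ : Finset (Fin d)), Integrable (fun p : X d × X d => W p.1 * (p.1 - z) i *
          (W p.2 * (p.2 - z) i) * ⟪p.1 - z, p.2 - z⟫ ^ j * mta α (p.1 - z) (p.2 - z) t) (ν.prod ν) :=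
      fun i _ => (key i).1
    refine ⟨integrable_finsetSum _ hi, ?_⟩
    rw [integral_finsetSum _ hi]
    exact Finset.sum_nonneg fun i _ => (key i).2

theorem fa_w {ν : Measure (X d)} (h : Nice9 ν) (m j k : ℕ) (h1 : j < 2 * m) (h2 : 2 * m ≤ j + 9)
    {ω : X d → ℝ} (hω : Measurable ω) (hb : ∀ x, |ω x| ≤ 1) {t : ℝ} (ht : 0 < t) :
    Integrable (fun p : X d × X d => fa m j k 0 p t * (ω p.1 * ω p.2)) (ν.prod ν) ∧
    0 ≤ ∫ p, fa m j k 0 p t * (ω p.1 * ω p.2) ∂(ν.prod ν) := by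
  obtain ⟨k1, k2⟩ := CGPoA_aux h (k : ℝ) (0 : X d) ht j (2 * m) (fun x => ω x * ‖x - 0‖⁻¹ ^ (2 * m)) h1 h2
    (hω.mul (((measurable_id.sub_const 0).norm.inv).pow_const _)) (fun x => by
      rw [abs_mul, abs_of_nonneg (show (0 : ℝ) ≤ ‖x - 0‖⁻¹ ^ (2 * m) by positivity)]
      exact mul_le_of_le_one_left (by positivity) (hb x))
  have hf : (fun p : X d × X d => fa m j k 0 p t * (ω p.1 * ω p.2)) = fun p : X d × X d =>
      t⁻¹ ^ (2 * k + 1) *
      (ω p.1 * ‖p.1 - 0‖⁻¹ ^ (2 * m) * (ω p.2 * ‖p.2 - 0‖⁻¹ ^ (2 * m)) * ⟪p.1 - 0, p.2 - 0⟫ ^ j *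
        mta (k : ℝ) (p.1 - 0) (p.2 - 0) t) := by
    funext p
    unfold fa
    ring
  rw [hf]
  refine ⟨k1.const_mul _, ?_⟩
  rw [integral_const_mul]
  exact mul_nonneg (by positivity) k2

/-- the components of the cubic weight -/
private noncomputable def CGPoA_w (z : X d) (s : Fin d × Fin d × Fin d) (x : X d) : ℝ :=
  ‖x - z‖⁻¹ ^ 10 * ((x - z) s.1 * (x - z) s.2.1 * (x - z) s.2.2)

private theorem CGPoA_w_meas (z : X d) (s : Fin d × Fin d × Fin d) :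
    Measurable (CGPoA_w z s) := by
  unfold CGPoA_w
  fun_prop

private theorem CGPoA_w_abs (z : X d) (s : Fin d × Fin d × Fin d) (x : X d) :
    |CGPoA_w z s x| ≤ ‖x - z‖⁻¹ ^ 7 := by
  unfold CGPoA_w
  have h1 : |(x - z) s.1| ≤ ‖x - z‖ := PiLp.norm_apply_le (x - z) s.1
  have h2 : |(x - z) s.2.1| ≤ ‖x - z‖ := PiLp.norm_apply_le (x - z) s.2.1
  have h3 : |(x - z) s.2.2| ≤ ‖x - z‖ := PiLp.norm_apply_le (x - z) s.2.2
  rw [abs_mul, abs_of_nonneg (by positivity : (0:ℝ) ≤ ‖x - z‖⁻¹ ^ 10), abs_mul, abs_mul]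
  have h4 : |(x - z) s.1| * |(x - z) s.2.1| * |(x - z) s.2.2| ≤ ‖x - z‖ * ‖x - z‖ * ‖x - z‖ := by
    gcongr
  calc ‖x - z‖⁻¹ ^ 10 * (|(x - z) s.1| * |(x - z) s.2.1| * |(x - z) s.2.2|)
      ≤ ‖x - z‖⁻¹ ^ 10 * (‖x - z‖ * ‖x - z‖ * ‖x - z‖) := mul_le_mul_of_nonneg_left h4 (by positivity)
    _ = ‖x - z‖⁻¹ ^ 7 := by
        by_cases hx : ‖x - z‖ = 0
        · rw [hx]; norm_num
        · field_simp

private theorem CGPoA_v_meas {ω : X d → ℝ} (hω : Measurable ω) (s : Fin d × Fin d × Fin d) :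
    Measurable (fun x => ω x * CGPoA_w 0 s x) := hω.mul (CGPoA_w_meas 0 s)

private theorem CGPoA_v_abs {ω : X d → ℝ} (hb : ∀ x, |ω x| ≤ 1) (s : Fin d × Fin d × Fin d) (x : X d) :
    |ω x * CGPoA_w 0 s x| ≤ ‖x - 0‖⁻¹ ^ 7 := by
  rw [abs_mul]
  exact (mul_le_of_le_one_left (abs_nonneg _) (hb x)).trans (CGPoA_w_abs 0 s x)

private theorem CGPoA_v_int {ν : Measure (X d)} (h : Nice9 ν) {ω : X d → ℝ} (hω : Measurable ω)
    (hb : ∀ x, |ω x| ≤ 1) (s : Fin d × Fin d × Fin d) : Integrable (fun x => ω x * CGPoA_w 0 s x) ν := by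
  refine (nice_int9 h 0 (k := 7) (by norm_num)).mono' (CGPoA_v_meas hω s).aestronglyMeasurable
    (Filter.Eventually.of_forall fun x => ?_)
  rw [Real.norm_eq_abs]
  exact CGPoA_v_abs hb s x

private theorem CGPoA_v_int2 {ν : Measure (X d)} (h : Nice9 ν) {ω : X d → ℝ} (hω : Measurable ω)
    (hb : ∀ x, |ω x| ≤ 1) (s : Fin d × Fin d × Fin d) :
    Integrable (fun x => ω x * CGPoA_w 0 s x * ‖x - 0‖ ^ 2) ν := by
  have hm : Measurable (fun x => ω x * CGPoA_w 0 s x * ‖x - 0‖ ^ 2) :=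
    (CGPoA_v_meas hω s).mul ((measurable_id.sub_const 0).norm.pow_const 2)
  refine (nice_int9 h 0 (k := 5) (by norm_num)).mono' hm.aestronglyMeasurable
    (Filter.Eventually.of_forall fun x => ?_)
  rw [Real.norm_eq_abs, abs_mul, abs_pow, abs_norm]
  calc |ω x * CGPoA_w 0 s x| * ‖x - 0‖ ^ 2 ≤ ‖x - 0‖⁻¹ ^ 7 * ‖x - 0‖ ^ 2 :=
        mul_le_mul_of_nonneg_right (CGPoA_v_abs hb s x) (by positivity)
    _ = ‖x - 0‖⁻¹ ^ 5 := by
        by_cases hx : ‖x - 0‖ = 0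
        · rw [hx]; norm_num
        · field_simp

private theorem CGPoA_cube (a b : X d) : ⟪a, b⟫ ^ 3 =
    ∑ s : Fin d × Fin d × Fin d, (a s.1 * a s.2.1 * a s.2.2) * (b s.1 * b s.2.1 * b s.2.2) := by
  have h1 : (⟪a, b⟫ : ℝ) = ∑ i, a i * b i := by
    rw [PiLp.inner_apply]
    refine Finset.sum_congr rfl fun i _ => ?_
    simp [mul_comm]
  rw [h1, pow_succ, sq, Fintype.sum_prod_type]
  simp only [Fintype.sum_prod_type]
  rw [Finset.sum_mul_sum, Finset.sum_mul]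
  refine Finset.sum_congr rfl fun i _ => ?_
  rw [Finset.sum_mul_sum]
  refine Finset.sum_congr rfl fun j _ => Finset.sum_congr rfl fun k _ => ?_
  ring

private theorem CGPoA_fb (ω : X d → ℝ) (p : X d × X d) (t : ℝ) : fb 0 p t * (ω p.1 * ω p.2) =
    ∑ s : Fin d × Fin d × Fin d,
      t⁻¹ ^ 5 * (ω p.1 * CGPoA_w 0 s p.1 * (ω p.2 * CGPoA_w 0 s p.2) * mtb (p.1 - 0) (p.2 - 0) t) := by
  unfold fb
  rw [CGPoA_cube, Finset.mul_sum, Finset.sum_mul, Finset.sum_mul]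
  refine Finset.sum_congr rfl fun s _ => ?_
  unfold CGPoA_w
  ring

theorem fb_w {ν : Measure (X d)} (h : Nice9 ν)
    {ω : X d → ℝ} (hω : Measurable ω) (hb : ∀ x, |ω x| ≤ 1) {t : ℝ} (ht : 0 < t) :
    Integrable (fun p : X d × X d => fb 0 p t * (ω p.1 * ω p.2)) (ν.prod ν) ∧
    0 ≤ ∫ p, fb 0 p t * (ω p.1 * ω p.2) ∂(ν.prod ν) := by
  have hfin : IsFiniteMeasure ν := h.1
  have hconst : 0 < t ^ d * gc d 4 := mul_pos (pow_pos ht d) (gc_pos (by norm_num))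
  have ht5 : 0 ≤ t⁻¹ ^ 5 := by positivity
  have key := fun s : Fin d × Fin d × Fin d =>
    doubleB (ν := ν) (fun x => ω x * CGPoA_w 0 s x) (CGPoA_v_meas hω s) 0 (CGPoA_v_int h hω hb s)
      (CGPoA_v_int2 h hω hb s) ht
  have hi : ∀ s ∈ (Finset.univ : Finset (Fin d × Fin d × Fin d)), Integrable (fun p : X d × X d =>
      t⁻¹ ^ 5 * (ω p.1 * CGPoA_w 0 s p.1 * (ω p.2 * CGPoA_w 0 s p.2) *
        mtb (p.1 - 0) (p.2 - 0) t)) (ν.prod ν) :=
    fun s _ => (key s).1.const_mul _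
  refine ⟨?_, ?_⟩
  · refine (integrable_finsetSum _ hi).congr (Filter.Eventually.of_forall fun p => ?_)
    simp only
    exact (CGPoA_fb ω p t).symm
  · rw [integral_congr_ae (Filter.Eventually.of_forall fun p => CGPoA_fb ω p t),
      integral_finsetSum _ hi]
    refine Finset.sum_nonneg fun s _ => ?_
    rw [integral_const_mul]
    refine mul_nonneg ht5 ?_
    have h0 : 0 ≤ ∫ Y : X d, (∫ x, ω x * CGPoA_w 0 s x * ek2 (2 / t ^ 2) 0 x Y ∂ν) ^ 2 :=
      integral_nonneg fun Y => by positivity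
    rw [(key s).2.2] at h0
    exact nonneg_of_mul_nonneg_right h0 hconst

end Pool.Agent.H1.CG
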