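import Pool.Agent.H1.CG.F
import Pool.Agent.H1.CG.Q
import Pool.Agent.H1.CG.H3
import Pool.Agent.H1.LD.Win
import Pool.Agent.H1.LD.Dic
import Pool.Agent.H1.LD.Thr

/-!
dich_cg: as C7/T.
-/

set_option autoImplicit false

open MeasureTheory Filter Topology Metric Set
open scoped RealInnerProductSpace ENNReal

namespace Pool.Agent.H1.CG

open Pool.Agent.RZ Pool.Agent.H1.LD Pool.Agent.H48.R7

variable {d : ℕ}

theorem dich_cg {n l : ℕ} (hn : 1 ≤ n) (hl : 1 ≤ l) (hd : d = n + 2 * l + 3) {W : X d → X d → ℝ}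
    (hW : Cert l W) {μ : Measure (X d)} [IsFiniteMeasure μ]
    {C₀ : ℝ} (hC₀ : 0 ≤ C₀) (hg : Gr n C₀ μ) (hE : En n μ) : Dich n μ := by
  obtain ⟨C₁, hC₁, hI⟩ := Qg_int (n := n) (l := l) hd
  obtain ⟨C, hC, hJ⟩ := J_le_Qg (n := n) (l := l) hn hd
  have hcar := cg_carleson hn hl hd hW hC₀ hg hE
  have hfin1 : ∫⁻ z, (∫⁻ t in Ioc (0 : ℝ) 1, Qg n l μ z t * ENNReal.ofReal t⁻¹) ∂μ < ⊤ := by
    refine lt_of_le_of_lt (lintegral_mono fun z =>
      (lintegral_mono_set Ioc_subset_Ioi_self).trans (hI μ inferInstance z)) ?_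
    rw [lintegral_const_mul' _ _ ENNReal.ofReal_ne_top]
    exact ENNReal.mul_lt_top ENNReal.ofReal_lt_top hcar
  have hJ' : ∀ z : X d, ∀ t : ℝ, 0 < t → t ≤ 1 → ∀ y : X d, ∀ s : ℝ, t / 4 ≤ s → s ≤ t / 2 →
      ENNReal.ofReal (Jf n (blow n 0 t μ) 4 (t⁻¹ • z) y ^ 2) ≤
        ENNReal.ofReal (C * (1 + ‖y - t⁻¹ • z‖) ^ (2 * (n + 2 * l + 2))) * Qg n l μ z s := by
    intro z t ht _ y s hs1 hs2
    have hs : 0 < s := by linarith
    have h1 := hJ (blow n 0 t μ) (blow_finite ht) (t⁻¹ • z) y (s / t)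
      (by rw [div_le_div_iff₀ (by norm_num) ht]; linarith)
      (by rw [div_le_div_iff₀ ht (by norm_num)]; linarith)
    rw [Qg_scale hd μ ht z (by positivity), mul_div_cancel₀ s ht.ne'] at h1
    exact h1
  obtain ⟨S, D, Ds, h⟩ := window (n := n) (K := n + 2 * l + 2) (μ := μ) (Qg n l μ)
    (Qg_measurable n l μ) hfin1 hC hJ'
  exact dich_of_Dy hC₀ hg h

end Pool.Agent.H1.CG
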