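import Pool.Agent.H1.CG.GauA

/-!
Row V0.  P = (-Δ)^k ga 4 up to a constant; k arbitrary, by induction on k.  Suggested: P(u) = p(‖u‖²) ga 4 u, p a Polynomial ℝ, and
Δ(p(s)e^(-4s)) = (4s(p''-8p'+16p)+2d(p'-4p)) e^(-4s), s = ‖u‖²; ∫ Δf cos⟪u,a⟫ = -‖a‖² ∫ f cos⟪u,a⟫ (by parts); or: the functions
with Fourier transform ‖a‖^(2k) e^(-s‖a‖²) are the derivatives (-∂_s)^k of (4πs)^(-d/2) e^(-‖u‖²/4s) at s = 1/16 (the statement for all s
by induction, differentiating both sides in s); the second integral is -(a . ∇_a) of the first.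
-/

set_option autoImplicit false

open MeasureTheory Filter Topology Metric Set
open scoped RealInnerProductSpace ENNReal

namespace Pool.Agent.H1.CG

open Pool.Agent.RZ Pool.Agent.H1.LD Pool.Agent.H48.R7

variable {d : ℕ}

/-- the polynomials of the derivatives of the heat kernel -/
private noncomputable def CGV0_q (d : ℕ) : ℕ → Polynomial ℝ
  | 0 => 1
  | k + 1 => Polynomial.C ((d : ℝ) / 2 + k) * CGV0_q d k +
      Polynomial.X * Polynomial.derivative (CGV0_q d k) -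
      Polynomial.C (1 / 4) * (Polynomial.X * CGV0_q d k)

private theorem CGV0_deg (d k : ℕ) : (CGV0_q d k).natDegree ≤ k := by
  induction k with
  | zero => simp [CGV0_q]
  | succ k ih =>
    have hX : (Polynomial.X : Polynomial ℝ).natDegree ≤ 1 := Polynomial.natDegree_X_le
    have a1 : (Polynomial.C ((d : ℝ) / 2 + k) * CGV0_q d k).natDegree ≤ k + 1 :=
      (Polynomial.natDegree_C_mul_le _ _).trans (ih.trans (Nat.le_succ k))
    have a2 : (Polynomial.X * Polynomial.derivative (CGV0_q d k)).natDegree ≤ k + 1 := by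
      refine Polynomial.natDegree_mul_le.trans ?_
      have h1 := Polynomial.natDegree_derivative_le (CGV0_q d k)
      omega
    have a3 : (Polynomial.C (1 / 4) * (Polynomial.X * CGV0_q d k)).natDegree ≤ k + 1 := by
      refine (Polynomial.natDegree_C_mul_le _ _).trans (Polynomial.natDegree_mul_le.trans ?_)
      omega
    exact (Polynomial.natDegree_sub_le_of_le (Polynomial.natDegree_add_le_of_le a1 a2) a3).trans
      (by simp)

private theorem CGV0_bd (q : Polynomial ℝ) {N : ℕ} (h : q.natDegree ≤ N) :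
    ∃ C : ℝ, 0 ≤ C ∧ ∀ τ : ℝ, 0 ≤ τ → |q.eval τ| ≤ C * (1 + τ) ^ N := by
  refine ⟨∑ i ∈ Finset.range (N + 1), |q.coeff i|, Finset.sum_nonneg fun i _ => abs_nonneg _,
    fun τ hτ => ?_⟩
  rw [Polynomial.eval_eq_sum_range' (Nat.lt_succ_of_le h), Finset.sum_mul]
  refine (Finset.abs_sum_le_sum_abs _ _).trans (Finset.sum_le_sum fun i hi => ?_)
  rw [abs_mul, abs_of_nonneg (pow_nonneg hτ i)]
  refine mul_le_mul_of_nonneg_left ?_ (abs_nonneg _)
  calc τ ^ i ≤ (1 + τ) ^ i := pow_le_pow_left₀ hτ (by linarith) i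
    _ ≤ (1 + τ) ^ N := pow_le_pow_right₀ (by linarith) (Nat.lt_succ_iff.1 (Finset.mem_range.1 hi))

/-- the derivatives of the heat kernel -/
private noncomputable def CGV0_F (d k : ℕ) (s : ℝ) (u : X d) : ℝ :=
  s ^ (-((d : ℝ) / 2) - (k : ℝ)) * (CGV0_q d k).eval (‖u‖ ^ 2 / s) *
    Real.exp (-(‖u‖ ^ 2 / (4 * s)))

private theorem CGV0_cont (k : ℕ) (s : ℝ) : Continuous fun u : X d => CGV0_F d k s u := by
  unfold CGV0_F
  have h1 : Continuous fun u : X d => (CGV0_q d k).eval (‖u‖ ^ 2 / s) :=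
    (CGV0_q d k).continuous.comp (by fun_prop)
  fun_prop

private theorem CGV0_neg (k : ℕ) (s : ℝ) (u : X d) : CGV0_F d k s (-u) = CGV0_F d k s u := by
  unfold CGV0_F
  rw [norm_neg]

private theorem CGV0_der (k : ℕ) (u : X d) {s : ℝ} (hs : 0 < s) :
    HasDerivAt (fun s => CGV0_F d k s u) (-CGV0_F d (k + 1) s u) s := by
  have h1 : HasDerivAt (fun s : ℝ => s ^ (-((d : ℝ) / 2) - (k : ℝ)))
      ((-((d : ℝ) / 2) - (k : ℝ)) * s ^ (-((d : ℝ) / 2) - (k : ℝ) - 1)) s :=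
    Real.hasDerivAt_rpow_const (Or.inl hs.ne')
  have h2 : HasDerivAt (fun s : ℝ => ‖u‖ ^ 2 / s) (-(‖u‖ ^ 2 / s ^ 2)) s := by
    have h := (hasDerivAt_inv hs.ne').const_mul (‖u‖ ^ 2)
    simp only [← div_eq_mul_inv] at h
    refine h.congr_deriv ?_
    field_simp
  have h3 : HasDerivAt (fun s : ℝ => (CGV0_q d k).eval (‖u‖ ^ 2 / s))
      ((CGV0_q d k).derivative.eval (‖u‖ ^ 2 / s) * (-(‖u‖ ^ 2 / s ^ 2))) s :=
    ((CGV0_q d k).hasDerivAt (‖u‖ ^ 2 / s)).comp s h2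
  have h4 : HasDerivAt (fun s : ℝ => Real.exp (-(‖u‖ ^ 2 / (4 * s))))
      (Real.exp (-(‖u‖ ^ 2 / (4 * s))) * (‖u‖ ^ 2 / (4 * s ^ 2))) s := by
    have h : HasDerivAt (fun s : ℝ => -(‖u‖ ^ 2 / (4 * s))) (‖u‖ ^ 2 / (4 * s ^ 2)) s := by
      have h5 := (h2.div_const 4).neg
      have h6 : (fun s : ℝ => -(‖u‖ ^ 2 / (4 * s))) = fun s : ℝ => -(‖u‖ ^ 2 / s / 4) := by
        funext t
        rw [div_div, mul_comm t 4]
      rw [h6]
      refine h5.congr_deriv ?_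
      field_simp
    exact h.exp
  have h5 := (h1.mul h3).mul h4
  refine h5.congr_deriv ?_
  have e1 : s ^ (-((d : ℝ) / 2) - (k : ℝ)) = s ^ (-((d : ℝ) / 2) - (k : ℝ) - 1) * s := by
    rw [Real.rpow_sub_one hs.ne']
    field_simp
  have e2 : s ^ (-((d : ℝ) / 2) - ((k + 1 : ℕ) : ℝ)) = s ^ (-((d : ℝ) / 2) - (k : ℝ) - 1) := by
    congr 1
    push_cast
    ring
  simp only [Pi.mul_apply]
  unfold CGV0_F
  rw [e2, e1]
  simp only [CGV0_q, Polynomial.eval_sub, Polynomial.eval_add, Polynomial.eval_mul,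
    Polynomial.eval_C, Polynomial.eval_X]
  field_simp
  ring

private theorem CGV0_le (d k : ℕ) {s₁ : ℝ} (hs : 0 < s₁) : ∃ C : ℝ, 0 ≤ C ∧ ∀ s : ℝ, s₁ ≤ s →
    ∀ u : X d, |CGV0_F d k s u| ≤ C * (1 + ‖u‖) ^ (2 * k) * Real.exp (-(‖u‖ ^ 2 / (4 * s))) := by
  obtain ⟨C, hC, hq⟩ := CGV0_bd (CGV0_q d k) (CGV0_deg d k)
  refine ⟨s₁ ^ (-((d : ℝ) / 2) - (k : ℝ)) * (C * (1 + s₁⁻¹) ^ k), by positivity, fun s hss u => ?_⟩
  have hs0 : 0 < s := hs.trans_le hss
  unfold CGV0_F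
  rw [abs_mul, abs_mul, abs_of_pos (Real.exp_pos _), abs_of_pos (Real.rpow_pos_of_pos hs0 _)]
  refine mul_le_mul_of_nonneg_right ?_ (Real.exp_pos _).le
  rw [mul_assoc]
  refine mul_le_mul ?_ ?_ (abs_nonneg _) (by positivity)
  · refine Real.rpow_le_rpow_of_nonpos hs hss ?_
    have : (0 : ℝ) ≤ (d : ℝ) / 2 + k := by positivity
    linarith
  · refine (hq _ (by positivity)).trans ?_
    rw [mul_assoc]
    refine mul_le_mul_of_nonneg_left ?_ hC
    rw [pow_mul, ← mul_pow]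
    refine pow_le_pow_left₀ (by positivity) ?_ k
    have h1 : ‖u‖ ^ 2 / s ≤ ‖u‖ ^ 2 * s₁⁻¹ := by
      rw [div_eq_mul_inv]
      exact mul_le_mul_of_nonneg_left (inv_anti₀ hs hss) (by positivity)
    have h2 : 0 ≤ s₁⁻¹ := by positivity
    nlinarith [norm_nonneg u, mul_nonneg h2 (norm_nonneg u)]

private theorem CGV0_intg (d k N : ℕ) {s : ℝ} (hs : 0 < s) :
    Integrable fun u : X d => (1 + ‖u‖) ^ N * CGV0_F d k s u := by
  obtain ⟨C, hC, hb⟩ := CGV0_le d k hs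
  have h1 := (ga_integrable (d := d) (show 0 < 1 / (4 * s) by positivity) (N + 2 * k)).const_mul C
  refine h1.mono' ?_ (Eventually.of_forall fun u => ?_)
  · exact (((continuous_const.add continuous_norm).pow N).mul
      (CGV0_cont k s)).aestronglyMeasurable
  · rw [Real.norm_eq_abs, abs_mul, abs_of_nonneg (by positivity : 0 ≤ (1 + ‖u‖) ^ N)]
    have h2 := mul_le_mul_of_nonneg_left (hb s le_rfl u) (by positivity : 0 ≤ (1 + ‖u‖) ^ N)
    refine h2.trans (le_of_eq ?_)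
    unfold ga
    rw [pow_add]
    have h3 : -(‖u‖ ^ 2 / (4 * s)) = -(1 / (4 * s) * ‖u‖ ^ 2) := by ring
    rw [h3]
    ring

private theorem CGV0_four (d k : ℕ) (a : X d) : ∀ s : ℝ, 0 < s →
    ∫ u : X d, CGV0_F d k s u * Real.cos ⟪u, a⟫ =
      (4 * Real.pi) ^ ((d : ℝ) / 2) * (‖a‖ ^ (2 * k) * Real.exp (-(s * ‖a‖ ^ 2))) := by
  induction k with
  | zero =>
    intro s hs
    have h1 := g_cos (show 0 < 1 / (4 * s) by positivity) a
    have h2 : ∀ u : X d, CGV0_F d 0 s u * Real.cos ⟪u, a⟫ =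
        s ^ (-((d : ℝ) / 2)) * (ga (1 / (4 * s)) u * Real.cos ⟪a, u⟫) := by
      intro u
      unfold CGV0_F ga
      have h3 : -(‖u‖ ^ 2 / (4 * s)) = -(1 / (4 * s) * ‖u‖ ^ 2) := by ring
      rw [h3, real_inner_comm]
      simp only [CGV0_q, Polynomial.eval_one, Nat.cast_zero, sub_zero, mul_one]
      ring
    rw [integral_congr_ae (Eventually.of_forall h2), integral_const_mul, h1]
    have h4 : Real.pi / (1 / (4 * s)) = 4 * Real.pi * s := by field_simp
    have h5 : ‖a‖ ^ 2 / (4 * (1 / (4 * s))) = s * ‖a‖ ^ 2 := by field_simp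
    rw [h4, h5, Real.mul_rpow (by positivity) hs.le, Real.rpow_neg hs.le]
    have h6 : s ^ ((d : ℝ) / 2) ≠ 0 := (Real.rpow_pos_of_pos hs _).ne'
    simp only [Nat.mul_zero, pow_zero, one_mul]
    field_simp
  | succ k ih =>
    intro s hs
    obtain ⟨C, hC, hb⟩ := CGV0_le d (k + 1) (show 0 < s / 2 by positivity)
    have key := hasDerivAt_integral_of_dominated_loc_of_deriv_le (μ := (volume : Measure (X d)))
      (F := fun (t : ℝ) (u : X d) => CGV0_F d k t u * Real.cos ⟪u, a⟫)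
      (F' := fun (t : ℝ) (u : X d) => -CGV0_F d (k + 1) t u * Real.cos ⟪u, a⟫)
      (x₀ := s) (s := Ioo (s / 2) (2 * s))
      (bound := fun u : X d => C * ((1 + ‖u‖) ^ (2 * (k + 1)) * ga (1 / (8 * s)) u))
      (Ioo_mem_nhds (by linarith) (by linarith))
      (Eventually.of_forall fun t => by
        have := CGV0_cont (d := d) k t
        exact Continuous.aestronglyMeasurable (by fun_prop))
      (by
        have h1 := CGV0_intg d k 0 hs
        simp only [pow_zero, one_mul] at h1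
        refine h1.norm.mono' ?_ (Eventually.of_forall fun u => ?_)
        · have := CGV0_cont (d := d) k s
          exact Continuous.aestronglyMeasurable (by fun_prop)
        · rw [norm_mul]
          exact mul_le_of_le_one_right (norm_nonneg _) (Real.abs_cos_le_one _))
      (by
        have := CGV0_cont (d := d) (k + 1) s
        exact Continuous.aestronglyMeasurable (by fun_prop))
      (Eventually.of_forall fun u t ht => by
        rw [norm_mul, norm_neg]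
        refine (mul_le_of_le_one_right (norm_nonneg _) (Real.abs_cos_le_one _)).trans ?_
        rw [Real.norm_eq_abs]
        refine (hb t ht.1.le u).trans ?_
        rw [mul_assoc]
        refine mul_le_mul_of_nonneg_left (mul_le_mul_of_nonneg_left ?_ (by positivity)) hC
        unfold ga
        refine Real.exp_le_exp.2 (neg_le_neg ?_)
        have ht0 : 0 < t := (by linarith [ht.1] : 0 < t)
        have h2 : 1 / (8 * s) ≤ 1 / (4 * t) :=
          one_div_le_one_div_of_le (by positivity) (by linarith [ht.2])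
        calc 1 / (8 * s) * ‖u‖ ^ 2 ≤ 1 / (4 * t) * ‖u‖ ^ 2 :=
              mul_le_mul_of_nonneg_right h2 (by positivity)
          _ = ‖u‖ ^ 2 / (4 * t) := by ring)
      ((ga_integrable (d := d) (show 0 < 1 / (8 * s) by positivity) (2 * (k + 1))).const_mul C)
      (Eventually.of_forall fun u t ht => by
        have ht0 : 0 < t := (by linarith [ht.1] : 0 < t)
        exact (CGV0_der k u ht0).mul_const _)
    have h1 := key.2
    have h2 : HasDerivAt (fun t : ℝ => (4 * Real.pi) ^ ((d : ℝ) / 2) *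
        (‖a‖ ^ (2 * k) * Real.exp (-(t * ‖a‖ ^ 2))))
        ((4 * Real.pi) ^ ((d : ℝ) / 2) *
          (‖a‖ ^ (2 * k) * (Real.exp (-(s * ‖a‖ ^ 2)) * (-(1 * ‖a‖ ^ 2))))) s :=
      (((((hasDerivAt_id s).mul_const (‖a‖ ^ 2)).neg).exp).const_mul _).const_mul _
    have h3 : (fun t : ℝ => ∫ u : X d, CGV0_F d k t u * Real.cos ⟪u, a⟫) =ᶠ[𝓝 s]
        fun t : ℝ => (4 * Real.pi) ^ ((d : ℝ) / 2) * (‖a‖ ^ (2 * k) * Real.exp (-(t * ‖a‖ ^ 2))) := by
      filter_upwards [Ioi_mem_nhds hs] with t ht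
      exact ih t ht
    have h4 := (h1.congr_of_eventuallyEq h3.symm).unique h2
    have h5 : ∫ u : X d, -CGV0_F d (k + 1) s u * Real.cos ⟪u, a⟫ =
        -∫ u : X d, CGV0_F d (k + 1) s u * Real.cos ⟪u, a⟫ := by
      rw [← integral_neg]
      refine integral_congr_ae (Eventually.of_forall fun u => ?_)
      ring
    rw [h5] at h4
    have h6 : ‖a‖ ^ (2 * (k + 1)) = ‖a‖ ^ (2 * k) * ‖a‖ ^ 2 := by ring
    rw [h6]
    linarith

theorem exV (d k : ℕ) : ∃ (P : X d → ℝ) (C c : ℝ), 0 < c ∧ Continuous P ∧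
    (∀ u, P (-u) = P u) ∧ (∀ u, |P u| ≤ C * (1 + ‖u‖) ^ (2 * k) * ga 4 u) ∧
    (∀ a, ∫ u, P u * Real.cos ⟪u, a⟫ = c * (‖a‖ ^ (2 * k) * Real.exp (-(‖a‖ ^ 2 / 16)))) ∧
    (∀ a, ∫ u, P u * (⟪u, a⟫ * Real.sin ⟪u, a⟫) =
      c * ((‖a‖ ^ 2 / 8 - 2 * k) * ‖a‖ ^ (2 * k) * Real.exp (-(‖a‖ ^ 2 / 16)))) := by
  have hs : (0 : ℝ) < 1 / 16 := by norm_num
  obtain ⟨C, hC, hb⟩ := CGV0_le d k hs
  have hcos : ∀ a : X d, ∫ u : X d, CGV0_F d k (1 / 16) u * Real.cos ⟪u, a⟫ =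
      (4 * Real.pi) ^ ((d : ℝ) / 2) * (‖a‖ ^ (2 * k) * Real.exp (-(‖a‖ ^ 2 / 16))) := by
    intro a
    rw [CGV0_four d k a _ hs]
    have h1 : 1 / 16 * ‖a‖ ^ 2 = ‖a‖ ^ 2 / 16 := by ring
    rw [h1]
  refine ⟨CGV0_F d k (1 / 16), C, (4 * Real.pi) ^ ((d : ℝ) / 2), by positivity, CGV0_cont k _,
    CGV0_neg k _, fun u => ?_, hcos, fun a => ?_⟩
  · refine (hb _ le_rfl u).trans (le_of_eq ?_)
    unfold ga
    have h1 : ‖u‖ ^ 2 / (4 * (1 / 16)) = 4 * ‖u‖ ^ 2 := by ring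
    rw [h1]
  · have key := hasDerivAt_integral_of_dominated_loc_of_deriv_le (μ := (volume : Measure (X d)))
      (F := fun (t : ℝ) (u : X d) => CGV0_F d k (1 / 16) u * Real.cos (t * ⟪u, a⟫))
      (F' := fun (t : ℝ) (u : X d) =>
        CGV0_F d k (1 / 16) u * (-Real.sin (t * ⟪u, a⟫) * (1 * ⟪u, a⟫)))
      (x₀ := (1 : ℝ)) (s := univ)
      (bound := fun u : X d => ‖a‖ * ‖(1 + ‖u‖) ^ 1 * CGV0_F d k (1 / 16) u‖) univ_mem
      (Eventually.of_forall fun t => by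
        have := CGV0_cont (d := d) k (1 / 16)
        exact Continuous.aestronglyMeasurable (by fun_prop))
      (by
        have h1 := CGV0_intg d k 0 hs
        simp only [pow_zero, one_mul] at h1
        refine h1.norm.mono' ?_ (Eventually.of_forall fun u => ?_)
        · have := CGV0_cont (d := d) k (1 / 16)
          exact Continuous.aestronglyMeasurable (by fun_prop)
        · rw [norm_mul]
          exact mul_le_of_le_one_right (norm_nonneg _) (Real.abs_cos_le_one _))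
      (by
        have := CGV0_cont (d := d) k (1 / 16)
        exact Continuous.aestronglyMeasurable (by fun_prop))
      (Eventually.of_forall fun u t _ => by
        rw [norm_mul, norm_mul, norm_neg, one_mul, norm_mul, pow_one]
        have h1 : ‖Real.sin (t * ⟪u, a⟫)‖ ≤ 1 := Real.abs_sin_le_one _
        have h2 : ‖(⟪u, a⟫ : ℝ)‖ ≤ ‖u‖ * ‖a‖ := norm_inner_le_norm u a
        have h3 : ‖(1 + ‖u‖ : ℝ)‖ = 1 + ‖u‖ := Real.norm_of_nonneg (by positivity)
        rw [h3]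
        have h4 : ‖Real.sin (t * ⟪u, a⟫)‖ * ‖(⟪u, a⟫ : ℝ)‖ ≤ 1 * ((1 + ‖u‖) * ‖a‖) := by
          refine mul_le_mul h1 (h2.trans ?_) (norm_nonneg _) zero_le_one
          exact mul_le_mul_of_nonneg_right (by linarith) (norm_nonneg _)
        calc ‖CGV0_F d k (1 / 16) u‖ * (‖Real.sin (t * ⟪u, a⟫)‖ * ‖(⟪u, a⟫ : ℝ)‖)
            ≤ ‖CGV0_F d k (1 / 16) u‖ * (1 * ((1 + ‖u‖) * ‖a‖)) :=
              mul_le_mul_of_nonneg_left h4 (norm_nonneg _)
          _ = ‖a‖ * ((1 + ‖u‖) * ‖CGV0_F d k (1 / 16) u‖) := by ring)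
      ((CGV0_intg d k 1 hs).norm.const_mul ‖a‖)
      (Eventually.of_forall fun u t _ => by
        exact (((hasDerivAt_id t).mul_const (⟪u, a⟫ : ℝ)).cos).const_mul _)
    have h1 := key.2
    have h2 : (fun t : ℝ => ∫ u : X d, CGV0_F d k (1 / 16) u * Real.cos (t * ⟪u, a⟫)) =
        fun t : ℝ => (4 * Real.pi) ^ ((d : ℝ) / 2) *
          ((t ^ (2 * k) * ‖a‖ ^ (2 * k)) * Real.exp (-(t ^ 2 * (‖a‖ ^ 2 / 16)))) := by
      funext t
      have h3 := hcos (t • a)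
      have h4 : ∀ u : X d, ⟪u, t • a⟫ = t * ⟪u, a⟫ := fun u => real_inner_smul_right _ _ _
      simp only [h4] at h3
      rw [h3, norm_smul, Real.norm_eq_abs, mul_pow, mul_pow, sq_abs, pow_mul |t|, sq_abs, ← pow_mul]
      congr 3
      ring
    rw [h2] at h1
    have h3 : HasDerivAt (fun t : ℝ => (4 * Real.pi) ^ ((d : ℝ) / 2) *
          ((t ^ (2 * k) * ‖a‖ ^ (2 * k)) * Real.exp (-(t ^ 2 * (‖a‖ ^ 2 / 16)))))
        ((4 * Real.pi) ^ ((d : ℝ) / 2) *
          ((((2 * k : ℕ) : ℝ) * 1 ^ (2 * k - 1) * ‖a‖ ^ (2 * k)) *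
            Real.exp (-(1 ^ 2 * (‖a‖ ^ 2 / 16))) +
          (1 ^ (2 * k) * ‖a‖ ^ (2 * k)) * (Real.exp (-(1 ^ 2 * (‖a‖ ^ 2 / 16))) *
            (-((((2 : ℕ) : ℝ) * 1 ^ (2 - 1)) * (‖a‖ ^ 2 / 16)))))) 1 := by
      have h4 := (hasDerivAt_pow (2 * k) (1 : ℝ)).mul_const (‖a‖ ^ (2 * k))
      have h5 := (((hasDerivAt_pow 2 (1 : ℝ)).mul_const (‖a‖ ^ 2 / 16)).neg).exp
      exact (h4.mul h5).const_mul _
    have h4 := h1.unique h3
    have h5 : ∫ u : X d, CGV0_F d k (1 / 16) u * (-Real.sin (1 * ⟪u, a⟫) * (1 * ⟪u, a⟫)) =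
        -∫ u : X d, CGV0_F d k (1 / 16) u * (⟪u, a⟫ * Real.sin ⟪u, a⟫) := by
      rw [← integral_neg]
      refine integral_congr_ae (Eventually.of_forall fun u => ?_)
      simp only [one_mul]
      ring
    rw [h5] at h4
    simp only [one_pow, one_mul, mul_one] at h4
    push_cast at h4
    linarith

end Pool.Agent.H1.CG
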